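import Pool.Agent.LibHP3.QuadDef
import Pool.Agent.LibHP2.Defs

set_option autoImplicit false
open Polynomial

namespace Pool.Agent.LibHP

/-! ### The quartic polynomial with given coefficients and the map `P ↦ 2 H - 3 P` -/

section Quartic
variable {R : Type} [CommRing R]

/-- The value at `x` of the quartic polynomial with coefficients `a`. -/
def qT0 (a : Fin 5 → R) (x : R) : R := a 0 + a 1 * x + a 2 * x ^ 2 + a 3 * x ^ 3 + a 4 * x ^ 4

/-- The first Taylor coefficient at `x`. -/
def qT1 (a : Fin 5 → R) (x : R) : R := a 1 + 2 * a 2 * x + 3 * a 3 * x ^ 2 + 4 * a 4 * x ^ 3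

/-- The second Taylor coefficient at `x`. -/
def qT2 (a : Fin 5 → R) (x : R) : R := a 2 + 3 * a 3 * x + 6 * a 4 * x ^ 2

/-- The third Taylor coefficient at `x`. -/
def qT3 (a : Fin 5 → R) (x : R) : R := a 3 + 4 * a 4 * x

def qH (a : Fin 5 → R) (x : R) : R := 4 * qT0 a x * qT2 a x - qT1 a x ^ 2

def qG (a : Fin 5 → R) (x : R) : R := 8 * qT3 a x * qT0 a x ^ 2 - qT1 a x * qH a x

def qD (a : Fin 5 → R) (x : R) : R := qH a x ^ 2 - 64 * a 4 * qT0 a x ^ 3

def qN (a : Fin 5 → R) (x : R) : R := x * qD a x + 8 * qT0 a x * qG a x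

def qR (a : Fin 5 → R) (x : R) : R :=
  qD a x ^ 2 + 4 * qT1 a x * qG a x * qD a x + 8 * qH a x * qG a x ^ 2

/-- The discriminant of the quartic (up to a constant factor). -/
def qDisc (a : Fin 5 → R) : R :=
  4 * (12 * a 4 * a 0 - 3 * a 3 * a 1 + a 2 ^ 2) ^ 3 -
    (72 * a 4 * a 2 * a 0 + 9 * a 3 * a 2 * a 1 - 27 * a 4 * a 1 ^ 2 - 27 * a 0 * a 3 ^ 2 -
      2 * a 2 ^ 3) ^ 2

/-- The coefficients of the quartic in the coordinate `1 / (x - c)`. -/
def qInv (a : Fin 5 → R) (c : R) : Fin 5 → R := ![a 4, qT3 a c, qT2 a c, qT1 a c, qT0 a c]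

end Quartic

/-- The quartic as a polynomial. -/
noncomputable def qPoly {B : Type} [CommRing B] (a : Fin 5 → B) : B[X] :=
  qT0 (fun i => C (a i)) X

/-- `K = B(x, w)` is the function field of the genus one curve `w ^ 2 = a_0 + ... + a_4 x ^ 4`. -/
structure ECurve (B K : Type) [Field B] [Field K] [Algebra B K] (a : Fin 5 → B) (x w : K) :
    Prop where
  tr : Transcendental B x
  eq : w ^ 2 = qT0 (fun i => algebraMap B K (a i)) x
  gen : IntermediateField.adjoin B {x, w} = ⊤
  disc : qDisc a ≠ 0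

/-- `D` is the endomorphism `P ↦ 2 H - 3 P` of the genus one curve. -/
structure EMove (B K : Type) [Field B] [Field K] [Algebra B K] (a : Fin 5 → B) (x w : K)
    (D : K →ₐ[B] K) : Prop extends ECurve B K a x w where
  d1 : D x * qD (fun i => algebraMap B K (a i)) x = qN (fun i => algebraMap B K (a i)) x
  d2 : D w * qD (fun i => algebraMap B K (a i)) x ^ 2 = qR (fun i => algebraMap B K (a i)) x * w

/-- `f`-algebraic elements: the roots of the nonzero polynomials over `M`, for a homomorphism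
`f : M → L`. -/
def AlgVia {M L : Type} [Field M] [Field L] (f : M →+* L) (z : L) : Prop :=
  ∃ P : M[X], P ≠ 0 ∧ P.eval₂ f z = 0

/-- `K` is the function field of a nondegenerate quadric of positive dimension over `M`. -/
def HasQuad (M K : Type) [Field M] [Field K] [Algebra M K] : Prop :=
  ∃ (n : ℕ) (_ : 2 ≤ n) (B : Matrix (Fin (n + 1)) (Fin (n + 1)) M) (y : Fin n → K),
    B.IsSymm ∧ B.det ≠ 0 ∧ IsGenericQuad B y

end Pool.Agent.LibHP
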