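import Mathlib

set_option autoImplicit false

namespace Pool.Agent.LibHP

/-! Valuations of `V.comap f` in terms of those of `V`. -/

theorem E0_le {K L : Type} [Field K] [Field L] (V : ValuationSubring L) (f : K →+* L)
    (z z' : K) : (V.comap f).valuation z ≤ (V.comap f).valuation z' ↔
      V.valuation (f z) ≤ V.valuation (f z') := by
  rcases eq_or_ne z' 0 with rfl | hz'
  · simp only [map_zero, le_zero_iff, map_eq_zero]
  · have h1 : 0 < (V.comap f).valuation z' := zero_lt_iff.2 ((Valuation.ne_zero_iff _).2 hz')
    have h2 : 0 < V.valuation (f z') :=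
      zero_lt_iff.2 ((Valuation.ne_zero_iff _).2 ((map_ne_zero f).2 hz'))
    rw [← div_le_one₀ h1, ← div_le_one₀ h2, ← map_div₀, ← map_div₀, ← map_div₀,
      ValuationSubring.valuation_le_one_iff, ValuationSubring.valuation_le_one_iff,
      ValuationSubring.mem_comap]

theorem comap_val_lt_one {K L : Type} [Field K] [Field L] (V : ValuationSubring L) (f : K →+* L)
    (z : K) : (V.comap f).valuation z < 1 ↔ V.valuation (f z) < 1 := by
  have h := E0_le V f 1 z
  rw [map_one, map_one, map_one] at h
  rw [← not_le, ← not_le, h]

theorem comap_val_le {K L : Type} [Field K] [Field L] (V : ValuationSubring L) (f : K →+* L)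
    (z z' : K) : (V.comap f).valuation z ≤ (V.comap f).valuation z' ↔
      V.valuation (f z) ≤ V.valuation (f z') :=
  E0_le V f z z'

theorem comap_val_eq {K L : Type} [Field K] [Field L] (V : ValuationSubring L) (f : K →+* L)
    (z z' : K) : (V.comap f).valuation z = (V.comap f).valuation z' ↔
      V.valuation (f z) = V.valuation (f z') := by
  rw [le_antisymm_iff, le_antisymm_iff, E0_le, E0_le]

end Pool.Agent.LibHP
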