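import Pool.Agent.LibHP3.Defs

set_option autoImplicit false
open Polynomial

namespace Pool.Agent.LibHP

section E1
variable {R : Type} [CommRing R]

theorem qT0_add (a : Fin 5 → R) (x y : R) :
    qT0 a (x + y) = qT0 a x + qT1 a x * y + qT2 a x * y ^ 2 + qT3 a x * y ^ 3 + a 4 * y ^ 4 := by
  simp only [qT0, qT1, qT2, qT3]
  ring

/-- Homogeneous form of the Taylor formula. -/
theorem qT0_hom (a : Fin 5 → R) (x M D : R) :
    a 0 * D ^ 4 + a 1 * (x * D + M) * D ^ 3 + a 2 * (x * D + M) ^ 2 * D ^ 2 +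
      a 3 * (x * D + M) ^ 3 * D + a 4 * (x * D + M) ^ 4 =
    qT0 a x * D ^ 4 + qT1 a x * M * D ^ 3 + qT2 a x * M ^ 2 * D ^ 2 + qT3 a x * M ^ 3 * D +
      a 4 * M ^ 4 := by
  simp only [qT0, qT1, qT2, qT3]
  ring

theorem q_ident_aux (c0 c1 c2 c3 c4 H G D : R) (hH : H = 4 * c0 * c2 - c1 ^ 2)
    (hG : G = 8 * c3 * c0 ^ 2 - c1 * H) (hD : D = H ^ 2 - 64 * c4 * c0 ^ 3) :
    (D ^ 2 + 4 * c1 * G * D + 8 * H * G ^ 2) ^ 2 * c0 =
      c0 * D ^ 4 + c1 * (8 * c0 * G) * D ^ 3 + c2 * (8 * c0 * G) ^ 2 * D ^ 2 +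
        c3 * (8 * c0 * G) ^ 3 * D + c4 * (8 * c0 * G) ^ 4 := by
  have e1 : 16 * c1 ^ 2 + 16 * H = 64 * c0 * c2 := by rw [hH]; ring
  have e2 : 64 * (8 * c0 ^ 2 * c3 - c1 * H) = 64 * G := by rw [hG]; ring
  have e3 : 4096 * c0 ^ 3 * c4 - 64 * H ^ 2 = - 64 * D := by rw [hD]; ring
  linear_combination (c0 * G ^ 2 * D ^ 2) * e1 - c0 * G ^ 3 * D * e2 - c0 * G ^ 4 * e3

/-- `R ^ 2 q(x) = D ^ 4 q(N / D)`. -/
theorem q_ident (a : Fin 5 → R) (x : R) :
    qR a x ^ 2 * qT0 a x = a 0 * qD a x ^ 4 + a 1 * qN a x * qD a x ^ 3 +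
      a 2 * qN a x ^ 2 * qD a x ^ 2 + a 3 * qN a x ^ 3 * qD a x + a 4 * qN a x ^ 4 := by
  rw [show qN a x = x * qD a x + 8 * qT0 a x * qG a x from rfl, qT0_hom]
  exact q_ident_aux _ _ _ _ _ _ _ _ rfl rfl rfl

theorem q_map {S : Type} [CommRing S] (f : R →+* S) (a : Fin 5 → R) (x : R) :
    f (qT0 a x) = qT0 (fun i => f (a i)) (f x) ∧ f (qD a x) = qD (fun i => f (a i)) (f x) ∧
    f (qN a x) = qN (fun i => f (a i)) (f x) ∧ f (qR a x) = qR (fun i => f (a i)) (f x) ∧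
    f (qDisc a) = qDisc (fun i => f (a i)) := by
  refine ⟨?_, ?_, ?_, ?_, ?_⟩ <;>
    simp only [qT0, qT1, qT2, qT3, qH, qG, qD, qN, qR, qDisc, map_add, map_sub, map_mul, map_pow,
      map_ofNat]

theorem q_deriv_aux (c0 c1 c2 c3 c4 c0' c1' c2' c3' H G D H' G' D' : R)
    (hH : H = 4 * c0 * c2 - c1 ^ 2)
    (hG : G = 8 * c3 * c0 ^ 2 - c1 * H) (hD : D = H ^ 2 - 64 * c4 * c0 ^ 3)
    (h0 : c0' = c1) (h1 : c1' = 2 * c2) (h2 : c2' = 3 * c3) (h3 : c3' = 4 * c4)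
    (hH' : H' = 4 * c0' * c2 + 4 * c0 * c2' - 2 * c1 * c1')
    (hG' : G' = 8 * c3' * c0 ^ 2 + 8 * c3 * (2 * c0 * c0') - (c1' * H + c1 * H'))
    (hD' : D' = 2 * H * H' - 64 * c4 * (3 * c0 ^ 2 * c0')) :
    D ^ 2 + 5 * c1 * G * D + 6 * H * G ^ 2 + 2 * c0 * (G' * D - G * D') = 0 := by
  subst h0 h1 h2 h3
  have e1 : 2 * c0 * G' = - D + c0' * G := by
    rw [hG', hD, hG, hH', hH]; ring
  have e2 : c0 * D' = 3 * c0' * D + 3 * H * G := by
    rw [hD', hD, hG, hH', hH]; ring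
  linear_combination D * e1 - 2 * G * e2

/-- The derivative of `N / D` is `-3 R / D ^ 2`. -/
theorem q_deriv (a : Fin 5 → R) :
    derivative (qN (fun i => C (a i)) X) * qD (fun i => C (a i)) X -
      qN (fun i => C (a i)) X * derivative (qD (fun i => C (a i)) X) =
      - 3 * qR (fun i => C (a i)) X := by
  set A : Fin 5 → R[X] := fun i => C (a i) with hA
  have hA' : ∀ i, derivative (A i) = 0 := fun i => derivative_C
  have hn : ∀ (n : ℕ) [n.AtLeastTwo], derivative (OfNat.ofNat n : R[X]) = 0 := fun n _ =>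
    derivative_ofNat n
  have d0 : derivative (qT0 A X) = qT1 A X := by
    simp only [qT0, qT1, derivative_add, derivative_mul, hA', derivative_X, derivative_X_pow,
      zero_mul, zero_add, mul_one, hn, map_ofNat, Nat.cast_ofNat]
    ring
  have d1 : derivative (qT1 A X) = 2 * qT2 A X := by
    simp only [qT1, qT2, derivative_add, derivative_mul, hA', derivative_X, derivative_X_pow,
      zero_mul, zero_add, mul_one, hn, map_ofNat, Nat.cast_ofNat]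
    ring
  have d2 : derivative (qT2 A X) = 3 * qT3 A X := by
    simp only [qT2, qT3, derivative_add, derivative_mul, hA', derivative_X, derivative_X_pow,
      zero_mul, zero_add, mul_one, hn, map_ofNat, Nat.cast_ofNat]
    ring
  have d3 : derivative (qT3 A X) = 4 * A 4 := by
    simp only [qT3, derivative_add, derivative_mul, hA', derivative_X, derivative_X_pow,
      zero_mul, zero_add, mul_one, hn, map_ofNat, Nat.cast_ofNat]
    ring
  have dH : derivative (qH A X) = 4 * derivative (qT0 A X) * qT2 A X +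
      4 * qT0 A X * derivative (qT2 A X) - 2 * qT1 A X * derivative (qT1 A X) := by
    simp only [qH, derivative_sub, derivative_mul, derivative_pow, hn, Nat.cast_ofNat, map_ofNat]
    ring
  have dG : derivative (qG A X) = 8 * derivative (qT3 A X) * qT0 A X ^ 2 +
      8 * qT3 A X * (2 * qT0 A X * derivative (qT0 A X)) -
      (derivative (qT1 A X) * qH A X + qT1 A X * derivative (qH A X)) := by
    simp only [qG, derivative_sub, derivative_mul, derivative_pow, hn, Nat.cast_ofNat, map_ofNat]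
    ring
  have dD : derivative (qD A X) = 2 * qH A X * derivative (qH A X) -
      64 * A 4 * (3 * qT0 A X ^ 2 * derivative (qT0 A X)) := by
    simp only [qD, derivative_sub, derivative_mul, derivative_pow, hn, hA', Nat.cast_ofNat,
      map_ofNat]
    ring
  have dN : derivative (qN A X) = qD A X + X * derivative (qD A X) +
      8 * (derivative (qT0 A X) * qG A X + qT0 A X * derivative (qG A X)) := by
    simp only [qN, derivative_add, derivative_mul, derivative_X, hn]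
    ring
  have key := q_deriv_aux (qT0 A X) (qT1 A X) (qT2 A X) (qT3 A X) (A 4) _ _ _ _ (qH A X)
    (qG A X) (qD A X) _ _ _ rfl rfl rfl d0 d1 d2 d3 dH dG dD
  rw [dN, show qN A X = X * qD A X + 8 * qT0 A X * qG A X from rfl,
    show qR A X = qD A X ^ 2 + 4 * qT1 A X * qG A X * qD A X + 8 * qH A X * qG A X ^ 2 from rfl, d0]
  linear_combination 4 * key

end E1

section E1Field
variable {F : Type} [Field F]

/-- The covariance of the construction for `x ↦ 1 / (x - c)`. -/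
theorem q_inv (a : Fin 5 → F) (c x : F) (hx : x - c ≠ 0) :
    qT0 (qInv a c) (x - c)⁻¹ * (x - c) ^ 4 = qT0 a x ∧
    qN (qInv a c) (x - c)⁻¹ * (x - c) ^ 9 = qD a x ∧
    qD (qInv a c) (x - c)⁻¹ * (x - c) ^ 9 = qN a x - c * qD a x ∧
    qR (qInv a c) (x - c)⁻¹ * (x - c) ^ 16 = qR a x := by
  set y := x - c with hy
  have hxy : x = c + y := by rw [hy]; ring
  have hz : y⁻¹ * y = 1 := inv_mul_cancel₀ hx
  have t0 : qT0 a x = qT0 a c + qT1 a c * y + qT2 a c * y ^ 2 + qT3 a c * y ^ 3 + a 4 * y ^ 4 := by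
    rw [hxy]
    exact qT0_add a c y
  have t1 : qT1 a x = qT1 a c + 2 * qT2 a c * y + 3 * qT3 a c * y ^ 2 + 4 * a 4 * y ^ 3 := by
    rw [hxy]
    simp only [qT1, qT2, qT3]
    ring
  have t2 : qT2 a x = qT2 a c + 3 * qT3 a c * y + 6 * a 4 * y ^ 2 := by
    rw [hxy]
    simp only [qT2, qT3]
    ring
  have t3 : qT3 a x = qT3 a c + 4 * a 4 * y := by
    rw [hxy]
    simp only [qT3]
    ring
  have e0 : qT0 (qInv a c) y⁻¹ * y ^ 4 = qT0 a x := by
    have h : qT0 (qInv a c) y⁻¹ = a 4 + qT3 a c * y⁻¹ + qT2 a c * y⁻¹ ^ 2 + qT1 a c * y⁻¹ ^ 3 +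
      qT0 a c * y⁻¹ ^ 4 := rfl
    rw [h, t0]
    field_simp
    ring
  have e1 : qT1 (qInv a c) y⁻¹ * y ^ 3 = 4 * qT0 a x - y * qT1 a x := by
    have h : qT1 (qInv a c) y⁻¹ = qT3 a c + 2 * qT2 a c * y⁻¹ + 3 * qT1 a c * y⁻¹ ^ 2 +
      4 * qT0 a c * y⁻¹ ^ 3 := rfl
    rw [h, t0, t1]
    field_simp
    ring
  have e2 : qT2 (qInv a c) y⁻¹ * y ^ 2 = 6 * qT0 a x - 3 * y * qT1 a x + y ^ 2 * qT2 a x := by
    have h : qT2 (qInv a c) y⁻¹ = qT2 a c + 3 * qT1 a c * y⁻¹ + 6 * qT0 a c * y⁻¹ ^ 2 := rfl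
    rw [h, t0, t1, t2]
    field_simp
    ring
  have e3 : qT3 (qInv a c) y⁻¹ * y = 4 * qT0 a x - 3 * y * qT1 a x + 2 * y ^ 2 * qT2 a x -
      y ^ 3 * qT3 a x := by
    have h : qT3 (qInv a c) y⁻¹ = qT1 a c + 4 * qT0 a c * y⁻¹ := rfl
    rw [h, t0, t1, t2, t3]
    field_simp
    ring
  have e4 : qInv a c 4 = qT0 a x - y * qT1 a x + y ^ 2 * qT2 a x - y ^ 3 * qT3 a x +
      y ^ 4 * a 4 := by
    have h : qInv a c 4 = qT0 a c := rfl
    rw [h, t0, t1, t2, t3]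
    ring
  set C0 := qT0 (qInv a c) y⁻¹
  set C1 := qT1 (qInv a c) y⁻¹
  set C2 := qT2 (qInv a c) y⁻¹
  set C3 := qT3 (qInv a c) y⁻¹
  have fH : qH (qInv a c) y⁻¹ * y ^ 6 = 8 * qT0 a x ^ 2 - 4 * y * qT0 a x * qT1 a x +
      y ^ 2 * qH a x := by
    have h : qH (qInv a c) y⁻¹ * y ^ 6 = 4 * (C0 * y ^ 4) * (C2 * y ^ 2) - (C1 * y ^ 3) ^ 2 := by
      change (4 * C0 * C2 - C1 ^ 2) * y ^ 6 = _
      ring
    rw [h, e0, e1, e2]
    simp only [qH]
    ring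
  have fG : qG (qInv a c) y⁻¹ * y ^ 6 = - qG a x := by
    have h : qG (qInv a c) y⁻¹ * y ^ 9 = 8 * (C3 * y) * (C0 * y ^ 4) ^ 2 -
        (C1 * y ^ 3) * (qH (qInv a c) y⁻¹ * y ^ 6) := by
      change (8 * C3 * C0 ^ 2 - C1 * qH (qInv a c) y⁻¹) * y ^ 9 = _
      ring
    rw [e3, e0, e1, fH] at h
    apply mul_right_cancel₀ (pow_ne_zero 3 hx)
    have h2 : qG a x = 8 * qT3 a x * qT0 a x ^ 2 - qT1 a x * qH a x := rfl
    have h3 : qH a x = 4 * qT0 a x * qT2 a x - qT1 a x ^ 2 := rfl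
    have h4 : qG (qInv a c) y⁻¹ * y ^ 6 * y ^ 3 = qG (qInv a c) y⁻¹ * y ^ 9 := by ring
    rw [h4, h, h2, h3]
    ring
  have fD : qD (qInv a c) y⁻¹ * y ^ 9 = qN a x - c * qD a x := by
    have h : qD (qInv a c) y⁻¹ * y ^ 12 = (qH (qInv a c) y⁻¹ * y ^ 6) ^ 2 -
        64 * qInv a c 4 * (C0 * y ^ 4) ^ 3 := by
      change (qH (qInv a c) y⁻¹ ^ 2 - 64 * qInv a c 4 * C0 ^ 3) * y ^ 12 = _
      ring
    rw [e4, e0, fH] at h
    apply mul_right_cancel₀ (pow_ne_zero 3 hx)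
    have h2 : qN a x - c * qD a x = y * qD a x + 8 * qT0 a x * qG a x := by
      rw [hy]
      simp only [qN]
      ring
    have h3 : qH a x = 4 * qT0 a x * qT2 a x - qT1 a x ^ 2 := rfl
    have h4 : qD (qInv a c) y⁻¹ * y ^ 9 * y ^ 3 = qD (qInv a c) y⁻¹ * y ^ 12 := by ring
    have h5 : qD a x = qH a x ^ 2 - 64 * a 4 * qT0 a x ^ 3 := rfl
    have h6 : qG a x = 8 * qT3 a x * qT0 a x ^ 2 - qT1 a x * qH a x := rfl
    rw [h4, h, h2, h5, h6, h3]
    ring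
  have fN : qN (qInv a c) y⁻¹ * y ^ 9 = qD a x := by
    have h : qN (qInv a c) y⁻¹ * y ^ 10 = qD (qInv a c) y⁻¹ * y ^ 9 +
        8 * (C0 * y ^ 4) * (qG (qInv a c) y⁻¹ * y ^ 6) := by
      change (y⁻¹ * qD (qInv a c) y⁻¹ + 8 * C0 * qG (qInv a c) y⁻¹) * y ^ 10 = _
      linear_combination (qD (qInv a c) y⁻¹ * y ^ 9) * hz
    rw [fD, e0, fG] at h
    apply mul_right_cancel₀ hx
    have h4 : qN (qInv a c) y⁻¹ * y ^ 9 * y = qN (qInv a c) y⁻¹ * y ^ 10 := by ring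
    rw [h4, h, hy]
    simp only [qN]
    ring
  refine ⟨e0, fN, fD, ?_⟩
  have h : qR (qInv a c) y⁻¹ * y ^ 18 = (qD (qInv a c) y⁻¹ * y ^ 9) ^ 2 +
      4 * (C1 * y ^ 3) * (qG (qInv a c) y⁻¹ * y ^ 6) * (qD (qInv a c) y⁻¹ * y ^ 9) +
      8 * (qH (qInv a c) y⁻¹ * y ^ 6) * (qG (qInv a c) y⁻¹ * y ^ 6) ^ 2 := by
    change (qD (qInv a c) y⁻¹ ^ 2 + 4 * C1 * qG (qInv a c) y⁻¹ * qD (qInv a c) y⁻¹ +
      8 * qH (qInv a c) y⁻¹ * qG (qInv a c) y⁻¹ ^ 2) * y ^ 18 = _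
    ring
  rw [fD, e1, fG, fH] at h
  apply mul_right_cancel₀ (pow_ne_zero 2 hx)
  have h4 : qR (qInv a c) y⁻¹ * y ^ 16 * y ^ 2 = qR (qInv a c) y⁻¹ * y ^ 18 := by ring
  have h2 : qN a x - c * qD a x = y * qD a x + 8 * qT0 a x * qG a x := by
    rw [hy]
    simp only [qN]
    ring
  rw [h4, h, h2]
  simp only [qR]
  ring

theorem qDisc_taylor (a : Fin 5 → F) (c : F) :
    qDisc ![qT0 a c, qT1 a c, qT2 a c, qT3 a c, a 4] = qDisc a := by
  simp only [qDisc, qT0, qT1, qT2, qT3, Matrix.cons_val_zero, Matrix.cons_val_one,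
    Matrix.cons_val]
  ring

theorem qDisc_inv (a : Fin 5 → F) (c : F) : qDisc (qInv a c) = qDisc a := by
  rw [← qDisc_taylor a c]
  simp only [qInv, qDisc, Matrix.cons_val_zero, Matrix.cons_val_one,
    Matrix.cons_val]
  ring

/-- `N` and `D` have no common zero. -/
theorem q_coprime [CharZero F] (a : Fin 5 → F) (ha : qDisc a ≠ 0) (x : F) (h1 : qD a x = 0)
    (h2 : qN a x = 0) : False := by
  apply ha
  rw [← qDisc_taylor a x]
  have h3 : 8 * qT0 a x * qG a x = 0 := by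
    have h4 : qN a x = x * qD a x + 8 * qT0 a x * qG a x := rfl
    rw [h2, h1] at h4
    linear_combination - h4
  have hD : qH a x ^ 2 - 64 * a 4 * qT0 a x ^ 3 = 0 := h1
  have hH : qH a x = 4 * qT0 a x * qT2 a x - qT1 a x ^ 2 := rfl
  have hG : qG a x = 8 * qT3 a x * qT0 a x ^ 2 - qT1 a x * qH a x := rfl
  simp only [qDisc, Matrix.cons_val_zero, Matrix.cons_val_one, Matrix.cons_val]
  generalize qT0 a x = c0 at *
  generalize qT1 a x = c1 at *
  generalize qT2 a x = c2 at *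
  generalize qT3 a x = c3 at *
  generalize qH a x = H at *
  generalize qG a x = G at *
  generalize a 4 = c4 at *
  by_cases h0 : c0 = 0
  · subst h0
    have h4 : c1 = 0 := by
      have h5 : c1 ^ 4 = 0 := by
        rw [hH] at hD
        linear_combination hD
      exact pow_eq_zero_iff (by norm_num) |>.1 h5
    subst h4
    ring
  · have hG0 : G = 0 := by
      rcases mul_eq_zero.1 h3 with h | h
      · exfalso
        rcases mul_eq_zero.1 h with h | h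
        · norm_num at h
        · exact h0 h
      · exact h
    rw [hG0] at hG
    have k1 : 16 * c0 ^ 2 * (12 * c4 * c0 - 3 * c3 * c1 + c2 ^ 2) = (2 * H - c1 ^ 2) ^ 2 := by
      have e1 : 64 * c4 * c0 ^ 3 = H ^ 2 := by linear_combination - hD
      have e2 : 8 * c3 * c0 ^ 2 = c1 * H := by linear_combination - hG
      have e3 : 4 * c0 * c2 = H + c1 ^ 2 := by linear_combination - hH
      linear_combination 3 * e1 - 6 * c1 * e2 + (4 * c0 * c2 + (H + c1 ^ 2)) * e3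
    have k2 : 64 * c0 ^ 3 * (72 * c4 * c2 * c0 + 9 * c3 * c2 * c1 - 27 * c4 * c1 ^ 2 -
        27 * c0 * c3 ^ 2 - 2 * c2 ^ 3) = 2 * (2 * H - c1 ^ 2) ^ 3 := by
      have e1 : 64 * c4 * c0 ^ 3 = H ^ 2 := by linear_combination - hD
      have e2 : 8 * c3 * c0 ^ 2 = c1 * H := by linear_combination - hG
      have e3 : 4 * c0 * c2 = H + c1 ^ 2 := by linear_combination - hH
      have f1 : 64 * c0 ^ 3 * (72 * c4 * c2 * c0) = 18 * H ^ 2 * (H + c1 ^ 2) := by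
        rw [← e1, ← e3]; ring
      have f2 : 64 * c0 ^ 3 * (9 * c3 * c2 * c1) = 18 * c1 * (c1 * H) * (H + c1 ^ 2) := by
        rw [← e2, ← e3]; ring
      have f3 : 64 * c0 ^ 3 * (27 * c4 * c1 ^ 2) = 27 * c1 ^ 2 * H ^ 2 := by
        rw [← e1]; ring
      have f4 : 64 * c0 ^ 3 * (27 * c0 * c3 ^ 2) = 27 * (c1 * H) ^ 2 := by
        rw [← e2]; ring
      have f5 : 64 * c0 ^ 3 * (2 * c2 ^ 3) = 2 * (H + c1 ^ 2) ^ 3 := by
        rw [← e3]; ring
      linear_combination f1 + f2 - f3 - f4 - f5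
    have k3 : (4096 * c0 ^ 6) * (4 * (12 * c4 * c0 - 3 * c3 * c1 + c2 ^ 2) ^ 3 -
        (72 * c4 * c2 * c0 + 9 * c3 * c2 * c1 - 27 * c4 * c1 ^ 2 -
        27 * c0 * c3 ^ 2 - 2 * c2 ^ 3) ^ 2) = 0 := by
      have e1 := congrArg (fun z : F => z ^ 3) k1
      have e2 := congrArg (fun z : F => z ^ 2) k2
      beta_reduce at e1 e2
      linear_combination 4 * e1 - e2
    have h9 : (4096 * c0 ^ 6 : F) ≠ 0 := mul_ne_zero (by norm_num) (pow_ne_zero 6 h0)
    exact (mul_eq_zero.1 k3).resolve_left h9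

end E1Field

end Pool.Agent.LibHP
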