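import Pool.Agent.LibHP3.E1

set_option autoImplicit false
open Polynomial

namespace Pool.Agent.LibHP

section E2
variable {B : Type} [Field B]

theorem E2_deriv (a : Fin 5 → B) : derivative (qPoly a) = qT1 (fun i => C (a i)) X := by
  unfold qPoly
  simp only [qT0, qT1, derivative_add, derivative_mul, derivative_C, derivative_X, derivative_X_pow,
      zero_mul, zero_add, mul_one, map_ofNat, Nat.cast_ofNat]
  ring

theorem E2_map {L : Type} [Field L] [Algebra B L] (a : Fin 5 → B) (e : L) :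
    aeval e (qPoly a) = qT0 (fun i => algebraMap B L (a i)) e ∧
    aeval e (qD (fun i => C (a i)) X : B[X]) = qD (fun i => algebraMap B L (a i)) e ∧
    aeval e (qN (fun i => C (a i)) X : B[X]) = qN (fun i => algebraMap B L (a i)) e ∧
    aeval e (qR (fun i => C (a i)) X : B[X]) = qR (fun i => algebraMap B L (a i)) e := by
  obtain ⟨h0, h1, h2, h3, -⟩ := q_map (aeval e : B[X] →ₐ[B] L).toRingHom (fun i => C (a i)) X
  have h4 : (fun i => (aeval e : B[X] →ₐ[B] L).toRingHom (C (a i))) =
      fun i => algebraMap B L (a i) := by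
    funext i
    exact aeval_C e (a i)
  have h5 : (aeval e : B[X] →ₐ[B] L).toRingHom X = e := aeval_X e
  rw [h4, h5] at h0 h1 h2 h3
  exact ⟨h0, h1, h2, h3⟩

theorem E2_disc_zero {F : Type} [Field F] (a : Fin 5 → F) (x : F) (h0 : qT0 a x = 0)
    (h1 : qT1 a x = 0) : qDisc a = 0 := by
  rw [← qDisc_taylor a x, h0, h1]
  simp only [qDisc, Matrix.cons_val_zero, Matrix.cons_val_one, Matrix.cons_val]
  ring

theorem E2_degree [CharZero B] (a : Fin 5 → B) (ha : qDisc a ≠ 0) : (qPoly a).degree ≠ 0 := by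
  intro h
  have h0 : (qPoly a).natDegree = 0 := natDegree_eq_of_degree_eq_some h
  have hc : ∀ n, 1 ≤ n → (qPoly a).coeff n = 0 := fun n hn =>
    coeff_eq_zero_of_natDegree_lt (by omega)
  have h1 : a 1 = 0 := by
    have := hc 1 le_rfl
    simpa [qPoly, qT0, coeff_X, coeff_C, coeff_X_pow] using this
  have h2 : a 2 = 0 := by
    have := hc 2 (by norm_num)
    simpa [qPoly, qT0, coeff_X, coeff_C, coeff_X_pow] using this
  have h3 : a 3 = 0 := by
    have := hc 3 (by norm_num)
    simpa [qPoly, qT0, coeff_X, coeff_C, coeff_X_pow] using this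
  have h4 : a 4 = 0 := by
    have := hc 4 (by norm_num)
    simpa [qPoly, qT0, coeff_X, coeff_C, coeff_X_pow] using this
  apply ha
  unfold qDisc
  rw [h1, h2, h3, h4]
  ring

theorem E2_disc_map {L : Type} [Field L] [Algebra B L] (a : Fin 5 → B) (ha : qDisc a ≠ 0) :
    qDisc (fun i => algebraMap B L (a i)) ≠ 0 := by
  obtain ⟨-, -, -, -, h⟩ := q_map (algebraMap B L) a 0
  rw [← h]
  intro h1
  exact ha ((algebraMap B L).injective (h1.trans (map_zero _).symm))

/-- The quartic has a root in the algebraic closure, at which `D` and `R` do not vanish. -/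
theorem E2_root [CharZero B] (a : Fin 5 → B) (ha : qDisc a ≠ 0) :
    ∃ e : AlgebraicClosure B, aeval e (qD (fun i => C (a i)) X : B[X]) ≠ 0 ∧
      aeval e (qR (fun i => C (a i)) X : B[X]) ≠ 0 := by
  obtain ⟨e, he⟩ := IsAlgClosed.exists_aeval_eq_zero (AlgebraicClosure B) (qPoly a)
    (E2_degree a ha)
  obtain ⟨m0, m1, -, m3⟩ := E2_map a e
  rw [m0] at he
  have ha' := E2_disc_map (L := AlgebraicClosure B) a ha
  have h1 : qT1 (fun i => algebraMap B (AlgebraicClosure B) (a i)) e ≠ 0 := fun h =>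
    ha' (E2_disc_zero _ e he h)
  have : CharZero (AlgebraicClosure B) :=
    charZero_of_injective_algebraMap (algebraMap B (AlgebraicClosure B)).injective
  refine ⟨e, ?_, ?_⟩
  · rw [m1]
    have h2 : qD (fun i => algebraMap B (AlgebraicClosure B) (a i)) e =
        qT1 (fun i => algebraMap B (AlgebraicClosure B) (a i)) e ^ 4 := by
      unfold qD qH
      rw [he]
      ring
    rw [h2]
    exact pow_ne_zero _ h1
  · rw [m3]
    have h2 : qR (fun i => algebraMap B (AlgebraicClosure B) (a i)) e =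
        -3 * qT1 (fun i => algebraMap B (AlgebraicClosure B) (a i)) e ^ 8 := by
      unfold qR qD qG qH
      rw [he]
      ring
    rw [h2]
    exact mul_ne_zero (by norm_num) (pow_ne_zero _ h1)

theorem E2_D_ne [CharZero B] (a : Fin 5 → B) (ha : qDisc a ≠ 0) :
    (qD (fun i => C (a i)) X : B[X]) ≠ 0 := by
  obtain ⟨e, h1, -⟩ := E2_root a ha
  intro h
  apply h1
  rw [h, map_zero]

theorem E2_not_const [CharZero B] (a : Fin 5 → B) (ha : qDisc a ≠ 0) (c : B)
    (h : (qN (fun i => C (a i)) X : B[X]) = C c * qD (fun i => C (a i)) X) : False := by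
  obtain ⟨e, -, h2⟩ := E2_root a ha
  apply h2
  have h3 := q_deriv a
  rw [h, derivative_mul, derivative_C, zero_mul, zero_add] at h3
  have h4 : (qR (fun i => C (a i)) X : B[X]) = 0 := by
    have h5 : (3 : B[X]) * qR (fun i => C (a i)) X = 0 := by
      linear_combination h3
    rcases mul_eq_zero.1 h5 with h6 | h6
    · exfalso
      have : (C (3 : B)) = 0 := h6
      rw [C_eq_zero] at this
      norm_num at this
    · exact h6
  rw [h4, map_zero]

/-- The quartic is not a square. -/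
theorem E2_sq [CharZero B] (a : Fin 5 → B) (ha : qDisc a ≠ 0) (U V : B[X])
    (h : U ^ 2 = V ^ 2 * qPoly a) : V = 0 := by
  by_contra hV
  have h1 : V ^ 2 ∣ U ^ 2 := ⟨_, h⟩
  rw [IsIntegrallyClosed.pow_dvd_pow_iff two_ne_zero] at h1
  obtain ⟨S, rfl⟩ := h1
  have h2 : qPoly a = S ^ 2 := by
    have h3 : V ^ 2 * qPoly a = V ^ 2 * S ^ 2 := by rw [← h]; ring
    exact mul_left_cancel₀ (pow_ne_zero 2 hV) h3
  obtain ⟨e, he⟩ := IsAlgClosed.exists_aeval_eq_zero (AlgebraicClosure B) (qPoly a)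
    (E2_degree a ha)
  have h4 : aeval e S = 0 := by
    rw [h2, map_pow] at he
    exact pow_eq_zero_iff two_ne_zero |>.1 he
  have h5 : aeval e (derivative (qPoly a)) = 0 := by
    rw [h2, derivative_pow, map_mul, map_mul, map_pow, h4]
    simp
  rw [E2_deriv] at h5
  have h6 : aeval e (qT1 (fun i => C (a i)) X : B[X]) =
      qT1 (fun i => algebraMap B (AlgebraicClosure B) (a i)) e := by
    simp only [qT1, map_add, map_mul, map_pow, aeval_C, aeval_X, map_ofNat]
  rw [h6] at h5
  rw [(E2_map a e).1] at he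
  exact E2_disc_map (L := AlgebraicClosure B) a ha (E2_disc_zero _ e he h5)

/-- `N(x) / D(x)` is transcendental. -/
theorem E2_tr [CharZero B] {K : Type} [Field K] [Algebra B K] (a : Fin 5 → B)
    (ha : qDisc a ≠ 0) (x : K) (hx : Transcendental B x) :
    qD (fun i => algebraMap B K (a i)) x ≠ 0 ∧ Transcendental B
      (qN (fun i => algebraMap B K (a i)) x / qD (fun i => algebraMap B K (a i)) x) := by
  obtain ⟨-, m1, m2, -⟩ := E2_map a x
  have hinj : Function.Injective (aeval x : B[X] →ₐ[B] K) :=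
    transcendental_iff_injective.1 hx
  have hD := E2_D_ne a ha
  have hD' : qD (fun i => algebraMap B K (a i)) x ≠ 0 := by
    rw [← m1]
    intro h
    exact hD (hinj (h.trans (map_zero _).symm))
  refine ⟨hD', ?_⟩
  set f : RatFunc B := algebraMap B[X] (RatFunc B) (qN (fun i => C (a i)) X) /
    algebraMap B[X] (RatFunc B) (qD (fun i => C (a i)) X) with hf
  have hf1 : Transcendental B f := by
    apply RatFunc.transcendental_of_ne_C
    rintro ⟨c, hc⟩
    have hD2 : algebraMap B[X] (RatFunc B) (qD (fun i => C (a i)) X) ≠ 0 := by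
      intro h
      exact hD (RatFunc.algebraMap_injective B (h.trans (map_zero _).symm))
    refine E2_not_const a ha c (RatFunc.algebraMap_injective B ?_)
    rw [map_mul, RatFunc.algebraMap_C, ← hc, hf, div_mul_cancel₀ _ hD2]
  have hinj2 := RatFunc.liftAlgHom_injective (aeval x : B[X] →ₐ[B] K) hinj
  have h1 : RatFunc.liftAlgHom (aeval x : B[X] →ₐ[B] K)
      (nonZeroDivisors_le_comap_nonZeroDivisors_of_injective _ hinj) f =
      qN (fun i => algebraMap B K (a i)) x / qD (fun i => algebraMap B K (a i)) x := by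
    rw [hf, RatFunc.liftAlgHom_apply_div, m1, m2]
  rw [← h1]
  intro h2
  exact hf1 ((isAlgebraic_algHom_iff _ hinj2).1 h2)

/-- The affine ring. -/
noncomputable abbrev E2_P (a : Fin 5 → B) : B[X][X] := X ^ 2 - C (qPoly a)

theorem E2_hroot {K : Type} [Field K] [Algebra B K] (a : Fin 5 → B) (x w : K)
    (hw : w ^ 2 = qT0 (fun i => algebraMap B K (a i)) x) :
    (E2_P a).eval₂ (aeval x : B[X] →ₐ[B] K).toRingHom w = 0 := by
  rw [eval₂_sub, eval₂_pow, eval₂_X, eval₂_C, hw]
  exact sub_eq_zero.2 (E2_map a x).1.symm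

/-- The embedding of the affine ring. -/
theorem E2_inj [CharZero B] {K : Type} [Field K] [Algebra B K] (a : Fin 5 → B)
    (ha : qDisc a ≠ 0) (x w : K) (hx : Transcendental B x)
    (hw : w ^ 2 = qT0 (fun i => algebraMap B K (a i)) x) :
    Function.Injective (AdjoinRoot.lift (aeval x : B[X] →ₐ[B] K).toRingHom w
      (E2_hroot a x w hw)) := by
  rw [injective_iff_map_eq_zero]
  intro z
  induction z using AdjoinRoot.induction_on with
  | ih Q =>
  intro hQ
  rw [AdjoinRoot.lift_mk] at hQ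
  set φ : B[X] →+* K := (aeval x : B[X] →ₐ[B] K).toRingHom with hφ
  have hinj : Function.Injective φ := transcendental_iff_injective.1 hx
  have hD : (E2_P a).Monic := monic_X_pow_sub_C _ two_ne_zero
  have h1 := modByMonic_add_div Q (E2_P a)
  have hdeg := degree_modByMonic_lt Q hD
  set r := Q %ₘ E2_P a with hr
  rw [degree_X_pow_sub_C (by norm_num : 0 < 2)] at hdeg
  have hr1 : r.degree ≤ 1 := by
    have : r.degree < ((1 + 1 : ℕ) : WithBot ℕ) := hdeg
    exact Order.le_of_lt_succ this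
  have hr2 := eq_X_add_C_of_degree_le_one hr1
  have hr0 : eval₂ φ w r = 0 := by
    rw [← h1, eval₂_add, eval₂_mul, E2_hroot a x w hw, zero_mul, add_zero] at hQ
    exact hQ
  rw [hr2, eval₂_add, eval₂_mul, eval₂_C, eval₂_C, eval₂_X] at hr0
  have hq : φ (qPoly a) = w ^ 2 := by
    rw [hw]
    exact (E2_map a x).1
  have h2 : (r.coeff 0) ^ 2 = (r.coeff 1) ^ 2 * qPoly a := by
    apply hinj
    rw [map_mul, map_pow, map_pow, hq]
    linear_combination (φ (r.coeff 0) - φ (r.coeff 1) * w) * hr0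
  have h3 := E2_sq a ha _ _ h2
  have h4 : r.coeff 0 = 0 := by
    rw [h3] at h2
    have h5 : (r.coeff 0) ^ 2 = 0 := by rw [h2]; ring
    exact pow_eq_zero_iff two_ne_zero |>.1 h5
  have h5 : r = 0 := by rw [hr2, h3, h4]; simp
  rw [AdjoinRoot.mk_eq_zero]
  exact (modByMonic_eq_zero_iff_dvd hD).1 h5

end E2

/-- Existence of the endomorphism `P ↦ 2 H - 3 P`. -/
theorem exists_move (B K : Type) [Field B] [CharZero B] [Field K] [Algebra B K] (a : Fin 5 → B)
    (x w : K) (h : ECurve B K a x w) : ∃ D : K →ₐ[B] K, EMove B K a x w D := by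
  obtain ⟨hD, htr⟩ := E2_tr a h.disc x h.tr
  set A : Fin 5 → K := fun i => algebraMap B K (a i) with hA
  set x' : K := qN A x / qD A x with hx'
  set w' : K := qR A x * w / qD A x ^ 2 with hw'
  have hw : w' ^ 2 = qT0 A x' := by
    have h1 := q_ident A x
    rw [hw', hx', div_pow, mul_pow, h.eq, h1]
    simp only [qT0]
    field_simp
  have i1 := E2_inj a h.disc x w h.tr h.eq
  have i2 := E2_inj a h.disc x' w' htr hw
  set φ₁ := AdjoinRoot.lift (aeval x : B[X] →ₐ[B] K).toRingHom w (E2_hroot a x w h.eq) with hφ₁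
  set φ₂ := AdjoinRoot.lift (aeval x' : B[X] →ₐ[B] K).toRingHom w' (E2_hroot a x' w' hw) with hφ₂
  let _ : Algebra (AdjoinRoot (E2_P a)) K := φ₁.toAlgebra
  have hmap : ∀ z, algebraMap (AdjoinRoot (E2_P a)) K z = φ₁ z := fun _ => rfl
  have : FaithfulSMul (AdjoinRoot (E2_P a)) K := (faithfulSMul_iff_algebraMap_injective _ _).2 i1
  have hof1 : ∀ p : B[X], φ₁ (AdjoinRoot.of _ p) = aeval x p := fun p => AdjoinRoot.lift_of _
  have hof2 : ∀ p : B[X], φ₂ (AdjoinRoot.of _ p) = aeval x' p := fun p => AdjoinRoot.lift_of _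
  have hrt1 : φ₁ (AdjoinRoot.root _) = w := AdjoinRoot.lift_root _
  have hrt2 : φ₂ (AdjoinRoot.root _) = w' := AdjoinRoot.lift_root _
  have hadj : ∀ z ∈ Algebra.adjoin B ({x, w} : Set K), ∃ p, φ₁ p = z := by
    intro z hz
    induction hz using Algebra.adjoin_induction with
    | mem z hz =>
      rcases hz with rfl | hz
      · exact ⟨AdjoinRoot.of _ X, by rw [hof1, aeval_X]⟩
      · rw [Set.mem_singleton_iff] at hz
        exact ⟨AdjoinRoot.root _, by rw [hrt1, hz]⟩
    | algebraMap c => exact ⟨AdjoinRoot.of _ (C c), by rw [hof1, aeval_C]⟩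
    | add u v _ _ hu hv =>
      obtain ⟨p, rfl⟩ := hu
      obtain ⟨q, rfl⟩ := hv
      exact ⟨p + q, map_add _ _ _⟩
    | mul u v _ _ hu hv =>
      obtain ⟨p, rfl⟩ := hu
      obtain ⟨q, rfl⟩ := hv
      exact ⟨p * q, map_mul _ _ _⟩
  have hfrac : IsFractionRing (AdjoinRoot (E2_P a)) K := by
    apply IsFractionRing.of_field
    intro z
    have hz : z ∈ IntermediateField.adjoin B ({x, w} : Set K) := by
      rw [h.gen]
      exact IntermediateField.mem_top
    rw [IntermediateField.mem_adjoin_iff_div] at hz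
    obtain ⟨r, hr, s, hs, rfl⟩ := hz
    obtain ⟨p, hp⟩ := hadj r hr
    obtain ⟨q, hq⟩ := hadj s hs
    exact ⟨p, q, by rw [hmap, hmap, hp, hq]⟩
  let D₀ : K →+* K := IsFractionRing.lift (A := AdjoinRoot (E2_P a)) (K := K) (g := φ₂) i2
  have hD₀ : ∀ p, D₀ (φ₁ p) = φ₂ p := fun p => IsFractionRing.lift_algebraMap i2 p
  have hB : ∀ c : B, D₀ (algebraMap B K c) = algebraMap B K c := by
    intro c
    have h1 := hD₀ (AdjoinRoot.of _ (C c))
    rw [hof1, hof2, aeval_C, aeval_C] at h1
    exact h1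
  let D : K →ₐ[B] K := { D₀ with commutes' := hB }
  have hDx : D x = x' := by
    have h1 := hD₀ (AdjoinRoot.of _ X)
    rw [hof1, hof2, aeval_X, aeval_X] at h1
    exact h1
  have hDw : D w = w' := by
    have h1 := hD₀ (AdjoinRoot.root _)
    rw [hrt1, hrt2] at h1
    exact h1
  refine ⟨D, { toECurve := h, d1 := ?_, d2 := ?_ }⟩
  · rw [hDx, hx', div_mul_cancel₀ _ hD]
  · rw [hDw, hw', div_mul_cancel₀ _ (pow_ne_zero 2 hD)]

end Pool.Agent.LibHP
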