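import Pool.Agent.LibHP3.E2

set_option autoImplicit false
open Polynomial

namespace Pool.Agent.LibHP

/-- Two homomorphisms from the function field agreeing on the constants, `x` and `w`. -/
private theorem E2b_ext (B K L : Type) [Field B] [Field K] [Field L] [Algebra B K] (x w : K)
    (hgen : IntermediateField.adjoin B {x, w} = ⊤) (f g : K →+* L)
    (h0 : ∀ b, f (algebraMap B K b) = g (algebraMap B K b)) (hx : f x = g x) (hw : f w = g w)
    (z : K) : f z = g z := by
  have hz : z ∈ IntermediateField.adjoin B {x, w} := by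
    rw [hgen]
    exact IntermediateField.mem_top
  refine IntermediateField.adjoin_induction B (p := fun z _ => f z = g z) ?_ ?_ ?_ ?_ ?_ hz
  · intro y hy
    rcases hy with rfl | hy
    · exact hx
    · rw [Set.mem_singleton_iff] at hy
      rw [hy]
      exact hw
  · exact h0
  · intro y z _ _ h1 h2
    rw [map_add, map_add, h1, h2]
  · intro y _ h1
    rw [map_inv₀, map_inv₀, h1]
  · intro y z _ _ h1 h2
    rw [map_mul, map_mul, h1, h2]

/-- Extension of the constants, without the endomorphism. -/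
private theorem E2b_curve (B K : Type) [Field B] [Field K] [Algebra B K]
    (a : Fin 5 → B) (x w : K) (h : ECurve B K a x w) :
    ∃ (Ω 𝕂 : Type) (_ : Field Ω) (_ : Field 𝕂) (_ : Algebra B Ω) (_ : Algebra Ω 𝕂)
      (_ : Algebra K 𝕂), IsAlgClosed Ω ∧ Algebra.IsAlgebraic B Ω ∧
      (∀ b : B, algebraMap Ω 𝕂 (algebraMap B Ω b) = algebraMap K 𝕂 (algebraMap B K b)) ∧
      ECurve Ω 𝕂 (fun i => algebraMap B Ω (a i)) (algebraMap K 𝕂 x) (algebraMap K 𝕂 w) := by
  obtain ⟨x', hx'⟩ : ∃ x' : AlgebraicClosure K, x' = algebraMap K (AlgebraicClosure K) x := ⟨_, rfl⟩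
  obtain ⟨w', hw'⟩ : ∃ w' : AlgebraicClosure K, w' = algebraMap K (AlgebraicClosure K) w := ⟨_, rfl⟩
  let Ω : IntermediateField B (AlgebraicClosure K) := algebraicClosure B (AlgebraicClosure K)
  let 𝕂 : IntermediateField Ω (AlgebraicClosure K) := IntermediateField.adjoin Ω {x', w'}
  have hx𝕂 : x' ∈ 𝕂 := IntermediateField.subset_adjoin Ω _ (Set.mem_insert _ _)
  have hw𝕂 : w' ∈ 𝕂 := IntermediateField.subset_adjoin Ω _ (Set.mem_insert_of_mem _ rfl)
  have hB𝕂 : ∀ b : B, algebraMap K (AlgebraicClosure K) (algebraMap B K b) ∈ 𝕂 := by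
    intro b
    rw [← IsScalarTower.algebraMap_apply B K (AlgebraicClosure K)]
    exact 𝕂.algebraMap_mem (algebraMap B Ω b)
  have hK𝕂 : ∀ z : K, algebraMap K (AlgebraicClosure K) z ∈ 𝕂 := by
    intro z
    have hz : z ∈ IntermediateField.adjoin B {x, w} := by
      rw [h.gen]
      exact IntermediateField.mem_top
    refine IntermediateField.adjoin_induction B
      (p := fun z _ => algebraMap K (AlgebraicClosure K) z ∈ 𝕂) ?_ hB𝕂 ?_ ?_ ?_ hz
    · intro y hy
      rcases hy with rfl | hy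
      · rw [← hx']
        exact hx𝕂
      · rw [Set.mem_singleton_iff] at hy
        rw [hy, ← hw']
        exact hw𝕂
    · intro y z _ _ h1 h2
      rw [map_add]
      exact add_mem h1 h2
    · intro y _ h1
      rw [map_inv₀]
      exact inv_mem h1
    · intro y z _ _ h1 h2
      rw [map_mul]
      exact mul_mem h1 h2
  let ρ : K →+* 𝕂 := (algebraMap K (AlgebraicClosure K)).codRestrict 𝕂.toSubring hK𝕂
  have hρ : ∀ z, ((ρ z : 𝕂) : AlgebraicClosure K) = algebraMap K (AlgebraicClosure K) z :=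
    fun _ => rfl
  have hρB : ∀ b : B, algebraMap Ω 𝕂 (algebraMap B Ω b) = ρ (algebraMap B K b) := by
    intro b
    apply Subtype.ext
    rw [hρ, ← IsScalarTower.algebraMap_apply B K (AlgebraicClosure K)]
    rfl
  have halgc : IsAlgClosure B Ω := algebraicClosure.isAlgClosure B (AlgebraicClosure K)
  have hcurve : ECurve Ω 𝕂 (fun i => algebraMap B Ω (a i)) (ρ x) (ρ w) := by
    refine ⟨?_, ?_, ?_, ?_⟩
    · intro halg
      apply h.tr
      have h1 : IsAlgebraic Ω (algebraMap K (AlgebraicClosure K) x) := by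
        have := halg.algebraMap (A := AlgebraicClosure K)
        exact this
      have h2 : IsAlgebraic B (algebraMap K (AlgebraicClosure K) x) := by
        have : Algebra.IsAlgebraic B Ω := algebraicClosure.isAlgebraic B (AlgebraicClosure K)
        exact IsAlgebraic.restrictScalars B h1
      exact (isAlgebraic_algebraMap_iff (algebraMap K (AlgebraicClosure K)).injective).1 h2
    · have h1 := congrArg ρ h.eq
      rw [map_pow, (q_map ρ _ _).1] at h1
      rw [h1]
      congr 1
    · apply IntermediateField.lift_injective 𝕂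
      rw [IntermediateField.lift_adjoin, IntermediateField.lift_top]
      congr 1
      rw [Set.image_pair]
      change ({algebraMap K (AlgebraicClosure K) x, algebraMap K (AlgebraicClosure K) w} :
        Set (AlgebraicClosure K)) = {x', w'}
      rw [hx', hw']
    · have h1 := (q_map (algebraMap B Ω) a (0 : B)).2.2.2.2
      rw [← h1]
      exact (_root_.map_ne_zero _).2 h.disc
  refine ⟨Ω, 𝕂, inferInstance, inferInstance, inferInstance, inferInstance, ρ.toAlgebra,
    halgc.isAlgClosed, algebraicClosure.isAlgebraic B (AlgebraicClosure K), hρB, hcurve⟩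

/-- Extension of the constants to an algebraic closure. -/
theorem exists_geometric (B K : Type) [Field B] [CharZero B] [Field K] [Algebra B K]
    (a : Fin 5 → B) (x w : K) (D : K →ₐ[B] K) (h : EMove B K a x w D) :
    ∃ (Ω 𝕂 : Type) (_ : Field Ω) (_ : Field 𝕂) (_ : Algebra B Ω) (_ : Algebra Ω 𝕂)
      (_ : Algebra K 𝕂) (D' : 𝕂 →ₐ[Ω] 𝕂), IsAlgClosed Ω ∧ Algebra.IsAlgebraic B Ω ∧
      (∀ b : B, algebraMap Ω 𝕂 (algebraMap B Ω b) = algebraMap K 𝕂 (algebraMap B K b)) ∧
      EMove Ω 𝕂 (fun i => algebraMap B Ω (a i)) (algebraMap K 𝕂 x) (algebraMap K 𝕂 w) D' ∧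
      ∀ z : K, D' (algebraMap K 𝕂 z) = algebraMap K 𝕂 (D z) := by
  obtain ⟨Ω, 𝕂, iΩ, i𝕂, iBΩ, iΩ𝕂, iK𝕂, h1, h2, h3, h4⟩ := E2b_curve B K a x w h.toECurve
  have hcΩ : CharZero Ω := charZero_of_injective_algebraMap (algebraMap B Ω).injective
  have hcK : CharZero K := charZero_of_injective_algebraMap (algebraMap B K).injective
  obtain ⟨D', hD'⟩ := exists_move Ω 𝕂 _ _ _ h4
  refine ⟨Ω, 𝕂, iΩ, i𝕂, iBΩ, iΩ𝕂, iK𝕂, D', h1, h2, h3, hD', ?_⟩
  have hqD : qD (fun i => algebraMap B K (a i)) x ≠ 0 := by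
    intro h5
    have h6 := h.d1
    rw [h5, mul_zero] at h6
    refine q_coprime (fun i => algebraMap B K (a i)) ?_ x h5 h6.symm
    rw [← (q_map (algebraMap B K) a (0 : B)).2.2.2.2]
    exact (_root_.map_ne_zero _).2 h.disc
  have ha : (fun i => algebraMap K 𝕂 (algebraMap B K (a i))) =
      fun i => algebraMap Ω 𝕂 (algebraMap B Ω (a i)) := by
    funext i
    exact (h3 (a i)).symm
  have hmap := q_map (algebraMap K 𝕂) (fun i => algebraMap B K (a i)) x
  rw [ha] at hmap
  obtain ⟨_, m1, m2, m3, _⟩ := hmap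
  have hqD' : qD (fun i => algebraMap Ω 𝕂 (algebraMap B Ω (a i))) (algebraMap K 𝕂 x) ≠ 0 := by
    rw [← m1]
    exact (_root_.map_ne_zero _).2 hqD
  have e1 := congrArg (algebraMap K 𝕂) h.d1
  have e2 := congrArg (algebraMap K 𝕂) h.d2
  rw [map_mul, m1, m2] at e1
  rw [map_mul, map_mul, map_pow, m1, m3] at e2
  refine E2b_ext B K 𝕂 x w h.gen ((D' : 𝕂 →+* 𝕂).comp (algebraMap K 𝕂))
    ((algebraMap K 𝕂).comp (D : K →+* K)) ?_ ?_ ?_
  · intro b
    change D' (algebraMap K 𝕂 (algebraMap B K b)) = algebraMap K 𝕂 (D (algebraMap B K b))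
    rw [D.commutes, ← h3, D'.commutes]
  · change D' (algebraMap K 𝕂 x) = algebraMap K 𝕂 (D x)
    exact mul_right_cancel₀ hqD' (hD'.d1.trans e1.symm)
  · change D' (algebraMap K 𝕂 w) = algebraMap K 𝕂 (D w)
    exact mul_right_cancel₀ (pow_ne_zero 2 hqD') (hD'.d2.trans e2.symm)

end Pool.Agent.LibHP
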