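import Pool.Agent.LibHP3.E0
import Pool.Agent.LibHP3.E1

set_option autoImplicit false
open Polynomial

namespace Pool.Agent.LibHP

section E3aux

variable {Ω 𝕂 : Type} [Field Ω] [Field 𝕂] [Algebra Ω 𝕂]

theorem E3_val_const (V : ValuationSubring 𝕂) (hV : ∀ c : Ω, algebraMap Ω 𝕂 c ∈ V) (c : Ω)
    (hc : c ≠ 0) : V.valuation (algebraMap Ω 𝕂 c) = 1 := by
  apply le_antisymm
  · exact (V.valuation_le_one_iff _).2 (hV c)
  · have h1 := (V.valuation_le_one_iff _).2 (hV c⁻¹)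
    rw [map_inv₀, map_inv₀] at h1
    have h2 : 0 < V.valuation (algebraMap Ω 𝕂 c) :=
      zero_lt_iff.2 ((Valuation.ne_zero_iff _).2 ((_root_.map_ne_zero _).2 hc))
    exact (inv_le_one₀ h2).1 h1

theorem E3_aeval_mem (V : ValuationSubring 𝕂) (hV : ∀ c : Ω, algebraMap Ω 𝕂 c ∈ V) (x : 𝕂)
    (hx : x ∈ V) (P : Polynomial Ω) : aeval x P ∈ V := by
  rw [aeval_eq_sum_range]
  refine sum_mem fun i _ => ?_
  rw [Algebra.smul_def]
  exact mul_mem (hV _) (pow_mem hx _)

theorem E3_x_mem (V : ValuationSubring 𝕂) (hV : ∀ c : Ω, algebraMap Ω 𝕂 c ∈ V) (x : 𝕂) (e : Ω)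
    (he : V.valuation (x - algebraMap Ω 𝕂 e) < 1) : x ∈ V := by
  have h1 : x - algebraMap Ω 𝕂 e ∈ V := (V.valuation_le_one_iff _).1 he.le
  have h2 := add_mem h1 (hV e)
  rwa [sub_add_cancel] at h2

theorem E3_val_eq_one (V : ValuationSubring 𝕂) (hV : ∀ c : Ω, algebraMap Ω 𝕂 c ∈ V) (x : 𝕂)
    (e : Ω) (he : V.valuation (x - algebraMap Ω 𝕂 e) < 1) (P : Polynomial Ω) (hP : P.eval e ≠ 0) :
    V.valuation (aeval x P) = 1 := by
  have hx : x ∈ V := E3_x_mem V hV x e he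
  have h0 : (P - C (P.eval e)).IsRoot e := by
    rw [IsRoot.def, eval_sub, eval_C, sub_self]
  obtain ⟨Q, hQ⟩ := dvd_iff_isRoot.2 h0
  have h1 : P = (X - C e) * Q + C (P.eval e) := by rw [← hQ]; ring
  have h2 : aeval x P = (x - algebraMap Ω 𝕂 e) * aeval x Q + algebraMap Ω 𝕂 (P.eval e) := by
    conv_lhs => rw [h1]
    rw [map_add, map_mul, map_sub, aeval_X, aeval_C, aeval_C]
  have h3 : V.valuation ((x - algebraMap Ω 𝕂 e) * aeval x Q) < 1 := by
    rw [map_mul]
    exact mul_lt_one_of_nonneg_of_lt_one_left zero_le he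
      ((V.valuation_le_one_iff _).2 (E3_aeval_mem V hV x hx Q))
  have h4 := E3_val_const V hV _ hP
  rw [h2, Valuation.map_add_eq_of_lt_right _ (by rw [h4]; exact h3), h4]

theorem E3_eval_map (a : Fin 5 → Ω) (e : Ω) :
    (qN (fun i => C (a i)) X : Polynomial Ω).eval e = qN a e ∧
    (qD (fun i => C (a i)) X : Polynomial Ω).eval e = qD a e ∧
    (qR (fun i => C (a i)) X : Polynomial Ω).eval e = qR a e := by
  obtain ⟨-, hD, hN, hR, -⟩ := q_map (evalRingHom e) (fun i => C (a i)) (X : Polynomial Ω)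
  simp only [coe_evalRingHom, eval_C, eval_X] at hD hN hR
  exact ⟨hN, hD, hR⟩

theorem E3_aeval_map (a : Fin 5 → Ω) (x : 𝕂) :
    aeval x (qN (fun i => C (a i)) X : Polynomial Ω) = qN (fun i => algebraMap Ω 𝕂 (a i)) x ∧
    aeval x (qD (fun i => C (a i)) X : Polynomial Ω) = qD (fun i => algebraMap Ω 𝕂 (a i)) x := by
  obtain ⟨-, hD, hN, -, -⟩ := q_map ((aeval x : Polynomial Ω →ₐ[Ω] 𝕂) : Polynomial Ω →+* 𝕂) (fun i => C (a i))
    (X : Polynomial Ω)
  simp only [RingHom.coe_coe, aeval_C, aeval_X] at hD hN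
  exact ⟨hN, hD⟩

theorem E3_ident (a : Fin 5 → Ω) (e f : Ω) (hN : qN a e = f * qD a e) :
    qR a e ^ 2 * qT0 a e = qD a e ^ 4 * qT0 a f := by
  rw [q_ident, hN]
  simp only [qT0]
  ring

end E3aux

variable (Ω 𝕂 : Type) [Field Ω] [CharZero Ω] [Field 𝕂] [Algebra Ω 𝕂]

/-- The move is unramified: forward version. -/
theorem move_forward (a : Fin 5 → Ω) (x w : 𝕂) (D : 𝕂 →ₐ[Ω] 𝕂) (h : EMove Ω 𝕂 a x w D)
    (V : ValuationSubring 𝕂) (hV : ∀ c : Ω, algebraMap Ω 𝕂 c ∈ V) (e f : Ω)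
    (he : V.valuation (x - algebraMap Ω 𝕂 e) < 1) (hD : qD a e ≠ 0) (hN : qN a e = f * qD a e)
    (hf : qT0 a f ≠ 0) :
    V.valuation (D x - algebraMap Ω 𝕂 f) = V.valuation (x - algebraMap Ω 𝕂 e) := by
  obtain ⟨eN, eD, eR⟩ := E3_eval_map a e
  obtain ⟨aN, aD⟩ := E3_aeval_map a x
  have hder := congrArg (eval e) (q_deriv a)
  set PN : Polynomial Ω := qN (fun i => C (a i)) X with hPN
  set PD : Polynomial Ω := qD (fun i => C (a i)) X with hPD
  have h0 : (PN - C f * PD).IsRoot e := by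
    rw [IsRoot.def, eval_sub, eval_mul, eval_C, eN, eD, hN, sub_self]
  obtain ⟨S, hS⟩ := dvd_iff_isRoot.2 h0
  have hS1 : (derivative PN).eval e - f * (derivative PD).eval e = S.eval e := by
    have h1 := congrArg (eval e) (congrArg derivative hS)
    simpa [derivative_mul] using h1
  have hder1 : S.eval e * qD a e = -3 * qR a e := by
    rw [eval_sub, eval_mul, eval_mul, eN, eD, eval_mul, eR, hN] at hder
    have h3 : eval e (-3 : Polynomial Ω) = -3 := by simp
    rw [h3] at hder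
    rw [← hS1]
    linear_combination hder
  have hR : qR a e ≠ 0 := by
    intro h0
    have h1 := E3_ident a e f hN
    rw [h0] at h1
    have h2 : qD a e ^ 4 * qT0 a f ≠ 0 := mul_ne_zero (pow_ne_zero 4 hD) hf
    apply h2
    rw [← h1]
    ring
  have hSe : S.eval e ≠ 0 := by
    intro h0
    rw [h0, zero_mul] at hder1
    have : (-3 : Ω) * qR a e ≠ 0 := mul_ne_zero (by norm_num) hR
    exact this hder1.symm
  have key : (D x - algebraMap Ω 𝕂 f) * aeval x PD = (x - algebraMap Ω 𝕂 e) * aeval x S := by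
    have h1 := congrArg (aeval x) hS
    rw [map_sub, map_mul, aeval_C, map_mul, map_sub, aeval_X, aeval_C] at h1
    rw [← h1, sub_mul, aD, h.d1, aN]
  have h2 := congrArg V.valuation key
  rw [map_mul, map_mul, E3_val_eq_one V hV x e he PD (by rw [eD]; exact hD),
    E3_val_eq_one V hV x e he S hSe, mul_one, mul_one] at h2
  exact h2

/-- The move is unramified: backward version. -/
theorem move_backward [IsAlgClosed Ω] (a : Fin 5 → Ω) (x w : 𝕂) (D : 𝕂 →ₐ[Ω] 𝕂)
    (h : EMove Ω 𝕂 a x w D) (V : ValuationSubring 𝕂) (hV : ∀ c : Ω, algebraMap Ω 𝕂 c ∈ V) (f : Ω)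
    (hx : x ∈ V) (hf : V.valuation (D x - algebraMap Ω 𝕂 f) < 1) (hq : qT0 a f ≠ 0) :
    ∃ e : Ω, V.valuation (x - algebraMap Ω 𝕂 e) < 1 ∧ qT0 a e ≠ 0 ∧ qD a e ≠ 0 ∧
      qN a e = f * qD a e := by
  have : CharZero 𝕂 := charZero_of_injective_algebraMap (algebraMap Ω 𝕂).injective
  obtain ⟨aN, aD⟩ := E3_aeval_map a x
  have hz : D x - algebraMap Ω 𝕂 f ≠ 0 := by
    have h1 : D x - algebraMap Ω 𝕂 f = D (x - algebraMap Ω 𝕂 f) := by
      rw [map_sub, AlgHom.commutes]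
    rw [h1]
    refine (_root_.map_ne_zero D).2 fun h0 => h.tr ?_
    rw [sub_eq_zero.1 h0]
    exact isAlgebraic_algebraMap f
  have hdisc : qDisc (fun i => algebraMap Ω 𝕂 (a i)) ≠ 0 := by
    rw [← (q_map (algebraMap Ω 𝕂) a 0).2.2.2.2]
    exact (_root_.map_ne_zero _).2 h.disc
  have hD0 : qD (fun i => algebraMap Ω 𝕂 (a i)) x ≠ 0 := by
    intro h0
    refine q_coprime _ hdisc x h0 ?_
    rw [← h.d1, h0, mul_zero]
  set PN : Polynomial Ω := qN (fun i => C (a i)) X with hPN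
  set PD : Polynomial Ω := qD (fun i => C (a i)) X with hPD
  set T : Polynomial Ω := PN - C f * PD with hT
  have hTx : aeval x T = (D x - algebraMap Ω 𝕂 f) * aeval x PD := by
    rw [hT, map_sub, map_mul, aeval_C, sub_mul, aD, h.d1, aN]
  have hT0 : T ≠ 0 := by
    intro h0
    rw [h0, map_zero, aD] at hTx
    exact mul_ne_zero hz hD0 hTx.symm
  have hTlt : V.valuation (aeval x T) < 1 := by
    rw [hTx, map_mul]
    exact mul_lt_one_of_nonneg_of_lt_one_left zero_le hf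
      ((V.valuation_le_one_iff _).2 (E3_aeval_mem V hV x hx PD))
  have hex : ∃ e : Ω, V.valuation (x - algebraMap Ω 𝕂 e) < 1 := by
    by_contra hcon
    push Not at hcon
    have hone : ∀ e : Ω, V.valuation (x - algebraMap Ω 𝕂 e) = 1 := fun e =>
      le_antisymm ((V.valuation_le_one_iff _).2 (sub_mem hx (hV e))) (hcon e)
    have hsplit := (IsAlgClosed.splits T).eq_prod_roots
    have h1 : V.valuation (aeval x T) = 1 := by
      rw [hsplit, map_mul, aeval_C, map_mul,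
        E3_val_const V hV _ (leadingCoeff_ne_zero.2 hT0), one_mul, map_multiset_prod,
        map_multiset_prod, Multiset.map_map, Multiset.map_map]
      apply Multiset.prod_eq_one
      intro y hy
      obtain ⟨r, -, rfl⟩ := Multiset.mem_map.1 hy
      simp only [Function.comp_apply, map_sub, aeval_X, aeval_C]
      exact hone r
    exact absurd hTlt (by rw [h1]; exact lt_irrefl _)
  obtain ⟨e, he⟩ := hex
  obtain ⟨eN, eD, eR⟩ := E3_eval_map a e
  have hTe : T.eval e = 0 := by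
    by_contra hne
    rw [E3_val_eq_one V hV x e he T hne] at hTlt
    exact lt_irrefl _ hTlt
  have hN : qN a e = f * qD a e := by
    rw [hT, eval_sub, eval_mul, eval_C, eN, eD] at hTe
    exact sub_eq_zero.1 hTe
  have hDe : qD a e ≠ 0 := by
    intro h0
    refine q_coprime a h.disc e h0 ?_
    rw [hN, h0, mul_zero]
  refine ⟨e, he, ?_, hDe, hN⟩
  intro h0
  have h1 := E3_ident a e f hN
  rw [h0, mul_zero] at h1
  exact mul_ne_zero (pow_ne_zero 4 hDe) hq h1.symm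

end Pool.Agent.LibHP
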