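import Pool.Agent.LibHP3.E1

set_option autoImplicit false
open Polynomial

namespace Pool.Agent.LibHP

/-- The coefficients of `qD` as a polynomial of degree nine. -/
def qDc {R : Type} [CommRing R] (a : Fin 5 → R) : Fin 10 → R := ![
  (-64) * a 0 ^ 3 * a 4 + 16 * a 0 ^ 2 * a 2 ^ 2 + (-8) * a 0 * a 1 ^ 2 * a 2 + 1 * a 1 ^ 4,
  (-192) * a 0 ^ 2 * a 1 * a 4 + 96 * a 0 ^ 2 * a 2 * a 3 + (-24) * a 0 * a 1 ^ 2 * a 3,
  144 * a 0 ^ 2 * a 3 ^ 2 + (-240) * a 0 * a 1 ^ 2 * a 4 + 48 * a 0 * a 1 * a 2 * a 3 +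
    (-12) * a 1 ^ 3 * a 3,
  384 * a 0 ^ 2 * a 3 * a 4 + (-256) * a 0 * a 1 * a 2 * a 4 + 144 * a 0 * a 1 * a 3 ^ 2 +
    32 * a 0 * a 2 ^ 2 * a 3 + (-96) * a 1 ^ 3 * a 4 + (-8) * a 1 ^ 2 * a 2 * a 3,
  384 * a 0 ^ 2 * a 4 ^ 2 + 288 * a 0 * a 1 * a 3 * a 4 + (-96) * a 0 * a 2 ^ 2 * a 4 +
    120 * a 0 * a 2 * a 3 ^ 2 + (-216) * a 1 ^ 2 * a 2 * a 4 + 30 * a 1 ^ 2 * a 3 ^ 2,
  384 * a 0 * a 1 * a 4 ^ 2 + 192 * a 0 * a 2 * a 3 * a 4 + 72 * a 0 * a 3 ^ 3 +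
    (-24) * a 1 ^ 2 * a 3 * a 4 + (-192) * a 1 * a 2 ^ 2 * a 4 + 48 * a 1 * a 2 * a 3 ^ 2,
  256 * a 0 * a 2 * a 4 ^ 2 + 240 * a 0 * a 3 ^ 2 * a 4 + 48 * a 1 ^ 2 * a 4 ^ 2 +
    (-112) * a 1 * a 2 * a 3 * a 4 + 36 * a 1 * a 3 ^ 3 + (-64) * a 2 ^ 3 * a 4 +
    16 * a 2 ^ 2 * a 3 ^ 2,
  384 * a 0 * a 3 * a 4 ^ 2 + 48 * a 1 * a 3 ^ 2 * a 4 + (-96) * a 2 ^ 2 * a 3 * a 4 +
    24 * a 2 * a 3 ^ 3,
  192 * a 0 * a 4 ^ 3 + 96 * a 1 * a 3 * a 4 ^ 2 + (-48) * a 2 ^ 2 * a 4 ^ 2 +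
    (-24) * a 2 * a 3 ^ 2 * a 4 + 9 * a 3 ^ 4,
  64 * a 1 * a 4 ^ 3 + (-32) * a 2 * a 3 * a 4 ^ 2 + 8 * a 3 ^ 3 * a 4]

/-- The coefficients of `qN` as a polynomial of degree nine. -/
def qNc {R : Type} [CommRing R] (a : Fin 5 → R) : Fin 10 → R := ![
  64 * a 0 ^ 3 * a 3 + (-32) * a 0 ^ 2 * a 1 * a 2 + 8 * a 0 * a 1 ^ 3,
  192 * a 0 ^ 3 * a 4 + 96 * a 0 ^ 2 * a 1 * a 3 + (-48) * a 0 ^ 2 * a 2 ^ 2 +
    (-24) * a 0 * a 1 ^ 2 * a 2 + 9 * a 1 ^ 4,
  384 * a 0 ^ 2 * a 1 * a 4 + 48 * a 0 * a 1 ^ 2 * a 3 + (-96) * a 0 * a 1 * a 2 ^ 2 +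
    24 * a 1 ^ 3 * a 2,
  256 * a 0 ^ 2 * a 2 * a 4 + 48 * a 0 ^ 2 * a 3 ^ 2 + 240 * a 0 * a 1 ^ 2 * a 4 +
    (-112) * a 0 * a 1 * a 2 * a 3 + (-64) * a 0 * a 2 ^ 3 + 36 * a 1 ^ 3 * a 3 +
    16 * a 1 ^ 2 * a 2 ^ 2,
  384 * a 0 ^ 2 * a 3 * a 4 + 192 * a 0 * a 1 * a 2 * a 4 + (-24) * a 0 * a 1 * a 3 ^ 2 +
    (-192) * a 0 * a 2 ^ 2 * a 3 + 72 * a 1 ^ 3 * a 4 + 48 * a 1 ^ 2 * a 2 * a 3,
  384 * a 0 ^ 2 * a 4 ^ 2 + 288 * a 0 * a 1 * a 3 * a 4 + (-96) * a 0 * a 2 ^ 2 * a 4 +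
    (-216) * a 0 * a 2 * a 3 ^ 2 + 120 * a 1 ^ 2 * a 2 * a 4 + 30 * a 1 ^ 2 * a 3 ^ 2,
  384 * a 0 * a 1 * a 4 ^ 2 + (-256) * a 0 * a 2 * a 3 * a 4 + (-96) * a 0 * a 3 ^ 3 +
    144 * a 1 ^ 2 * a 3 * a 4 + 32 * a 1 * a 2 ^ 2 * a 4 + (-8) * a 1 * a 2 * a 3 ^ 2,
  (-240) * a 0 * a 3 ^ 2 * a 4 + 144 * a 1 ^ 2 * a 4 ^ 2 + 48 * a 1 * a 2 * a 3 * a 4 +
    (-12) * a 1 * a 3 ^ 3,
  (-192) * a 0 * a 3 * a 4 ^ 2 + 96 * a 1 * a 2 * a 4 ^ 2 + (-24) * a 1 * a 3 ^ 2 * a 4,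
  (-64) * a 0 * a 4 ^ 3 + 16 * a 2 ^ 2 * a 4 ^ 2 + (-8) * a 2 * a 3 ^ 2 * a 4 + 1 * a 3 ^ 4]

theorem qD_eq_sum {R : Type} [CommRing R] (a : Fin 5 → R) (x : R) :
    qD a x = ∑ j : Fin 10, qDc a j * x ^ (j : ℕ) := by
  simp only [Fin.sum_univ_succ, Fin.sum_univ_zero, qDc, qD, qH, qT0, qT1, qT2, Matrix.cons_val_zero,
    Matrix.cons_val_succ, Fin.val_zero, Fin.val_succ]
  ring

theorem qN_eq_sum {R : Type} [CommRing R] (a : Fin 5 → R) (x : R) :
    qN a x = ∑ j : Fin 10, qNc a j * x ^ (j : ℕ) := by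
  simp only [Fin.sum_univ_succ, Fin.sum_univ_zero, qNc, qN, qD, qG, qH, qT0, qT1, qT2, qT3,
    Matrix.cons_val_zero, Matrix.cons_val_succ, Fin.val_zero, Fin.val_succ]
  ring

theorem E4a_coeff {R : Type} [CommRing R] (b : Fin 10 → R) :
    (∑ j : Fin 10, C (b j) * (X : R[X]) ^ (j : ℕ)).coeff 9 = b 9 := by
  rw [finsetSum_coeff, Finset.sum_eq_single (9 : Fin 10)]
  · rw [coeff_C_mul, coeff_X_pow, if_pos (by rfl), mul_one]
  · intro j _ hj
    rw [coeff_C_mul, coeff_X_pow, if_neg, mul_zero]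
    intro h
    exact hj (Fin.ext (by rw [← h]; rfl))
  · intro h
    exact absurd (Finset.mem_univ _) h

theorem E4a_natDegree {R : Type} [CommRing R] (b : Fin 10 → R) :
    (∑ j : Fin 10, C (b j) * (X : R[X]) ^ (j : ℕ)).natDegree ≤ 9 := by
  apply natDegree_sum_le_of_forall_le
  intro j _
  refine (natDegree_C_mul_X_pow_le _ _).trans ?_
  omega

theorem E4a_D {R : Type} [CommRing R] (a : Fin 5 → R) :
    (qD (fun i => C (a i)) X : R[X]) = ∑ j : Fin 10, C (qDc a j) * X ^ (j : ℕ) := by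
  rw [qD_eq_sum]
  refine Finset.sum_congr rfl fun j _ => ?_
  congr 1
  fin_cases j <;>
    simp [qDc, map_add, map_mul, map_pow, map_ofNat, map_neg]

theorem E4a_N {R : Type} [CommRing R] (a : Fin 5 → R) :
    (qN (fun i => C (a i)) X : R[X]) = ∑ j : Fin 10, C (qNc a j) * X ^ (j : ℕ) := by
  rw [qN_eq_sum]
  refine Finset.sum_congr rfl fun j _ => ?_
  congr 1
  fin_cases j <;>
    simp [qNc, map_add, map_mul, map_pow, map_ofNat, map_neg]

theorem E4a_top {F : Type} [Field F] (a : Fin 5 → F) :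
    qD (qInv a 0) 0 = qNc a 9 ∧ qN (qInv a 0) 0 = qDc a 9 := by
  constructor
  · simp [qInv, qD, qH, qT0, qT1, qT2, qT3, qNc]
    ring
  · simp [qInv, qN, qG, qD, qH, qT0, qT1, qT2, qT3, qDc]
    ring

/-- Every `f` with `q(f) ≠ 0` has at least two preimages. -/
theorem exists_two_preimages (Ω : Type) [Field Ω] [CharZero Ω] [IsAlgClosed Ω] (a : Fin 5 → Ω)
    (ha : qDisc a ≠ 0) (f : Ω) (hf : qT0 a f ≠ 0) :
    ∃ e₁ e₂ : Ω, e₁ ≠ e₂ ∧ (qD a e₁ ≠ 0 ∧ qN a e₁ = f * qD a e₁) ∧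
      (qD a e₂ ≠ 0 ∧ qN a e₂ = f * qD a e₂) := by
  have heval : ∀ e : Ω, (qN (fun i => C (a i)) X : Polynomial Ω).eval e = qN a e ∧
      (qD (fun i => C (a i)) X : Polynomial Ω).eval e = qD a e ∧
      (qR (fun i => C (a i)) X : Polynomial Ω).eval e = qR a e := by
    intro e
    obtain ⟨-, hD, hN, hR, -⟩ := q_map (evalRingHom e) (fun i => C (a i)) (X : Polynomial Ω)
    simp only [coe_evalRingHom, eval_C, eval_X] at hD hN hR
    exact ⟨hN, hD, hR⟩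
  have hder := q_deriv a
  have hid := q_ident (fun i => C (a i)) (X : Polynomial Ω)
  have hdN := E4a_natDegree (qNc a)
  have hdD := E4a_natDegree (qDc a)
  have hcN := E4a_coeff (qNc a)
  have hcD := E4a_coeff (qDc a)
  rw [← E4a_N] at hdN hcN
  rw [← E4a_D] at hdD hcD
  have hq4 : (qT0 (fun i => C (a i)) X : Polynomial Ω).natDegree ≤ 4 := by
    unfold qT0
    compute_degree
  have hqf : qT0 (fun i => C (a i)) (C f : Polynomial Ω) = C (qT0 a f) :=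
    ((q_map (C : Ω →+* Polynomial Ω) a f).1).symm
  set N : Polynomial Ω := qN (fun i => C (a i)) X with hNdef
  set D : Polynomial Ω := qD (fun i => C (a i)) X with hDdef
  set R : Polynomial Ω := qR (fun i => C (a i)) X with hRdef
  set T : Polynomial Ω := N - C f * D with hT
  have hN : N = C f * D + T := by rw [hT]; ring
  clear_value T R D N
  classical
  have hder' : derivative T * D - T * derivative D = - 3 * R := by
    rw [← hder, hN]
    simp only [derivative_add, derivative_C_mul]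
    ring
  rw [hN] at hid
  replace hid := hid.trans (qT0_hom (fun i => C (a i)) (C f) T D)
  rw [hqf] at hid
  have hR : R = C (-(1 / 3)) * (derivative T * D - T * derivative D) := by
    rw [hder']
    have : (C (-(1 / 3) : Ω) : Polynomial Ω) * (-3 * R) = C (-(1 / 3) * (-3)) * R := by
      rw [map_mul, map_neg C (3 : Ω), map_ofNat C 3]
      ring
    rw [this]
    have h3 : (-(1 / 3) * (-3) : Ω) = 1 := by norm_num
    rw [h3, map_one, one_mul]
  have hcop : ∀ e, qD a e = 0 → qN a e = 0 → False := fun e h1 h2 => q_coprime a ha e h1 h2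
  have hT0 : T ≠ 0 := by
    intro h0
    rw [h0, derivative_zero, zero_mul, zero_mul, sub_zero, mul_zero] at hR
    rw [hR, h0] at hid
    have h1 : C (qT0 a f) * D ^ 4 = 0 := by
      linear_combination - hid
    have h2 : D = 0 := by
      rcases mul_eq_zero.1 h1 with h | h
      · exact absurd (C_eq_zero.1 h) hf
      · exact pow_eq_zero_iff (by norm_num) |>.1 h
    have h3 : N = 0 := by rw [hN, h2, h0, mul_zero, add_zero]
    obtain ⟨e1, e2, -⟩ := heval 0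
    refine hcop 0 ?_ ?_
    · rw [← e2, h2, eval_zero]
    · rw [← e1, h3, eval_zero]
  have hroot : ∀ e, T.IsRoot e → qD a e ≠ 0 ∧ qN a e = f * qD a e := by
    intro e he
    obtain ⟨e1, e2, -⟩ := heval e
    have h1 : qN a e = f * qD a e := by
      rw [IsRoot.def, hT, eval_sub, eval_mul, eval_C, e1, e2] at he
      exact sub_eq_zero.1 he
    refine ⟨fun h0 => hcop e h0 ?_, h1⟩
    rw [h1, h0, mul_zero]
  have hsimple : ∀ e, T.IsRoot e → ¬ (derivative T).IsRoot e := by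
    intro e he hde
    obtain ⟨e1, e2, e3⟩ := heval e
    obtain ⟨h1, h2⟩ := hroot e he
    have h3 := congrArg (eval e) hder'
    rw [IsRoot.def] at he hde
    have h5 : eval e (-3 : Polynomial Ω) = -3 := by simp
    rw [eval_sub, eval_mul, eval_mul, he, hde, eval_mul, e3, h5] at h3
    have h4 : qR a e = 0 := by
      have h6 : (-3 : Ω) ≠ 0 := by norm_num
      apply mul_left_cancel₀ h6
      rw [← h3]
      ring
    have h7 := q_ident a e
    rw [h4, h2] at h7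
    have h8 : qD a e ^ 4 * qT0 a f = 0 := by
      simp only [qT0] at h7 ⊢
      linear_combination - h7
    exact mul_ne_zero (pow_ne_zero 4 h1) hf h8
  have hnodup : T.roots.Nodup := by
    rw [Multiset.nodup_iff_count_le_one]
    intro e
    rw [count_roots]
    by_contra hcon
    push Not at hcon
    have := (one_lt_rootMultiplicity_iff_isRoot hT0).1 hcon
    exact hsimple e this.1 this.2
  by_contra hcon
  push Not at hcon
  have hle : T.roots.toFinset.card ≤ 1 := by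
    rw [Finset.card_le_one]
    intro e1 he1 e2 he2
    by_contra hne
    rw [Multiset.mem_toFinset, mem_roots hT0] at he1 he2
    exact hcon e1 e2 hne (hroot e1 he1) (hroot e2 he2).1 (hroot e2 he2).2
  have hdT : T.natDegree ≤ 1 := by
    rw [Multiset.toFinset_card_of_nodup hnodup] at hle
    rwa [(IsAlgClosed.splits T).natDegree_eq_card_roots]
  have hT9 : T.coeff 9 = 0 := coeff_eq_zero_of_natDegree_lt (by omega)
  have hrel : qNc a 9 = f * qDc a 9 := by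
    rw [hT, coeff_sub, coeff_C_mul, hcN, hcD] at hT9
    exact sub_eq_zero.1 hT9
  have hd9 : qDc a 9 ≠ 0 := by
    intro h0
    obtain ⟨t1, t2⟩ := E4a_top a
    refine q_coprime (qInv a 0) (by rw [qDisc_inv]; exact ha) 0 ?_ ?_
    · rw [t1, hrel, h0, mul_zero]
    · rw [t2, h0]
  have hDdeg : D.natDegree = 9 := natDegree_eq_of_le_of_coeff_ne_zero hdD (by rw [hcD]; exact hd9)
  have hDT : (derivative T).natDegree ≤ 0 := (natDegree_derivative_le T).trans (by omega)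
  have hDD : (derivative D).natDegree ≤ 8 := (natDegree_derivative_le D).trans (by omega)
  have hRdeg : R.natDegree ≤ 9 := by
    rw [hR]
    refine (natDegree_C_mul_le _ _).trans ?_
    refine (natDegree_sub_le _ _).trans (max_le ?_ ?_)
    · exact (natDegree_mul_le).trans (by omega)
    · exact (natDegree_mul_le).trans (by omega)
  have hlhs : (R ^ 2 * qT0 (fun i => C (a i)) X).natDegree ≤ 28 := by
    refine (natDegree_mul_le).trans ?_
    have := natDegree_pow_le (p := R) (n := 2)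
    omega
  have hCd : ∀ g : Polynomial Ω, g.natDegree ≤ 0 → ∀ i j : ℕ, i + 9 * j ≤ 28 →
      (g * T ^ i * D ^ j).natDegree ≤ 28 := by
    intro g hg i j hij
    refine (natDegree_mul_le).trans ?_
    have h1 := natDegree_pow_le (p := D) (n := j)
    have h2 := natDegree_pow_le (p := T) (n := i)
    have h3 := natDegree_mul_le (p := g) (q := T ^ i)
    have h4 : i * T.natDegree ≤ i := by nlinarith
    rw [hDdeg] at h1
    omega
  have c1 : qT1 (fun i => C (a i)) (C f : Polynomial Ω) = C (qT1 a f) := by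
    simp only [qT1, map_add, map_mul, map_pow, map_ofNat]
  have c2 : qT2 (fun i => C (a i)) (C f : Polynomial Ω) = C (qT2 a f) := by
    simp only [qT2, map_add, map_mul, map_pow, map_ofNat]
  have c3 : qT3 (fun i => C (a i)) (C f : Polynomial Ω) = C (qT3 a f) := by
    simp only [qT3, map_add, map_mul, map_ofNat]
  rw [c1, c2, c3] at hid
  have g1 := hCd (C (qT1 a f)) (natDegree_C _).le 1 3 (by norm_num)
  have g2 := hCd (C (qT2 a f)) (natDegree_C _).le 2 2 (by norm_num)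
  have g3 := hCd (C (qT3 a f)) (natDegree_C _).le 3 1 (by norm_num)
  have g4 := hCd (C (a 4)) (natDegree_C _).le 4 0 (by norm_num)
  have hmain : (C (qT0 a f) * D ^ 4).natDegree ≤ 28 := by
    have h1 : C (qT0 a f) * D ^ 4 = R ^ 2 * qT0 (fun i => C (a i)) X -
        (C (qT1 a f) * T ^ 1 * D ^ 3 + C (qT2 a f) * T ^ 2 * D ^ 2 + C (qT3 a f) * T ^ 3 * D ^ 1 +
          C (a 4) * T ^ 4 * D ^ 0) := by
      rw [hid]
      ring
    rw [h1]
    exact (natDegree_sub_le _ _).trans (max_le hlhs (natDegree_add_le_of_degree_le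
      (natDegree_add_le_of_degree_le (natDegree_add_le_of_degree_le g1 g2) g3) g4))
  rw [natDegree_C_mul hf, natDegree_pow, hDdeg] at hmain
  omega

end Pool.Agent.LibHP
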