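import Pool.Agent.LibHP3.E3
import Pool.Agent.LibHP3.E4a

set_option autoImplicit false
open Polynomial

namespace Pool.Agent.LibHP

theorem E4b_ident {Ω : Type} [Field Ω] (a : Fin 5 → Ω) (e f : Ω) (hD : qD a e ≠ 0)
    (hN : qN a e = f * qD a e) (hf : qT0 a f ≠ 0) : qT0 a e ≠ 0 := by
  intro h0
  have h1 := q_ident a e
  rw [hN, h0, mul_zero] at h1
  refine mul_ne_zero (pow_ne_zero 4 hD) hf ?_
  simp only [qT0]
  linear_combination - h1

/-- Iterated preimages: `2 ^ n` points `e` at which `D^n x - f` has the same value as `x - e`. -/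
theorem exists_preimages (Ω 𝕂 : Type) [Field Ω] [CharZero Ω] [IsAlgClosed Ω] [Field 𝕂]
    [Algebra Ω 𝕂] (a : Fin 5 → Ω) (x w : 𝕂) (D : 𝕂 →ₐ[Ω] 𝕂) (h : EMove Ω 𝕂 a x w D) (n : ℕ)
    (f : Ω) (hf : qT0 a f ≠ 0) :
    ∃ S : Finset Ω, S.card = 2 ^ n ∧ ∀ e ∈ S, qT0 a e ≠ 0 ∧
      ∀ V : ValuationSubring 𝕂, (∀ c : Ω, algebraMap Ω 𝕂 c ∈ V) →
        V.valuation (x - algebraMap Ω 𝕂 e) < 1 →
        V.valuation ((D ^ n) x - algebraMap Ω 𝕂 f) = V.valuation (x - algebraMap Ω 𝕂 e) := by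
  classical
  induction n with
  | zero =>
    refine ⟨{f}, by simp, fun e he => ?_⟩
    rw [Finset.mem_singleton] at he
    subst he
    refine ⟨hf, fun V _ _ => ?_⟩
    rw [pow_zero, AlgHom.one_apply]
  | succ n ih =>
    obtain ⟨S, hcard, hS⟩ := ih
    have hpre : ∀ e' : Ω, ∃ p : Ω × Ω, e' ∈ S → p.1 ≠ p.2 ∧
        (qD a p.1 ≠ 0 ∧ qN a p.1 = e' * qD a p.1) ∧ (qD a p.2 ≠ 0 ∧ qN a p.2 = e' * qD a p.2) := by
      intro e'
      by_cases he : e' ∈ S
      · obtain ⟨e1, e2, h1⟩ := exists_two_preimages Ω a h.disc e' (hS e' he).1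
        exact ⟨(e1, e2), fun _ => h1⟩
      · exact ⟨(0, 0), fun h' => absurd h' he⟩
    choose p hp using hpre
    have hmem : ∀ e' ∈ S, ∀ e ∈ ({(p e').1, (p e').2} : Finset Ω),
        qD a e ≠ 0 ∧ qN a e = e' * qD a e := by
      intro e' he' e he
      rw [Finset.mem_insert, Finset.mem_singleton] at he
      obtain ⟨-, h1, h2⟩ := hp e' he'
      rcases he with rfl | rfl
      · exact h1
      · exact h2
    refine ⟨S.biUnion fun e' => {(p e').1, (p e').2}, ?_, ?_⟩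
    · rw [Finset.card_biUnion, Finset.sum_congr rfl (fun e' he' => Finset.card_pair (hp e' he').1),
        Finset.sum_const, hcard, smul_eq_mul, pow_succ]
      intro e1 h1 e2 h2 hne
      refine Finset.disjoint_left.2 ?_
      intro e he1 he2
      obtain ⟨a1, a2⟩ := hmem e1 h1 e he1
      obtain ⟨b1, b2⟩ := hmem e2 h2 e he2
      apply hne
      rw [a2] at b2
      exact mul_right_cancel₀ a1 b2
    · intro e he
      obtain ⟨e', he', hee⟩ := Finset.mem_biUnion.1 he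
      obtain ⟨hD, hN⟩ := hmem e' he' e hee
      obtain ⟨hq', hV'⟩ := hS e' he'
      refine ⟨E4b_ident a e e' hD hN hq', fun V hV hlt => ?_⟩
      have h1 := move_forward Ω 𝕂 a x w D h V hV e e' hlt hD hN hq'
      have hDc : ∀ z : 𝕂, ∀ c : Ω, (D : 𝕂 →+* 𝕂) (z - algebraMap Ω 𝕂 c) =
          D z - algebraMap Ω 𝕂 c := by
        intro z c
        rw [RingHom.coe_coe, map_sub, AlgHom.commutes]
      have h2 := hV' (V.comap (D : 𝕂 →+* 𝕂)) (fun c => by
        rw [ValuationSubring.mem_comap, RingHom.coe_coe, AlgHom.commutes]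
        exact hV c) (by
        rw [comap_val_lt_one, hDc, h1]
        exact hlt)
      rw [comap_val_eq, hDc, hDc, h1] at h2
      rw [pow_succ', AlgHom.mul_apply]
      exact h2

end Pool.Agent.LibHP
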