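import Pool.Agent.LibHP3.E1

set_option autoImplicit false
open Polynomial

namespace Pool.Agent.LibHP

theorem E5_const {Ω 𝕂 : Type} [Field Ω] [Field 𝕂] [Algebra Ω 𝕂] (V : ValuationSubring 𝕂)
    (hV : ∀ c : Ω, algebraMap Ω 𝕂 c ∈ V) (c : Ω) (hc : c ≠ 0) :
    V.valuation (algebraMap Ω 𝕂 c) = 1 := by
  apply le_antisymm
  · exact (V.valuation_le_one_iff _).2 (hV c)
  · have h1 : V.valuation (algebraMap Ω 𝕂 c⁻¹) ≤ 1 := (V.valuation_le_one_iff _).2 (hV c⁻¹)
    rw [map_inv₀, map_inv₀] at h1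
    have h2 : V.valuation (algebraMap Ω 𝕂 c) ≠ 0 := by
      rw [Valuation.ne_zero_iff]
      exact (_root_.map_ne_zero _).2 hc
    exact (inv_le_one₀ (zero_lt_iff.2 h2)).1 h1

theorem E5_mem {Ω 𝕂 : Type} [Field Ω] [Field 𝕂] [Algebra Ω 𝕂] (V : ValuationSubring 𝕂)
    (hV : ∀ c : Ω, algebraMap Ω 𝕂 c ∈ V) (x : 𝕂) (e : Ω)
    (he : V.valuation (x - algebraMap Ω 𝕂 e) < 1) (P : Polynomial Ω) : aeval x P ∈ V := by
  have hx : x ∈ V := by
    have h1 : x - algebraMap Ω 𝕂 e ∈ V := (V.valuation_le_one_iff _).1 he.le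
    have h2 := V.add_mem _ _ h1 (hV e)
    rwa [sub_add_cancel] at h2
  induction P using Polynomial.induction_on' with
  | add p q hp hq => rw [map_add]; exact V.add_mem _ _ hp hq
  | monomial n c =>
    rw [aeval_monomial]
    exact V.mul_mem _ _ (hV c) (pow_mem hx n)

theorem E5_unit {Ω 𝕂 : Type} [Field Ω] [Field 𝕂] [Algebra Ω 𝕂] (V : ValuationSubring 𝕂)
    (hV : ∀ c : Ω, algebraMap Ω 𝕂 c ∈ V) (x : 𝕂) (e : Ω)
    (he : V.valuation (x - algebraMap Ω 𝕂 e) < 1) (P : Polynomial Ω) (hP : P.eval e ≠ 0) :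
    V.valuation (aeval x P) = 1 := by
  obtain ⟨Q, hQ⟩ : (X - C e) ∣ P - C (P.eval e) := by
    rw [Polynomial.dvd_iff_isRoot]
    simp
  have h1 : aeval x P = (x - algebraMap Ω 𝕂 e) * aeval x Q + algebraMap Ω 𝕂 (P.eval e) := by
    have h2 := congrArg (aeval x) hQ
    rw [map_sub, map_mul, map_sub, aeval_C, aeval_X, aeval_C] at h2
    rw [← h2, sub_add_cancel]
  have h3 : V.valuation ((x - algebraMap Ω 𝕂 e) * aeval x Q) < 1 := by
    rw [map_mul]
    have h4 : V.valuation (aeval x Q) ≤ 1 := (V.valuation_le_one_iff _).2 (E5_mem V hV x e he Q)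
    exact mul_lt_one_of_lt_of_le he h4
  rw [h1, Valuation.map_add_eq_of_lt_right]
  · exact E5_const V hV _ hP
  · rw [E5_const V hV _ hP]; exact h3

theorem E5_poly {Ω 𝕂 : Type} [Field Ω] [Field 𝕂] [Algebra Ω 𝕂] (V : ValuationSubring 𝕂)
    (hV : ∀ c : Ω, algebraMap Ω 𝕂 c ∈ V) (x : 𝕂) (e : Ω)
    (he : V.valuation (x - algebraMap Ω 𝕂 e) < 1) (P : Polynomial Ω) (hP : P ≠ 0) :
    ∃ m : ℤ, V.valuation (aeval x P) = V.valuation (x - algebraMap Ω 𝕂 e) ^ m := by
  obtain ⟨Q, hQ1, hQ2⟩ := Polynomial.exists_eq_pow_rootMultiplicity_mul_and_not_dvd P hP e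
  refine ⟨(P.rootMultiplicity e : ℤ), ?_⟩
  have h1 : aeval x P = (x - algebraMap Ω 𝕂 e) ^ (P.rootMultiplicity e) * aeval x Q := by
    conv_lhs => rw [hQ1]
    simp
  rw [h1, map_mul, map_pow, E5_unit V hV x e he Q, mul_one, zpow_natCast]
  intro h2
  exact hQ2 (Polynomial.dvd_iff_isRoot.2 h2)

/-- the elements of `𝕂` -/
theorem E5_form {Ω 𝕂 : Type} [Field Ω] [CharZero Ω] [Field 𝕂]
    [Algebra Ω 𝕂] (a : Fin 5 → Ω) (x w : 𝕂) (h : ECurve Ω 𝕂 a x w) (z : 𝕂) :
    ∃ P Q R : Polynomial Ω, R ≠ 0 ∧ z * aeval x R = aeval x P + aeval x Q * w := by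
  have hinj : ∀ R : Polynomial Ω, R ≠ 0 → aeval x R ≠ 0 := by
    intro R hR h0
    exact hR ((transcendental_iff.1 h.tr) R h0)
  have hw : w * w = aeval x (qPoly a) := by
    rw [← pow_two, h.eq]
    simp [qPoly, qT0]
  have hz : z ∈ IntermediateField.adjoin Ω ({x, w} : Set 𝕂) := by rw [h.gen]; trivial
  induction hz using IntermediateField.adjoin_induction with
  | mem y hy =>
    rcases hy with rfl | hy
    · exact ⟨X, 0, 1, one_ne_zero, by simp⟩
    · rw [Set.mem_singleton_iff] at hy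
      subst hy
      exact ⟨0, 1, 1, one_ne_zero, by simp⟩
  | algebraMap c => exact ⟨C c, 0, 1, one_ne_zero, by simp⟩
  | add y z _ _ hy hz =>
    obtain ⟨P, Q, R, hR, h1⟩ := hy
    obtain ⟨P', Q', R', hR', h1'⟩ := hz
    refine ⟨P * R' + P' * R, Q * R' + Q' * R, R * R', mul_ne_zero hR hR', ?_⟩
    simp only [map_mul, map_add]
    linear_combination (aeval x R') * h1 + (aeval x R) * h1'
  | inv y _ hy =>
    obtain ⟨P, Q, R, hR, h1⟩ := hy
    by_cases hy0 : y = 0
    · exact ⟨0, 0, 1, one_ne_zero, by simp [hy0]⟩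
    by_cases hN : P ^ 2 - Q ^ 2 * qPoly a = 0
    · have h2 : (aeval x P + aeval x Q * w) * (aeval x P - aeval x Q * w) = 0 := by
        have h3 := congrArg (aeval x) hN
        simp only [map_sub, map_mul, map_pow, map_zero] at h3
        rw [← hw] at h3
        linear_combination h3
      have h4 : aeval x P + aeval x Q * w ≠ 0 := by
        rw [← h1]
        exact mul_ne_zero hy0 (hinj R hR)
      have h5 : aeval x P - aeval x Q * w = 0 := by
        rcases mul_eq_zero.1 h2 with h | h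
        · exact absurd h h4
        · exact h
      have hP : P ≠ 0 := by
        rintro rfl
        rw [map_zero, zero_sub, neg_eq_zero] at h5
        rw [h5, map_zero, zero_add] at h4
        exact h4 rfl
      refine ⟨R, 0, 2 * P, mul_ne_zero two_ne_zero hP, ?_⟩
      have h6 : y * aeval x R = 2 * aeval x P := by linear_combination h1 - h5
      have h7 : aeval x (2 * P) = 2 * aeval x P := by rw [map_mul, map_ofNat]
      rw [h7, ← h6, map_zero, zero_mul, add_zero]
      field_simp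
    · refine ⟨R * P, - (R * Q), P ^ 2 - Q ^ 2 * qPoly a, hN, ?_⟩
      have h3 : aeval x (P ^ 2 - Q ^ 2 * qPoly a) =
          (aeval x P + aeval x Q * w) * (aeval x P - aeval x Q * w) := by
        simp only [map_sub, map_mul, map_pow]
        rw [← hw]
        ring
      rw [h3, ← h1]
      simp only [map_mul, map_neg]
      field_simp
      ring
  | mul y z _ _ hy hz =>
    obtain ⟨P, Q, R, hR, h1⟩ := hy
    obtain ⟨P', Q', R', hR', h1'⟩ := hz
    refine ⟨P * P' + Q * Q' * qPoly a, P * Q' + Q * P', R * R', mul_ne_zero hR hR', ?_⟩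
    simp only [map_mul, map_add]
    rw [← hw]
    linear_combination (z * aeval x R') * h1 + (aeval x P + aeval x Q * w) * h1'

/-- At a place `x = e` which is not a branch point, `x - e` is a uniformizer. -/
theorem value_at_point (Ω 𝕂 : Type) [Field Ω] [CharZero Ω] [IsAlgClosed Ω] [Field 𝕂]
    [Algebra Ω 𝕂] (a : Fin 5 → Ω) (x w : 𝕂) (h : ECurve Ω 𝕂 a x w)
    (V : ValuationSubring 𝕂) (hV : ∀ c : Ω, algebraMap Ω 𝕂 c ∈ V) (e : Ω)
    (he : V.valuation (x - algebraMap Ω 𝕂 e) < 1) (hq : qT0 a e ≠ 0) (z : 𝕂) (hz : z ≠ 0) :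
    ∃ m : ℤ, V.valuation z = V.valuation (x - algebraMap Ω 𝕂 e) ^ m := by
  classical
  have hinj : ∀ R : Polynomial Ω, R ≠ 0 → aeval x R ≠ 0 := by
    intro R hR h0
    exact hR ((transcendental_iff.1 h.tr) R h0)
  have hw : w * w = aeval x (qPoly a) := by
    rw [← pow_two, h.eq]
    simp [qPoly, qT0]
  have hu0 : V.valuation (x - algebraMap Ω 𝕂 e) ≠ 0 := by
    rw [Valuation.ne_zero_iff]
    have h1 := hinj (X - C e) (X_sub_C_ne_zero e)
    simpa using h1
  set g := V.valuation (x - algebraMap Ω 𝕂 e) with hg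
  have hvw : V.valuation w = 1 := by
    have h1 : V.valuation (aeval x (qPoly a)) = 1 := by
      apply E5_unit V hV x e he
      have h2 : (qPoly a).eval e = qT0 a e := by simp [qPoly, qT0]
      rw [h2]; exact hq
    rw [← hw, map_mul, ← pow_two] at h1
    exact (pow_eq_one_iff_of_nonneg zero_le two_ne_zero).1 h1
  have hv2 : V.valuation (2 : 𝕂) = 1 := by
    have h1 := E5_const V hV (2 : Ω) two_ne_zero
    rwa [map_ofNat] at h1
  obtain ⟨P, Q, R, hR, h1⟩ := E5_form a x w h z
  obtain ⟨r, hr⟩ := E5_poly V hV x e he R hR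
  rw [← hg] at hr
  have hz0 : aeval x P + aeval x Q * w ≠ 0 := by
    rw [← h1]
    exact mul_ne_zero hz (hinj R hR)
  suffices hs : ∃ m : ℤ, V.valuation (aeval x P + aeval x Q * w) = g ^ m by
    obtain ⟨m, hm⟩ := hs
    refine ⟨m - r, ?_⟩
    rw [← h1, map_mul, hr] at hm
    rw [zpow_sub₀ hu0, ← hm]
    field_simp
  have hM : ∃ m : ℤ, max (V.valuation (aeval x P)) (V.valuation (aeval x Q)) = g ^ m := by
    by_cases hP : P = 0
    · have hQ : Q ≠ 0 := by
        rintro rfl
        rw [hP] at hz0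
        simp at hz0
      obtain ⟨m, hm⟩ := E5_poly V hV x e he Q hQ
      refine ⟨m, ?_⟩
      rw [hP, map_zero, map_zero, max_eq_right zero_le, hm]
    · by_cases hQ : Q = 0
      · obtain ⟨m, hm⟩ := E5_poly V hV x e he P hP
        refine ⟨m, ?_⟩
        rw [hQ, map_zero, map_zero, max_eq_left zero_le, hm]
      · obtain ⟨m, hm⟩ := E5_poly V hV x e he P hP
        obtain ⟨m', hm'⟩ := E5_poly V hV x e he Q hQ
        rcases max_choice (V.valuation (aeval x P)) (V.valuation (aeval x Q)) with h | h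
        · exact ⟨m, by rw [h, hm]⟩
        · exact ⟨m', by rw [h, hm']⟩
  obtain ⟨m, hm⟩ := hM
  set M := max (V.valuation (aeval x P)) (V.valuation (aeval x Q)) with hMd
  have hM0 : M ≠ 0 := by rw [hm]; exact zpow_ne_zero _ hu0
  have hle0 : V.valuation (aeval x P + aeval x Q * w) ≤ M := by
    apply Valuation.map_add_le
    · exact le_max_left _ _
    · rw [map_mul, hvw, mul_one]; exact le_max_right _ _
  have hle1 : V.valuation (aeval x P - aeval x Q * w) ≤ M := by
    apply Valuation.map_sub_le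
    · exact le_max_left _ _
    · rw [map_mul, hvw, mul_one]; exact le_max_right _ _
  have hge : M ≤ max (V.valuation (aeval x P + aeval x Q * w))
      (V.valuation (aeval x P - aeval x Q * w)) := by
    apply max_le
    · have h2 : V.valuation (aeval x P) = V.valuation ((aeval x P + aeval x Q * w) +
          (aeval x P - aeval x Q * w)) := by
        have h3 : (aeval x P + aeval x Q * w) + (aeval x P - aeval x Q * w) =
            2 * aeval x P := by ring
        rw [h3, map_mul, hv2, one_mul]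
      rw [h2]
      exact Valuation.map_add _ _ _
    · have h2 : V.valuation (aeval x Q) = V.valuation ((aeval x P + aeval x Q * w) -
          (aeval x P - aeval x Q * w)) := by
        have h3 : (aeval x P + aeval x Q * w) - (aeval x P - aeval x Q * w) =
            2 * (aeval x Q * w) := by ring
        rw [h3, map_mul, hv2, one_mul, map_mul, hvw, mul_one]
      rw [h2]
      exact Valuation.map_sub _ _ _
  rcases le_max_iff.1 hge with h2 | h2
  · exact ⟨m, by rw [← hm]; exact le_antisymm hle0 h2⟩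
  · have h3 : V.valuation (aeval x P - aeval x Q * w) = M := le_antisymm hle1 h2
    have h4 : aeval x (P ^ 2 - Q ^ 2 * qPoly a) =
        (aeval x P + aeval x Q * w) * (aeval x P - aeval x Q * w) := by
      simp only [map_sub, map_mul, map_pow]
      rw [← hw]
      ring
    have h5 : aeval x P - aeval x Q * w ≠ 0 := by
      intro h6
      rw [h6, map_zero] at h3
      exact hM0 h3.symm
    have h6 : P ^ 2 - Q ^ 2 * qPoly a ≠ 0 := by
      intro h7
      rw [h7, map_zero] at h4
      exact mul_ne_zero hz0 h5 h4.symm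
    obtain ⟨n, hn⟩ := E5_poly V hV x e he _ h6
    rw [h4, map_mul, h3, hm, ← hg] at hn
    refine ⟨n - m, ?_⟩
    rw [zpow_sub₀ hu0, ← hn]
    have := zpow_ne_zero m hu0
    field_simp

end Pool.Agent.LibHP
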