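import Pool.Agent.LibHP3.E1

set_option autoImplicit false
open Polynomial

namespace Pool.Agent.LibHP

/-- The move in the coordinate `1 / (x - c)`. -/
theorem EMove.inv (Ω 𝕂 : Type) [Field Ω] [CharZero Ω] [Field 𝕂] [Algebra Ω 𝕂] (a : Fin 5 → Ω)
    (x w : 𝕂) (D : 𝕂 →ₐ[Ω] 𝕂) (h : EMove Ω 𝕂 a x w D) (c : Ω) :
    EMove Ω 𝕂 (qInv a c) (x - algebraMap Ω 𝕂 c)⁻¹ (w * ((x - algebraMap Ω 𝕂 c)⁻¹) ^ 2) D := by
  have hu : x - algebraMap Ω 𝕂 c ≠ 0 := by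
    intro h0
    apply h.tr
    rw [sub_eq_zero.1 h0]
    exact isAlgebraic_algebraMap c
  have hmap : (fun i => algebraMap Ω 𝕂 (qInv a c i)) =
      qInv (fun i => algebraMap Ω 𝕂 (a i)) (algebraMap Ω 𝕂 c) := by
    funext i
    fin_cases i <;>
      simp [qInv, qT0, qT1, qT2, qT3, map_add, map_mul, map_pow, map_ofNat]
  obtain ⟨i0, iN, iD, iR⟩ := q_inv (fun i => algebraMap Ω 𝕂 (a i)) (algebraMap Ω 𝕂 c) x hu
  have hDu : D x - algebraMap Ω 𝕂 c = D (x - algebraMap Ω 𝕂 c) := by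
    rw [map_sub, AlgHom.commutes]
  have hDu0 : D x - algebraMap Ω 𝕂 c ≠ 0 := by
    rw [hDu]
    exact (map_ne_zero D).2 hu
  have hd1 := h.d1
  have hd2 := h.d2
  have heq := h.eq
  set A : Fin 5 → 𝕂 := fun i => algebraMap Ω 𝕂 (a i) with hA
  set C := algebraMap Ω 𝕂 c with hC
  set u := x - C with hudef
  have huy : u * u⁻¹ = 1 := mul_inv_cancel₀ hu
  have hDy : D u⁻¹ = (D x - C)⁻¹ := by rw [map_inv₀, ← hDu]
  refine ⟨⟨?_, ?_, ?_, ?_⟩, ?_, ?_⟩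
  · intro hal
    apply h.tr
    have h1 : IsAlgebraic Ω u := by
      have := hal.inv
      rwa [inv_inv] at this
    have h2 : x = u + algebraMap Ω 𝕂 c := by rw [hudef, hC]; ring
    rw [h2]
    exact h1.add (isAlgebraic_algebraMap c)
  · rw [hmap]
    have h1 : (w * u⁻¹ ^ 2) ^ 2 = w ^ 2 * u⁻¹ ^ 4 := by ring
    rw [h1, heq, ← i0]
    have h2 : u ^ 4 * u⁻¹ ^ 4 = 1 := by rw [← mul_pow, huy, one_pow]
    rw [mul_assoc, h2, mul_one]
  · rw [eq_top_iff, ← h.gen, IntermediateField.adjoin_le_iff]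
    have hy : u⁻¹ ∈ IntermediateField.adjoin Ω {u⁻¹, w * u⁻¹ ^ 2} :=
      IntermediateField.subset_adjoin _ _ (by simp)
    have hu' : u ∈ IntermediateField.adjoin Ω {u⁻¹, w * u⁻¹ ^ 2} := by
      have := inv_mem hy
      rwa [inv_inv] at this
    have hw : w * u⁻¹ ^ 2 ∈ IntermediateField.adjoin Ω {u⁻¹, w * u⁻¹ ^ 2} :=
      IntermediateField.subset_adjoin _ _ (by simp)
    rintro z (rfl | rfl)
    · have h2 : z = u + algebraMap Ω 𝕂 c := by rw [hudef, hC]; ring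
      rw [SetLike.mem_coe, h2]
      exact add_mem hu' (IntermediateField.algebraMap_mem _ c)
    · have h2 : z * u⁻¹ ^ 2 * u ^ 2 = z := by
        rw [mul_assoc, ← mul_pow, mul_comm u⁻¹ u, huy, one_pow, mul_one]
      have h3 := mul_mem hw (pow_mem hu' 2)
      rwa [h2] at h3
  · rw [qDisc_inv]
    exact h.disc
  · rw [hmap, hDy]
    apply mul_right_cancel₀ (pow_ne_zero 9 hu)
    rw [mul_assoc, iD, iN]
    have h1 : qN A x - C * qD A x = (D x - C) * qD A x := by rw [← hd1]; ring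
    rw [h1, ← mul_assoc, inv_mul_cancel₀ hDu0, one_mul]
  · rw [hmap, map_mul, map_pow, hDy]
    apply mul_right_cancel₀ (pow_ne_zero 18 hu)
    have h1 : qN A x - C * qD A x = (D x - C) * qD A x := by rw [← hd1]; ring
    have h2 : D w * (D x - C)⁻¹ ^ 2 * qD (qInv A C) u⁻¹ ^ 2 * u ^ 18 =
        D w * (D x - C)⁻¹ ^ 2 * (qD (qInv A C) u⁻¹ * u ^ 9) ^ 2 := by ring
    have h3 : qR (qInv A C) u⁻¹ * (w * u⁻¹ ^ 2) * u ^ 18 =
        (qR (qInv A C) u⁻¹ * u ^ 16) * w * (u * u⁻¹) ^ 2 := by ring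
    rw [h2, h3, iD, iR, h1, huy, one_pow, mul_one, ← hd2]
    have h4 : (D x - C)⁻¹ ^ 2 * (D x - C) ^ 2 = 1 := by
      rw [← mul_pow, inv_mul_cancel₀ hDu0, one_pow]
    linear_combination (D w * qD A x ^ 2) * h4

end Pool.Agent.LibHP
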