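import Pool.Agent.LibHP3.E3
import Pool.Agent.LibHP3.E5
import Pool.Agent.LibHP3.E6a

set_option autoImplicit false
open Polynomial

namespace Pool.Agent.LibHP

/-- Nonzero constants are units. -/
theorem E6b_const (Ω 𝕂 : Type) [Field Ω] [Field 𝕂] [Algebra Ω 𝕂] (V : ValuationSubring 𝕂)
    (hV : ∀ c : Ω, algebraMap Ω 𝕂 c ∈ V) (c : Ω) (hc : c ≠ 0) :
    V.valuation (algebraMap Ω 𝕂 c) = 1 := by
  apply le_antisymm
  · exact (V.valuation_le_one_iff _).mpr (hV c)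
  · have h1 := (V.valuation_le_one_iff _).mpr (hV c⁻¹)
    rw [map_inv₀, map_inv₀] at h1
    have h2 : V.valuation (algebraMap Ω 𝕂 c) ≠ 0 := by
      rw [Ne, map_eq_zero, map_eq_zero]
      exact hc
    rw [inv_le_one₀ (zero_lt_iff.mpr h2)] at h1
    exact h1

/-- One step backwards when `x` is integral. -/
theorem E6b_step (Ω 𝕂 : Type) [Field Ω] [CharZero Ω] [IsAlgClosed Ω] [Field 𝕂]
    [Algebra Ω 𝕂] (a : Fin 5 → Ω) (x w : 𝕂) (D : 𝕂 →ₐ[Ω] 𝕂) (h : EMove Ω 𝕂 a x w D)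
    (V : ValuationSubring 𝕂) (hV : ∀ c : Ω, algebraMap Ω 𝕂 c ∈ V) (f : Ω) (hx : x ∈ V)
    (hf : V.valuation (D x - algebraMap Ω 𝕂 f) < 1) (hq : qT0 a f ≠ 0) :
    ∃ e : Ω, qT0 a e ≠ 0 ∧ V.valuation (x - algebraMap Ω 𝕂 e) < 1 ∧
      V.valuation (D x - algebraMap Ω 𝕂 f) = V.valuation (x - algebraMap Ω 𝕂 e) := by
  obtain ⟨e, h1, h2, h3, h4⟩ := move_backward Ω 𝕂 a x w D h V hV f hx hf hq
  exact ⟨e, h2, h1, move_forward Ω 𝕂 a x w D h V hV e f h1 h3 h4 hq⟩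

theorem E6b_key (Ω 𝕂 : Type) [Field Ω] [CharZero Ω] [IsAlgClosed Ω] [Field 𝕂]
    [Algebra Ω 𝕂] (a : Fin 5 → Ω) (x w : 𝕂) (D : 𝕂 →ₐ[Ω] 𝕂) (h : EMove Ω 𝕂 a x w D) (n : ℕ)
    (V : ValuationSubring 𝕂) (hV : ∀ c : Ω, algebraMap Ω 𝕂 c ∈ V) (f : Ω)
    (hf : V.valuation ((D ^ n) x - algebraMap Ω 𝕂 f) < 1) (hq : qT0 a f ≠ 0) :
    ∃ (a1 : Fin 5 → Ω) (x1 w1 : 𝕂) (f1 : Ω), EMove Ω 𝕂 a1 x1 w1 D ∧ qT0 a1 f1 ≠ 0 ∧
      V.valuation (x1 - algebraMap Ω 𝕂 f1) < 1 ∧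
      V.valuation ((D ^ n) x - algebraMap Ω 𝕂 f) = V.valuation (x1 - algebraMap Ω 𝕂 f1) := by
  induction n generalizing V with
  | zero =>
    rw [pow_zero, AlgHom.one_apply] at hf ⊢
    exact ⟨a, x, w, f, h, hq, hf, rfl⟩
  | succ n ih =>
    have hD : (D ^ (n + 1)) x = D ((D ^ n) x) := by
      rw [pow_succ', AlgHom.mul_apply]
    have hDf : ∀ (y : 𝕂) (c : Ω), D y - algebraMap Ω 𝕂 c = D.toRingHom (y - algebraMap Ω 𝕂 c) := by
      intro y c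
      change _ = D (y - algebraMap Ω 𝕂 c)
      rw [map_sub, AlgHom.commutes]
    rw [hD] at hf ⊢
    have hf' : (V.comap D.toRingHom).valuation ((D ^ n) x - algebraMap Ω 𝕂 f) < 1 := by
      rw [comap_val_lt_one, ← hDf]
      exact hf
    have hV' : ∀ c : Ω, algebraMap Ω 𝕂 c ∈ V.comap D.toRingHom := by
      intro c
      change D (algebraMap Ω 𝕂 c) ∈ V
      rw [AlgHom.commutes]
      exact hV c
    obtain ⟨a1, x1, w1, f1, h1, h2, h3, h4⟩ := ih (V.comap D.toRingHom) hV' hf'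
    rw [comap_val_lt_one, ← hDf] at h3
    rw [comap_val_eq, ← hDf, ← hDf] at h4
    rw [h4]
    by_cases hx1 : x1 ∈ V
    · obtain ⟨e, he1, he2, he3⟩ := E6b_step Ω 𝕂 a1 x1 w1 D h1 V hV f1 hx1 h3 h2
      exact ⟨a1, x1, w1, e, h1, he1, he2, he3⟩
    · obtain ⟨c, hc⟩ : ∃ c : Ω, f1 - c ≠ 0 := ⟨f1 - 1, by rw [sub_sub_cancel]; exact one_ne_zero⟩
      have h5 := EMove.inv Ω 𝕂 a1 x1 w1 D h1 c
      have hq2 : qT0 (qInv a1 c) (f1 - c)⁻¹ ≠ 0 := by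
        intro h0
        have h6 := (q_inv a1 c f1 hc).1
        rw [h0, zero_mul] at h6
        exact h2 h6.symm
      have hx1c : x1 - algebraMap Ω 𝕂 c ∉ V := by
        intro hcon
        apply hx1
        have h6 := V.add_mem _ _ hcon (hV c)
        rwa [sub_add_cancel] at h6
      have hx2 : (x1 - algebraMap Ω 𝕂 c)⁻¹ ∈ V := (V.mem_or_inv_mem _).resolve_left hx1c
      -- `D x1 - c` is a unit
      have hfc : V.valuation (algebraMap Ω 𝕂 (f1 - c)) = 1 := E6b_const Ω 𝕂 V hV _ hc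
      have hDc : V.valuation (D x1 - algebraMap Ω 𝕂 c) = 1 := by
        have h6 : D x1 - algebraMap Ω 𝕂 c =
            (D x1 - algebraMap Ω 𝕂 f1) + algebraMap Ω 𝕂 (f1 - c) := by
          rw [map_sub]; ring
        rw [h6, Valuation.map_add_eq_of_lt_right]
        · exact hfc
        · rw [hfc]; exact h3
      have hDc0 : D x1 - algebraMap Ω 𝕂 c ≠ 0 := by
        intro h0
        rw [h0, map_zero] at hDc
        exact zero_ne_one hDc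
      have hfc0 : algebraMap Ω 𝕂 (f1 - c) ≠ 0 := by
        intro h0
        rw [h0, map_zero] at hfc
        exact zero_ne_one hfc
      have h7 : D ((x1 - algebraMap Ω 𝕂 c)⁻¹) - algebraMap Ω 𝕂 (f1 - c)⁻¹ =
          -(D x1 - algebraMap Ω 𝕂 f1) * ((D x1 - algebraMap Ω 𝕂 c)⁻¹ *
            (algebraMap Ω 𝕂 (f1 - c))⁻¹) := by
        rw [map_inv₀, map_sub, AlgHom.commutes, map_inv₀]
        have h8 : -(D x1 - algebraMap Ω 𝕂 f1) =
            algebraMap Ω 𝕂 (f1 - c) - (D x1 - algebraMap Ω 𝕂 c) := by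
          rw [map_sub]; ring
        rw [h8]
        field_simp
      have h8 : V.valuation (D ((x1 - algebraMap Ω 𝕂 c)⁻¹) - algebraMap Ω 𝕂 (f1 - c)⁻¹) =
          V.valuation (D x1 - algebraMap Ω 𝕂 f1) := by
        rw [h7, map_mul, map_mul, map_inv₀, map_inv₀, hDc, hfc, inv_one, mul_one, mul_one,
          Valuation.map_neg]
      have h9 : V.valuation (D ((x1 - algebraMap Ω 𝕂 c)⁻¹) - algebraMap Ω 𝕂 (f1 - c)⁻¹) < 1 := by
        rw [h8]; exact h3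
      obtain ⟨e, he1, he2, he3⟩ := E6b_step Ω 𝕂 (qInv a1 c) _ _ D h5 V hV (f1 - c)⁻¹ hx2 h9 hq2
      exact ⟨qInv a1 c, _, _, e, h5, he1, he2, by rw [← h8, he3]⟩

/-- All the iterates of the move are unramified outside of the branch points. -/
theorem move_unram (Ω 𝕂 : Type) [Field Ω] [CharZero Ω] [IsAlgClosed Ω] [Field 𝕂]
    [Algebra Ω 𝕂] (a : Fin 5 → Ω) (x w : 𝕂) (D : 𝕂 →ₐ[Ω] 𝕂) (h : EMove Ω 𝕂 a x w D) (n : ℕ)
    (V : ValuationSubring 𝕂) (hV : ∀ c : Ω, algebraMap Ω 𝕂 c ∈ V) (f : Ω)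
    (hf : V.valuation ((D ^ n) x - algebraMap Ω 𝕂 f) < 1) (hq : qT0 a f ≠ 0) (z : 𝕂)
    (hz : z ≠ 0) :
    ∃ m : ℤ, V.valuation z = V.valuation ((D ^ n) x - algebraMap Ω 𝕂 f) ^ m := by
  obtain ⟨a1, x1, w1, f1, h1, h2, h3, h4⟩ := E6b_key Ω 𝕂 a x w D h n V hV f hf hq
  rw [h4]
  exact value_at_point Ω 𝕂 a1 x1 w1 h1.toECurve V hV f1 h3 h2 z hz

end Pool.Agent.LibHP
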