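import Pool.Agent.LibHP2.Defs

set_option autoImplicit false
open Polynomial

namespace Pool.Agent.LibHP

/-- Extension of a valuation ring to a bigger field. -/
theorem exists_extension (K L : Type) [Field K] [Field L] (f : K →+* L) (V : ValuationSubring K) :
    ∃ W : ValuationSubring L, W.comap f = V := by
  obtain ⟨W, hle, hloc⟩ := (LocalSubring.map f V.toLocalSubring).exists_le_valuationSubring
  refine ⟨W, ?_⟩
  have hVW : ∀ x ∈ V, f x ∈ W := fun x hx => hle (Subring.mem_map.2 ⟨x, hx, rfl⟩)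
  ext x
  rw [ValuationSubring.mem_comap]
  constructor
  · intro hx
    by_contra hxV
    have hx0 : x ≠ 0 := by rintro rfl; exact hxV V.zero_mem
    have hinv : x⁻¹ ∈ V := (V.mem_or_inv_mem x).resolve_left hxV
    have hm : f x⁻¹ ∈ (LocalSubring.map f V.toLocalSubring).toSubring :=
      Subring.mem_map.2 ⟨x⁻¹, hinv, rfl⟩
    have hunit : IsUnit (Subring.inclusion hle ⟨f x⁻¹, hm⟩) :=
      isUnit_iff_exists_inv.mpr ⟨⟨f x, hx⟩, Subtype.ext (by
        show f x⁻¹ * f x = 1
        rw [← map_mul, inv_mul_cancel₀ hx0, map_one])⟩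
    obtain ⟨⟨b, hb⟩, hbe⟩ := isUnit_iff_exists_inv.mp (hloc.map_nonunit _ hunit)
    have hbe' : f x⁻¹ * b = 1 := congrArg Subtype.val hbe
    obtain ⟨c, hc, rfl⟩ := Subring.mem_map.1 hb
    have h1 : f (x⁻¹ * c) = f 1 := by rw [map_mul, map_one]; exact hbe'
    have h2 : x⁻¹ * c = 1 := f.injective h1
    have h3 : c = x := by
      rw [inv_mul_eq_iff_eq_mul₀ hx0, mul_one] at h2
      exact h2
    rw [← h3] at hxV
    exact hxV hc
  · intro hx
    exact hVW x hx

/-- Existence of a place with a given centre. -/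
theorem exists_place_at (Ω 𝕂 : Type) [Field Ω] [Field 𝕂] [Algebra Ω 𝕂] (x : 𝕂)
    (hx : Transcendental Ω x) (e : Ω) :
    ∃ V : ValuationSubring 𝕂, (∀ c : Ω, algebraMap Ω 𝕂 c ∈ V) ∧
      V.valuation (x - algebraMap Ω 𝕂 e) < 1 := by
  let A : Subring 𝕂 := (Algebra.adjoin Ω {x}).toSubring
  have hxA : x ∈ A := Algebra.subset_adjoin (by simp)
  have hcA : ∀ c : Ω, algebraMap Ω 𝕂 c ∈ A := fun c => (Algebra.adjoin Ω {x}).algebraMap_mem c
  let t : A := ⟨x - algebraMap Ω 𝕂 e, A.sub_mem hxA (hcA e)⟩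
  have hI : Ideal.span {t} ≠ (⊤ : Ideal A) := by
    intro htop
    rw [Ideal.span_singleton_eq_top, isUnit_iff_exists_inv] at htop
    obtain ⟨b, hb⟩ := htop
    have hb' : (x - algebraMap Ω 𝕂 e) * (b : 𝕂) = 1 := congrArg Subtype.val hb
    have hbm : (b : 𝕂) ∈ Algebra.adjoin Ω {x} := b.2
    rw [Algebra.adjoin_singleton_eq_range_aeval] at hbm
    obtain ⟨p, hp⟩ := hbm
    have h1 : aeval x ((X - C e) * p - 1) = 0 := by
      rw [map_sub, map_mul, map_sub, aeval_X, aeval_C, map_one]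
      have : aeval x p = (b : 𝕂) := hp
      rw [this, hb', sub_self]
    have h2 : (X - C e) * p - 1 = 0 := by
      by_contra hne
      exact hx ⟨_, hne, h1⟩
    have h3 := congrArg (eval e) h2
    simp at h3
  obtain ⟨V, hV1, hV2⟩ := Ideal.image_subset_nonunits_valuationSubring (Ideal.span {t}) hI
  refine ⟨V, fun c => hV1 (hcA c), ?_⟩
  have h3 : x - algebraMap Ω 𝕂 e ∈ V.nonunits :=
    hV2 ⟨t, Ideal.subset_span rfl, rfl⟩
  exact h3

/-- A valuation ring containing a field contains all the elements algebraic over it. -/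
theorem mem_of_isAlgebraic (M L : Type) [Field M] [Field L] [Algebra M L] (W : ValuationSubring L)
    (hM : ∀ c : M, algebraMap M L c ∈ W) (z : L) (hz : IsAlgebraic M z) : z ∈ W := by
  have h1 : IsIntegral M z := hz.isIntegral
  obtain ⟨f, hf, hf0⟩ := h1
  let ρ : M →+* W := (algebraMap M L).codRestrict W hM
  have h2 : IsIntegral W z := by
    refine ⟨f.map ρ, hf.map ρ, ?_⟩
    rw [Polynomial.eval₂_map]
    exact hf0
  obtain ⟨y, hy⟩ := IsIntegrallyClosed.isIntegral_iff.mp h2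
  rw [← hy]
  exact y.2

end Pool.Agent.LibHP
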