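import Pool.Agent.LibHP3.E2b
import Pool.Agent.LibHP3.E6b
import Pool.Agent.LibHP3.R5

set_option autoImplicit false
open Polynomial

namespace Pool.Agent.LibHP

section E7a_aux

theorem E7a_const_val {Ω 𝕂 : Type} [Field Ω] [Field 𝕂] [Algebra Ω 𝕂] (W : ValuationSubring 𝕂)
    (hW : ∀ c : Ω, algebraMap Ω 𝕂 c ∈ W) (c : Ω) (hc : c ≠ 0) :
    W.valuation (algebraMap Ω 𝕂 c) = 1 := by
  have h1 : W.valuation (algebraMap Ω 𝕂 c) ≤ 1 := (W.valuation_le_one_iff _).2 (hW c)
  have h2 : W.valuation (algebraMap Ω 𝕂 c⁻¹) ≤ 1 := (W.valuation_le_one_iff _).2 (hW c⁻¹)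
  have h3 : W.valuation (algebraMap Ω 𝕂 c) * W.valuation (algebraMap Ω 𝕂 c⁻¹) = 1 := by
    rw [← map_mul, ← map_mul, mul_inv_cancel₀ hc, map_one, map_one]
  refine le_antisymm h1 ?_
  calc (1 : W.ValueGroup) = W.valuation (algebraMap Ω 𝕂 c) * W.valuation (algebraMap Ω 𝕂 c⁻¹) :=
        h3.symm
    _ ≤ W.valuation (algebraMap Ω 𝕂 c) * 1 := by gcongr
    _ = _ := mul_one _

theorem E7a_poly_mem {Ω 𝕂 : Type} [Field Ω] [Field 𝕂] [Algebra Ω 𝕂] (W : ValuationSubring 𝕂)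
    (hW : ∀ c : Ω, algebraMap Ω 𝕂 c ∈ W) (y : 𝕂) (hy : y ∈ W) (p : Polynomial Ω) : aeval y p ∈ W := by
  induction p using Polynomial.induction_on' with
  | add p q hp hq => rw [map_add]; exact W.add_mem _ _ hp hq
  | monomial n c =>
    rw [aeval_monomial]
    exact W.mul_mem _ _ (hW c) (pow_mem hy n)

theorem E7a_exists_root {Ω 𝕂 : Type} [Field Ω] [Field 𝕂] [Algebra Ω 𝕂] (W : ValuationSubring 𝕂)
    (y : 𝕂) (s : Multiset Ω) (h : ∀ θ ∈ s, 1 ≤ W.valuation (y - algebraMap Ω 𝕂 θ)) :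
    1 ≤ W.valuation (aeval y ((s.map fun θ => X - C θ).prod)) := by
  induction s using Multiset.induction_on with
  | empty => simp
  | cons θ s ih =>
    rw [Multiset.map_cons, Multiset.prod_cons, map_mul, map_mul]
    have h1 : 1 ≤ W.valuation (aeval y (X - C θ : Polynomial Ω)) := by
      have := h θ (Multiset.mem_cons_self θ s)
      simpa using this
    exact one_le_mul h1 (ih fun θ' hθ' => h θ' (Multiset.mem_cons_of_mem hθ'))

theorem E7a_val_eq {Ω 𝕂 : Type} [Field Ω] [Field 𝕂] [Algebra Ω 𝕂] (W : ValuationSubring 𝕂)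
    (hW : ∀ c : Ω, algebraMap Ω 𝕂 c ∈ W) (y : 𝕂) (θ : Ω)
    (hy : W.valuation (y - algebraMap Ω 𝕂 θ) < 1) (p : Polynomial Ω) (hp : p.Separable)
    (hθ : p.IsRoot θ) : W.valuation (aeval y p) = W.valuation (y - algebraMap Ω 𝕂 θ) := by
  have hyW : y ∈ W := by
    have h1 : y - algebraMap Ω 𝕂 θ ∈ W := (W.valuation_le_one_iff _).1 hy.le
    have h2 := W.add_mem _ _ h1 (hW θ)
    rwa [sub_add_cancel] at h2
  obtain ⟨g, hg⟩ := dvd_iff_isRoot.2 hθ
  have hgθ : g.eval θ ≠ 0 := by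
    intro h0
    obtain ⟨g', hg'⟩ := dvd_iff_isRoot.2 h0
    have hsq : (X - C θ) * (X - C θ) ∣ p := ⟨g', by rw [hg, hg']; ring⟩
    have := hp.squarefree _ hsq
    exact Polynomial.not_isUnit_X_sub_C θ this
  have hg1 : W.valuation (aeval y g) = 1 := by
    have hd : X - C θ ∣ g - C (g.eval θ) := by
      rw [dvd_iff_isRoot]
      simp
    obtain ⟨g2, hg2⟩ := hd
    have e1 : aeval y g = (y - algebraMap Ω 𝕂 θ) * aeval y g2 + algebraMap Ω 𝕂 (g.eval θ) := by
      have := congrArg (aeval y) hg2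
      rw [map_mul, map_sub, map_sub, aeval_C, aeval_X, aeval_C] at this
      rw [← this]
      ring
    have e2 : W.valuation ((y - algebraMap Ω 𝕂 θ) * aeval y g2) < 1 := by
      rw [map_mul]
      exact mul_lt_one_of_lt_of_le hy
        ((W.valuation_le_one_iff _).2 (E7a_poly_mem W hW y hyW g2))
    rw [e1, Valuation.map_add_eq_of_lt_right, E7a_const_val W hW _ hgθ]
    rwa [E7a_const_val W hW _ hgθ]
  rw [hg, map_mul, map_mul, hg1, mul_one, map_sub, aeval_X, aeval_C]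

end E7a_aux

variable (κ B K : Type) [Field κ] [CharZero κ] [Field B] [Field K] [Algebra κ B] [Algebra B K]
  [Algebra κ K] [IsScalarTower κ B K]

/-- Every place of `K` over `B` at which `π(D^n x)` vanishes has `π(D^n x)` as uniformizer. -/
theorem place_unram (a : Fin 5 → B) (x w : K) (D : K →ₐ[B] K) (h : EMove B K a x w D)
    (hnf : ∀ p : κ[X], p ≠ 0 →
      IsCoprime (p.map (algebraMap κ K)) ((qPoly a).map (algebraMap B K)))
    (n : ℕ) (V : ValuationSubring K) (hV : ∀ c : B, algebraMap B K c ∈ V) (π : κ[X])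
    (hπ : Irreducible π) (hlt : V.valuation (aeval ((D ^ n) x) π) < 1) (z : K) (hz : z ≠ 0) :
    ∃ m : ℤ, V.valuation z = V.valuation (aeval ((D ^ n) x) π) ^ m := by
  classical
  have : CharZero B := charZero_of_injective_algebraMap (algebraMap κ B).injective
  obtain ⟨Ω, 𝕂, iΩ, i𝕂, aBΩ, aΩ𝕂, aK𝕂, D', hΩ, halg, hcomm, h', hD'⟩ :=
    exists_geometric B K a x w D h
  have : CharZero Ω := charZero_of_injective_algebraMap (algebraMap B Ω).injective
  obtain ⟨W, rfl⟩ := exists_extension K 𝕂 (algebraMap K 𝕂) V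
  -- constants
  have hWΩ : ∀ c : Ω, algebraMap Ω 𝕂 c ∈ W := by
    intro c
    let : Algebra B 𝕂 := ((algebraMap Ω 𝕂).comp (algebraMap B Ω)).toAlgebra
    have : IsScalarTower B Ω 𝕂 := IsScalarTower.of_algebraMap_eq fun _ => rfl
    refine mem_of_isAlgebraic B 𝕂 W (fun b => ?_) _ ((halg.isAlgebraic c).algebraMap)
    have h1 : algebraMap B 𝕂 b = algebraMap K 𝕂 (algebraMap B K b) := hcomm b
    rw [h1]
    exact hV b
  -- iterates
  have hiter : ∀ (m : ℕ) (z : K), (D' ^ m) (algebraMap K 𝕂 z) = algebraMap K 𝕂 ((D ^ m) z) := by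
    intro m
    induction m with
    | zero => intro z; simp
    | succ m ih =>
      intro z
      rw [pow_succ, pow_succ, AlgHom.mul_apply, AlgHom.mul_apply, hD', ih]
  -- ring homs
  have hφ : ∀ c : κ, algebraMap Ω 𝕂 (algebraMap B Ω (algebraMap κ B c)) =
      algebraMap K 𝕂 (algebraMap κ K c) := by
    intro c
    rw [hcomm, ← IsScalarTower.algebraMap_apply κ B K]
  set πΩ : Polynomial Ω := π.map ((algebraMap B Ω).comp (algebraMap κ B)) with hπΩ
  have hev : ∀ y : K, algebraMap K 𝕂 (aeval y π) = aeval (algebraMap K 𝕂 y) πΩ := by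
    intro y
    rw [hπΩ, aeval_def, aeval_def, eval₂_map, hom_eval₂]
    congr 1
    ext c
    exact (hφ c).symm
  have hπ0 : π ≠ 0 := hπ.ne_zero
  have hsep : πΩ.Separable := hπ.separable.map
  have hπΩ0 : πΩ ≠ 0 := (Polynomial.map_ne_zero_iff (RingHom.injective _)).2 hπ0
  -- the value
  set y : K := (D ^ n) x with hy
  have hlt' : W.valuation (aeval (algebraMap K 𝕂 y) πΩ) < 1 := by
    rw [← hev]
    exact (comap_val_lt_one W _ _).1 hlt
  -- a root
  obtain ⟨θ, hθr, hθ⟩ : ∃ θ ∈ πΩ.roots,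
      W.valuation (algebraMap K 𝕂 y - algebraMap Ω 𝕂 θ) < 1 := by
    by_contra hcon
    push Not at hcon
    have h1 := E7a_exists_root W (algebraMap K 𝕂 y) πΩ.roots hcon
    have h2 : C πΩ.leadingCoeff * (πΩ.roots.map fun θ => X - C θ).prod = πΩ :=
      (IsAlgClosed.splits πΩ).eq_prod_roots.symm
    rw [← h2, map_mul, map_mul, aeval_C,
      E7a_const_val W hWΩ _ (leadingCoeff_ne_zero.2 hπΩ0), one_mul] at hlt'
    exact absurd hlt' (not_lt.2 h1)
  have hroot : πΩ.IsRoot θ := isRoot_of_mem_roots hθr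
  -- no common root
  have hq : qT0 (fun i => algebraMap B Ω (a i)) θ ≠ 0 := by
    intro h0
    obtain ⟨u, v, huv⟩ := hnf π hπ0
    have h1 := congrArg (fun p : K[X] => p.eval₂ (algebraMap K 𝕂) (algebraMap Ω 𝕂 θ)) huv
    simp only [eval₂_add, eval₂_mul, eval₂_one] at h1
    have h2 : (π.map (algebraMap κ K)).eval₂ (algebraMap K 𝕂) (algebraMap Ω 𝕂 θ) = 0 := by
      rw [eval₂_map]
      have h3 : (algebraMap K 𝕂).comp (algebraMap κ K) =
          (algebraMap Ω 𝕂).comp ((algebraMap B Ω).comp (algebraMap κ B)) := by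
        ext c
        exact (hφ c).symm
      rw [h3, ← hom_eval₂, ← eval_map, ← hπΩ, hroot.eq_zero, map_zero]
    have h4 : ((qPoly a).map (algebraMap B K)).eval₂ (algebraMap K 𝕂) (algebraMap Ω 𝕂 θ) = 0 := by
      rw [eval₂_map]
      have h5 : (algebraMap K 𝕂).comp (algebraMap B K) =
          (algebraMap Ω 𝕂).comp (algebraMap B Ω) := by
        ext c
        exact (hcomm c).symm
      rw [h5, ← hom_eval₂]
      have h6 : (qPoly a).eval₂ (algebraMap B Ω) θ = qT0 (fun i => algebraMap B Ω (a i)) θ := by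
        simp [qPoly, qT0]
      rw [h6, h0, map_zero]
    rw [h2, h4] at h1
    simp at h1
  have hval := E7a_val_eq W hWΩ (algebraMap K 𝕂 y) θ hθ πΩ hsep hroot
  have hit : (D' ^ n) (algebraMap K 𝕂 x) = algebraMap K 𝕂 y := hiter n x
  obtain ⟨m, hm⟩ := move_unram Ω 𝕂 (fun i => algebraMap B Ω (a i)) (algebraMap K 𝕂 x)
    (algebraMap K 𝕂 w) D' h' n W hWΩ θ (by rw [hit]; exact hθ) hq (algebraMap K 𝕂 z)
    ((_root_.map_ne_zero _).2 hz)
  refine ⟨m, ?_⟩
  rw [← map_zpow₀, comap_val_eq, hm, hit, map_zpow₀, map_zpow₀, hev, hval]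

end Pool.Agent.LibHP
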