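import Pool.Agent.LibHP3.E2b
import Pool.Agent.LibHP3.E4b
import Pool.Agent.LibHP3.R5

set_option autoImplicit false
open Polynomial

namespace Pool.Agent.LibHP

section E7b
variable {Ω 𝕂 : Type} [Field Ω] [Field 𝕂] [Algebra Ω 𝕂]

/-- Nonzero constants are units. -/
theorem E7b_const (V : ValuationSubring 𝕂)
    (hV : ∀ c : Ω, algebraMap Ω 𝕂 c ∈ V) (c : Ω) (hc : c ≠ 0) :
    V.valuation (algebraMap Ω 𝕂 c) = 1 := by
  apply le_antisymm
  · exact (V.valuation_le_one_iff _).mpr (hV c)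
  · have h1 := (V.valuation_le_one_iff _).mpr (hV c⁻¹)
    rw [map_inv₀, map_inv₀] at h1
    have h2 : V.valuation (algebraMap Ω 𝕂 c) ≠ 0 := by
      rw [Ne, map_eq_zero, map_eq_zero]
      exact hc
    rw [inv_le_one₀ (zero_lt_iff.mpr h2)] at h1
    exact h1

theorem E7b_mem (V : ValuationSubring 𝕂) (hV : ∀ c : Ω, algebraMap Ω 𝕂 c ∈ V) (y : 𝕂)
    (c : Ω) (hy : V.valuation (y - algebraMap Ω 𝕂 c) < 1) : y ∈ V := by
  have h1 : y - algebraMap Ω 𝕂 c ∈ V := (V.valuation_le_one_iff _).mp hy.le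
  have h2 := V.add_mem _ _ h1 (hV c)
  rwa [sub_add_cancel] at h2

theorem E7b_poly_mem (V : ValuationSubring 𝕂) (hV : ∀ c : Ω, algebraMap Ω 𝕂 c ∈ V) (y : 𝕂)
    (hy : y ∈ V) (P : Polynomial Ω) : aeval y P ∈ V := by
  rw [Polynomial.aeval_eq_sum_range]
  refine sum_mem fun i _ => ?_
  rw [Algebra.smul_def]
  exact mul_mem (hV _) (pow_mem hy _)

theorem E7b_val (V : ValuationSubring 𝕂) (hV : ∀ c : Ω, algebraMap Ω 𝕂 c ∈ V) (y : 𝕂)
    (c : Ω) (hy : V.valuation (y - algebraMap Ω 𝕂 c) < 1) (P : Polynomial Ω) :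
    V.valuation (aeval y P - algebraMap Ω 𝕂 (P.eval c)) < 1 := by
  obtain ⟨Q, hQ⟩ := Polynomial.X_sub_C_dvd_sub_C_eval (a := c) (p := P)
  have h1 := congrArg (aeval y) hQ
  rw [map_sub, aeval_C, map_mul, map_sub, aeval_X, aeval_C] at h1
  rw [h1, map_mul]
  have h2 : V.valuation (aeval y Q) ≤ 1 :=
    (V.valuation_le_one_iff _).mpr (E7b_poly_mem V hV y (E7b_mem V hV y c hy) Q)
  exact mul_lt_one_of_lt_of_le hy h2

end E7b

variable (κ B K : Type) [Field κ] [CharZero κ] [Field B] [Field K] [Algebra κ B] [Algebra B K]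
  [Algebra κ K] [IsScalarTower κ B K]

/-- There is a place of `K` over `B` at which `π(D^n x)` vanishes and `P0(x)` does not. -/
theorem exists_place (a : Fin 5 → B) (x w : K) (D : K →ₐ[B] K) (h : EMove B K a x w D)
    (hnf : ∀ p : κ[X], p ≠ 0 →
      IsCoprime (p.map (algebraMap κ K)) ((qPoly a).map (algebraMap B K)))
    (n : ℕ) (P0 : κ[X]) (hP0 : P0 ≠ 0) (hdeg : P0.natDegree < 2 ^ n) (π : κ[X])
    (hπ : Irreducible π) :
    ∃ V : ValuationSubring K, (∀ c : B, algebraMap B K c ∈ V) ∧ x ∈ V ∧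
      V.valuation (aeval x P0) = 1 ∧ V.valuation (aeval ((D ^ n) x) π) < 1 := by
  classical
  have hB : CharZero B := charZero_of_injective_algebraMap (algebraMap κ B).injective
  obtain ⟨Ω, 𝕂, _, _, _, _, _, D', hac, halg, hcomm, hmove, hD'⟩ := exists_geometric B K a x w D h
  have hΩ : CharZero Ω := charZero_of_injective_algebraMap (algebraMap B Ω).injective
  set ρ : κ →+* Ω := (algebraMap B Ω).comp (algebraMap κ B) with hρ
  have hρ𝕂 : (algebraMap K 𝕂).comp (algebraMap κ K) = (algebraMap Ω 𝕂).comp ρ := by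
    ext c
    change algebraMap K 𝕂 (algebraMap κ K c) =
      algebraMap Ω 𝕂 (algebraMap B Ω (algebraMap κ B c))
    rw [IsScalarTower.algebraMap_apply κ B K, hcomm]
  -- a root of `π`
  obtain ⟨θ, hθ⟩ := IsAlgClosed.exists_root (π.map ρ) (by
    rw [Polynomial.degree_map]
    exact hπ.degree_pos.ne')
  have hθ' : π.eval₂ ρ θ = 0 := by
    rw [← Polynomial.eval_map]; exact hθ
  -- it is not a branch point
  have hqθ : qT0 (fun i => algebraMap B Ω (a i)) θ ≠ 0 := by
    intro h0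
    have h1 := (hnf π hπ.ne_zero).map (Polynomial.mapRingHom (algebraMap K 𝕂))
    rw [Polynomial.coe_mapRingHom, Polynomial.map_map, Polynomial.map_map] at h1
    obtain ⟨u, v, huv⟩ := h1
    have h2 := congrArg (Polynomial.eval (algebraMap Ω 𝕂 θ)) huv
    rw [Polynomial.eval_add, Polynomial.eval_mul, Polynomial.eval_mul, Polynomial.eval_one] at h2
    have h3 : (π.map ((algebraMap K 𝕂).comp (algebraMap κ K))).eval (algebraMap Ω 𝕂 θ) = 0 := by
      rw [hρ𝕂, Polynomial.eval_map, ← Polynomial.hom_eval₂, hθ', map_zero]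
    have h4 : ((qPoly a).map ((algebraMap K 𝕂).comp (algebraMap B K))).eval
        (algebraMap Ω 𝕂 θ) = algebraMap Ω 𝕂 (qT0 (fun i => algebraMap B Ω (a i)) θ) := by
      rw [(q_map (algebraMap Ω 𝕂) _ _).1, Polynomial.eval_map]
      have h5 := (q_map (Polynomial.eval₂RingHom ((algebraMap K 𝕂).comp (algebraMap B K))
        (algebraMap Ω 𝕂 θ)) (fun i => (C (a i) : B[X])) X).1
      unfold qPoly
      rw [Polynomial.coe_eval₂RingHom] at h5
      rw [h5]
      congr 1
      · funext i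
        rw [Polynomial.eval₂_C]
        change algebraMap K 𝕂 (algebraMap B K (a i)) = _
        rw [hcomm]
      · rw [Polynomial.eval₂_X]
    rw [h3, h4, h0, map_zero, mul_zero, mul_zero, add_zero] at h2
    exact zero_ne_one h2
  -- the preimages
  obtain ⟨S, hS, hS'⟩ := exists_preimages Ω 𝕂 _ _ _ D' hmove n θ hqθ
  have hP0' : P0.map ρ ≠ 0 := (Polynomial.map_ne_zero_iff ρ.injective).mpr hP0
  obtain ⟨e, heS, heP⟩ : ∃ e ∈ S, (P0.map ρ).eval e ≠ 0 := by
    by_contra hcon
    push Not at hcon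
    have h1 : S ⊆ (P0.map ρ).roots.toFinset := by
      intro e he
      rw [Multiset.mem_toFinset, Polynomial.mem_roots hP0']
      exact hcon e he
    have h2 := Finset.card_le_card h1
    have h3 := (Multiset.toFinset_card_le (P0.map ρ).roots).trans
      (Polynomial.card_roots' (P0.map ρ))
    rw [Polynomial.natDegree_map] at h3
    omega
  obtain ⟨V, hV, hVe⟩ := exists_place_at Ω 𝕂 (algebraMap K 𝕂 x) hmove.tr e
  have hVθ := (hS' e heS).2 V hV hVe
  refine ⟨V.comap (algebraMap K 𝕂), ?_, ?_, ?_, ?_⟩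
  · intro c
    change algebraMap K 𝕂 (algebraMap B K c) ∈ V
    rw [← hcomm]
    exact hV _
  · exact E7b_mem V hV _ e hVe
  · have h1 : (V.comap (algebraMap K 𝕂)).valuation (aeval x P0) =
        (V.comap (algebraMap K 𝕂)).valuation 1 := by
      rw [comap_val_eq, map_one, map_one]
      have h2 : algebraMap K 𝕂 (aeval x P0) = aeval (algebraMap K 𝕂 x) (P0.map ρ) := by
        rw [Polynomial.aeval_def, Polynomial.aeval_def, Polynomial.hom_eval₂, hρ𝕂,
          Polynomial.eval₂_map]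
      rw [h2]
      have h3 := E7b_val V hV _ e hVe (P0.map ρ)
      have h4 := E7b_const V hV _ heP
      have h5 : aeval (algebraMap K 𝕂 x) (P0.map ρ) =
          (aeval (algebraMap K 𝕂 x) (P0.map ρ) - algebraMap Ω 𝕂 ((P0.map ρ).eval e)) +
            algebraMap Ω 𝕂 ((P0.map ρ).eval e) := by ring
      rw [h5, Valuation.map_add_eq_of_lt_right _ (by rw [h4]; exact h3), h4]
    rw [h1, map_one]
  · rw [comap_val_lt_one]
    have hit : ∀ m : ℕ, algebraMap K 𝕂 ((D ^ m) x) = (D' ^ m) (algebraMap K 𝕂 x) := by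
      intro m
      induction m with
      | zero => rfl
      | succ m ih =>
        rw [pow_succ', pow_succ', AlgHom.mul_apply, AlgHom.mul_apply, ← hD', ih]
    have h2 : algebraMap K 𝕂 (aeval ((D ^ n) x) π) =
        aeval ((D' ^ n) (algebraMap K 𝕂 x)) (π.map ρ) := by
      rw [Polynomial.aeval_def, Polynomial.aeval_def, Polynomial.hom_eval₂, hρ𝕂,
        Polynomial.eval₂_map, hit]
    rw [h2]
    have h3 := E7b_val V hV ((D' ^ n) (algebraMap K 𝕂 x)) θ (by rw [hVθ]; exact hVe) (π.map ρ)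
    rw [show (π.map ρ).eval θ = 0 from hθ, map_zero, sub_zero] at h3
    exact h3

end Pool.Agent.LibHP
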