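import Pool.Agent.LibHP2.R1

set_option autoImplicit false
open Polynomial

namespace Pool.Agent.LibHP

/-- If `M` is algebraically closed in `K` and `L` is finite over `K`, then the algebraic closure of
`M` in `L` is finite over `M`. -/
theorem finite_algebraicClosure (M K L : Type) [Field M] [CharZero M] [Field K] [Field L]
    [Algebra M K] [Algebra K L] [Algebra M L] [IsScalarTower M K L] [FiniteDimensional K L]
    (hcl : ∀ c : K, IsAlgebraic M c → ∃ a : M, algebraMap M K a = c) :
    FiniteDimensional M (algebraicClosure M L) := by
  classical
  have hbound : ∀ α : L, IsIntegral M α → (minpoly M α).natDegree ≤ Module.finrank K L := by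
    intro α hα
    rw [← R1_natDegree_minpoly M K L hcl α hα]
    exact minpoly.natDegree_le α
  let S : Set ℕ := {n | ∃ α : L, IsIntegral M α ∧ (minpoly M α).natDegree = n}
  have hS0 : S.Nonempty := ⟨_, 0, isIntegral_zero, rfl⟩
  have hSb : BddAbove S := ⟨Module.finrank K L, by
    rintro n ⟨α, hα, rfl⟩
    exact hbound α hα⟩
  obtain ⟨α, hα, hαS⟩ := Nat.sSup_mem hS0 hSb
  have hmax : ∀ γ : L, IsIntegral M γ → (minpoly M γ).natDegree ≤ (minpoly M α).natDegree := by
    intro γ hγ
    rw [hαS]
    exact le_csSup hSb ⟨γ, hγ, rfl⟩
  have hle : ∀ β : L, IsIntegral M β → β ∈ IntermediateField.adjoin M ({α} : Set L) := by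
    intro β hβ
    have hfd : FiniteDimensional M (IntermediateField.adjoin M ({α, β} : Set L)) := by
      apply IntermediateField.finiteDimensional_adjoin
      intro x hx
      rcases hx with rfl | rfl
      · exact hα
      · exact hβ
    obtain ⟨γ, hγ⟩ := Field.exists_primitive_element M (IntermediateField.adjoin M ({α, β} : Set L))
    have hint : IsIntegral M γ := Algebra.IsIntegral.isIntegral γ
    have hintL : IsIntegral M (γ : L) := hint.map (IntermediateField.adjoin M ({α, β} : Set L)).val
    have h1 : Module.finrank M (IntermediateField.adjoin M ({α, β} : Set L)) =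
        (minpoly M (γ : L)).natDegree := by
      have e1 : minpoly M (γ : L) = minpoly M γ :=
        minpoly.algHom_eq (IntermediateField.adjoin M ({α, β} : Set L)).val
          (IntermediateField.adjoin M ({α, β} : Set L)).val.injective γ
      rw [e1, ← IntermediateField.adjoin.finrank hint, hγ, IntermediateField.finrank_top']
    have h2 : IntermediateField.adjoin M ({α} : Set L) ≤ IntermediateField.adjoin M ({α, β} : Set L) :=
      IntermediateField.adjoin.mono _ _ _ (by simp)
    have h3 : IntermediateField.adjoin M ({α} : Set L) = IntermediateField.adjoin M ({α, β} : Set L) := by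
      apply IntermediateField.eq_of_le_of_finrank_le h2
      rw [h1, IntermediateField.adjoin.finrank hα]
      exact hmax _ hintL
    rw [h3]
    exact IntermediateField.subset_adjoin _ _ (by simp)
  have hfin : FiniteDimensional M (IntermediateField.adjoin M ({α} : Set L)) :=
    IntermediateField.adjoin.finiteDimensional hα
  have hle2 : algebraicClosure M L ≤ IntermediateField.adjoin M ({α} : Set L) := by
    intro β hβ
    exact hle β ((mem_algebraicClosure_iff).1 hβ).isIntegral
  exact FiniteDimensional.of_injective (IntermediateField.inclusion hle2).toLinearMap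
    (IntermediateField.inclusion hle2).injective

end Pool.Agent.LibHP
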