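import Pool.Agent.LibHP2.A2
import Pool.Agent.LibHP2.W3
import Pool.Agent.LibHP3.R4
import Pool.Agent.LibHP3.R5

set_option autoImplicit false
open Polynomial

namespace Pool.Agent.LibHP

theorem E7c_val_lt {K L : Type} [Field K] [Field L] (V : ValuationSubring L) (f : K →+* L)
    (z : K) : (V.comap f).valuation z < 1 ↔ V.valuation (f z) < 1 := by
  rcases eq_or_ne z 0 with rfl | hz
  · simp
  · rw [W3_val_lt _ hz, W3_val_lt _ ((_root_.map_ne_zero f).2 hz), ValuationSubring.mem_comap, map_inv₀]

theorem E7c_val_le {K L : Type} [Field K] [Field L] (V : ValuationSubring L) (f : K →+* L)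
    (z z' : K) (h : V.valuation (f z) ≤ V.valuation (f z')) :
    (V.comap f).valuation z ≤ (V.comap f).valuation z' := by
  rcases eq_or_ne z' 0 with rfl | hz
  · simp only [map_zero] at h ⊢
    have h1 : V.valuation (f z) = 0 := le_antisymm h zero_le
    rw [map_eq_zero, map_eq_zero] at h1
    rw [h1, map_zero]
  · have hv : V.valuation (f z') ≠ 0 := by
      rw [Valuation.ne_zero_iff]
      exact (_root_.map_ne_zero f).2 hz
    have hv' : (V.comap f).valuation z' ≠ 0 := (Valuation.ne_zero_iff _).2 hz
    have h1 : f (z * z'⁻¹) ∈ V := by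
      rw [← V.valuation_le_one_iff, map_mul, map_mul, map_inv₀, map_inv₀]
      exact mul_inv_le_one_of_le₀ h zero_le
    have h2 : z * z'⁻¹ ∈ V.comap f := h1
    rw [← ValuationSubring.valuation_le_one_iff, map_mul, map_inv₀,
      mul_inv_le_iff₀ (zero_lt_iff.2 hv'), one_mul] at h2
    exact h2

theorem E7c_unif {K : Type} [Field K] (O : ValuationSubring K) (π u : K) (h : IsUnif O π)
    (hu : u ∈ O) (hu' : u⁻¹ ∈ O) (hu0 : u ≠ 0) : IsUnif O (π * u) := by
  obtain ⟨h1, h2, h3, h4⟩ := h
  refine ⟨O.mul_mem _ _ h1 hu, mul_ne_zero h2 hu0, ?_, ?_⟩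
  · intro hc
    apply h3
    have : π⁻¹ = (π * u)⁻¹ * u := by
      field_simp
    rw [this]
    exact O.mul_mem _ _ hc hu
  · intro a ha ha0
    obtain ⟨n, v, hv, hv', e⟩ := h4 a ha ha0
    refine ⟨n, v * (u⁻¹) ^ n, O.mul_mem _ _ hv (pow_mem hu' n), ?_, ?_⟩
    · rw [mul_inv, ← inv_pow, inv_inv]
      exact O.mul_mem _ _ hv' (pow_mem hu n)
    · rw [e, mul_pow, mul_assoc, mul_comm (u⁻¹ ^ n), mul_assoc, ← mul_pow, mul_inv_cancel₀ hu0,
        one_pow, mul_one]

/-- positive powers -/
theorem E7c_zpow {G : Type} [LinearOrderedCommGroupWithZero G] {v : G} (hv : v < 1) (hv0 : v ≠ 0)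
    {m : ℤ} (h : v ^ m < 1) : v ^ m ≤ v := by
  rcases m with k | k
  · rcases k with _ | k
    · simp at h
    · simp only [Int.ofNat_eq_natCast, zpow_natCast]
      rw [pow_succ]
      exact mul_le_of_le_one_left' (pow_le_one' hv.le k)
  · exfalso
    rw [zpow_negSucc] at h
    have h1 : v ^ (k + 1) ≤ 1 := pow_le_one' hv.le _
    have h2 : 0 < v ^ (k + 1) := zero_lt_iff.2 (pow_ne_zero _ hv0)
    have h3 : 1 ≤ (v ^ (k + 1))⁻¹ := (one_le_inv₀ h2).2 h1
    exact absurd h (not_lt.2 h3)

theorem E7c_aeval_unique {κ K : Type} [Field κ] [Field K] [Algebra κ K] (y : K)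
    (p : MvPolynomial (Fin 1) κ) :
    aeval y (MvPolynomial.uniqueAlgEquiv κ (Fin 1) p) = MvPolynomial.aeval (fun _ => y) p := by
  have h : (aeval y : κ[X] →ₐ[κ] K).comp (MvPolynomial.uniqueAlgEquiv κ (Fin 1)).toAlgHom =
      MvPolynomial.aeval (fun _ => y) := by
    apply MvPolynomial.algHom_ext
    intro i
    rw [MvPolynomial.aeval_X]
    show aeval y (MvPolynomial.eval₂ Polynomial.C (fun _ => Polynomial.X) (MvPolynomial.X i)) = y
    rw [MvPolynomial.eval₂_X, aeval_X]
  exact congrArg (fun f => f p) h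

theorem E7c_unique_map {κ B : Type} [Field κ] [Field B] (f : κ →+* B)
    (p : MvPolynomial (Fin 1) κ) :
    MvPolynomial.uniqueAlgEquiv B (Fin 1) (MvPolynomial.map f p) =
      (MvPolynomial.uniqueAlgEquiv κ (Fin 1) p).map f := by
  have h : ((MvPolynomial.uniqueAlgEquiv B (Fin 1)).toAlgHom.toRingHom.comp (MvPolynomial.map f)) =
      (Polynomial.mapRingHom f).comp (MvPolynomial.uniqueAlgEquiv κ (Fin 1)).toAlgHom.toRingHom := by
    apply MvPolynomial.ringHom_ext
    · intro a
      show MvPolynomial.eval₂ Polynomial.C (fun _ => Polynomial.X) (MvPolynomial.map f (MvPolynomial.C a)) =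
        (MvPolynomial.eval₂ Polynomial.C (fun _ => Polynomial.X) (MvPolynomial.C a) : κ[X]).map f
      rw [MvPolynomial.map_C, MvPolynomial.eval₂_C, MvPolynomial.eval₂_C, Polynomial.map_C]
    · intro i
      show MvPolynomial.eval₂ Polynomial.C (fun _ => Polynomial.X) (MvPolynomial.map f (MvPolynomial.X i)) =
        (MvPolynomial.eval₂ Polynomial.C (fun _ => Polynomial.X) (MvPolynomial.X i) : κ[X]).map f
      rw [MvPolynomial.map_X, MvPolynomial.eval₂_X, MvPolynomial.eval₂_X, Polynomial.map_X]
  exact congrArg (fun g => g p) h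

theorem E7c_inj {B K : Type} [Field B] [Field K] [Algebra B K] (y : K) (hy : Transcendental B y) :
    Function.Injective (MvPolynomial.aeval (fun _ => y) : MvPolynomial (Fin 1) B →ₐ[B] K) := by
  intro p q hpq
  rw [← E7c_aeval_unique, ← E7c_aeval_unique] at hpq
  exact (MvPolynomial.uniqueAlgEquiv B (Fin 1)).injective
    ((transcendental_iff_injective.1 hy) hpq)

/-- `κ(y)` is algebraically closed in `K` if all the places of `K` over `B` are unramified over
`κ(y)`. -/
theorem closed_of_unram (κ B K : Type) [Field κ] [CharZero κ] [Field B] [Field K] [Algebra κ B]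
    [Algebra B K] [Algebra κ K] [IsScalarTower κ B K]
    (hκ : ∀ c : K, IsAlgebraic κ c → ∃ b : κ, algebraMap κ K b = c)
    (y : K) (hy : Transcendental B y)
    (hU : ∀ V : ValuationSubring K, (∀ c : B, algebraMap B K c ∈ V) → ∀ π : κ[X],
      Irreducible π → V.valuation (aeval y π) < 1 → ∀ z : K, z ≠ 0 →
        ∃ m : ℤ, V.valuation z = V.valuation (aeval y π) ^ m)
    (c : K) (hc : IsAlgebraic (IntermediateField.adjoin κ {y}) c) :
    c ∈ IntermediateField.adjoin κ {y} := by
  classical
  have hB : CharZero B := charZero_of_injective_algebraMap (algebraMap κ B).injective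
  have hK : CharZero K := charZero_of_injective_algebraMap (algebraMap κ K).injective
  -- the embedding of `B(t)`
  let φ : RF B 1 →+* K := IsFractionRing.lift (A := MvPolynomial (Fin 1) B) (K := RF B 1)
    (g := (MvPolynomial.aeval (fun _ => y) : MvPolynomial (Fin 1) B →ₐ[B] K).toRingHom)
    (E7c_inj y hy)
  have hφ : ∀ p : MvPolynomial (Fin 1) B, φ (algebraMap (MvPolynomial (Fin 1) B) (RF B 1) p) =
      MvPolynomial.aeval (fun _ => y) p := fun p => IsFractionRing.lift_algebraMap _ p
  let ρ : RF κ 1 →+* RF B 1 := rfmap (algebraMap κ B) 1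
  have hρ : ∀ p : MvPolynomial (Fin 1) κ, φ (ρ (algebraMap (MvPolynomial (Fin 1) κ) (RF κ 1) p)) =
      aeval y (MvPolynomial.uniqueAlgEquiv κ (Fin 1) p) := by
    intro p
    show φ (rfmap (algebraMap κ B) 1 _) = _
    rw [rfmap_algebraMap, hφ, E7c_aeval_unique, MvPolynomial.aeval_map_algebraMap]
  -- the image of `κ(t)`
  have hrange1 : ∀ g : RF κ 1, φ (ρ g) ∈ IntermediateField.adjoin κ {y} := by
    intro g
    obtain ⟨p, q, -, rfl⟩ := IsFractionRing.div_surjective (A := MvPolynomial (Fin 1) κ) g
    rw [map_div₀, map_div₀, hρ, hρ]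
    have hmem : ∀ r : κ[X], aeval y r ∈ IntermediateField.adjoin κ {y} := by
      intro r
      have h1 : aeval y r ∈ Algebra.adjoin κ {y} := by
        rw [Algebra.adjoin_singleton_eq_range_aeval]
        exact ⟨r, rfl⟩
      exact IntermediateField.algebra_adjoin_le_adjoin κ _ h1
    exact div_mem (hmem _) (hmem _)
  have hrange2 : ∀ z ∈ IntermediateField.adjoin κ {y}, ∃ g : RF κ 1, φ (ρ g) = z := by
    intro z hz
    obtain ⟨r, s, rfl⟩ := (IntermediateField.mem_adjoin_simple_iff κ z).1 hz
    refine ⟨algebraMap (MvPolynomial (Fin 1) κ) (RF κ 1) ((MvPolynomial.uniqueAlgEquiv κ (Fin 1)).symm r) /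
      algebraMap (MvPolynomial (Fin 1) κ) (RF κ 1) ((MvPolynomial.uniqueAlgEquiv κ (Fin 1)).symm s), ?_⟩
    rw [map_div₀, map_div₀, hρ, hρ, AlgEquiv.apply_symm_apply, AlgEquiv.apply_symm_apply]
  let algBK : Algebra (RF B 1) K := φ.toAlgebra
  have halgBK : ∀ g : RF B 1, algebraMap (RF B 1) K g = φ g := fun _ => rfl
  let algκB : Algebra (RF κ 1) (RF B 1) := ρ.toAlgebra
  have halgκB : ∀ g : RF κ 1, algebraMap (RF κ 1) (RF B 1) g = ρ g := fun _ => rfl
  let algκK : Algebra (RF κ 1) K := (φ.comp ρ).toAlgebra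
  have halgκK : ∀ g : RF κ 1, algebraMap (RF κ 1) K g = φ (ρ g) := fun _ => rfl
  have tower1 : IsScalarTower (RF κ 1) (RF B 1) K := IsScalarTower.of_algebraMap_eq fun _ => rfl
  have hM1 : CharZero (RF κ 1) := charZero_of_injective_algebraMap
    (R := MvPolynomial (Fin 1) κ) (A := RF κ 1) (IsFractionRing.injective _ _)
  -- `κ(t)` is closed in `B(t)`
  have hclκ : ∀ e : B, (∃ P : κ[X], P ≠ 0 ∧ P.eval₂ (algebraMap κ B) e = 0) →
      ∃ l, algebraMap κ B l = e := by
    rintro e ⟨P, hP, he⟩
    have h1 : IsAlgebraic κ e := ⟨P, hP, he⟩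
    obtain ⟨b, hb⟩ := hκ (algebraMap B K e) h1.algebraMap
    refine ⟨b, (algebraMap B K).injective ?_⟩
    rw [← IsScalarTower.algebraMap_apply, hb]
  have hcl : ∀ e : RF B 1, IsAlgebraic (RF κ 1) e → ∃ a : RF κ 1, algebraMap (RF κ 1) (RF B 1) a = e := by
    rintro e ⟨P, hP, he⟩
    exact mem_range_rfmap (algebraMap κ B) hclκ 1 e P hP he
  -- `c` is algebraic over `κ(t)`
  have hc1 : IsAlgebraic (RF κ 1) c := by
    have hsurj : ∀ z : IntermediateField.adjoin κ {y}, ∃ g : RF κ 1, φ (ρ g) = z := fun z =>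
      hrange2 z z.2
    choose g hg using hsurj
    have hinj : Function.Injective (φ.comp ρ) := (φ.comp ρ).injective
    let σ : IntermediateField.adjoin κ {y} →+* RF κ 1 :=
      { toFun := g
        map_one' := hinj (by
          show φ (ρ (g 1)) = φ (ρ 1)
          rw [hg, map_one, map_one]; rfl)
        map_mul' := fun a b => hinj (by
          show φ (ρ (g (a * b))) = φ (ρ (g a * g b))
          rw [hg, map_mul, map_mul, hg, hg]; rfl)
        map_zero' := hinj (by
          show φ (ρ (g 0)) = φ (ρ 0)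
          rw [hg, map_zero, map_zero]; rfl)
        map_add' := fun a b => hinj (by
          show φ (ρ (g (a + b))) = φ (ρ (g a + g b))
          rw [hg, map_add, map_add, hg, hg]; rfl) }
    obtain ⟨P, hP, hPc⟩ := hc
    refine ⟨P.map σ, (Polynomial.map_ne_zero_iff σ.injective).2 hP, ?_⟩
    rw [Polynomial.aeval_def, Polynomial.eval₂_map]
    have h1 : (algebraMap (RF κ 1) K).comp σ = algebraMap (IntermediateField.adjoin κ {y}) K := by
      ext z
      exact hg z
    rw [h1]
    exact hPc
  have hc2 : IsAlgebraic (RF B 1) c := IsAlgebraic.tower_top (L := RF B 1) hc1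
  -- the field `L`
  let L := IntermediateField.adjoin (RF B 1) ({c} : Set K)
  have hcL : c ∈ L := IntermediateField.subset_adjoin _ _ rfl
  have hfd : FiniteDimensional (RF B 1) L := IntermediateField.adjoin.finiteDimensional hc2.isIntegral
  let algκL : Algebra (RF κ 1) L := ((algebraMap (RF B 1) L).comp ρ).toAlgebra
  have tower2 : IsScalarTower (RF κ 1) (RF B 1) L := IsScalarTower.of_algebraMap_eq fun _ => rfl
  have tower3 : IsScalarTower (RF κ 1) L K := IsScalarTower.of_algebraMap_eq fun _ => rfl
  have hfin : FiniteDimensional (RF κ 1) (algebraicClosure (RF κ 1) L) :=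
    finite_algebraicClosure (RF κ 1) (RF B 1) L hcl
  have hsurj : Function.Surjective (algebraMap (RF B 1) L) := by
    refine surjective_core_unram κ 1 (RF κ 1) (RF B 1) L hcl ?_ ?_ ?_
    · -- generation
      rw [eq_top_iff]
      intro z _
      set T := Subfield.closure (Set.range (algebraMap (RF B 1) L) ∪ {z : L | IsAlgebraic (RF κ 1) z})
        with hT
      let T' : IntermediateField (RF B 1) K :=
        (T.map (algebraMap L K)).toIntermediateField (by
          intro g
          exact Subfield.mem_map.2 ⟨algebraMap (RF B 1) L g, Subfield.subset_closure (Or.inl ⟨g, rfl⟩), rfl⟩)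
      have hle : L ≤ T' := by
        rw [IntermediateField.adjoin_le_iff]
        rintro x hx
        rw [Set.mem_singleton_iff] at hx
        subst hx
        refine Subfield.mem_map.2 ⟨⟨x, hcL⟩, Subfield.subset_closure (Or.inr ?_), rfl⟩
        exact (isAlgebraic_algebraMap_iff (algebraMap L K).injective).1 hc1
      obtain ⟨w, hw, hwz⟩ := Subfield.mem_map.1 (hle z.2)
      have : w = z := Subtype.ext hwz
      rw [← this]
      exact hw
    · -- constants
      rintro z ⟨P, hP, hPz⟩
      have h1 : IsAlgebraic κ (z : K) := by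
        refine ⟨P, hP, ?_⟩
        have h2 := congrArg (algebraMap L K) hPz
        rw [Polynomial.hom_eval₂, map_zero] at h2
        have h3 : (algebraMap L K).comp ((algebraMap (RF κ 1) L).comp
            ((algebraMap (MvPolynomial (Fin 1) κ) (RF κ 1)).comp MvPolynomial.C)) =
            algebraMap κ K := by
          ext b
          show φ (ρ (algebraMap (MvPolynomial (Fin 1) κ) (RF κ 1) (MvPolynomial.C b))) =
            algebraMap κ K b
          rw [hρ, E7c_aeval_unique, MvPolynomial.aeval_C]
        rw [h3] at h2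
        exact h2
      obtain ⟨b, hb⟩ := hκ _ h1
      refine ⟨b, ?_⟩
      apply Subtype.ext
      show φ (ρ (algebraMap (MvPolynomial (Fin 1) κ) (RF κ 1) (MvPolynomial.C b))) = (z : K)
      rw [hρ, E7c_aeval_unique, MvPolynomial.aeval_C, hb]
    · -- valuations
      intro π hπ
      have hπ1 : Irreducible (MvPolynomial.uniqueAlgEquiv κ (Fin 1) π) :=
        (MulEquiv.irreducible_iff (MvPolynomial.uniqueAlgEquiv κ (Fin 1))).2 hπ
      set π1 := MvPolynomial.uniqueAlgEquiv κ (Fin 1) π with hπ1e
      have hsep : (π1.map (algebraMap κ B)).Separable := hπ1.separable.map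
      have hnu : ¬ IsUnit (π1.map (algebraMap κ B)) := by
        intro h
        have h2 := Polynomial.natDegree_eq_zero_of_isUnit h
        rw [Polynomial.natDegree_map] at h2
        exact hπ1.natDegree_pos.ne' h2
      have hne0 : π1.map (algebraMap κ B) ≠ 0 := by
        rw [Ne, Polynomial.map_eq_zero]
        exact hπ1.ne_zero
      obtain ⟨q, hq, h, hqh⟩ := WfDvdMonoid.exists_irreducible_factor hnu hne0
      have hqndvd : ¬ q ∣ h := by
        rintro ⟨h', rfl⟩
        have hsq := hsep.squarefree
        exact hq.not_isUnit (hsq q ⟨h', by rw [hqh]; ring⟩)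
      let uB := MvPolynomial.uniqueAlgEquiv B (Fin 1)
      have hq' : Irreducible (uB.symm q) := (MulEquiv.irreducible_iff uB.symm).2 hq
      obtain ⟨O, hO1, hO2, hO3⟩ := exists_valPoly B 1 (RF B 1) (uB.symm q) hq'
      have hdvd : ∀ p : MvPolynomial (Fin 1) B, uB.symm q ∣ p ↔ q ∣ uB p := by
        intro p
        constructor
        · rintro ⟨r, rfl⟩
          exact ⟨uB r, by rw [map_mul, AlgEquiv.apply_symm_apply]⟩
        · rintro ⟨r, hr⟩
          refine ⟨uB.symm r, uB.injective ?_⟩
          rw [map_mul, AlgEquiv.apply_symm_apply, AlgEquiv.apply_symm_apply, hr]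
      have hOp : ∀ p : MvPolynomial (Fin 1) B, algebraMap (MvPolynomial (Fin 1) B) (RF B 1) p ∈ O := by
        intro p
        rw [hO2]
        refine ⟨p, 1, ?_, by rw [map_one, mul_one]⟩
        intro hd
        exact hq'.not_isUnit (isUnit_of_dvd_one hd)
      have hmapπ : MvPolynomial.map (algebraMap κ B) π = uB.symm q * uB.symm h := by
        apply uB.injective
        rw [map_mul, AlgEquiv.apply_symm_apply, AlgEquiv.apply_symm_apply, ← hqh]
        exact E7c_unique_map _ _
      have hh0 : uB.symm h ≠ 0 := by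
        intro h0
        have : h = 0 := by
          have := congrArg uB h0
          rwa [AlgEquiv.apply_symm_apply, map_zero] at this
        exact hqndvd (this ▸ dvd_zero q)
      have hh1 : algebraMap (MvPolynomial (Fin 1) B) (RF B 1) (uB.symm h) ≠ 0 :=
        (IsFractionRing.to_map_eq_zero_iff (K := RF B 1)).not.mpr hh0
      have hhinv : (algebraMap (MvPolynomial (Fin 1) B) (RF B 1) (uB.symm h))⁻¹ ∈ O := by
        rw [hO2]
        refine ⟨1, uB.symm h, ?_, by rw [inv_mul_cancel₀ hh1, map_one]⟩
        rw [hdvd, AlgEquiv.apply_symm_apply]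
        exact hqndvd
      have hπO : algebraMap (RF κ 1) (RF B 1) (algebraMap (MvPolynomial (Fin 1) κ) (RF κ 1) π) =
          algebraMap (MvPolynomial (Fin 1) B) (RF B 1) (uB.symm q) *
          algebraMap (MvPolynomial (Fin 1) B) (RF B 1) (uB.symm h) := by
        rw [← map_mul, ← hmapπ]
        exact rfmap_algebraMap _ _
      have hunif : IsUnif O (algebraMap (RF κ 1) (RF B 1) (algebraMap (MvPolynomial (Fin 1) κ) (RF κ 1) π)) := by
        rw [hπO]
        exact E7c_unif O _ _ hO1 (hOp _) hhinv hh1
      refine ⟨O, hunif, ?_, ?_, ?_⟩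
      · intro p
        have : algebraMap (RF κ 1) (RF B 1) (algebraMap (MvPolynomial (Fin 1) κ) (RF κ 1) p) =
            algebraMap (MvPolynomial (Fin 1) B) (RF B 1) (MvPolynomial.map (algebraMap κ B) p) :=
          rfmap_algebraMap _ _
        rw [this]
        exact hOp _
      · intro p
        have : algebraMap (RF κ 1) (RF B 1) (algebraMap (MvPolynomial (Fin 1) κ) (RF κ 1) p) =
            algebraMap (MvPolynomial (Fin 1) B) (RF B 1) (MvPolynomial.map (algebraMap κ B) p) :=
          rfmap_algebraMap _ _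
        rw [this, hO3, hdvd]
        constructor
        · intro hd
          by_contra hnd
          have hnd1 : ¬ π1 ∣ MvPolynomial.uniqueAlgEquiv κ (Fin 1) p := by
            rintro ⟨r, hr⟩
            apply hnd
            refine ⟨(MvPolynomial.uniqueAlgEquiv κ (Fin 1)).symm r,
              (MvPolynomial.uniqueAlgEquiv κ (Fin 1)).injective ?_⟩
            rw [map_mul, AlgEquiv.apply_symm_apply, hr]
          obtain ⟨a, b, hab⟩ := (hπ1.coprime_iff_not_dvd).2 hnd1
          have h2 := congrArg (Polynomial.map (algebraMap κ B)) hab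
          rw [Polynomial.map_add, Polynomial.map_mul, Polynomial.map_mul, Polynomial.map_one] at h2
          have h3 : q ∣ (1 : B[X]) := by
            rw [← h2]
            apply dvd_add
            · exact Dvd.dvd.mul_left ⟨h, hqh⟩ _
            · rw [← E7c_unique_map]
              exact Dvd.dvd.mul_left hd _
          exact hq.not_isUnit (isUnit_of_dvd_one h3)
        · rintro ⟨r, rfl⟩
          show q ∣ (MvPolynomial.uniqueAlgEquiv B (Fin 1)) _
          rw [map_mul, map_mul, E7c_unique_map]
          exact Dvd.dvd.mul_right ⟨h, hqh⟩ _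
      · intro W hW z hz
        obtain ⟨V, hV⟩ := exists_extension L K (algebraMap L K) W
        have hVO : ∀ g : RF B 1, g ∈ O → φ g ∈ V := by
          intro g hg
          rw [← hW, ← hV] at hg
          exact hg
        have hVB : ∀ b : B, algebraMap B K b ∈ V := by
          intro b
          have h1 := hVO _ (hOp (MvPolynomial.C b))
          rw [hφ, MvPolynomial.aeval_C] at h1
          exact h1
        have hπV : φ (algebraMap (RF κ 1) (RF B 1) (algebraMap (MvPolynomial (Fin 1) κ) (RF κ 1) π)) =
            aeval y π1 := hρ π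
        have hlt : V.valuation (aeval y π1) < 1 := by
          rw [← hπV]
          have h1 : ((V.comap (algebraMap L K)).comap (algebraMap (RF B 1) L)).valuation
              (algebraMap (RF κ 1) (RF B 1) (algebraMap (MvPolynomial (Fin 1) κ) (RF κ 1) π)) < 1 := by
            rw [hV, hW, W3_val_lt O hunif.2.1]
            exact hunif.2.2.1
          rw [E7c_val_lt, E7c_val_lt] at h1
          exact h1
        rw [← hV] at hz ⊢
        rw [E7c_val_lt] at hz
        apply E7c_val_le
        have e1 : algebraMap L K (algebraMap (RF κ 1) L (algebraMap (MvPolynomial (Fin 1) κ) (RF κ 1) π)) =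
            aeval y π1 := hρ π
        rw [e1]
        rcases eq_or_ne z 0 with rfl | hz0
        · simp
        have hzK : algebraMap L K z ≠ 0 := (_root_.map_ne_zero _).2 hz0
        obtain ⟨m, hm⟩ := hU V hVB π1 hπ1 hlt (algebraMap L K z) hzK
        rw [hm] at hz ⊢
        apply E7c_zpow hlt _ hz
        rw [Valuation.ne_zero_iff, ← hπV]
        exact (_root_.map_ne_zero φ).2 hunif.2.1
  obtain ⟨g, hg⟩ := hsurj ⟨c, hcL⟩
  have hgc : φ g = c := congrArg Subtype.val hg
  have hgalg : IsAlgebraic (RF κ 1) g := by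
    have h1 : IsAlgebraic (RF κ 1) (algebraMap (RF B 1) K g) := by
      rw [halgBK, hgc]; exact hc1
    exact (isAlgebraic_algebraMap_iff (algebraMap (RF B 1) K).injective).1 h1
  obtain ⟨a, ha⟩ := hcl g hgalg
  rw [← hgc, ← ha]
  exact hrange1 a

end Pool.Agent.LibHP
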