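import Pool.Agent.LibHP3.E7a
import Pool.Agent.LibHP3.E7c

set_option autoImplicit false
open Polynomial

namespace Pool.Agent.LibHP

/-- The iterates of the move keep transcendental elements transcendental over `B`. -/
theorem move_iterate_transcendental (B K : Type) [Field B] [Field K] [Algebra B K] (x : K)
    (hx : Transcendental B x) (D : K →ₐ[B] K) (n : ℕ) : Transcendental B ((D ^ n) x) := by
  intro h
  exact hx ((isAlgebraic_algHom_iff (D ^ n) (D ^ n).toRingHom.injective).1 h)

/-- `κ(D^n x)` is algebraically closed in `K`. -/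
theorem move_closed (κ B K : Type) [Field κ] [CharZero κ] [Field B] [Field K] [Algebra κ B]
    [Algebra B K] [Algebra κ K] [IsScalarTower κ B K] (a : Fin 5 → B) (x w : K) (D : K →ₐ[B] K)
    (h : EMove B K a x w D) (hκ : ∀ c : K, IsAlgebraic κ c → ∃ b : κ, algebraMap κ K b = c)
    (hnf : ∀ p : κ[X], p ≠ 0 →
      IsCoprime (p.map (algebraMap κ K)) ((qPoly a).map (algebraMap B K)))
    (n : ℕ) (c : K) (hc : IsAlgebraic (IntermediateField.adjoin κ {(D ^ n) x}) c) :
    c ∈ IntermediateField.adjoin κ {(D ^ n) x} :=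
  closed_of_unram κ B K hκ _ (move_iterate_transcendental B K x h.tr D n)
    (fun V hV π hπ hlt z hz => place_unram κ B K a x w D h hnf n V hV π hπ hlt z hz) c hc

end Pool.Agent.LibHP
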