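import Pool.Agent.LibHP2.R2

set_option autoImplicit false
open Polynomial

namespace Pool.Agent.LibHP

/-- If `L = K(θ)`, with `θ` a root of a monic polynomial over the discrete valuation ring `O` whose
reduction is separable, then `L` is unramified over `O`. -/
theorem unram_of_separable (K L : Type) [Field K] [Field L] [Algebra K L]
    (O : ValuationSubring K) (π : K) (hπ : IsUnif O π) (θ : L)
    (hgen : ∀ z : L, ∃ P : K[X], z = aeval θ P) (f : O[X]) (hf : f.Monic)
    (hθ : f.eval₂ ((algebraMap K L).comp O.subtype) θ = 0)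
    (hsep : (f.map (IsLocalRing.residue O)).Separable)
    (W : ValuationSubring L) (hW : W.comap (algebraMap K L) = O) :
    Unram W (algebraMap K L π) := by
  classical
  intro z hz
  obtain ⟨P, hzP⟩ := hgen z
  have hOW : ∀ a : K, a ∈ O → algebraMap K L a ∈ W := by
    intro a ha
    rw [← hW] at ha
    exact ha
  have hWO : ∀ a : K, algebraMap K L a ∈ W → a ∈ O := by
    intro a ha
    rw [← hW]
    exact ha
  -- the maps
  let j : O →+* L := (algebraMap K L).comp O.subtype
  have hj : ∀ a : O, j a = algebraMap K L (a : K) := fun a => rfl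
  let ev : O[X] →+* L := Polynomial.eval₂RingHom j θ
  -- θ ∈ W
  have hθW : θ ∈ W := by
    let ρ : O →+* W := (j).codRestrict W (fun a => hOW _ a.2)
    have h2 : IsIntegral W θ := by
      refine ⟨f.map ρ, hf.map ρ, ?_⟩
      rw [Polynomial.eval₂_map]
      exact hθ
    obtain ⟨y, hy⟩ := IsIntegrallyClosed.isIntegral_iff.mp h2
    rw [← hy]
    exact y.2
  have hev1 : ∀ A : O[X], W.valuation (ev A) ≤ 1 := by
    intro A
    rw [ValuationSubring.valuation_le_one_iff]
    show Polynomial.eval₂ j θ A ∈ W
    rw [Polynomial.eval₂_eq_sum, Polynomial.sum]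
    apply Subring.sum_mem W.toSubring
    intro i _
    exact W.mul_mem _ _ (hOW _ (A.coeff i).2) (pow_mem hθW i)
  -- the uniformizer
  have hπ0 : algebraMap K L π ≠ 0 := by
    simpa using hπ.2.1
  have hvπ0 : W.valuation (algebraMap K L π) ≠ 0 := by
    simpa using hπ0
  have hvπ : W.valuation (algebraMap K L π) < 1 := by
    rw [lt_iff_le_and_ne]
    refine ⟨(W.valuation_le_one_iff _).mpr (hOW _ hπ.1), ?_⟩
    intro h1
    apply hπ.2.2.1
    apply hWO
    rw [map_inv₀]
    rw [← W.valuation_le_one_iff, map_inv₀, h1, inv_one]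
  let ϖ : O := ⟨π, hπ.1⟩
  have hevϖ : ∀ R : O[X], ev (C ϖ * R) = algebraMap K L π * ev R := by
    intro R
    rw [map_mul]
    congr 1
    show Polynomial.eval₂ j θ (C ϖ) = _
    rw [Polynomial.eval₂_C]
    rfl
  have hlift : ∀ q : (IsLocalRing.ResidueField O)[X], ∃ Q : O[X],
      Q.map (IsLocalRing.residue O) = q := by
    intro q
    exact Polynomial.map_surjective _ IsLocalRing.residue_surjective q
  have hcmp : ∀ A B : O[X], A.map (IsLocalRing.residue O) = B.map (IsLocalRing.residue O) →
      ∃ R : O[X], ev A = ev B + algebraMap K L π * ev R := by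
    intro A B hAB
    obtain ⟨R, hR⟩ := R2_dvd O π hπ (A - B) (by rw [Polynomial.map_sub, hAB, sub_self])
    refine ⟨R, ?_⟩
    rw [← hevϖ, ← map_add]
    congr 1
    rw [← hR]; ring
  -- the polynomial
  let f0 : O[X] := f
  have hf0 : ev f0 = 0 := hθ
  have hfsep : (f0.map (IsLocalRing.residue O)).Separable := hsep
  -- key claim
  have key : ∀ A : O[X], W.valuation (ev A) < 1 → ∃ E R : O[X], W.valuation (ev E) = 1 ∧
      ev E * ev A = algebraMap K L π * ev R := by
    intro A hA
    obtain ⟨e, he⟩ := EuclideanDomain.gcd_dvd_right (A.map (IsLocalRing.residue O))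
      (f0.map (IsLocalRing.residue O))
    obtain ⟨t, ht⟩ := EuclideanDomain.gcd_dvd_left (A.map (IsLocalRing.residue O))
      (f0.map (IsLocalRing.residue O))
    have hbz := EuclideanDomain.gcd_eq_gcd_ab (A.map (IsLocalRing.residue O))
      (f0.map (IsLocalRing.residue O))
    generalize EuclideanDomain.gcd (A.map (IsLocalRing.residue O))
      (f0.map (IsLocalRing.residue O)) = d at he ht hbz
    have hcop : IsCoprime d e := by
      apply Polynomial.Separable.isCoprime
      rw [← he]; exact hfsep
    obtain ⟨x', y', hxy⟩ := hcop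
    obtain ⟨D, hD⟩ := hlift d
    obtain ⟨E, hE⟩ := hlift e
    obtain ⟨T, hT⟩ := hlift t
    obtain ⟨X', hX'⟩ := hlift x'
    obtain ⟨Y', hY'⟩ := hlift y'
    obtain ⟨GA, hGA⟩ := hlift (EuclideanDomain.gcdA (A.map (IsLocalRing.residue O))
      (f0.map (IsLocalRing.residue O)))
    obtain ⟨GB, hGB⟩ := hlift (EuclideanDomain.gcdB (A.map (IsLocalRing.residue O))
      (f0.map (IsLocalRing.residue O)))
    obtain ⟨R1, hR1⟩ := hcmp (E * A) (T * f0) (by
      rw [Polynomial.map_mul, Polynomial.map_mul, hE, hT, he]
      nth_rewrite 1 [ht]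
      ring)
    obtain ⟨R2, hR2⟩ := hcmp D (A * GA + f0 * GB) (by
      rw [Polynomial.map_add, Polynomial.map_mul, Polynomial.map_mul, hD, hGA, hGB]
      exact hbz)
    obtain ⟨R3, hR3⟩ := hcmp (X' * D + Y' * E) 1 (by
      rw [Polynomial.map_add, Polynomial.map_mul, Polynomial.map_mul, hD, hE, hX', hY',
        Polynomial.map_one]
      exact hxy)
    rw [map_mul, map_mul, hf0, mul_zero, zero_add] at hR1
    rw [map_add, map_mul, map_mul, hf0, zero_mul, add_zero] at hR2
    rw [map_add, map_mul, map_mul, map_one] at hR3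
    refine ⟨E, R1, ?_, hR1⟩
    by_contra hne
    have hElt : W.valuation (ev E) < 1 := lt_of_le_of_ne (hev1 E) hne
    have hmul : ∀ x y : L, W.valuation x ≤ 1 → W.valuation y < 1 → W.valuation (x * y) < 1 := by
      intro x y hx hy
      rw [map_mul]
      exact lt_of_le_of_lt (mul_le_of_le_one_left' hx) hy
    have hDlt : W.valuation (ev D) < 1 := by
      rw [hR2]
      refine lt_of_le_of_lt (W.valuation.map_add _ _) (max_lt ?_ ?_)
      · rw [mul_comm]; exact hmul _ _ (hev1 _) hA
      · rw [mul_comm]; exact hmul _ _ (hev1 _) hvπ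
    have h1 : (1 : L) = (ev X' * ev D + ev Y' * ev E) - ev R3 * algebraMap K L π := by
      rw [hR3]; ring
    have h2 : W.valuation (1 : L) < 1 := by
      rw [h1]
      refine lt_of_le_of_lt (W.valuation.map_sub _ _) (max_lt ?_ ?_)
      · refine lt_of_le_of_lt (W.valuation.map_add _ _) (max_lt ?_ ?_)
        · exact hmul _ _ (hev1 _) hDlt
        · exact hmul _ _ (hev1 _) hElt
      · exact hmul _ _ (hev1 _) hvπ
    rw [map_one] at h2
    exact lt_irrefl _ h2
  have ind : ∀ (m : ℕ) (A : O[X]), W.valuation (ev A) < W.valuation (algebraMap K L π) ^ m →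
      W.valuation (ev A) ≤ W.valuation (algebraMap K L π) ^ (m + 1) := by
    intro m
    induction m with
    | zero =>
      intro A hA
      rw [pow_zero] at hA
      obtain ⟨E, R, hE, hER⟩ := key A hA
      have h1 : W.valuation (ev A) = W.valuation (algebraMap K L π) * W.valuation (ev R) := by
        rw [← map_mul, ← hER, map_mul, hE, one_mul]
      rw [h1, zero_add, pow_one]
      exact mul_le_of_le_one_right' (hev1 R)
    | succ m ih =>
      intro A hA
      have hA1 : W.valuation (ev A) < 1 :=
        lt_of_lt_of_le hA (pow_le_one' hvπ.le _)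
      obtain ⟨E, R, hE, hER⟩ := key A hA1
      have h1 : W.valuation (ev A) = W.valuation (algebraMap K L π) * W.valuation (ev R) := by
        rw [← map_mul, ← hER, map_mul, hE, one_mul]
      rw [h1, pow_succ'] at hA
      have h2 : W.valuation (ev R) < W.valuation (algebraMap K L π) ^ m := by
        exact lt_of_mul_lt_mul_left hA zero_le
      have h3 := ih R h2
      rw [h1, pow_succ' _ (m + 1)]
      gcongr
  -- clearing denominators
  have hden : ∀ Q : K[X], ∃ (m : ℕ) (A : O[X]), ev A = algebraMap K L π ^ m * aeval θ Q := by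
    intro Q
    induction Q using Polynomial.induction_on' with
    | add p q hp hq =>
      obtain ⟨m, A, hA⟩ := hp
      obtain ⟨m', A', hA'⟩ := hq
      refine ⟨m + m', C ϖ ^ m' * A + C ϖ ^ m * A', ?_⟩
      have hpow : ∀ (i : ℕ) (R : O[X]), ev (C ϖ ^ i * R) = algebraMap K L π ^ i * ev R := by
        intro i
        induction i with
        | zero => intro R; simp
        | succ i ih =>
          intro R
          rw [pow_succ, mul_assoc, ih, hevϖ]; ring
      rw [map_add, hpow, hpow, hA, hA', map_add, pow_add]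
      ring
    | monomial n a =>
      have : ∃ (m : ℕ) (b : O), (b : K) = π ^ m * a := by
        by_cases ha : a ∈ O
        · exact ⟨0, ⟨a, ha⟩, by simp⟩
        · have ha' : a⁻¹ ∈ O := (O.mem_or_inv_mem a).resolve_left ha
          have ha0 : a ≠ 0 := by
            rintro rfl
            exact ha O.zero_mem
          obtain ⟨m, u, hu, hui, hau⟩ := hπ.2.2.2 a⁻¹ ha' (inv_ne_zero ha0)
          refine ⟨m, ⟨u⁻¹, hui⟩, ?_⟩
          show u⁻¹ = π ^ m * a
          have hu0 : u ≠ 0 := by
            rintro rfl
            rw [zero_mul] at hau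
            exact ha0 (by simpa using hau)
          field_simp
          have : a = (u * π ^ m)⁻¹ := by rw [← hau, inv_inv]
          rw [this]
          have := hπ.2.1
          field_simp
      obtain ⟨m, b, hb⟩ := this
      refine ⟨m, Polynomial.monomial n b, ?_⟩
      show Polynomial.eval₂ j θ (Polynomial.monomial n b) = _
      rw [Polynomial.eval₂_monomial, Polynomial.aeval_monomial, hj, hb]
      simp [mul_assoc]
  obtain ⟨m, A, hA⟩ := hden P
  rw [← hzP] at hA
  have h1 : W.valuation (ev A) < W.valuation (algebraMap K L π) ^ m := by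
    rw [hA, map_mul, map_pow]
    calc W.valuation (algebraMap K L π) ^ m * W.valuation z
        < W.valuation (algebraMap K L π) ^ m * 1 := by
          apply mul_lt_mul_of_pos_left hz
          exact zero_lt_iff.mpr (pow_ne_zero _ hvπ0)
      _ = _ := mul_one _
  have h2 := ind m A h1
  rw [hA, map_mul, map_pow, pow_succ] at h2
  exact le_of_mul_le_mul_left h2 (zero_lt_iff.mpr (pow_ne_zero _ hvπ0))

end Pool.Agent.LibHP
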