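import Pool.Agent.LibHP3.E7b
import Pool.Agent.LibHP3.E8a
import Pool.Agent.LibHP3.R3

set_option autoImplicit false
open Polynomial

namespace Pool.Agent.LibHP

/-- `κ(y)` is a fraction field of the polynomial ring. -/
theorem E8b_frac (κ K : Type) [Field κ] [Field K] [Algebra κ K] (y : K) (hy : Transcendental κ y) :
    ∃ alg : Algebra (MvPolynomial (Fin 1) κ) (IntermediateField.adjoin κ {y}),
      @IsFractionRing (MvPolynomial (Fin 1) κ) _ (IntermediateField.adjoin κ {y}) _ alg ∧
      ∀ p : MvPolynomial (Fin 1) κ,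
        ((@algebraMap _ _ _ _ alg p : IntermediateField.adjoin κ {y}) : K) =
          aeval y (MvPolynomial.uniqueAlgEquiv κ (Fin 1) p) := by
  let y' : IntermediateField.adjoin κ {y} := ⟨y, IntermediateField.subset_adjoin _ _ rfl⟩
  let f : MvPolynomial (Fin 1) κ →ₐ[κ] IntermediateField.adjoin κ {y} :=
    MvPolynomial.aeval (fun _ => y')
  let alg : Algebra (MvPolynomial (Fin 1) κ) (IntermediateField.adjoin κ {y}) :=
    f.toRingHom.toAlgebra
  have halg : ∀ p : MvPolynomial (Fin 1) κ,
      ((algebraMap (MvPolynomial (Fin 1) κ) (IntermediateField.adjoin κ {y}) p :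
        IntermediateField.adjoin κ {y}) : K) = aeval y (MvPolynomial.uniqueAlgEquiv κ (Fin 1) p) := by
    intro p
    rw [E7c_aeval_unique]
    show (IntermediateField.adjoin κ {y}).val (MvPolynomial.aeval (fun _ => y') p) = _
    have h := MvPolynomial.comp_aeval (R := κ) (fun _ : Fin 1 => y') (IntermediateField.adjoin κ {y}).val
    exact congrArg (fun g => g p) h
  have hinj : Function.Injective (algebraMap (MvPolynomial (Fin 1) κ) (IntermediateField.adjoin κ {y})) := by
    intro p q hpq
    have h1 := congrArg (fun z : IntermediateField.adjoin κ {y} => (z : K)) hpq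
    simp only [halg] at h1
    exact (MvPolynomial.uniqueAlgEquiv κ (Fin 1)).injective ((transcendental_iff_injective.1 hy) h1)
  have hfaith : FaithfulSMul (MvPolynomial (Fin 1) κ) (IntermediateField.adjoin κ {y}) :=
    (faithfulSMul_iff_algebraMap_injective _ _).2 hinj
  refine ⟨alg, ?_, halg⟩
  apply IsFractionRing.of_field
  intro z
  obtain ⟨r, s, hrs⟩ := (IntermediateField.mem_adjoin_simple_iff κ (z : K)).1 z.2
  refine ⟨(MvPolynomial.uniqueAlgEquiv κ (Fin 1)).symm r,
    (MvPolynomial.uniqueAlgEquiv κ (Fin 1)).symm s, Subtype.ext ?_⟩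
  rw [hrs]
  show _ = ((algebraMap (MvPolynomial (Fin 1) κ) (IntermediateField.adjoin κ {y}) _ :
        IntermediateField.adjoin κ {y}) : K) / ((algebraMap (MvPolynomial (Fin 1) κ) (IntermediateField.adjoin κ {y}) _ :
        IntermediateField.adjoin κ {y}) : K)
  rw [halg, halg, AlgEquiv.apply_symm_apply, AlgEquiv.apply_symm_apply]

/-- a valuation ring containing `κ` in which `π(y)` is integral contains `y` -/
theorem E8b_mem {κ K : Type} [Field κ] [Field K] [Algebra κ K] (V : ValuationSubring K)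
    (hV : ∀ c : κ, algebraMap κ K c ∈ V) (y : K) (π : κ[X]) (hπ : Irreducible π)
    (hy : aeval y π ∈ V) : y ∈ V := by
  let ι : κ →+* V := (algebraMap κ K).codRestrict V hV
  let g0 : κ[X] := π * C (π.leadingCoeff)⁻¹
  have hg0 : g0.Monic := monic_mul_leadingCoeff_inv hπ.ne_zero
  have hd : g0.degree = π.degree := degree_mul_leadingCoeff_inv π hπ.ne_zero
  have hmem : aeval y g0 ∈ V := by
    rw [map_mul, aeval_C]
    exact V.mul_mem _ _ hy (hV _)
  have hmon : (g0.map ι - C (⟨aeval y g0, hmem⟩ : V)).Monic := by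
    apply (hg0.map ι).sub_of_left
    refine lt_of_le_of_lt degree_C_le ?_
    rw [Polynomial.degree_map, hd, Polynomial.degree_eq_natDegree hπ.ne_zero]
    exact_mod_cast hπ.natDegree_pos
  have hint : IsIntegral V y := by
    refine ⟨_, hmon, ?_⟩
    rw [Polynomial.eval₂_sub, Polynomial.eval₂_C, Polynomial.eval₂_map]
    show eval₂ (algebraMap κ K) y g0 - aeval y g0 = 0
    rw [Polynomial.aeval_def, sub_self]
  obtain ⟨z, hz⟩ := IsIntegrallyClosed.isIntegral_iff.mp hint
  rw [← hz]
  exact z.2

theorem E8b_zpow {G : Type} [LinearOrderedCommGroupWithZero G] {v : G} (hv : v < 1) (hv0 : v ≠ 0)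
    {m : ℤ} (h : v ^ m ≤ 1) : ∃ k : ℕ, v ^ m = v ^ k := by
  rcases m with k | k
  · exact ⟨k, by simp⟩
  · exfalso
    rw [zpow_negSucc] at h
    have h2 : 0 < v ^ (k + 1) := zero_lt_iff.2 (pow_ne_zero _ hv0)
    have h3 : 1 < (v ^ (k + 1))⁻¹ := by
      rw [one_lt_inv₀ h2, pow_succ]
      exact lt_of_le_of_lt (mul_le_of_le_one_left' (pow_le_one' hv.le k)) hv
    exact absurd h (not_le.2 h3)

/-- The case where `κ` is algebraically closed in `L`. -/
theorem E_surj (κ B K L : Type) [Field κ] [CharZero κ] [Field B] [Field K] [Algebra κ B]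
    [Algebra B K] [Algebra κ K] [IsScalarTower κ B K] [Field L] [Algebra K L] [Algebra κ L]
    [IsScalarTower κ K L] [FiniteDimensional K L] (a : Fin 5 → B) (x w : K) (D : K →ₐ[B] K)
    (h : EMove B K a x w D) (hκ : ∀ z : L, IsAlgebraic κ z → ∃ b : κ, algebraMap κ L b = z)
    (hnf : ∀ p : κ[X], p ≠ 0 →
      IsCoprime (p.map (algebraMap κ K)) ((qPoly a).map (algebraMap B K)))
    (θ : L) (f : κ[X][X]) (P0 : κ[X]) (hf : f.Monic) (hP0 : P0 ≠ 0)
    (hθ : f.eval₂ ((algebraMap K L).comp (aeval x : κ[X] →ₐ[κ] K).toRingHom) θ = 0)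
    (hgen : ∀ z : L, ∃ P : K[X], z = aeval θ P)
    (hsep : ∃ A B' : κ[X][X], A * f + B' * derivative f = C P0) (n : ℕ)
    (hn : P0.natDegree < 2 ^ n)
    (h2 : Subfield.closure (Set.range (algebraMap K L) ∪
      {z : L | IsAlgebraic (IntermediateField.adjoin κ {(D ^ n) x}) z}) = ⊤) :
    Function.Surjective (algebraMap K L) := by
  classical
  set y : K := (D ^ n) x with hy
  have hyB : Transcendental B y := move_iterate_transcendental B K x h.tr D n
  have hyκ : Transcendental κ y := by
    intro hc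
    exact hyB (IsAlgebraic.tower_top (L := B) hc)
  obtain ⟨alg, hfrac, halg⟩ := E8b_frac κ K y hyκ
  have hκK : ∀ c : K, IsAlgebraic κ c → ∃ b : κ, algebraMap κ K b = c := by
    intro c hc
    obtain ⟨b, hb⟩ := hκ (algebraMap K L c) hc.algebraMap
    refine ⟨b, (algebraMap K L).injective ?_⟩
    rw [← IsScalarTower.algebraMap_apply, hb]
  have hcl : ∀ c : K, IsAlgebraic (IntermediateField.adjoin κ {y}) c →
      ∃ b : IntermediateField.adjoin κ {y}, algebraMap (IntermediateField.adjoin κ {y}) K b = c :=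
    fun c hc => ⟨⟨c, move_closed κ B K a x w D h hκK hnf n c hc⟩, rfl⟩
  have hM : CharZero (IntermediateField.adjoin κ {y}) :=
    charZero_of_injective_algebraMap (algebraMap κ (IntermediateField.adjoin κ {y})).injective
  have hfin : FiniteDimensional (IntermediateField.adjoin κ {y})
      (algebraicClosure (IntermediateField.adjoin κ {y}) L) :=
    finite_algebraicClosure (IntermediateField.adjoin κ {y}) K L hcl
  have halg' : ∀ p : MvPolynomial (Fin 1) κ, algebraMap (IntermediateField.adjoin κ {y}) K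
      (algebraMap (MvPolynomial (Fin 1) κ) (IntermediateField.adjoin κ {y}) p) =
      aeval y (MvPolynomial.uniqueAlgEquiv κ (Fin 1) p) := halg
  have halgL : ∀ p : MvPolynomial (Fin 1) κ, algebraMap (IntermediateField.adjoin κ {y}) L
      (algebraMap (MvPolynomial (Fin 1) κ) (IntermediateField.adjoin κ {y}) p) =
      algebraMap K L (aeval y (MvPolynomial.uniqueAlgEquiv κ (Fin 1) p)) := by
    intro p
    rw [IsScalarTower.algebraMap_apply (IntermediateField.adjoin κ {y}) K L, halg']
  have hC : ∀ b : κ, aeval y (MvPolynomial.uniqueAlgEquiv κ (Fin 1) (MvPolynomial.C b)) =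
      algebraMap κ K b := by
    intro b
    rw [E7c_aeval_unique, MvPolynomial.aeval_C]
  refine surjective_core_unram κ 1 (IntermediateField.adjoin κ {y}) K L hcl h2 ?_ ?_
  · rintro z ⟨P, hP, hPz⟩
    have h3 : (algebraMap (IntermediateField.adjoin κ {y}) L).comp
        ((algebraMap (MvPolynomial (Fin 1) κ) (IntermediateField.adjoin κ {y})).comp MvPolynomial.C) =
        algebraMap κ L := by
      ext b
      show algebraMap (IntermediateField.adjoin κ {y}) L
        (algebraMap (MvPolynomial (Fin 1) κ) (IntermediateField.adjoin κ {y}) (MvPolynomial.C b)) = _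
      rw [halgL, hC, ← IsScalarTower.algebraMap_apply]
    rw [h3] at hPz
    obtain ⟨b, hb⟩ := hκ z ⟨P, hP, hPz⟩
    refine ⟨b, ?_⟩
    rw [halgL, hC, ← IsScalarTower.algebraMap_apply, hb]
  · intro π hπ
    have hπ1 : Irreducible (MvPolynomial.uniqueAlgEquiv κ (Fin 1) π) :=
      (MulEquiv.irreducible_iff (MvPolynomial.uniqueAlgEquiv κ (Fin 1))).2 hπ
    set π1 := MvPolynomial.uniqueAlgEquiv κ (Fin 1) π with hπ1e
    obtain ⟨V, hVB, hxV, hVP, hVπ⟩ := exists_place κ B K a x w D h hnf n P0 hP0 hn π1 hπ1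
    rw [← hy] at hVπ
    have hVκ : ∀ c : κ, algebraMap κ K c ∈ V := by
      intro c
      rw [IsScalarTower.algebraMap_apply κ B K]
      exact hVB _
    have hyV : y ∈ V := E8b_mem V hVκ y π1 hπ1 ((V.valuation_le_one_iff _).1 hVπ.le)
    have hpoly : ∀ (t : K), t ∈ V → ∀ p : κ[X], aeval t p ∈ V := by
      intro t ht p
      rw [Polynomial.aeval_eq_sum_range]
      apply V.toSubring.sum_mem
      intro i _
      rw [Algebra.smul_def]
      exact V.mul_mem _ _ (hVκ _) (pow_mem ht i)
    have hπ0 : aeval y π1 ≠ 0 := fun h0 => hyκ ⟨π1, hπ1.ne_zero, h0⟩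
    have hvπ0 : V.valuation (aeval y π1) ≠ 0 := (Valuation.ne_zero_iff _).2 hπ0
    have hunif : IsUnif V (aeval y π1) := by
      refine ⟨hpoly y hyV π1, hπ0, (W3_val_lt V hπ0).1 hVπ, ?_⟩
      intro z hz hz0
      obtain ⟨m, hm⟩ := place_unram κ B K a x w D h hnf n V hVB π1 hπ1 hVπ z hz0
      rw [← hy] at hm
      obtain ⟨k, hk⟩ := E8b_zpow hVπ hvπ0 (m := m) (by
        rw [← hm]; exact (V.valuation_le_one_iff _).2 hz)
      rw [hk] at hm
      have hv1 : V.valuation (z * (aeval y π1 ^ k)⁻¹) = 1 := by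
        rw [map_mul, map_inv₀, map_pow, hm]
        exact mul_inv_cancel₀ (pow_ne_zero _ hvπ0)
      refine ⟨k, z * (aeval y π1 ^ k)⁻¹, ?_, ?_, ?_⟩
      · rw [← V.valuation_le_one_iff, hv1]
      · rw [← V.valuation_le_one_iff, map_inv₀, hv1, inv_one]
      · rw [mul_assoc, inv_mul_cancel₀ (pow_ne_zero _ hπ0), mul_one]
    refine ⟨V, ?_, ?_, ?_, ?_⟩
    · rw [halg']
      exact hunif
    · intro p
      rw [halg']
      exact hpoly y hyV _
    · intro p
      rw [halg']
      constructor
      · intro hlt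
        by_contra hnd
        have hnd1 : ¬ π1 ∣ MvPolynomial.uniqueAlgEquiv κ (Fin 1) p := by
          rintro ⟨r, hr⟩
          apply hnd
          refine ⟨(MvPolynomial.uniqueAlgEquiv κ (Fin 1)).symm r,
            (MvPolynomial.uniqueAlgEquiv κ (Fin 1)).injective ?_⟩
          rw [map_mul, AlgEquiv.apply_symm_apply, hr]
        obtain ⟨s, t, hst⟩ := (hπ1.coprime_iff_not_dvd).2 hnd1
        have h3 := congrArg (aeval y) hst
        rw [map_add, map_mul, map_mul, map_one] at h3
        have h4 : V.valuation (1 : K) < 1 := by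
          rw [← h3]
          refine lt_of_le_of_lt (V.valuation.map_add _ _) (max_lt ?_ ?_)
          · rw [map_mul]
            exact lt_of_le_of_lt (mul_le_of_le_one_left' ((V.valuation_le_one_iff _).2 (hpoly y hyV s))) hVπ
          · rw [map_mul]
            exact lt_of_le_of_lt (mul_le_of_le_one_left' ((V.valuation_le_one_iff _).2 (hpoly y hyV t))) hlt
        rw [map_one] at h4
        exact lt_irrefl _ h4
      · rintro ⟨r, rfl⟩
        rw [map_mul, map_mul, map_mul]
        exact lt_of_le_of_lt (mul_le_of_le_one_right' ((V.valuation_le_one_iff _).2 (hpoly y hyV _))) hVπ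
    · intro W hW
      rw [halgL]
      let ψ : κ[X] →+* V := (aeval x : κ[X] →ₐ[κ] K).toRingHom.codRestrict V (fun p => hpoly x hxV p)
      obtain ⟨A, B', hAB⟩ := hsep
      refine unram_of_separable K L V (aeval y π1) hunif θ hgen (f.map ψ) (hf.map ψ) ?_ ?_ W hW
      · rw [Polynomial.eval₂_map]
        exact hθ
      · rw [Polynomial.map_map]
        set χ := (IsLocalRing.residue V).comp ψ with hχ
        have h3 := congrArg (Polynomial.map χ) hAB
        rw [Polynomial.map_add, Polynomial.map_mul, Polynomial.map_mul, Polynomial.map_C,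
          ← Polynomial.derivative_map] at h3
        have hne : χ P0 ≠ 0 := by
          intro h0
          have h4 : IsLocalRing.residue V (ψ P0) = 0 := h0
          rw [IsLocalRing.residue_eq_zero_iff] at h4
          have h5 : V.valuation ((ψ P0 : V) : K) < 1 := (V.valuation_lt_one_iff _).1 h4
          have h6 : ((ψ P0 : V) : K) = aeval x P0 := rfl
          rw [h6, hVP] at h5
          exact lt_irrefl _ h5
        refine ⟨C (χ P0)⁻¹ * A.map χ, C (χ P0)⁻¹ * B'.map χ, ?_⟩
        rw [mul_assoc, mul_assoc, ← mul_add, h3, ← C_mul, inv_mul_cancel₀ hne, C_1]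

end Pool.Agent.LibHP
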