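import Pool.Agent.LibHP2.R2

set_option autoImplicit false
open Polynomial

namespace Pool.Agent.LibHP

/-- Separability after clearing of the denominators. -/
private theorem E9a_bezout (R F : Type) [CommRing R] [IsDomain R] [Field F] [Algebra R F]
    [IsFractionRing R F] (f : R[X]) (hf : (f.map (algebraMap R F)).Separable) :
    ∃ P0 : R, P0 ≠ 0 ∧ ∃ A B : R[X], A * f + B * derivative f = C P0 := by
  obtain ⟨a, b, hab⟩ := hf
  obtain ⟨ca, hca0, hca⟩ := IsLocalization.integerNormalization_spec (nonZeroDivisors R) a
  obtain ⟨cb, hcb0, hcb⟩ := IsLocalization.integerNormalization_spec (nonZeroDivisors R) b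
  refine ⟨ca * cb, mul_ne_zero (nonZeroDivisors.ne_zero hca0) (nonZeroDivisors.ne_zero hcb0),
    C cb * IsLocalization.integerNormalization (nonZeroDivisors R) a,
    C ca * IsLocalization.integerNormalization (nonZeroDivisors R) b, ?_⟩
  apply Polynomial.map_injective (algebraMap R F) (IsFractionRing.injective R F)
  rw [Polynomial.map_add, Polynomial.map_mul, Polynomial.map_mul, Polynomial.map_mul,
    Polynomial.map_mul, hca, hcb, map_C, map_C, map_C, ← derivative_map, map_mul, map_mul]
  rw [derivative_map] at hab
  rw [derivative_map]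
  have h1 : ∀ (c : R) (p : F[X]), c • p = C (algebraMap R F c) * p := by
    intro c p
    rw [← smul_eq_C_mul, algebraMap_smul]
  rw [h1, h1]
  linear_combination C (algebraMap R F ca) * C (algebraMap R F cb) * hab

/-- A generator of `L` over `K` which is étale over `κ[x]` outside of the zeros of `P0`. -/
theorem exists_etale_generator (κ K L : Type) [Field κ] [CharZero κ] [Field K] [Algebra κ K]
    [Field L] [Algebra K L] [FiniteDimensional K L] (x : K) (hx : Transcendental κ x)
    (h1 : Subfield.closure (Set.range (algebraMap K L) ∪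
      {z : L | IsAlgebraic (IntermediateField.adjoin κ {x}) z}) = ⊤) :
    ∃ (θ : L) (f : κ[X][X]) (P0 : κ[X]), f.Monic ∧ P0 ≠ 0 ∧
      f.eval₂ ((algebraMap K L).comp (aeval x : κ[X] →ₐ[κ] K).toRingHom) θ = 0 ∧
      (∀ z : L, ∃ P : K[X], z = aeval θ P) ∧
      ∃ A B' : κ[X][X], A * f + B' * derivative f = C P0 := by
  classical
  have hcK : CharZero K := charZero_of_injective_algebraMap (algebraMap κ K).injective
  have hcL : CharZero L := charZero_of_injective_algebraMap (algebraMap K L).injective
  have hcM : CharZero (IntermediateField.adjoin κ {x}) :=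
    charZero_of_injective_algebraMap (algebraMap κ (IntermediateField.adjoin κ {x})).injective
  -- a generator algebraic over `κ(x)`
  obtain ⟨α, hα⟩ := Field.exists_primitive_element K L
  obtain ⟨θ₀, hθ₀, P₁, hP₁⟩ := R2_exists_prim (IntermediateField.adjoin κ {x}) K L h1 α
  have hgen : ∀ z : L, ∃ P : K[X], z = aeval θ₀ P := by
    intro z
    have hz : z ∈ IntermediateField.adjoin K {α} := by
      rw [hα]
      exact IntermediateField.mem_top
    have hαint : IsAlgebraic K α := Algebra.IsAlgebraic.isAlgebraic α
    have hz' : z ∈ (IntermediateField.adjoin K {α}).toSubalgebra := hz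
    rw [IntermediateField.adjoin_simple_toSubalgebra_of_isAlgebraic hαint,
      Algebra.adjoin_singleton_eq_range_aeval] at hz'
    obtain ⟨Q, hQ⟩ := hz'
    refine ⟨Q.comp P₁, ?_⟩
    rw [aeval_comp, ← hP₁]
    exact hQ.symm
  -- the algebra structures over `κ[X]`
  let i1 : Algebra κ[X] L :=
    ((algebraMap K L).comp (aeval x : κ[X] →ₐ[κ] K).toRingHom).toAlgebra
  let i2 : Algebra κ[X] (IntermediateField.adjoin κ {x}) :=
    ((aeval (IntermediateField.AdjoinSimple.gen κ x) :
      κ[X] →ₐ[κ] IntermediateField.adjoin κ {x}).toRingHom).toAlgebra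
  have hmap : ∀ p : κ[X], algebraMap κ[X] L p = algebraMap K L (aeval x p) := fun _ => rfl
  have hmap2 : ∀ p : κ[X], algebraMap κ[X] (IntermediateField.adjoin κ {x}) p =
      aeval (IntermediateField.AdjoinSimple.gen κ x) p := fun _ => rfl
  have i3 : IsScalarTower κ[X] (IntermediateField.adjoin κ {x}) L := by
    refine IsScalarTower.of_algebraMap_eq fun p => ?_
    rw [hmap, hmap2, IsScalarTower.algebraMap_apply (IntermediateField.adjoin κ {x}) K L]
    congr 1
    have h2 := aeval_algebraMap_apply K (IntermediateField.AdjoinSimple.gen κ x) p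
    exact h2
  have hinj : Function.Injective (algebraMap κ[X] L) := by
    intro p q hpq
    rw [hmap, hmap] at hpq
    exact (transcendental_iff_injective.1 hx) ((algebraMap K L).injective hpq)
  have i4 : FaithfulSMul κ[X] L := (faithfulSMul_iff_algebraMap_injective _ _).2 hinj
  have i5 : Algebra.IsAlgebraic κ[X] (IntermediateField.adjoin κ {x}) := by
    refine ⟨fun y => ?_⟩
    obtain ⟨y, hy⟩ := y
    refine IntermediateField.adjoin_induction κ
      (p := fun y hy => IsAlgebraic κ[X] (⟨y, hy⟩ : IntermediateField.adjoin κ {x}))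
      ?_ ?_ ?_ ?_ ?_ hy
    · intro y hy
      rw [Set.mem_singleton_iff] at hy
      subst hy
      have h2 : algebraMap κ[X] (IntermediateField.adjoin κ {y}) X =
          IntermediateField.AdjoinSimple.gen κ y := by
        rw [hmap2, aeval_X]
      have h3 : IsAlgebraic κ[X] (algebraMap κ[X] (IntermediateField.adjoin κ {y}) X) :=
        isAlgebraic_algebraMap _
      rw [h2] at h3
      exact h3
    · intro c
      have h2 : algebraMap κ[X] (IntermediateField.adjoin κ {x}) (C c) =
          algebraMap κ (IntermediateField.adjoin κ {x}) c := by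
        rw [hmap2, aeval_C]
      have h3 : IsAlgebraic κ[X] (algebraMap κ[X] (IntermediateField.adjoin κ {x}) (C c)) :=
        isAlgebraic_algebraMap _
      rw [h2] at h3
      exact h3
    · intro a b _ _ h2 h3
      exact h2.add h3
    · intro a _ h2
      exact h2.inv
    · intro a b _ _ h2 h3
      exact h2.mul h3
  have halg : IsAlgebraic κ[X] θ₀ := hθ₀.restrictScalars κ[X]
  obtain ⟨y, hy0, hyint⟩ := halg.exists_integral_multiple
  have hyθ : y • θ₀ = algebraMap K L (aeval x y) * θ₀ := by
    rw [Algebra.smul_def, hmap]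
  have hy1 : (aeval x y : K) ≠ 0 := by
    intro h2
    apply hy0
    apply hinj
    rw [hmap, h2, map_zero, map_zero]
  let i6 : Algebra (FractionRing κ[X]) L := FractionRing.liftAlgebra κ[X] L
  have i7 : IsScalarTower κ[X] (FractionRing κ[X]) L := FractionRing.isScalarTower_liftAlgebra κ[X] L
  have hfrac := minpoly.isIntegrallyClosed_eq_field_fractions' (FractionRing κ[X]) hyint
  have hcF : CharZero (FractionRing κ[X]) := by
    have : CharZero κ[X] := inferInstance
    exact charZero_of_injective_algebraMap (IsFractionRing.injective κ[X] (FractionRing κ[X]))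
  have hsep : ((minpoly κ[X] (y • θ₀)).map (algebraMap κ[X] (FractionRing κ[X]))).Separable := by
    rw [← hfrac]
    exact (minpoly.irreducible hyint.tower_top).separable
  obtain ⟨P0, hP0, A, B, hAB⟩ := E9a_bezout κ[X] (FractionRing κ[X]) _ hsep
  refine ⟨y • θ₀, minpoly κ[X] (y • θ₀), P0, minpoly.monic hyint, hP0, ?_, ?_, A, B, hAB⟩
  · exact minpoly.aeval κ[X] (y • θ₀)
  · intro z
    obtain ⟨P, hP⟩ := hgen z
    refine ⟨P.comp (C (aeval x y)⁻¹ * X), ?_⟩
    rw [aeval_comp, map_mul, aeval_C, aeval_X, hyθ, ← mul_assoc, ← map_mul,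
      inv_mul_cancel₀ hy1, map_one, one_mul]
    exact hP

end Pool.Agent.LibHP
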