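import Pool.Agent.LibHP3.E8b
import Pool.Agent.LibHP3.E9a

set_option autoImplicit false
open Polynomial

namespace Pool.Agent.LibHP

/-- Two homomorphisms from the function field agreeing on the constants, `x` and `w`. -/
theorem E9b_ext (B K L : Type) [Field B] [Field K] [Field L] [Algebra B K] (x w : K)
    (hgen : IntermediateField.adjoin B {x, w} = ⊤) (f g : K →+* L)
    (h0 : ∀ b, f (algebraMap B K b) = g (algebraMap B K b)) (hx : f x = g x) (hw : f w = g w)
    (z : K) : f z = g z := by
  have hz : z ∈ IntermediateField.adjoin B {x, w} := by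
    rw [hgen]
    exact IntermediateField.mem_top
  refine IntermediateField.adjoin_induction B (p := fun z _ => f z = g z) ?_ ?_ ?_ ?_ ?_ hz
  · intro y hy
    rcases hy with rfl | hy
    · exact hx
    · rw [Set.mem_singleton_iff] at hy
      rw [hy]
      exact hw
  · exact h0
  · intro y z _ _ h1 h2
    rw [map_add, map_add, h1, h2]
  · intro y _ h1
    rw [map_inv₀, map_inv₀, h1]
  · intro y z _ _ h1 h2
    rw [map_mul, map_mul, h1, h2]

theorem E9b_transfer {F1 F2 L : Type} [Field F1] [Field F2] [Field L] [Algebra F1 L]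
    [Algebra F2 L] (hle : ∀ c : F1, ∃ d : F2, algebraMap F2 L d = algebraMap F1 L c) {z : L}
    (hz : IsAlgebraic F1 z) : IsAlgebraic F2 z := by
  obtain ⟨p, hp0, hp⟩ := hz
  have hl : p.map (algebraMap F1 L) ∈ Polynomial.lifts (algebraMap F2 L) := by
    rw [Polynomial.lifts_iff_coeff_lifts]
    intro n
    rw [coeff_map]
    obtain ⟨d, hd⟩ := hle (p.coeff n)
    exact ⟨d, hd⟩
  rw [Polynomial.mem_lifts] at hl
  obtain ⟨q, hq⟩ := hl
  refine ⟨q, ?_, ?_⟩
  · rintro rfl
    rw [Polynomial.map_zero] at hq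
    exact hp0 ((Polynomial.map_eq_zero _).1 hq.symm)
  · rw [aeval_def, ← eval_map, hq, eval_map, ← aeval_def, hp]

theorem E9b_adj {κ K κ' K' : Type} [Field κ] [Field K] [Field κ'] [Field K'] [Algebra κ K]
    [Algebra κ' K'] (iκ : κ →+* κ') (iK : K →+* K')
    (hc : ∀ c, algebraMap κ' K' (iκ c) = iK (algebraMap κ K c)) (S : Set K) (z : K)
    (hz : z ∈ IntermediateField.adjoin κ S) : iK z ∈ IntermediateField.adjoin κ' (iK '' S) := by
  refine IntermediateField.adjoin_induction κ
    (p := fun z _ => iK z ∈ IntermediateField.adjoin κ' (iK '' S)) ?_ ?_ ?_ ?_ ?_ hz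
  · intro y hy
    exact IntermediateField.subset_adjoin κ' _ ⟨y, hy, rfl⟩
  · intro c
    rw [← hc]
    exact IntermediateField.algebraMap_mem _ _
  · intro y z _ _ h1 h2
    rw [map_add]
    exact add_mem h1 h2
  · intro y _ h1
    rw [map_inv₀]
    exact inv_mem h1
  · intro y z _ _ h1 h2
    rw [map_mul]
    exact mul_mem h1 h2

theorem E9b_closure {L : Type} [Field L] (S : Set L) (T : Set (Subfield.closure S))
    (hT : ∀ y (hy : y ∈ S), (⟨y, Subfield.subset_closure hy⟩ : Subfield.closure S) ∈ T) :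
    Subfield.closure T = ⊤ := by
  rw [eq_top_iff]
  rintro ⟨y, hy⟩ -
  refine Subfield.closure_induction
    (p := fun y hy => (⟨y, hy⟩ : Subfield.closure S) ∈ Subfield.closure T) ?_ ?_ ?_ ?_ ?_ ?_ hy
  · intro y hy
    exact Subfield.subset_closure (hT y hy)
  · exact one_mem _
  · intro y z _ _ h1 h2
    exact add_mem h1 h2
  · intro y _ h1
    exact neg_mem h1
  · intro y _ h1
    exact inv_mem h1
  · intro y z _ _ h1 h2
    exact mul_mem h1 h2

/-- The curve after the extension of the constants. -/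
theorem E9b_curve (κ B K κ' B' K' : Type) [Field κ] [Field B] [Field K]
    [Algebra κ B] [Algebra B K] [Field κ'] [Field B']
    [Field K'] [Algebra κ' B'] [Algebra B' K'] [Algebra κ' K'] [IsScalarTower κ' B' K']
    (iκ : κ →+* κ') (iB : B →+* B') (iK : K →+* K')
    (c1 : ∀ c, algebraMap κ' B' (iκ c) = iB (algebraMap κ B c))
    (c2 : ∀ b, algebraMap B' K' (iB b) = iK (algebraMap B K b))
    (hκ'1 : ∀ z : κ', ∃ p : κ[X], p ≠ 0 ∧ p.eval₂ iκ z = 0)
    (hB' : Subfield.closure (Set.range iB ∪ Set.range (algebraMap κ' B')) = ⊤)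
    (hK' : Subfield.closure (Set.range iK ∪ Set.range (algebraMap κ' K')) = ⊤)
    (a : Fin 5 → B) (x w : K) (h : ECurve B K a x w) :
    ECurve B' K' (fun i => iB (a i)) (iK x) (iK w) := by
  refine ⟨?_, ?_, ?_, ?_⟩
  · intro halg
    apply h.tr
    letI : Algebra B B' := iB.toAlgebra
    letI : Algebra K K' := iK.toAlgebra
    letI : Algebra B K' := (iK.comp (algebraMap B K)).toAlgebra
    haveI : IsScalarTower B B' K' := IsScalarTower.of_algebraMap_eq (fun b => (c2 b).symm)
    haveI : IsScalarTower B K K' := IsScalarTower.of_algebraMap_eq (fun b => rfl)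
    haveI : Algebra.IsAlgebraic B B' := by
      constructor
      intro z
      have hz : z ∈ Subfield.closure (Set.range iB ∪ Set.range (algebraMap κ' B')) := by
        rw [hB']; trivial
      have hle : Subfield.closure (Set.range iB ∪ Set.range (algebraMap κ' B')) ≤
          (algebraicClosure B B').toSubfield := by
        rw [Subfield.closure_le]
        rintro y (⟨b, rfl⟩ | ⟨c, rfl⟩)
        · exact (algebraicClosure B B').algebraMap_mem b
        · change algebraMap κ' B' c ∈ algebraicClosure B B'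
          rw [mem_algebraicClosure_iff]
          obtain ⟨p, hp0, hp⟩ := hκ'1 c
          refine ⟨p.map (algebraMap κ B), (Polynomial.map_ne_zero_iff
            (algebraMap κ B).injective).2 hp0, ?_⟩
          rw [aeval_def, eval₂_map]
          have h3 : (algebraMap B B').comp (algebraMap κ B) = (algebraMap κ' B').comp iκ := by
            ext c
            exact (c1 c).symm
          rw [h3, ← Polynomial.hom_eval₂, hp, map_zero]
      exact (mem_algebraicClosure_iff).1 (hle hz)
    have h2 : IsAlgebraic B (iK x) := IsAlgebraic.restrictScalars B halg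
    exact (isAlgebraic_algebraMap_iff (algebraMap K K').injective).1 h2
  · have h1 := congrArg iK h.eq
    rw [map_pow, (q_map iK _ _).1] at h1
    rw [h1]
    congr 1
    funext i
    exact (c2 (a i)).symm
  · rw [eq_top_iff]
    rintro z -
    have hz : z ∈ Subfield.closure (Set.range iK ∪ Set.range (algebraMap κ' K')) := by
      rw [hK']; trivial
    have hle : Subfield.closure (Set.range iK ∪ Set.range (algebraMap κ' K')) ≤
        (IntermediateField.adjoin B' {iK x, iK w}).toSubfield := by
      rw [Subfield.closure_le]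
      rintro y (⟨b, rfl⟩ | ⟨c, rfl⟩)
      · have hb : b ∈ IntermediateField.adjoin B {x, w} := by rw [h.gen]; trivial
        have h3 := E9b_adj iB iK c2 {x, w} b hb
        rw [Set.image_pair] at h3
        exact h3
      · rw [IsScalarTower.algebraMap_apply κ' B' K']
        exact IntermediateField.algebraMap_mem _ _
    exact hle hz
  · rw [← (q_map iB a (0 : B)).2.2.2.2]
    exact (_root_.map_ne_zero _).2 h.disc

theorem E9b_qPoly {B B' : Type} [Field B] [Field B'] (iB : B →+* B') (a : Fin 5 → B) :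
    qPoly (fun i => iB (a i)) = (qPoly a).map iB := by
  simp [qPoly, qT0]

/-- No common factors after the extension of the constants. -/
theorem E9b_hnf (κ B K κ' B' K' : Type) [Field κ] [Field B] [Field K]
    [Algebra κ B] [Algebra B K] [Algebra κ K] [IsScalarTower κ B K] [Field κ'] [Field B']
    [Field K'] [Algebra κ' B'] [Algebra B' K'] [Algebra κ' K'] [IsScalarTower κ' B' K']
    (iκ : κ →+* κ') (iB : B →+* B') (iK : K →+* K')
    (c1 : ∀ c, algebraMap κ' B' (iκ c) = iB (algebraMap κ B c))
    (c2 : ∀ b, algebraMap B' K' (iB b) = iK (algebraMap B K b))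
    (hκ'1 : ∀ z : κ', ∃ p : κ[X], p ≠ 0 ∧ p.eval₂ iκ z = 0)
    (a : Fin 5 → B)
    (hnf : ∀ p : κ[X], p ≠ 0 →
      IsCoprime (p.map (algebraMap κ K)) ((qPoly a).map (algebraMap B K)))
    (p : κ'[X]) (hp : p ≠ 0) :
    IsCoprime (p.map (algebraMap κ' K'))
      ((qPoly (fun i => iB (a i))).map (algebraMap B' K')) := by
  rw [Polynomial.isCoprime_iff_aeval_ne_zero_of_isAlgClosed K' (AlgebraicClosure K')]
  intro e
  by_contra hcon
  push Not at hcon
  obtain ⟨h1, h2⟩ := hcon
  letI : Algebra κ κ' := iκ.toAlgebra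
  letI : Algebra κ (AlgebraicClosure K') :=
    ((algebraMap κ' (AlgebraicClosure K')).comp iκ).toAlgebra
  haveI : IsScalarTower κ κ' (AlgebraicClosure K') :=
    IsScalarTower.of_algebraMap_eq (fun _ => rfl)
  haveI : Algebra.IsAlgebraic κ κ' := by
    constructor
    intro z
    obtain ⟨P, hP0, hP⟩ := hκ'1 z
    exact ⟨P, hP0, hP⟩
  have h3 : IsAlgebraic κ' e := by
    refine ⟨p, hp, ?_⟩
    rw [aeval_def, eval₂_map, ← IsScalarTower.algebraMap_eq] at h1
    exact h1
  have h4 : IsAlgebraic κ e := IsAlgebraic.restrictScalars κ h3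
  obtain ⟨P, hP0, hP⟩ := h4
  obtain ⟨u, v, huv⟩ := hnf P hP0
  have h5 := congrArg (Polynomial.eval₂ ((algebraMap K' (AlgebraicClosure K')).comp iK) e) huv
  rw [eval₂_add, eval₂_mul, eval₂_mul, eval₂_map, eval₂_map, eval₂_one] at h5
  have h6 : ((algebraMap K' (AlgebraicClosure K')).comp iK).comp (algebraMap κ K) =
      (algebraMap κ' (AlgebraicClosure K')).comp iκ := by
    ext c
    simp only [RingHom.comp_apply]
    rw [IsScalarTower.algebraMap_apply κ' K' (AlgebraicClosure K'),
      IsScalarTower.algebraMap_apply κ' B' K', c1, c2, IsScalarTower.algebraMap_apply κ B K]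
  have h7 : ((algebraMap K' (AlgebraicClosure K')).comp iK).comp (algebraMap B K) =
      (algebraMap K' (AlgebraicClosure K')).comp ((algebraMap B' K').comp iB) := by
    ext c
    simp only [RingHom.comp_apply]
    rw [c2]
  rw [h6, h7] at h5
  have h8 : eval₂ ((algebraMap κ' (AlgebraicClosure K')).comp iκ) e P = 0 := hP
  have h9 : eval₂ ((algebraMap K' (AlgebraicClosure K')).comp ((algebraMap B' K').comp iB)) e
      (qPoly a) = 0 := by
    rw [E9b_qPoly, aeval_def, Polynomial.map_map, eval₂_map] at h2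
    exact h2
  rw [h8, h9, mul_zero, mul_zero, add_zero] at h5
  exact zero_ne_one h5

theorem E9b_core (κ B K κ' B' K' L : Type) [Field κ] [CharZero κ] [Field B] [Field K]
    [Algebra κ B] [Algebra B K] [Algebra κ K] [IsScalarTower κ B K] [Field κ'] [CharZero κ']
    [Field B']
    [Field K'] [Algebra κ' B'] [Algebra B' K'] [Algebra κ' K'] [IsScalarTower κ' B' K']
    [Field L] [Algebra K' L] [Algebra κ' L] [IsScalarTower κ' K' L] [FiniteDimensional K' L]
    (iκ : κ →+* κ') (iB : B →+* B') (iK : K →+* K')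
    (c1 : ∀ c, algebraMap κ' B' (iκ c) = iB (algebraMap κ B c))
    (c2 : ∀ b, algebraMap B' K' (iB b) = iK (algebraMap B K b))
    (hκ'1 : ∀ z : κ', ∃ p : κ[X], p ≠ 0 ∧ p.eval₂ iκ z = 0)
    (hκ'2 : ∀ z : L, IsAlgebraic κ' z → ∃ b : κ', algebraMap κ' L b = z)
    (hB' : Subfield.closure (Set.range iB ∪ Set.range (algebraMap κ' B')) = ⊤)
    (hK' : Subfield.closure (Set.range iK ∪ Set.range (algebraMap κ' K')) = ⊤)
    (a : Fin 5 → B) (x w : K) (D : K →ₐ[B] K) (h : EMove B K a x w D)
    (hnf : ∀ p : κ[X], p ≠ 0 →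
      IsCoprime (p.map (algebraMap κ K)) ((qPoly a).map (algebraMap B K)))
    (h1 : Subfield.closure (Set.range (algebraMap K' L) ∪
      {z : L | IsAlgebraic (IntermediateField.adjoin κ' {iK x}) z}) = ⊤) :
    ∃ n : ℕ, Subfield.closure (Set.range (algebraMap K' L) ∪
        {z : L | IsAlgebraic (IntermediateField.adjoin κ' {iK ((D ^ n) x)}) z}) = ⊤ →
      Function.Surjective (algebraMap K' L) := by
  have hcurve := E9b_curve κ B K κ' B' K' iκ iB iK c1 c2 hκ'1 hB' hK' a x w h.toECurve
  haveI : CharZero B' := charZero_of_injective_algebraMap (algebraMap κ' B').injective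
  haveI : CharZero B := charZero_of_injective_algebraMap (algebraMap κ B).injective
  haveI : CharZero K := charZero_of_injective_algebraMap (algebraMap B K).injective
  obtain ⟨D', hD'⟩ := exists_move B' K' _ _ _ hcurve
  have hqD : qD (fun i => algebraMap B K (a i)) x ≠ 0 := by
    intro h5
    have h6 := h.d1
    rw [h5, mul_zero] at h6
    refine q_coprime (fun i => algebraMap B K (a i)) ?_ x h5 h6.symm
    rw [← (q_map (algebraMap B K) a (0 : B)).2.2.2.2]
    exact (_root_.map_ne_zero _).2 h.disc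
  have ha : (fun i => iK (algebraMap B K (a i))) =
      fun i => algebraMap B' K' (iB (a i)) := by
    funext i
    exact (c2 (a i)).symm
  have hmap := q_map iK (fun i => algebraMap B K (a i)) x
  rw [ha] at hmap
  obtain ⟨_, m1, m2, m3, _⟩ := hmap
  have hqD' : qD (fun i => algebraMap B' K' (iB (a i))) (iK x) ≠ 0 := by
    rw [← m1]
    exact (_root_.map_ne_zero _).2 hqD
  have e1 := congrArg iK h.d1
  have e2 := congrArg iK h.d2
  rw [map_mul, m1, m2] at e1
  rw [map_mul, map_mul, map_pow, m1, m3] at e2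
  have hagree : ∀ z : K, D' (iK z) = iK (D z) := by
    refine E9b_ext B K K' x w h.gen ((D' : K' →+* K').comp iK)
      (iK.comp (D : K →+* K)) ?_ ?_ ?_
    · intro b
      change D' (iK (algebraMap B K b)) = iK (D (algebraMap B K b))
      rw [D.commutes, ← c2, D'.commutes]
    · change D' (iK x) = iK (D x)
      exact mul_right_cancel₀ hqD' (hD'.d1.trans e1.symm)
    · change D' (iK w) = iK (D w)
      exact mul_right_cancel₀ (pow_ne_zero 2 hqD') (hD'.d2.trans e2.symm)
  have hpow : ∀ (n : ℕ) (z : K), (D' ^ n) (iK z) = iK ((D ^ n) z) := by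
    intro n
    induction n with
    | zero => intro z; rw [pow_zero, pow_zero]; rfl
    | succ n ih =>
      intro z
      rw [pow_succ, pow_succ]
      change (D' ^ n) (D' (iK z)) = iK ((D ^ n) (D z))
      rw [hagree, ih]
  have hnf' := E9b_hnf κ B K κ' B' K' iκ iB iK c1 c2 hκ'1 a hnf
  have hx' : Transcendental κ' (iK x) := fun halg => hcurve.tr (halg.tower_top B')
  obtain ⟨θ, f, P0, hf, hP0, hθ, hgen, hsep⟩ := exists_etale_generator κ' K' L (iK x) hx' h1
  refine ⟨P0.natDegree, fun h2 => ?_⟩
  rw [← hpow] at h2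
  exact E_surj κ' B' K' L (fun i => iB (a i)) (iK x) (iK w) D' hD' hκ'2 hnf' θ f P0 hf hP0 hθ
    hgen hsep P0.natDegree Nat.lt_two_pow_self h2

/-- The main theorem on the move. -/
theorem E_main (κ B K L : Type) [Field κ] [CharZero κ] [Field B] [Field K] [Algebra κ B]
    [Algebra B K] [Algebra κ K] [IsScalarTower κ B K] [Field L] [Algebra K L] [Algebra κ L]
    [IsScalarTower κ K L] [FiniteDimensional K L] (a : Fin 5 → B) (x w : K) (D : K →ₐ[B] K)
    (h : EMove B K a x w D) (hκ : ∀ c : K, IsAlgebraic κ c → ∃ b : κ, algebraMap κ K b = c)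
    (hnf : ∀ p : κ[X], p ≠ 0 →
      IsCoprime (p.map (algebraMap κ K)) ((qPoly a).map (algebraMap B K)))
    (h1 : Subfield.closure (Set.range (algebraMap K L) ∪
      {z : L | IsAlgebraic (IntermediateField.adjoin κ {x}) z}) = ⊤) :
    ∃ n : ℕ, Subfield.closure (Set.range (algebraMap K L) ∪
        {z : L | IsAlgebraic (IntermediateField.adjoin κ {(D ^ n) x}) z}) = ⊤ →
      Subfield.closure (Set.range (algebraMap K L) ∪ {z : L | IsAlgebraic κ z}) = ⊤ := by
  let κs : Subfield L := (algebraicClosure κ L).toSubfield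
  let Bs : Subfield L :=
    Subfield.closure (Set.range ((algebraMap K L).comp (algebraMap B K)) ∪ (κs : Set L))
  let Ks : Subfield L := Subfield.closure (Set.range (algebraMap K L) ∪ (κs : Set L))
  have hκB : κs ≤ Bs := fun z hz => Subfield.subset_closure (Or.inr hz)
  have hBK : Bs ≤ Ks := by
    refine Subfield.closure_mono (Set.union_subset_union_left _ ?_)
    rintro z ⟨b, rfl⟩
    exact ⟨algebraMap B K b, rfl⟩
  letI : Algebra κs Bs := (Subfield.inclusion hκB).toAlgebra
  letI : Algebra Bs Ks := (Subfield.inclusion hBK).toAlgebra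
  letI : Algebra κs Ks := (Subfield.inclusion (hκB.trans hBK)).toAlgebra
  haveI : IsScalarTower κs Bs Ks := IsScalarTower.of_algebraMap_eq (fun _ => rfl)
  haveI : IsScalarTower κs Ks L := IsScalarTower.of_algebraMap_eq (fun _ => rfl)
  let iκ : κ →+* κs := (algebraMap κ L).codRestrict κs
    (fun c => (algebraicClosure κ L).algebraMap_mem c)
  let iB : B →+* Bs := ((algebraMap K L).comp (algebraMap B K)).codRestrict Bs
    (fun b => Subfield.subset_closure (Or.inl ⟨b, rfl⟩))
  let iK : K →+* Ks := (algebraMap K L).codRestrict Ks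
    (fun b => Subfield.subset_closure (Or.inl ⟨b, rfl⟩))
  have c1 : ∀ c, algebraMap κs Bs (iκ c) = iB (algebraMap κ B c) := by
    intro c
    apply Subtype.ext
    change algebraMap κ L c = algebraMap K L (algebraMap B K (algebraMap κ B c))
    rw [← IsScalarTower.algebraMap_apply κ B K, ← IsScalarTower.algebraMap_apply κ K L]
  have c2 : ∀ b, algebraMap Bs Ks (iB b) = iK (algebraMap B K b) := fun b => rfl
  have c3 : ∀ c, algebraMap κs Ks (iκ c) = iK (algebraMap κ K c) := by
    intro c
    rw [IsScalarTower.algebraMap_apply κs Bs Ks, c1, c2, ← IsScalarTower.algebraMap_apply κ B K]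
  letI : Algebra K Ks := iK.toAlgebra
  haveI : IsScalarTower K Ks L := IsScalarTower.of_algebraMap_eq (fun _ => rfl)
  haveI : FiniteDimensional Ks L := FiniteDimensional.right K Ks L
  haveI : CharZero κs := charZero_of_injective_ringHom iκ.injective
  have hκ'1 : ∀ z : κs, ∃ p : κ[X], p ≠ 0 ∧ p.eval₂ iκ z = 0 := by
    intro z
    obtain ⟨p, hp0, hp⟩ := (mem_algebraicClosure_iff).1 z.2
    refine ⟨p, hp0, Subtype.ext ?_⟩
    change κs.subtype (p.eval₂ iκ z) = 0
    rw [Polynomial.hom_eval₂]
    exact hp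
  have hκ'2 : ∀ z : L, IsAlgebraic κs z → ∃ b : κs, algebraMap κs L b = z := by
    intro z hz
    have h2 : IsAlgebraic (algebraicClosure κ L) z :=
      E9b_transfer (fun c => ⟨⟨c.1, c.2⟩, rfl⟩) hz
    haveI : Algebra.IsAlgebraic κ (algebraicClosure κ L) := algebraicClosure.isAlgebraic κ L
    have h3 : IsAlgebraic κ z := IsAlgebraic.restrictScalars κ h2
    exact ⟨⟨z, (mem_algebraicClosure_iff).2 h3⟩, rfl⟩
  have hB' : Subfield.closure (Set.range iB ∪ Set.range (algebraMap κs Bs)) = ⊤ := by
    apply E9b_closure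
    rintro y (⟨b, rfl⟩ | hy)
    · exact Or.inl ⟨b, rfl⟩
    · exact Or.inr ⟨⟨y, hy⟩, rfl⟩
  have hK' : Subfield.closure (Set.range iK ∪ Set.range (algebraMap κs Ks)) = ⊤ := by
    apply E9b_closure
    rintro y (⟨b, rfl⟩ | hy)
    · exact Or.inl ⟨b, rfl⟩
    · exact Or.inr ⟨⟨y, hy⟩, rfl⟩
  have htr : ∀ y : K, Subfield.closure (Set.range (algebraMap K L) ∪
      {z : L | IsAlgebraic (IntermediateField.adjoin κ {y}) z}) = ⊤ →
      Subfield.closure (Set.range (algebraMap Ks L) ∪
      {z : L | IsAlgebraic (IntermediateField.adjoin κs {iK y}) z}) = ⊤ := by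
    intro y hy
    rw [eq_top_iff, ← hy]
    apply Subfield.closure_mono
    apply Set.union_subset_union
    · rintro z ⟨b, rfl⟩
      exact ⟨iK b, rfl⟩
    · intro z hz
      refine E9b_transfer ?_ hz
      rintro ⟨c, hc⟩
      have h2 := E9b_adj iκ iK c3 {y} c hc
      rw [Set.image_singleton] at h2
      exact ⟨⟨iK c, h2⟩, rfl⟩
  obtain ⟨n, hn⟩ := E9b_core κ B K κs Bs Ks L iκ iB iK c1 c2 hκ'1 hκ'2 hB' hK' a x w D h hnf
    (htr x h1)
  refine ⟨n, fun h2 => ?_⟩
  have hs := hn (htr _ h2)
  rw [eq_top_iff]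
  rintro z -
  obtain ⟨y, rfl⟩ := hs z
  have hle : Ks ≤ Subfield.closure (Set.range (algebraMap K L) ∪ {z : L | IsAlgebraic κ z}) := by
    apply Subfield.closure_mono
    apply Set.union_subset_union_right
    intro z hz
    exact (mem_algebraicClosure_iff).1 hz
  exact hle y.2

end Pool.Agent.LibHP
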