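import Pool.Agent.LibHP2.C1
import Pool.Agent.LibHP3.E1

set_option autoImplicit false
open Polynomial

namespace Pool.Agent.LibHP

theorem F1_roots (Ω : Type) [Field Ω] [IsAlgClosed Ω] (p : Polynomial Ω) :
    ∃ l : List Ω, l.length = p.natDegree ∧
      p = C p.leadingCoeff * (l.map (fun r => X - C r)).prod := by
  obtain ⟨l, hl⟩ := Quot.exists_rep p.roots
  refine ⟨l, ?_, ?_⟩
  · rw [(IsAlgClosed.splits p).natDegree_eq_card_roots, ← hl]
    rfl
  · have h := (IsAlgClosed.splits p).eq_prod_roots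
    rw [← hl] at h
    simpa using h

theorem F1_quartic {Ω : Type} [Field Ω] [CharZero Ω] [IsAlgClosed Ω] (a : Fin 5 → Ω)
    (h : a 4 ≠ 0) (hsq : ∀ e : Ω, qT0 a e = 0 → qT1 a e ≠ 0) : qDisc a ≠ 0 := by
  set p : Polynomial Ω := C (a 4) * X ^ 4 + C (a 3) * X ^ 3 + C (a 2) * X ^ 2 + C (a 1) * X + C (a 0)
    with hp
  have hd : p.natDegree = 4 := by rw [hp]; compute_degree!
  have hlc : p.leadingCoeff = a 4 := by
    rw [leadingCoeff, hd, hp]
    simp
  obtain ⟨l, hl, hpl⟩ := F1_roots Ω p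
  rw [hd] at hl
  rw [hlc] at hpl
  obtain ⟨r1, r2, r3, r4, rfl⟩ : ∃ r1 r2 r3 r4, l = [r1, r2, r3, r4] := by
    rcases l with _ | ⟨r1, _ | ⟨r2, _ | ⟨r3, _ | ⟨r4, _ | ⟨r5, l⟩⟩⟩⟩⟩
    · simp at hl
    · simp at hl
    · simp at hl
    · simp at hl
    · exact ⟨r1, r2, r3, r4, rfl⟩
    · simp at hl
  have hq : p = C (a 4) * X ^ 4 + C (-(a 4 * (r1 + r2 + r3 + r4))) * X ^ 3 +
      C (a 4 * (r1 * r2 + r1 * r3 + r1 * r4 + r2 * r3 + r2 * r4 + r3 * r4)) * X ^ 2 +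
      C (-(a 4 * (r1 * r2 * r3 + r1 * r2 * r4 + r1 * r3 * r4 + r2 * r3 * r4))) * X +
      C (a 4 * (r1 * r2 * r3 * r4)) := by
    rw [hpl]
    simp only [List.map_cons, List.map_nil, List.prod_cons, List.prod_nil, map_mul, map_add,
      map_neg]
    ring
  have c0 : a 0 = a 4 * (r1 * r2 * r3 * r4) := by
    have := congrArg (fun q => q.coeff 0) (hp.symm.trans hq)
    simpa [coeff_X, coeff_C] using this
  have c1 : a 1 = -(a 4 * (r1 * r2 * r3 + r1 * r2 * r4 + r1 * r3 * r4 + r2 * r3 * r4)) := by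
    have := congrArg (fun q => q.coeff 1) (hp.symm.trans hq)
    simpa [coeff_X, coeff_C, coeff_X_pow, -neg_mul, -neg_add_rev, -mul_eq_mul_left_iff, -map_mul, -map_neg, -map_add] using this
  have c2 : a 2 = a 4 * (r1 * r2 + r1 * r3 + r1 * r4 + r2 * r3 + r2 * r4 + r3 * r4) := by
    have := congrArg (fun q => q.coeff 2) (hp.symm.trans hq)
    simpa [coeff_X, coeff_C, coeff_X_pow, -map_mul, -map_neg, -map_add] using this
  have c3 : a 3 = -(a 4 * (r1 + r2 + r3 + r4)) := by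
    have := congrArg (fun q => q.coeff 3) (hp.symm.trans hq)
    simpa [coeff_X, coeff_C, coeff_X_pow, -neg_add_rev, -map_mul, -map_neg, -map_add] using this
  have key : ∀ r s t u : Ω, (r - s) * (r - t) * (r - u) * a 4 = qT1 a r → qT0 a r = 0 →
      r - s ≠ 0 ∧ r - t ≠ 0 ∧ r - u ≠ 0 := by
    intro r s t u h1 h2
    have h3 := hsq r h2
    rw [← h1] at h3
    exact ⟨fun h => h3 (by rw [h]; ring), fun h => h3 (by rw [h]; ring),
      fun h => h3 (by rw [h]; ring)⟩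
  obtain ⟨h12, h13, h14⟩ := key r1 r2 r3 r4
    (by simp only [qT1, c1, c2, c3]; ring) (by simp only [qT0, c0, c1, c2, c3]; ring)
  obtain ⟨_, h23, h24⟩ := key r2 r1 r3 r4
    (by simp only [qT1, c1, c2, c3]; ring) (by simp only [qT0, c0, c1, c2, c3]; ring)
  obtain ⟨_, _, h34⟩ := key r3 r1 r2 r4
    (by simp only [qT1, c1, c2, c3]; ring) (by simp only [qT0, c0, c1, c2, c3]; ring)
  have hD : qDisc a = 27 * (a 4) ^ 6 * ((r1 - r2) * (r1 - r3) * (r1 - r4) * (r2 - r3) *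
      (r2 - r4) * (r3 - r4)) ^ 2 := by
    simp only [qDisc, c0, c1, c2, c3]
    ring
  rw [hD]
  have h27 : (27 : Ω) ≠ 0 := by norm_num
  refine mul_ne_zero (mul_ne_zero h27 (pow_ne_zero _ h)) (pow_ne_zero _ ?_)
  exact mul_ne_zero (mul_ne_zero (mul_ne_zero (mul_ne_zero (mul_ne_zero h12 h13) h14) h23) h24) h34

theorem F1_cubic {Ω : Type} [Field Ω] [CharZero Ω] [IsAlgClosed Ω] (a : Fin 5 → Ω)
    (h4 : a 4 = 0) (h : a 3 ≠ 0) (hsq : ∀ e : Ω, qT0 a e = 0 → qT1 a e ≠ 0) : qDisc a ≠ 0 := by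
  set p : Polynomial Ω := C (a 3) * X ^ 3 + C (a 2) * X ^ 2 + C (a 1) * X + C (a 0)
    with hp
  have hd : p.natDegree = 3 := by rw [hp]; compute_degree!
  have hlc : p.leadingCoeff = a 3 := by
    rw [leadingCoeff, hd, hp]
    simp
  obtain ⟨l, hl, hpl⟩ := F1_roots Ω p
  rw [hd] at hl
  rw [hlc] at hpl
  obtain ⟨r1, r2, r3, rfl⟩ : ∃ r1 r2 r3, l = [r1, r2, r3] := by
    rcases l with _ | ⟨r1, _ | ⟨r2, _ | ⟨r3, _ | ⟨r4, l⟩⟩⟩⟩
    · simp at hl
    · simp at hl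
    · simp at hl
    · exact ⟨r1, r2, r3, rfl⟩
    · simp at hl
  have hq : p = C (a 3) * X ^ 3 + C (-(a 3 * (r1 + r2 + r3))) * X ^ 2 +
      C (a 3 * (r1 * r2 + r1 * r3 + r2 * r3)) * X + C (-(a 3 * (r1 * r2 * r3))) := by
    rw [hpl]
    simp only [List.map_cons, List.map_nil, List.prod_cons, List.prod_nil, map_mul, map_add,
      map_neg]
    ring
  have c0 : a 0 = -(a 3 * (r1 * r2 * r3)) := by
    have := congrArg (fun q => q.coeff 0) (hp.symm.trans hq)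
    simpa [coeff_X, coeff_C] using this
  have c1 : a 1 = a 3 * (r1 * r2 + r1 * r3 + r2 * r3) := by
    have := congrArg (fun q => q.coeff 1) (hp.symm.trans hq)
    simpa [coeff_X, coeff_C, coeff_X_pow, -map_mul, -map_neg, -map_add] using this
  have c2 : a 2 = -(a 3 * (r1 + r2 + r3)) := by
    have := congrArg (fun q => q.coeff 2) (hp.symm.trans hq)
    simpa [coeff_X, coeff_C, coeff_X_pow, -neg_add_rev, -map_mul, -map_neg, -map_add] using this
  have key : ∀ r s t : Ω, (r - s) * (r - t) * a 3 = qT1 a r → qT0 a r = 0 →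
      r - s ≠ 0 ∧ r - t ≠ 0 := by
    intro r s t h1 h2
    have h3 := hsq r h2
    rw [← h1] at h3
    exact ⟨fun h => h3 (by rw [h]; ring), fun h => h3 (by rw [h]; ring)⟩
  obtain ⟨h12, h13⟩ := key r1 r2 r3
    (by simp only [qT1, c1, c2, h4]; ring) (by simp only [qT0, c0, c1, c2, h4]; ring)
  obtain ⟨_, h23⟩ := key r2 r1 r3
    (by simp only [qT1, c1, c2, h4]; ring) (by simp only [qT0, c0, c1, c2, h4]; ring)
  have hD : qDisc a = 27 * (a 3) ^ 6 * ((r1 - r2) * (r1 - r3) * (r2 - r3)) ^ 2 := by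
    simp only [qDisc, c0, c1, c2, h4]
    ring
  rw [hD]
  have h27 : (27 : Ω) ≠ 0 := by norm_num
  refine mul_ne_zero (mul_ne_zero h27 (pow_ne_zero _ h)) (pow_ne_zero _ ?_)
  exact mul_ne_zero (mul_ne_zero h12 h13) h23

/-- A quartic or cubic without multiple roots in an algebraically closed field has nonzero
discriminant. -/
theorem qDisc_ne_zero (Ω : Type) [Field Ω] [CharZero Ω] [IsAlgClosed Ω] (a : Fin 5 → Ω)
    (h : a 3 ≠ 0 ∨ a 4 ≠ 0) (hsq : ∀ e : Ω, qT0 a e = 0 → qT1 a e ≠ 0) : qDisc a ≠ 0 := by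
  by_cases h4 : a 4 = 0
  · rcases h with h | h
    · exact F1_cubic a h4 h hsq
    · exact absurd h4 h
  · exact F1_quartic a h4 hsq

end Pool.Agent.LibHP
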