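import Pool.Agent.LibHP3.F1
import Pool.Agent.LibHP2.C1b

set_option autoImplicit false
open Polynomial

namespace Pool.Agent.LibHP

/-- `F` as a polynomial in the variable `v` with coefficients in `B`. -/
private noncomputable def F2_phi {k σ B : Type} [Field k] [DecidableEq σ] [Field B] [Algebra k B]
    (x : σ → B) (v : σ) : MvPolynomial σ k →ₐ[k] B[X] :=
  MvPolynomial.aeval (fun u => if u = v then X else C (x u))

/-- the value of the polynomial in one variable -/
private theorem F2_eval {k σ K Ω : Type} [Field k] [DecidableEq σ] [Field K] [Algebra k K]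
    [Field Ω] [Algebra K Ω] [Algebra k Ω] [IsScalarTower k K Ω] (x : σ → K) (v : σ) (e : Ω)
    (G : MvPolynomial σ k) :
    Polynomial.aeval e (F2_phi x v G) =
      MvPolynomial.aeval (fun u => if u = v then e else algebraMap K Ω (x u)) G := by
  have h : ((Polynomial.aeval e : K[X] →ₐ[K] Ω).restrictScalars k).comp
      (F2_phi x v) =
      (MvPolynomial.aeval (fun u => if u = v then e else algebraMap K Ω (x u)) :
        MvPolynomial σ k →ₐ[k] Ω) := by
    apply MvPolynomial.algHom_ext
    intro u
    simp only [AlgHom.comp_apply, AlgHom.restrictScalars_apply, MvPolynomial.aeval_X, F2_phi]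
    by_cases hu : u = v
    · simp [hu]
    · simp [hu]
  exact DFunLike.congr_fun h G

private theorem F2_map {k σ B : Type} [Field k] [DecidableEq σ] [Field B] [Algebra k B]
    (x : σ → B) (v : σ) (G : MvPolynomial σ k) :
    F2_phi x v G = (C1b_iso k v G).map
      (MvPolynomial.aeval (R := k) (fun i : {i : σ // i ≠ v} => x i)).toRingHom := by
  have h : (F2_phi x v : MvPolynomial σ k →ₐ[k] B[X]).toRingHom =
      (Polynomial.mapRingHom
        (MvPolynomial.aeval (R := k) (fun i : {i : σ // i ≠ v} => x i)).toRingHom).comp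
        (C1b_iso k v).toRingEquiv.toRingHom := by
    apply MvPolynomial.ringHom_ext
    · intro r
      have h1 : (C1b_iso k v) (MvPolynomial.C r) = Polynomial.C (MvPolynomial.C r) :=
        (C1b_iso k v).commutes r
      show F2_phi x v (MvPolynomial.C r) = ((C1b_iso k v) (MvPolynomial.C r)).map _
      rw [h1, Polynomial.map_C, F2_phi, MvPolynomial.aeval_C]
      show algebraMap k B[X] r = C (MvPolynomial.aeval _ (MvPolynomial.C r))
      rw [MvPolynomial.aeval_C]
      rfl
    · intro i
      show F2_phi x v (MvPolynomial.X i) = ((C1b_iso k v) (MvPolynomial.X i)).map _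
      rw [F2_phi, MvPolynomial.aeval_X]
      by_cases hi : i = v
      · rw [hi, C1b_iso_X_self, Polynomial.map_X, if_pos rfl]
      · rw [C1b_iso_X_ne k v i hi, Polynomial.map_C, if_neg hi]
        show C (x i) = C (MvPolynomial.aeval _ (MvPolynomial.X _))
        rw [MvPolynomial.aeval_X]
  exact DFunLike.congr_fun h G

private theorem F2_derivative {k σ B : Type} [Field k] [DecidableEq σ] [Field B] [Algebra k B]
    (x : σ → B) (v : σ) (G : MvPolynomial σ k) :
    derivative (F2_phi x v G) = F2_phi x v (MvPolynomial.pderiv v G) := by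
  induction G using MvPolynomial.induction_on with
  | C c =>
    rw [MvPolynomial.pderiv_C, map_zero, F2_phi, MvPolynomial.aeval_C]
    exact Polynomial.derivative_C
  | add p q hp hq => rw [map_add, map_add, map_add, map_add, hp, hq]
  | mul_X p u hp =>
    rw [map_mul, Polynomial.derivative_mul, hp, MvPolynomial.pderiv_mul, map_add, map_mul,
      map_mul]
    congr 2
    by_cases hu : u = v
    · subst hu
      simp [F2_phi]
    · have h1 : (MvPolynomial.pderiv v (MvPolynomial.X u : MvPolynomial σ k)) = 0 := by
        rw [MvPolynomial.pderiv_X, Pi.single_eq_of_ne hu]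
      rw [h1, map_zero, F2_phi, MvPolynomial.aeval_X, if_neg hu, derivative_C]

/-- an irreducible factor which vanishes -/
private theorem F2_factor {k σ K : Type} [Field k] [Field K] [Algebra k K] (z : σ → K)
    (G : MvPolynomial σ k) (hG : G ≠ 0) (hz : MvPolynomial.aeval z G = 0) :
    ∃ p, Irreducible p ∧ p ∣ G ∧ MvPolynomial.aeval z p = 0 := by
  classical
  obtain ⟨f, hf, u, hu⟩ := WfDvdMonoid.exists_factors G hG
  rw [← hu, map_mul] at hz
  have hu' : MvPolynomial.aeval z (u : MvPolynomial σ k) ≠ 0 :=
    ((u.isUnit).map (MvPolynomial.aeval z)).ne_zero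
  have hz' : MvPolynomial.aeval z f.prod = 0 := by
    rcases mul_eq_zero.1 hz with h | h
    · exact h
    · exact absurd h hu'
  rw [map_multiset_prod, Multiset.prod_eq_zero_iff, Multiset.mem_map] at hz'
  obtain ⟨p, hp, hp0⟩ := hz'
  refine ⟨p, hf p hp, ?_, hp0⟩
  rw [← hu]
  exact (Multiset.dvd_prod hp).mul_right _

/-- `F` has no multiple root. -/
private theorem F2_simple {k σ B Ω : Type} [Field k] [CharZero k] [Fintype σ] [DecidableEq σ]
    [Field B] [Algebra k B] [CharZero B] [Field Ω] [Algebra B Ω] [Algebra k Ω]
    [IsScalarTower k B Ω] (x : σ → B) (v : σ)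
    (hx : AlgebraicIndependent k (fun i : {i : σ // i ≠ v} => x i)) (F : MvPolynomial σ k)
    (hsq : Squarefree F) (e : Ω) (he : Polynomial.aeval e (F2_phi x v F) = 0) :
    Polynomial.aeval e (derivative (F2_phi x v F)) ≠ 0 := by
  intro hd
  rw [F2_derivative, F2_eval] at hd
  rw [F2_eval] at he
  have hF0 : F ≠ 0 := hsq.ne_zero
  set z : σ → Ω := fun u => if u = v then e else algebraMap B Ω (x u) with hz
  obtain ⟨q, hq, ⟨h, hqF⟩, hqz⟩ := F2_factor z F hF0 he
  have hind : AlgebraicIndependent k (fun i : {i : σ // i ≠ v} => z i) := by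
    have h2 := hx.map' (f := IsScalarTower.toAlgHom k B Ω) (algebraMap B Ω).injective
    refine (iff_of_eq ?_).1 h2
    congr 1
    funext i
    simp only [hz, if_neg i.2]
    rfl
  have hinj : Function.Injective (F2_phi x v : MvPolynomial σ k →ₐ[k] B[X]) := by
    intro p q hpq
    rw [F2_map, F2_map] at hpq
    exact (C1b_iso k v).injective (Polynomial.map_injective _ hx hpq)
  have hdvd := dvd_of_algebraicIndependent k Ω q hq z hqz v hind
  rw [hqF, MvPolynomial.pderiv_mul, map_add, map_mul, map_mul, hqz, zero_mul, add_zero] at hd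
  rcases mul_eq_zero.1 hd with h1 | h1
  · have h2 := map_dvd (F2_phi x v : MvPolynomial σ k →ₐ[k] B[X]) (hdvd _ h1)
    rw [← F2_derivative] at h2
    by_cases h0 : (F2_phi x v q).natDegree = 0
    · have h3 := Polynomial.eq_C_of_natDegree_eq_zero h0
      have h4 : Polynomial.aeval e (F2_phi x v q) = 0 := by
        rw [F2_eval]; exact hqz
      rw [h3, Polynomial.aeval_C, map_eq_zero_iff _ (algebraMap B Ω).injective] at h4
      rw [h4, map_zero] at h3
      exact hq.ne_zero (hinj (by rw [h3, map_zero]))
    · have h5 : derivative (F2_phi x v q) ≠ 0 := fun h =>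
        h0 (Polynomial.derivative_eq_zero.1 h)
      have h6 := Polynomial.natDegree_le_of_dvd h2 h5
      have h7 := Polynomial.natDegree_derivative_lt h0
      omega
  · have h2 : q * q ∣ F := by
      rw [hqF]
      exact mul_dvd_mul_left q (hdvd _ h1)
    exact hq.not_isUnit (hsq q h2)

open IntermediateField.algebraAdjoinAdjoin in
private theorem F2_transc {k σ K : Type} [Field k] [Field K] [Algebra k K] (x : σ → K)
    (hind : AlgebraicIndependent k x) (v : σ) :
    Transcendental (IntermediateField.adjoin k (x '' {u | u ≠ v})) (x v) := by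
  have h1 : Transcendental (Algebra.adjoin k (x '' {u | u ≠ v})) (x v) :=
    hind.transcendental_adjoin (fun h => h rfl)
  have h2 := (algebraicIndependent_unique_type_iff (ι := Unit)
    (R := Algebra.adjoin k (x '' {u | u ≠ v})) (x := fun _ => x v)).2 h1
  have h5 := h2.extendScalars (IntermediateField.adjoin k (x '' {u | u ≠ v}))
  exact (algebraicIndependent_unique_type_iff (ι := Unit)).1 h5

private theorem F2_poly {B : Type} [Field B] (P : B[X]) (hP : P.natDegree ≤ 4) :
    qPoly (fun i : Fin 5 => P.coeff i) = P := by
  conv_rhs => rw [P.as_sum_range_C_mul_X_pow' (n := 5) (by omega)]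
  simp only [qPoly, qT0, Finset.sum_range_succ, Finset.sum_range_zero]
  simp

/-- The genus one curve of a variable of degree three or four. -/
theorem exists_ecurve (k σ : Type) [Field k] [CharZero k] [Fintype σ] [DecidableEq σ]
    (F : MvPolynomial σ k) (hsq : Squarefree F) (K : Type) [Field K] [Algebra k K] (x : σ → K)
    (w : K) (hx : IsDoublePt F x w) (v : σ) (h3 : 3 ≤ F.degreeOf v) (h4 : F.degreeOf v ≤ 4) :
    ∃ a : Fin 5 → IntermediateField.adjoin k (x '' {u | u ≠ v}),
      ECurve (IntermediateField.adjoin k (x '' {u | u ≠ v})) K a (x v) w ∧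
      (qPoly a).map (algebraMap (IntermediateField.adjoin k (x '' {u | u ≠ v})) K) =
        MvPolynomial.aeval (fun u => if u = v then X else C (x u)) F := by
  obtain ⟨hind, hw, hgen⟩ := hx
  have hxmem : ∀ u, u ≠ v → x u ∈ IntermediateField.adjoin k (x '' {u | u ≠ v}) := fun u hu =>
    IntermediateField.subset_adjoin k _ ⟨u, hu, rfl⟩
  set B := IntermediateField.adjoin k (x '' {u | u ≠ v}) with hB
  set xB : σ → B := fun u => if h : u = v then 0 else ⟨x u, hxmem u h⟩ with hxB
  have hxBK : ∀ u, u ≠ v → algebraMap B K (xB u) = x u := by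
    intro u hu
    simp only [hxB, hu, dite_false]
    rfl
  have hindB : AlgebraicIndependent k (fun i : {i : σ // i ≠ v} => xB i) := by
    have h1 : AlgebraicIndependent k (fun i : {i : σ // i ≠ v} => x i) :=
      hind.comp _ Subtype.val_injective
    refine AlgebraicIndependent.of_comp (IsScalarTower.toAlgHom k B K) ?_
    refine (iff_of_eq ?_).1 h1
    congr 1
    funext i
    exact (hxBK i i.2).symm
  set Φ : B[X] := F2_phi xB v F with hΦ
  have hdeg : Φ.natDegree = F.degreeOf v := by
    rw [hΦ, F2_map, Polynomial.natDegree_map_eq_of_injective hindB,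
      MvPolynomial.degreeOf_eq_natDegree v]
    rfl
  have hpoly := F2_poly Φ (by omega)
  have hmapK : Φ.map (algebraMap B K) =
      MvPolynomial.aeval (fun u => if u = v then X else C (x u)) F := by
    have h : ((Polynomial.mapAlgHom (IsScalarTower.toAlgHom k B K))).comp (F2_phi xB v) =
        (MvPolynomial.aeval (fun u => if u = v then X else C (x u)) :
          MvPolynomial σ k →ₐ[k] K[X]) := by
      apply MvPolynomial.algHom_ext
      intro u
      simp only [AlgHom.comp_apply, F2_phi, MvPolynomial.aeval_X]
      by_cases hu : u = v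
      · simp [hu]
      · rw [if_neg hu, if_neg hu]
        show (C (xB u)).map (algebraMap B K) = _
        rw [Polynomial.map_C, hxBK u hu]
    exact DFunLike.congr_fun h F
  refine ⟨fun i => Φ.coeff i, ⟨?_, ?_, ?_, ?_⟩, ?_⟩
  · exact F2_transc x hind v
  · -- the equation
    have h1 : Polynomial.aeval (x v) Φ = MvPolynomial.aeval x F := by
      rw [hΦ, F2_eval]
      congr 2
      funext u
      by_cases hu : u = v
      · rw [if_pos hu, hu]
      · rw [if_neg hu, hxBK u hu]
    rw [hw, ← h1]
    conv_lhs => rw [← hpoly]
    simp [qPoly, qT0]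
  · -- generation
    rw [eq_top_iff]
    intro z _
    have hmem : ∀ G : MvPolynomial σ k, MvPolynomial.aeval x G ∈
        IntermediateField.adjoin B {x v, w} := by
      intro G
      induction G using MvPolynomial.induction_on with
      | C c =>
        rw [MvPolynomial.aeval_C, IsScalarTower.algebraMap_apply k B K]
        exact (IntermediateField.adjoin B {x v, w}).algebraMap_mem _
      | add p q hp hq =>
        rw [map_add]
        exact add_mem hp hq
      | mul_X p u hp =>
        rw [map_mul, MvPolynomial.aeval_X]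
        refine mul_mem hp ?_
        by_cases hu : u = v
        · rw [hu]
          exact IntermediateField.subset_adjoin B _ (Set.mem_insert _ _)
        · rw [← hxBK u hu]
          exact (IntermediateField.adjoin B {x v, w}).algebraMap_mem _
    obtain ⟨P, Q, R, hR, hz⟩ := hgen z
    have h1 : z = (MvPolynomial.aeval x P + MvPolynomial.aeval x Q * w) /
        MvPolynomial.aeval x R := by
      rw [eq_div_iff hR, hz]
    rw [h1]
    exact div_mem (add_mem (hmem P) (mul_mem (hmem Q)
      (IntermediateField.subset_adjoin B _ (Set.mem_insert_of_mem _ rfl)))) (hmem R)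
  · -- the discriminant
    intro hdisc
    set Ω := AlgebraicClosure B with hΩ
    have hcoe : ∀ i : Fin 5, Polynomial.coeff Φ i = 0 → algebraMap B Ω (Φ.coeff i) = 0 := by
      intro i hi
      rw [hi, map_zero]
    have hpolyΩ : ∀ e : Ω, Polynomial.aeval e Φ =
        qT0 (fun i : Fin 5 => algebraMap B Ω (Φ.coeff i)) e := by
      intro e
      conv_lhs => rw [← hpoly]
      simp [qPoly, qT0]
    have hderΩ : ∀ e : Ω, Polynomial.aeval e (derivative Φ) =
        qT1 (fun i : Fin 5 => algebraMap B Ω (Φ.coeff i)) e := by
      intro e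
      conv_lhs => rw [← hpoly]
      simp only [qPoly, qT0, qT1, derivative_add, derivative_mul, derivative_C, derivative_X,
        derivative_X_pow, map_add, map_mul, Polynomial.aeval_C, map_zero, Polynomial.aeval_X,
        map_pow, map_natCast, map_one, zero_mul, zero_add, mul_one]
      push_cast
      ring
    have hne : qDisc (fun i : Fin 5 => algebraMap B Ω (Φ.coeff i)) ≠ 0 := by
      refine qDisc_ne_zero Ω _ ?_ ?_
      · by_contra hcon
        push Not at hcon
        obtain ⟨c3, c4⟩ := hcon
        rw [map_eq_zero_iff _ (algebraMap B Ω).injective] at c3 c4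
        have h5 : Φ.natDegree ≤ 2 := by
          rw [Polynomial.natDegree_le_iff_coeff_eq_zero]
          intro n hn
          rcases (by omega : n = 3 ∨ n = 4 ∨ 5 ≤ n) with h | h | h
          · rw [h]; exact c3
          · rw [h]; exact c4
          · exact Polynomial.coeff_eq_zero_of_natDegree_lt (by omega)
        omega
      · intro e he
        rw [← hpolyΩ] at he
        rw [← hderΩ]
        exact F2_simple xB v hindB F hsq e he
    apply hne
    have h6 : qDisc (fun i : Fin 5 => algebraMap B Ω (Φ.coeff i)) =
        algebraMap B Ω (qDisc (fun i : Fin 5 => Φ.coeff i)) := by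
      simp only [qDisc, map_sub, map_mul, map_pow, map_add, map_ofNat]
    rw [h6, hdisc, map_zero]
  · rw [hpoly, hmapK]

end Pool.Agent.LibHP
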