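import Pool.Agent.LibHP2.C1
import Pool.Agent.LibHP2.C1b
import Pool.Agent.LibHP3.Defs

set_option autoImplicit false
open Polynomial

namespace Pool.Agent.LibHP

private theorem F3_lift (k σ K : Type) [Field k] [Field K] [Algebra k K] (x : σ → K)
    (T : Set σ) (r : K) (hr : r ∈ Algebra.adjoin k (x '' T)) :
    ∃ P : MvPolynomial σ k, (P.vars : Set σ) ⊆ T ∧ MvPolynomial.aeval x P = r := by
  have h1 : Algebra.adjoin k (x '' T) =
      (MvPolynomial.supported k T).map (MvPolynomial.aeval x) := by
    rw [MvPolynomial.supported, AlgHom.map_adjoin, ← Set.image_comp]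
    congr 1
    refine Set.image_congr fun v _ => ?_
    simp
  rw [h1] at hr
  obtain ⟨P, hP, rfl⟩ := Subalgebra.mem_map.1 hr
  exact ⟨P, MvPolynomial.mem_supported.1 hP, rfl⟩

private theorem F3_notMem_vars_of_dvd {k σ : Type} [Field k] {A B : MvPolynomial σ k} (h : A ∣ B)
    (hB : B ≠ 0) {v : σ} (hv : v ∉ B.vars) : v ∉ A.vars := by
  obtain ⟨C, rfl⟩ := h
  have hA : A ≠ 0 := left_ne_zero_of_mul hB
  have hC : C ≠ 0 := right_ne_zero_of_mul hB
  rw [MvPolynomial.mem_vars_iff_degreeOf_ne_zero, not_not,
    MvPolynomial.degreeOf_mul_eq hA hC] at hv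
  rw [MvPolynomial.mem_vars_iff_degreeOf_ne_zero, not_not]
  omega

/-- the value of the polynomial in one variable -/
theorem F3_eval {k σ K Ω : Type} [Field k] [DecidableEq σ] [Field K] [Algebra k K] [Field Ω]
    [Algebra K Ω] [Algebra k Ω] [IsScalarTower k K Ω] (x : σ → K) (v : σ) (e : Ω)
    (G : MvPolynomial σ k) :
    Polynomial.aeval e (MvPolynomial.aeval (fun u => if u = v then X else C (x u)) G : K[X]) =
      MvPolynomial.aeval (fun u => if u = v then e else algebraMap K Ω (x u)) G := by
  have h : ((Polynomial.aeval e : K[X] →ₐ[K] Ω).restrictScalars k).comp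
      (MvPolynomial.aeval (fun u => if u = v then X else C (x u))) =
      (MvPolynomial.aeval (fun u => if u = v then e else algebraMap K Ω (x u)) :
        MvPolynomial σ k →ₐ[k] Ω) := by
    apply MvPolynomial.algHom_ext
    intro u
    simp only [AlgHom.comp_apply, AlgHom.restrictScalars_apply, MvPolynomial.aeval_X]
    by_cases hu : u = v
    · simp [hu]
    · simp [hu]
  exact DFunLike.congr_fun h G

/-- a polynomial free of the variable -/
theorem F3_const {k σ K : Type} [Field k] [DecidableEq σ] [Field K] [Algebra k K] (x : σ → K)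
    (v : σ) (G : MvPolynomial σ k) (hG : v ∉ G.vars) :
    (MvPolynomial.aeval (fun u => if u = v then X else C (x u)) G : K[X]) =
      C (MvPolynomial.aeval x G) := by
  have h1 : (C (MvPolynomial.aeval x G) : K[X]) =
      MvPolynomial.aeval (fun u => (C (x u) : K[X])) G := by
    have h : ((Polynomial.CAlgHom (R := K) (A := K)).restrictScalars k).comp
        (MvPolynomial.aeval x) = (MvPolynomial.aeval (fun u => (C (x u) : K[X])) :
          MvPolynomial σ k →ₐ[k] K[X]) := by
      apply MvPolynomial.algHom_ext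
      intro u
      simp
    exact DFunLike.congr_fun h G
  rw [h1]
  refine MvPolynomial.hom_congr_vars
    (f₁ := (MvPolynomial.aeval (fun u => if u = v then X else C (x u)) :
      MvPolynomial σ k →ₐ[k] K[X]).toRingHom)
    (f₂ := (MvPolynomial.aeval (fun u => (C (x u) : K[X])) :
      MvPolynomial σ k →ₐ[k] K[X]).toRingHom) ?_ ?_ rfl
  · ext c
    simp
  · intro i hi _
    have : i ≠ v := by
      rintro rfl
      exact hG hi
    simp [this]

/-- an irreducible factor which vanishes -/
theorem F3_factor {k σ K : Type} [Field k] [Field K] [Algebra k K] (z : σ → K)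
    (G : MvPolynomial σ k) (hG : G ≠ 0) (hz : MvPolynomial.aeval z G = 0) :
    ∃ p, Irreducible p ∧ p ∣ G ∧ MvPolynomial.aeval z p = 0 := by
  classical
  obtain ⟨f, hf, u, hu⟩ := WfDvdMonoid.exists_factors G hG
  rw [← hu, map_mul] at hz
  have hu' : MvPolynomial.aeval z (u : MvPolynomial σ k) ≠ 0 :=
    ((u.isUnit).map (MvPolynomial.aeval z)).ne_zero
  have hz' : MvPolynomial.aeval z f.prod = 0 := by
    rcases mul_eq_zero.1 hz with h | h
    · exact h
    · exact absurd h hu'
  rw [map_multiset_prod, Multiset.prod_eq_zero_iff, Multiset.mem_map] at hz'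
  obtain ⟨p, hp, hp0⟩ := hz'
  refine ⟨p, hf p hp, ?_, hp0⟩
  rw [← hu]
  exact (Multiset.dvd_prod hp).mul_right _

open IntermediateField.algebraAdjoinAdjoin in
/-- clearing denominators -/
private theorem F3_clear {k K : Type} [Field k] [Field K] [Algebra k K] (S : Set K)
    (p : (IntermediateField.adjoin k S)[X]) (hp : p ≠ 0) :
    ∃ (p0 : K[X]) (c : K), p0 ≠ 0 ∧ (∀ j, p0.coeff j ∈ Algebra.adjoin k S) ∧
      p0 = C c * p.map (algebraMap (IntermediateField.adjoin k S) K) := by
  obtain ⟨b, hb0, hb⟩ := IsLocalization.integerNormalization_spec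
    (nonZeroDivisors (Algebra.adjoin k S)) p
  have hb1 : (b : K) ≠ 0 := by
    intro h
    exact nonZeroDivisors.ne_zero hb0 (Subtype.ext h)
  have h0 : C (b : K) * p.map (algebraMap (IntermediateField.adjoin k S) K) ≠ 0 :=
    mul_ne_zero (C_ne_zero.2 hb1) (Polynomial.map_ne_zero hp)
  refine ⟨_, (b : K), h0, ?_, rfl⟩
  intro j
  rw [Polynomial.coeff_C_mul, Polynomial.coeff_map]
  have h1 := congrArg (fun q => ((q.coeff j : IntermediateField.adjoin k S) : K)) hb
  simp only [Polynomial.coeff_map, Polynomial.coeff_smul] at h1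
  have h2 : (((b • p.coeff j : IntermediateField.adjoin k S)) : K) =
    (b : K) * ((p.coeff j : IntermediateField.adjoin k S) : K) := rfl
  rw [h2] at h1
  have h3 : (b : K) * algebraMap (IntermediateField.adjoin k S) K (p.coeff j) =
    (b : K) * ((p.coeff j : IntermediateField.adjoin k S) : K) := rfl
  rw [h3, ← h1]
  exact (((IsLocalization.integerNormalization (nonZeroDivisors (Algebra.adjoin k S)) p).coeff
    j) : Algebra.adjoin k S).2

/-- a polynomial in several variables -/
private theorem F3_exists {k σ K : Type} [Field k] [DecidableEq σ] [Field K] [Algebra k K]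
    (x : σ → K) (v : σ) (T : Set σ) (hT : v ∉ T) (p0 : K[X]) (hp0 : p0 ≠ 0)
    (hcoeff : ∀ j, p0.coeff j ∈ Algebra.adjoin k (x '' T)) :
    ∃ G0 : MvPolynomial σ k, G0 ≠ 0 ∧ (∀ u ∈ G0.vars, u ∈ T ∨ u = v) ∧
      (MvPolynomial.aeval (fun u => if u = v then X else C (x u)) G0 : K[X]) = p0 := by
  classical
  choose lift hliftv hlift using fun j => F3_lift k σ K x T _ (hcoeff j)
  have hφG0 : (MvPolynomial.aeval (fun u => if u = v then X else C (x u))
      (∑ j ∈ p0.support, lift j * MvPolynomial.X v ^ j) : K[X]) = p0 := by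
    rw [map_sum]
    conv_rhs => rw [p0.as_sum_support_C_mul_X_pow]
    refine Finset.sum_congr rfl fun j _ => ?_
    rw [map_mul, map_pow, MvPolynomial.aeval_X, if_pos rfl,
      F3_const x v _ (fun h => hT (hliftv _ h)), hlift]
  refine ⟨∑ j ∈ p0.support, lift j * MvPolynomial.X v ^ j, ?_, ?_, hφG0⟩
  · intro h
    apply hp0
    rw [← hφG0, h, map_zero]
  · intro u hmem
    have h1 := MvPolynomial.vars_sum_subset p0.support
      (fun j => lift j * MvPolynomial.X v ^ j) hmem
    rw [Finset.mem_biUnion] at h1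
    obtain ⟨j, -, hj⟩ := h1
    have h2 := MvPolynomial.vars_mul _ _ hj
    rw [Finset.mem_union] at h2
    rcases h2 with h2 | h2
    · exact Or.inl (hliftv _ h2)
    · have h3 := MvPolynomial.vars_pow _ _ h2
      rw [MvPolynomial.vars_X, Finset.mem_singleton] at h3
      exact Or.inr h3

/-- No root of `F`, as a polynomial in `x v`, is algebraic over the field generated by the
variables outside of `I`. -/
theorem ecurve_coprime (k σ : Type) [Field k] [CharZero k] [Fintype σ] [DecidableEq σ]
    (F : MvPolynomial σ k) (hF0 : F ≠ 0) (I : Finset σ)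
    (hF : NoFactorFreeOf (fun v => decide (v ∈ I)) F true) (K : Type) [Field K] [Algebra k K]
    (x : σ → K) (hx : AlgebraicIndependent k x) (v : σ) (hv : v ∉ I)
    (p : (IntermediateField.adjoin k (x '' {u | u ≠ v ∧ u ∉ I}))[X]) (hp : p ≠ 0) :
    IsCoprime (p.map (algebraMap (IntermediateField.adjoin k (x '' {u | u ≠ v ∧ u ∉ I})) K))
      (MvPolynomial.aeval (fun u => if u = v then X else C (x u)) F : K[X]) := by
  rw [Polynomial.isCoprime_iff_aeval_ne_zero_of_isAlgClosed K (AlgebraicClosure K)]
  intro e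
  by_contra hcon
  push Not at hcon
  obtain ⟨he1, he2⟩ := hcon
  obtain ⟨p0, c, hp0, hcoeff, hpc⟩ := F3_clear _ p hp
  obtain ⟨G0, hG0ne, hG0v, hG0⟩ := F3_exists x v {u | u ≠ v ∧ u ∉ I} (fun h => h.1 rfl) p0 hp0
    hcoeff
  rw [F3_eval] at he2
  have hG0z : MvPolynomial.aeval
      (fun u => if u = v then e else algebraMap K (AlgebraicClosure K) (x u)) G0 = 0 := by
    rw [← F3_eval, hG0, hpc, map_mul, he1, mul_zero]
  obtain ⟨q, hq, hqG, hqz⟩ := F3_factor _ G0 hG0ne hG0z
  have hind : AlgebraicIndependent k (fun i : {i : σ // i ≠ v} =>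
      (fun u => if u = v then e else algebraMap K (AlgebraicClosure K) (x u)) i) := by
    have h1 : AlgebraicIndependent k (fun i : {i : σ // i ≠ v} => x i) :=
      hx.comp _ Subtype.val_injective
    have h2 := h1.map' (f := IsScalarTower.toAlgHom k K (AlgebraicClosure K))
      (algebraMap K (AlgebraicClosure K)).injective
    refine (iff_of_eq ?_).1 h2
    congr 1
    funext i
    simp only [if_neg i.2]
    rfl
  have hdvd : q ∣ F := dvd_of_algebraicIndependent k (AlgebraicClosure K) q hq _ hqz v hind F he2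
  refine hq.not_isUnit (hF q hdvd ?_)
  intro u hu hdec
  have hu' : u ∈ I := by simpa using hdec
  have h3 : u ∉ G0.vars := by
    intro h
    rcases hG0v u h with h4 | h4
    · exact h4.2 hu'
    · exact hv (h4 ▸ hu')
  exact F3_notMem_vars_of_dvd hqG hG0ne h3 hu

end Pool.Agent.LibHP
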