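import Mathlib

set_option autoImplicit false
open Polynomial

namespace Pool.Agent.LibHP

/-- The field `κ` is algebraically closed in `κ(y)` for a transcendental element `y`. -/
theorem G0_mem (κ K : Type) [Field κ] [Field K] [Algebra κ K] (y : K) (hy : Transcendental κ y)
    (c : K) (hc : c ∈ IntermediateField.adjoin κ {y}) (halg : IsAlgebraic κ c) :
    ∃ b : κ, algebraMap κ K b = c := by
  let e := RatFunc.algEquivOfTranscendental (K := κ) y hy
  let u : RatFunc κ := e.symm ⟨c, hc⟩
  have h1 : IsAlgebraic κ u := by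
    have h2 : IsAlgebraic κ (⟨c, hc⟩ : IntermediateField.adjoin κ {y}) := by
      rw [← isAlgebraic_algebraMap_iff
        (algebraMap (IntermediateField.adjoin κ {y}) K).injective]
      exact halg
    exact h2.algHom e.symm.toAlgHom
  have h3 : ∃ b, u = RatFunc.C b := by
    by_contra hcon
    exact RatFunc.transcendental_of_ne_C u hcon h1
  obtain ⟨b, hb⟩ := h3
  refine ⟨b, ?_⟩
  have h4 : e u = ⟨c, hc⟩ := e.apply_symm_apply _
  rw [hb] at h4
  have h5 : e (RatFunc.C b) = algebraMap κ _ b := by
    rw [← RatFunc.algebraMap_eq_C]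
    exact e.commutes b
  rw [h5] at h4
  exact congrArg Subtype.val h4

end Pool.Agent.LibHP
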