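import Pool.Agent.LibHP2.B3
import Pool.Agent.LibHP3.Defs

set_option autoImplicit false
open Polynomial

namespace Pool.Agent.LibHP

theorem M2_mem {M K S R ι : Type} [Field M] [Field K] [Field S] [Field R] [Algebra M K] [Algebra S R]
    (s : K →+* R) (hs : ∀ c : M, ∃ b : S, s (algebraMap M K c) = algebraMap S R b)
    (T : ι → K) (z : K) (hz : z ∈ Algebra.adjoin M (Set.range T)) :
    s z ∈ Algebra.adjoin S (Set.range (fun i => s (T i))) := by
  induction hz using Algebra.adjoin_induction with
  | mem x hx =>
    obtain ⟨i, rfl⟩ := hx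
    exact Algebra.subset_adjoin ⟨i, rfl⟩
  | algebraMap c =>
    obtain ⟨b, hb⟩ := hs c
    rw [hb]
    exact Subalgebra.algebraMap_mem _ _
  | add x y _ _ hx hy => rw [map_add]; exact add_mem hx hy
  | mul x y _ _ hx hy => rw [map_mul]; exact mul_mem hx hy

theorem M2_isAlgebraic {M K S R ι : Type} [Field M] [Field K] [Field S] [Field R] [Algebra M K]
    [Algebra S R]
    (s : K →+* R) (hs : ∀ c : M, ∃ b : S, s (algebraMap M K c) = algebraMap S R b)
    (T : ι → K) (a : K) (ha : IsAlgebraic (Algebra.adjoin M (Set.range T)) a) :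
    IsAlgebraic (Algebra.adjoin S (Set.range (fun i => s (T i)))) (s a) := by
  obtain ⟨p, hp, hpa⟩ := ha
  let g : Algebra.adjoin M (Set.range T) →+* Algebra.adjoin S (Set.range (fun i => s (T i))) :=
    { toFun := fun z => ⟨s z, M2_mem s hs T z z.2⟩
      map_one' := by ext; simp
      map_mul' := by intro x y; ext; simp
      map_zero' := by ext; simp
      map_add' := by intro x y; ext; simp }
  have hg : Function.Injective g := by
    intro x y hxy
    have := congrArg Subtype.val hxy
    exact Subtype.ext (s.injective this)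
  refine ⟨p.map g, (Polynomial.map_ne_zero_iff hg).mpr hp, ?_⟩
  rw [Polynomial.aeval_def] at hpa ⊢
  rw [Polynomial.eval₂_map]
  have h2 := congrArg s hpa
  rw [map_zero, Polynomial.hom_eval₂] at h2
  exact h2

theorem M2_alg {M K S R ι : Type} [Field M] [Field K] [Field S] [Field R] [Algebra M K] [Algebra S R]
    (s : K →+* R) (hs : ∀ c : M, ∃ b : S, s (algebraMap M K c) = algebraMap S R b)
    (hgen : Subfield.closure (Set.range (algebraMap S R) ∪ Set.range s) = ⊤)
    (T : ι → K) (hT : IsTranscendenceBasis M T) :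
    Algebra.IsAlgebraic (Algebra.adjoin S (Set.range (fun i => s (T i)))) R := by
  let A := Algebra.adjoin S (Set.range (fun i => s (T i)))
  let E : Subfield R :=
    { carrier := {z | IsAlgebraic A z}
      mul_mem' := fun ha hb => IsAlgebraic.mul ha hb
      one_mem' := isAlgebraic_one
      add_mem' := fun ha hb => IsAlgebraic.add ha hb
      zero_mem' := isAlgebraic_zero
      neg_mem' := fun ha => IsAlgebraic.neg ha
      inv_mem' := fun _ ha => IsAlgebraic.inv ha }
  have hE : E = ⊤ := by
    rw [eq_top_iff, ← hgen, Subfield.closure_le]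
    rintro z (⟨c, rfl⟩ | ⟨a, rfl⟩)
    · exact isAlgebraic_algebraMap (algebraMap S A c)
    · have := hT.isAlgebraic
      exact M2_isAlgebraic s hs T a (Algebra.IsAlgebraic.isAlgebraic a)
  constructor
  intro z
  have : z ∈ E := by rw [hE]; trivial
  exact this

/-- The algebraic closure of the composition of an embedding with the stereographic family of a
quadric comes from the base of the quadric. -/
theorem quad_move (M K R : Type) [Field M] [CharZero M] [Field K] [Algebra M K] [Field R]
    (F : K →+* R) (n : ℕ) (hn : 2 ≤ n) (B : Matrix (Fin (n + 1)) (Fin (n + 1)) M)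
    (hB : B.IsSymm) (hdet : B.det ≠ 0) (y : Fin n → K) (hy : IsGenericQuad B y) :
    ∃ s : K →+* RF K (n - 1),
      (∀ c : M, s (algebraMap M K c) = algebraMap K (RF K (n - 1)) (algebraMap M K c)) ∧
      ∀ e : RF R (n - 1), AlgVia ((rfmap F (n - 1)).comp s) e →
        e ∈ Subfield.closure (Set.range ((rfmap F (n - 1)).comp s) ∪
          (algebraMap R (RF R (n - 1))) '' {z : R | AlgVia (F.comp (algebraMap M K)) z}) := by
  obtain ⟨s, hsM, -, hgen⟩ := exists_stereo M K n hn B hB hdet y hy
  obtain ⟨T, hT, -⟩ := exists_free_basis M K n hn B hB hdet y hy s hsM hgen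
  refine ⟨s, hsM, ?_⟩
  let algMR : Algebra M R := (F.comp (algebraMap M K)).toAlgebra
  have hCR : CharZero R := charZero_of_injective_algebraMap (algebraMap M R).injective
  have hCΩ : CharZero (RF R (n - 1)) :=
    charZero_of_injective_algebraMap (algebraMap R (RF R (n - 1))).injective
  set G : K →+* RF R (n - 1) := (rfmap F (n - 1)).comp s with hG
  let ι : R →+* RF R (n - 1) := algebraMap R (RF R (n - 1))
  have hGM : ∀ c : M, G (algebraMap M K c) = ι (algebraMap M R c) := by
    intro c
    show rfmap F (n - 1) (s (algebraMap M K c)) = _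
    rw [hsM, rfmap_const]
    rfl
  let M0 : Subfield R := (algebraicClosure M R).toSubfield
  have hM0 : ∀ z : R, z ∈ M0 ↔ IsAlgebraic M z := fun z => mem_algebraicClosure_iff
  have hM0' : ∀ z : R, z ∈ M0 ↔ AlgVia (F.comp (algebraMap M K)) z := fun z => hM0 z
  set K2 : Subfield (RF R (n - 1)) := Subfield.closure (Set.range G ∪
    ι '' {z : R | AlgVia (F.comp (algebraMap M K)) z}) with hK2
  have hGK2 : ∀ a : K, G a ∈ K2 := fun a => Subfield.subset_closure (Or.inl ⟨a, rfl⟩)
  have hM0K2 : M0.map ι ≤ K2 := by
    rintro _ ⟨z, hz, rfl⟩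
    exact Subfield.subset_closure (Or.inr ⟨z, (hM0' z).1 hz, rfl⟩)
  -- `G(K)` and `R` generate
  have htop : Subfield.closure (Set.range (algebraMap R (RF R (n - 1))) ∪ Set.range G) = ⊤ := by
    rw [eq_top_iff]
    set C : Subfield (RF R (n - 1)) :=
      Subfield.closure (Set.range (algebraMap R (RF R (n - 1))) ∪ Set.range G) with hC
    have hιC : ∀ a : R, ι a ∈ C := fun a => Subfield.subset_closure (Or.inl ⟨a, rfl⟩)
    have h1 : (⊤ : Subfield (RF K (n - 1))) ≤ C.comap (rfmap F (n - 1)) := by
      rw [← hgen, Subfield.closure_le]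
      rintro _ (⟨a, rfl⟩ | ⟨a, rfl⟩)
      · change rfmap F (n - 1) (algebraMap K (RF K (n - 1)) a) ∈ C
        rw [rfmap_const]
        exact hιC _
      · exact Subfield.subset_closure (Or.inr ⟨a, rfl⟩)
    have h2 : ∀ p : MvPolynomial (Fin (n - 1)) R,
        algebraMap (MvPolynomial (Fin (n - 1)) R) (RF R (n - 1)) p ∈ C := by
      intro p
      induction p using MvPolynomial.induction_on with
      | C a =>
        have h3 : algebraMap (MvPolynomial (Fin (n - 1)) R) (RF R (n - 1)) (MvPolynomial.C a) =
            ι a := (IsScalarTower.algebraMap_apply R (MvPolynomial (Fin (n - 1)) R)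
              (RF R (n - 1)) a).symm
        rw [h3]
        exact hιC a
      | add p q hp hq =>
        rw [map_add]
        exact add_mem hp hq
      | mul_X p i hp =>
        rw [map_mul]
        refine mul_mem hp ?_
        have h3 : algebraMap (MvPolynomial (Fin (n - 1)) K) (RF K (n - 1)) (MvPolynomial.X i) ∈
            C.comap (rfmap F (n - 1)) := h1 trivial
        change rfmap F (n - 1) (algebraMap (MvPolynomial (Fin (n - 1)) K)
          (RF K (n - 1)) (MvPolynomial.X i)) ∈ C at h3
        rwa [rfmap_algebraMap, MvPolynomial.map_X] at h3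
    intro z _
    obtain ⟨p, q, _, rfl⟩ := IsFractionRing.div_surjective (A := MvPolynomial (Fin (n - 1)) R) z
    exact div_mem (h2 p) (h2 q)
  have hind : AlgebraicIndependent R (fun i => G (T i)) := by
    have := M2_alg (M := M) (S := R) G (fun c => ⟨_, hGM c⟩) htop T hT
    refine (Algebra.IsAlgebraic.isTranscendenceBasis_of_le_trdeg_of_finite R
      (fun i => G (T i)) ?_).1
    rw [B3a_trdeg_RF]
    simp
  -- the main application
  have hmain : ∀ z : RF R (n - 1), IsAlgebraic K2 z → z ∈ K2 := by
    refine mem_of_algebraic_compositum (RF R (n - 1)) (M0.map ι) ι.fieldRange K2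
      ?_ hM0K2 ?_ (n - 1) (fun i => G (T i)) ?_ ?_ ?_ ?_
    · rintro _ ⟨z, _, rfl⟩
      exact ⟨z, rfl⟩
    · rintro _ ⟨z, rfl⟩ hz
      refine ⟨z, ?_, rfl⟩
      have h1 : IsAlgebraic (algebraicClosure M R) z := by
        let g : algebraicClosure M R →+* (M0.map ι) :=
          (ι.comp (algebraMap (algebraicClosure M R) R)).codRestrict (M0.map ι)
            (fun x => ⟨x, x.2, rfl⟩)
        refine IsAlgebraic.of_ringHom_of_comp_eq (S := M0.map ι) (B := RF R (n - 1)) g ι hz ?_
          ι.injective ?_
        · rintro ⟨_, x, hx, rfl⟩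
          exact ⟨⟨x, hx⟩, rfl⟩
        · ext x
          rfl
      exact (hM0 z).2 (h1.restrictScalars M)
    · intro i
      exact hGK2 _
    · set F0 : Subfield (RF R (n - 1)) :=
        Subfield.closure ((M0.map ι : Set (RF R (n - 1))) ∪ Set.range fun i => G (T i)) with hF0
      have hle : K2 ≤ (algebraicClosure F0 (RF R (n - 1))).toSubfield := by
        rw [hK2, Subfield.closure_le]
        rintro z (⟨a, rfl⟩ | ⟨a, ha, rfl⟩)
        · refine mem_algebraicClosure_iff.2 ?_
          have hTa := hT.isAlgebraic
          refine B3b_map G (Algebra.adjoin M (Set.range T)) F0 Subtype.val_injective ?_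
            (Algebra.IsAlgebraic.isAlgebraic a)
          rintro ⟨b, hb⟩
          change G b ∈ _
          induction hb using Algebra.adjoin_induction with
          | mem x hx =>
            obtain ⟨i, rfl⟩ := hx
            exact Subfield.subset_closure (Or.inr ⟨i, rfl⟩)
          | algebraMap c =>
            rw [hGM]
            exact Subfield.subset_closure
              (Or.inl ⟨algebraMap M R c, (hM0 _).2 (isAlgebraic_algebraMap c), rfl⟩)
          | add x y _ _ hx hy =>
            rw [map_add]
            exact add_mem hx hy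
          | mul x y _ _ hx hy =>
            rw [map_mul]
            exact mul_mem hx hy
        · refine mem_algebraicClosure_iff.2 ?_
          have h1 : ι a ∈ F0 := Subfield.subset_closure (Or.inl ⟨a, (hM0' a).2 ha, rfl⟩)
          exact isAlgebraic_algebraMap (⟨ι a, h1⟩ : F0)
      intro z hz
      exact mem_algebraicClosure_iff.1 (hle hz)
    · exact hind.ringHom_of_comp_eq (S := ι.fieldRange) (B := RF R (n - 1))
        ι.rangeRestrictField (RingHom.id (RF R (n - 1)))
        ι.rangeRestrictField_bijective.2 Function.injective_id (by ext; rfl)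
    · rw [eq_top_iff, ← htop, Subfield.closure_le]
      rintro z (⟨a, rfl⟩ | ⟨a, rfl⟩)
      · exact Subfield.subset_closure (Or.inl ⟨a, rfl⟩)
      · exact Subfield.subset_closure (Or.inr (hGK2 a))
  rintro e ⟨P, hP, hPe⟩
  apply hmain
  let g : K →+* K2 := G.codRestrict K2 hGK2
  refine ⟨P.map g, (Polynomial.map_ne_zero_iff g.injective).2 hP, ?_⟩
  rw [Polynomial.aeval_def, Polynomial.eval₂_map]
  exact hPe

end Pool.Agent.LibHP
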