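import Pool.Agent.LibHP2.A3
import Pool.Agent.LibHP2.R1
import Pool.Agent.LibHP3.M2
import Pool.Agent.LibHP3.R4

set_option autoImplicit false
open Polynomial

namespace Pool.Agent.LibHP

/-- degree count -/
theorem M3_core (M K L Ω : Type) [Field M] [CharZero M] [Field K] [Field L] [Field Ω] [Algebra K L]
    [FiniteDimensional K L] (a b : M →+* K)
    (hcl : ∀ c : K, AlgVia a c → ∃ m : M, a m = c) (G : K →+* Ω) (h : L →+* Ω)
    (hcomp : ∀ m, G (b m) = h (algebraMap K L (a m)))
    (hG : ∀ e : Ω, AlgVia G e →
      e ∈ Subfield.closure (Set.range G ∪ h '' {z : L | AlgVia ((algebraMap K L).comp a) z}))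
    (hdeg : Module.finrank K L ≤ dF G) :
    Subfield.closure (Set.range (algebraMap K L) ∪
      {z : L | AlgVia ((algebraMap K L).comp a) z}) = ⊤ := by
  classical
  let algMK : Algebra M K := a.toAlgebra
  let algML : Algebra M L := ((algebraMap K L).comp a).toAlgebra
  have tower : IsScalarTower M K L := IsScalarTower.of_algebraMap_eq fun _ => rfl
  let algKΩ : Algebra K Ω := G.toAlgebra
  have hcl' : ∀ c : K, IsAlgebraic M c → ∃ m : M, algebraMap M K m = c := hcl
  have hfd : FiniteDimensional M (algebraicClosure M L) := finite_algebraicClosure M K L hcl'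
  obtain ⟨θ, hθ⟩ := Field.exists_primitive_element M (algebraicClosure M L)
  have hint' : IsIntegral M θ := Algebra.IsIntegral.isIntegral θ
  have hint : IsIntegral M (θ : L) := hint'.map (algebraicClosure M L).val
  have hdegθ := R1_natDegree_minpoly M K L hcl' (θ : L) hint
  have hpoly : ∀ z : L, IsAlgebraic M z → ∃ Q : M[X], aeval (θ : L) Q = z := by
    intro z hz
    have hx : (⟨z, mem_algebraicClosure_iff.2 hz⟩ : algebraicClosure M L) ∈
        (IntermediateField.adjoin M ({θ} : Set (algebraicClosure M L))).toSubalgebra := by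
      rw [hθ]; trivial
    rw [IntermediateField.adjoin_simple_toSubalgebra_of_isAlgebraic hint'.isAlgebraic,
      Algebra.adjoin_singleton_eq_range_aeval] at hx
    obtain ⟨p, hp⟩ := hx
    refine ⟨p, ?_⟩
    have h2 := Polynomial.aeval_algebraMap_apply L θ p
    have h3 : aeval θ p = ⟨z, mem_algebraicClosure_iff.2 hz⟩ := hp
    rw [h3] at h2
    exact h2
  have hcomp' : (G.comp b) = h.comp (algebraMap M L) := RingHom.ext hcomp
  -- the element of `Ω`
  set ω : Ω := h (θ : L) with hω
  have hev : ∀ Q : M[X], Q.eval₂ (G.comp b) ω = h (aeval (θ : L) Q) := by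
    intro Q
    rw [hcomp', hω, ← Polynomial.hom_eval₂]
    rfl
  have hroot : aeval ω ((minpoly M (θ : L)).map b) = 0 := by
    rw [Polynomial.aeval_def, Polynomial.eval₂_map]
    show (minpoly M (θ : L)).eval₂ (G.comp b) ω = 0
    rw [hev, minpoly.aeval, map_zero]
  have hmon : ((minpoly M (θ : L)).map b).Monic := (minpoly.monic hint).map b
  have hωint : IsIntegral K ω := ⟨_, hmon, hroot⟩
  have hdegω : (minpoly K ω).natDegree ≤ (minpoly M (θ : L)).natDegree := by
    refine (Polynomial.natDegree_le_of_dvd (minpoly.dvd K ω hroot) hmon.ne_zero).trans ?_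
    rw [Polynomial.natDegree_map]
  have hmem : ∀ Q : K[X], aeval ω Q ∈ IntermediateField.adjoin K ({ω} : Set Ω) := by
    intro Q
    have h1 : aeval ω Q ∈ Algebra.adjoin K {ω} := by
      rw [Algebra.adjoin_singleton_eq_range_aeval]
      exact ⟨Q, rfl⟩
    exact IntermediateField.algebra_adjoin_le_adjoin K _ h1
  have hle : algebraicClosure K Ω ≤ IntermediateField.adjoin K ({ω} : Set Ω) := by
    intro e he
    have h1 : AlgVia G e := mem_algebraicClosure_iff.1 he
    have h2 : Subfield.closure (Set.range G ∪ h '' {z : L | AlgVia ((algebraMap K L).comp a) z}) ≤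
        (IntermediateField.adjoin K ({ω} : Set Ω)).toSubfield := by
      rw [Subfield.closure_le]
      rintro z (⟨c, rfl⟩ | ⟨c, hc, rfl⟩)
      · exact (IntermediateField.adjoin K ({ω} : Set Ω)).algebraMap_mem c
      · obtain ⟨Q, hQ⟩ := hpoly c hc
        rw [← hQ, ← hev, ← Polynomial.eval₂_map]
        exact hmem (Q.map b)
    exact h2 (hG e h1)
  have hfdω : FiniteDimensional K (IntermediateField.adjoin K ({ω} : Set Ω)) :=
    IntermediateField.adjoin.finiteDimensional hωint
  have hdF : dF G ≤ (minpoly K ω).natDegree := by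
    rw [← IntermediateField.adjoin.finrank hωint]
    exact LinearMap.finrank_le_finrank_of_injective
      (f := (IntermediateField.inclusion hle).toLinearMap) (IntermediateField.inclusion hle).injective
  have hθK : IsIntegral K (θ : L) := Algebra.IsIntegral.isIntegral (θ : L)
  have htop : IntermediateField.adjoin K ({(θ : L)} : Set L) = ⊤ := by
    apply IntermediateField.eq_of_le_of_finrank_le le_top
    rw [IntermediateField.finrank_top', IntermediateField.adjoin.finrank hθK, hdegθ]
    exact hdeg.trans (hdF.trans hdegω)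
  rw [eq_top_iff]
  intro z _
  set C := Subfield.closure (Set.range (algebraMap K L) ∪
      {z : L | AlgVia ((algebraMap K L).comp a) z}) with hC
  let C' : IntermediateField K L := C.toIntermediateField fun c =>
    Subfield.subset_closure (Or.inl ⟨c, rfl⟩)
  have h1 : IntermediateField.adjoin K ({(θ : L)} : Set L) ≤ C' := by
    rw [IntermediateField.adjoin_le_iff]
    intro x hx
    rw [Set.mem_singleton_iff] at hx
    subst hx
    exact Subfield.subset_closure (Or.inr (hint.isAlgebraic))
  rw [htop] at h1
  exact h1 (x := z) trivial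

/-- If the closure `L` of `K` has minimal degree, it is generated by the elements algebraic over
the image of the base of a quadric under an endomorphism of `K`. -/
theorem generated_by_moved (k M K L : Type) [Field k] [CharZero k] [Field M] [Field K]
    [Algebra k M] [Algebra k K] [Algebra M K] [IsScalarTower k M K] [Field L] [Algebra K L]
    [FiniteDimensional K L] (n : ℕ) (hn : 2 ≤ n) (B : Matrix (Fin (n + 1)) (Fin (n + 1)) M)
    (hB : B.IsSymm) (hdet : B.det ≠ 0) (y : Fin n → K) (hy : IsGenericQuad B y)
    (N : ℕ) (j : L →+* RF k N)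
    (hj : ∀ e : RF k N, (∃ P : L[X], P ≠ 0 ∧ P.eval₂ j e = 0) → ∃ l, j l = e)
    (hjk : ∀ c : k, j (algebraMap K L (algebraMap k K c)) = algebraMap k (RF k N) c)
    (hmin : ∀ (n' : ℕ) (F' : K →ₐ[k] RF k n'), Module.finrank K L ≤ dF F'.toRingHom)
    (D : K →ₐ[k] K)
    (hD : ∀ c : K, AlgVia ((D : K →+* K).comp (algebraMap M K)) c →
      ∃ m : M, D (algebraMap M K m) = c) :
    Subfield.closure (Set.range (algebraMap K L) ∪
      {z : L | AlgVia ((algebraMap K L).comp ((D : K →+* K).comp (algebraMap M K))) z}) = ⊤ := by
  classical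
  have hM : CharZero M := charZero_of_injective_algebraMap (algebraMap k M).injective
  let F : K →+* RF k N := j.comp ((algebraMap K L).comp (D : K →+* K))
  obtain ⟨s, hs, hcl⟩ := quad_move M K (RF k N) F n hn B hB hdet y hy
  set G : K →+* RF (RF k N) (n - 1) := (rfmap F (n - 1)).comp s with hG
  let ι : RF k N →+* RF (RF k N) (n - 1) := algebraMap (RF k N) (RF (RF k N) (n - 1))
  have hGM : ∀ m : M, G (algebraMap M K m) = ι (F (algebraMap M K m)) := by
    intro m
    show rfmap F (n - 1) (s (algebraMap M K m)) = _
    rw [hs, rfmap_const]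
  refine M3_core M K L (RF (RF k N) (n - 1)) ((D : K →+* K).comp (algebraMap M K))
    (algebraMap M K) hD G (ι.comp j) hGM ?_ ?_
  · intro e he
    have h1 := hcl e he
    have h2 : Subfield.closure (Set.range G ∪
        (algebraMap (RF k N) (RF (RF k N) (n - 1))) '' {z : RF k N | AlgVia (F.comp (algebraMap M K)) z}) ≤
        Subfield.closure (Set.range G ∪ (ι.comp j) ''
          {z : L | AlgVia ((algebraMap K L).comp ((D : K →+* K).comp (algebraMap M K))) z}) := by
      apply Subfield.closure_mono
      apply Set.union_subset_union_right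
      rintro _ ⟨z, ⟨P, hP, hPz⟩, rfl⟩
      let α : M →+* L := (algebraMap K L).comp ((D : K →+* K).comp (algebraMap M K))
      obtain ⟨l, hl⟩ := hj z ⟨P.map α, (Polynomial.map_ne_zero_iff α.injective).2 hP, by
        rw [Polynomial.eval₂_map]
        exact hPz⟩
      refine ⟨l, ⟨P, hP, ?_⟩, ?_⟩
      · apply j.injective
        rw [Polynomial.hom_eval₂, map_zero, hl]
        exact hPz
      · show ι (j l) = ι z
        rw [hl]
    exact h2 h1
  · let G' : K →ₐ[k] RF (RF k N) (n - 1) :=
      { G with
        commutes' := by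
          intro c
          change G (algebraMap k K c) = _
          rw [IsScalarTower.algebraMap_apply k M K, hGM]
          have h1 : F (algebraMap M K (algebraMap k M c)) = algebraMap k (RF k N) c := by
            rw [← IsScalarTower.algebraMap_apply k M K]
            show j (algebraMap K L (D (algebraMap k K c))) = _
            rw [D.commutes, hjk]
          rw [h1]
          rfl }
    obtain ⟨Φ⟩ := exists_algEquiv_RF k N (n - 1)
    have h1 := hmin (N + (n - 1)) (Φ.toAlgHom.comp G')
    have h2 : dF (Φ.toAlgHom.comp G').toRingHom = dF G := F2_dF_equiv G Φ.toRingEquiv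
    rw [h2] at h1
    exact h1

end Pool.Agent.LibHP
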