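import Pool.Agent.LibHP3.Defs

set_option autoImplicit false
set_option linter.unusedSectionVars false

namespace Pool.Agent.LibHP

section S1

variable {k σ ι : Type} [Field k] [Fintype σ] [DecidableEq σ] [DecidableEq ι]

/-- the degree of a monomial in the group `i` -/
private def S1_D (g : σ → ι) (i : ι) (s : σ →₀ ℕ) : ℕ := ∑ v with g v = i, s v

private lemma S1_D_add (g : σ → ι) (i : ι) (s t : σ →₀ ℕ) :
    S1_D g i (s + t) = S1_D g i s + S1_D g i t := by
  simp [S1_D, Finset.sum_add_distrib]

private lemma S1_D_single (g : σ → ι) (i : ι) (v : σ) (hv : g v = i) :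
    S1_D g i (Finsupp.single v 1) = 1 := by
  unfold S1_D
  rw [Finset.sum_eq_single v]
  · simp
  · intro u _ hu
    exact Finsupp.single_eq_of_ne hu
  · intro h
    exact absurd (Finset.mem_filter.2 ⟨Finset.mem_univ v, hv⟩) h

private lemma S1_D_sub (g : σ → ι) (i : ι) (s : σ →₀ ℕ) (v : σ) (hv : g v = i) (h : s v ≠ 0) :
    S1_D g i (s - Finsupp.single v 1) + 1 = S1_D g i s := by
  have h1 : s - Finsupp.single v 1 + Finsupp.single v 1 = s := by
    ext u
    by_cases hu : u = v
    · subst hu
      simp only [Finsupp.add_apply, Finsupp.tsub_apply, Finsupp.single_eq_same]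
      omega
    · simp [Finsupp.single_eq_of_ne hu]
  conv_rhs => rw [← h1, S1_D_add, S1_D_single g i v hv]

private lemma S1_D_zero (g : σ → ι) (i : ι) (s : σ →₀ ℕ) (h : S1_D g i s = 0) (v : σ)
    (hv : g v = i) : s v = 0 := by
  unfold S1_D at h
  rw [Finset.sum_eq_zero_iff] at h
  exact h v (Finset.mem_filter.2 ⟨Finset.mem_univ v, hv⟩)

/-- separation of the degree in the group `i` -/
private noncomputable def S1_tau (k : Type) [Field k] {σ ι : Type} [DecidableEq ι] (g : σ → ι)
    (i : ι) : MvPolynomial σ k →ₐ[k] Polynomial (MvPolynomial σ k) :=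
  MvPolynomial.aeval fun v =>
    Polynomial.C (MvPolynomial.X v) * Polynomial.X ^ (if g v = i then 1 else 0)

private lemma S1_tau_monomial (g : σ → ι) (i : ι) (s : σ →₀ ℕ) (c : k) :
    S1_tau k g i (MvPolynomial.monomial s c) =
      Polynomial.C (MvPolynomial.monomial s c) * Polynomial.X ^ S1_D g i s := by
  unfold S1_tau
  rw [MvPolynomial.aeval_monomial, Finsupp.prod_fintype _ _ (fun v => by simp)]
  have h1 : ∀ v, (Polynomial.C (MvPolynomial.X v : MvPolynomial σ k) *
      Polynomial.X ^ (if g v = i then 1 else 0)) ^ s v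
      = Polynomial.C (MvPolynomial.X v ^ s v) * Polynomial.X ^ (if g v = i then s v else 0) := by
    intro v
    by_cases hv : g v = i
    · simp [hv, mul_pow]
    · simp [hv]
  simp only [h1]
  rw [Finset.prod_mul_distrib, Finset.prod_pow_eq_pow_sum, ← map_prod, ← mul_assoc]
  have h2 : algebraMap k (Polynomial (MvPolynomial σ k)) c
      = Polynomial.C (MvPolynomial.C c) := rfl
  rw [h2, ← map_mul]
  congr 2
  · rw [MvPolynomial.monomial_eq, Finsupp.prod_fintype _ _ (fun v => by simp)]
  · unfold S1_D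
    rw [Finset.sum_filter]

private lemma S1_tau_sum (g : σ → ι) (i : ι) (h : MvPolynomial σ k) :
    S1_tau k g i h = ∑ s ∈ h.support,
      Polynomial.C (MvPolynomial.monomial s (h.coeff s)) * Polynomial.X ^ S1_D g i s := by
  conv_lhs => rw [h.as_sum]
  rw [map_sum]
  exact Finset.sum_congr rfl fun s _ => S1_tau_monomial g i s _

private lemma S1_natDegree_le (g : σ → ι) (i : ι) (h : MvPolynomial σ k) (m : ℕ)
    (hh : ∀ s ∈ h.support, S1_D g i s ≤ m) : (S1_tau k g i h).natDegree ≤ m := by
  rw [S1_tau_sum]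
  refine Polynomial.natDegree_sum_le_of_forall_le _ _ fun s hs => ?_
  exact (Polynomial.natDegree_C_mul_X_pow_le _ _).trans (hh s hs)

private lemma S1_D_le (g : σ → ι) (i : ι) (h : MvPolynomial σ k) (m : ℕ)
    (hh : (S1_tau k g i h).natDegree ≤ m) : ∀ s ∈ h.support, S1_D g i s ≤ m := by
  intro s hs
  by_contra hcon
  push Not at hcon
  have h3 : (S1_tau k g i h).coeff (S1_D g i s) = 0 :=
    Polynomial.coeff_eq_zero_of_natDegree_lt (by omega)
  rw [S1_tau_sum, Polynomial.finsetSum_coeff] at h3
  have h4 := congrArg (MvPolynomial.coeff s) h3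
  rw [MvPolynomial.coeff_sum, MvPolynomial.coeff_zero, Finset.sum_eq_single s] at h4
  · rw [Polynomial.coeff_C_mul, Polynomial.coeff_X_pow, if_pos rfl, mul_one,
      MvPolynomial.coeff_monomial, if_pos rfl] at h4
    exact (MvPolynomial.mem_support_iff.1 hs) h4
  · intro t _ hts
    rw [Polynomial.coeff_C_mul, Polynomial.coeff_X_pow]
    by_cases hD : S1_D g i s = S1_D g i t
    · rw [if_pos hD, mul_one, MvPolynomial.coeff_monomial, if_neg hts]
    · rw [if_neg hD, mul_zero, MvPolynomial.coeff_zero]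
  · intro hns
    exact absurd hs hns

private lemma S1_tau_ne_zero (g : σ → ι) (i : ι) (h : MvPolynomial σ k) (hh : h ≠ 0) :
    S1_tau k g i h ≠ 0 := by
  intro h0
  apply hh
  have : (Polynomial.evalRingHom (1 : MvPolynomial σ k)) (S1_tau k g i h) = h := by
    rw [S1_tau_sum, map_sum]
    conv_rhs => rw [h.as_sum]
    refine Finset.sum_congr rfl fun s _ => ?_
    simp
  rw [← this, h0, map_zero]

private lemma S1_pderiv_pderiv (g : σ → ι) (i : ι) (h : MvPolynomial σ k)
    (hh : ∀ s ∈ h.support, S1_D g i s ≤ 1) (v u : σ) (hv : g v = i) (hu : g u = i) :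
    MvPolynomial.pderiv v (MvPolynomial.pderiv u h) = 0 := by
  rw [h.as_sum, map_sum, map_sum]
  refine Finset.sum_eq_zero fun s hs => ?_
  rw [MvPolynomial.pderiv_monomial, MvPolynomial.pderiv_monomial]
  by_cases hsu : s u = 0
  · simp [hsu]
  · have h1 := S1_D_sub g i s u hu hsu
    have h2 := hh s hs
    have h3 := S1_D_zero g i (s - Finsupp.single u 1) (by omega) v hv
    rw [h3]
    simp

private lemma S1_pderiv (g : σ → ι) (i : ι) (h : MvPolynomial σ k)
    (hh : ∀ s ∈ h.support, S1_D g i s ≤ 0) (v : σ) (hv : g v = i) :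
    MvPolynomial.pderiv v h = 0 := by
  rw [h.as_sum, map_sum]
  refine Finset.sum_eq_zero fun s hs => ?_
  rw [MvPolynomial.pderiv_monomial, S1_D_zero g i s (Nat.le_zero.1 (hh s hs)) v hv]
  simp

private lemma S1_main [CharZero k] (g : σ → ι) (F : MvPolynomial σ k) (i : ι)
    (hi : ∃ v, g v = i) (hdeg : ∀ s ∈ F.support, ∑ v with g v = i, s v ≤ 2)
    (hdet : (gramGroup g F i).det ≠ 0) (hnf : NoFactorFreeOf g F i) : Squarefree F := by
  intro q hq
  by_contra hnu
  obtain ⟨h, hF⟩ := hq
  have hF0 : F ≠ 0 := by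
    rintro rfl
    apply hdet
    have : gramGroup g (0 : MvPolynomial σ k) i = 0 := by
      ext1 a b
      rcases a with _ | a <;> rcases b with _ | b <;> simp [gramGroup]
    rw [this]
    exact Matrix.det_zero
  have hq0 : q ≠ 0 := by
    rintro rfl
    exact hF0 (by rw [hF]; ring)
  have hh0 : h ≠ 0 := by
    rintro rfl
    exact hF0 (by rw [hF]; ring)
  -- `q` involves a variable of the group
  have hqv : ∃ v ∈ q.vars, g v = i := by
    by_contra hcon
    push Not at hcon
    exact hnu (hnf q ⟨q * h, by rw [hF]; ring⟩ hcon)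
  obtain ⟨v1, hv1, hg1⟩ := hqv
  have hd1 : 1 ≤ (S1_tau k g i q).natDegree := by
    by_contra hcon
    have h0 : (S1_tau k g i q).natDegree ≤ 0 := by omega
    obtain ⟨s, hs, hsv⟩ := (MvPolynomial.mem_vars_iff_mem_support v1).1 hv1
    have h1 := S1_D_le g i q 0 h0 s hs
    have h2 := S1_D_zero g i s (Nat.le_zero.1 h1) v1 hg1
    exact (Finsupp.mem_support_iff.1 hsv) h2
  have hdF : (S1_tau k g i F).natDegree ≤ 2 := S1_natDegree_le g i F 2 hdeg
  have hq1 := S1_tau_ne_zero g i q hq0
  have hh1 := S1_tau_ne_zero g i h hh0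
  rw [hF, map_mul, map_mul, Polynomial.natDegree_mul (mul_ne_zero hq1 hq1) hh1,
    Polynomial.natDegree_mul hq1 hq1] at hdF
  have hqD := S1_D_le g i q 1 (by omega)
  have hhD := S1_D_le g i h 0 (by omega)
  have hdh : ∀ v, g v = i → MvPolynomial.pderiv v h = 0 := fun v hv => S1_pderiv g i h hhD v hv
  apply hdet
  set c : Option {v : σ // g v = i} → MvPolynomial σ k := fun a =>
    a.elim (setZero g i q) fun v => setZero g i (MvPolynomial.pderiv v.1 q) with hc
  have hgram : gramGroup g F i =
      Matrix.vecMulVec (fun a => 2 * setZero g i h * c a) c := by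
    ext1 a b
    rw [Matrix.vecMulVec_apply]
    rcases a with _ | a <;> rcases b with _ | b
    · simp only [gramGroup, hc, hF, map_mul, Option.elim]
      ring
    · simp only [gramGroup, hc, hF, Option.elim, Derivation.leibniz, map_add, smul_eq_mul,
        map_mul, hdh b.1 b.2, map_zero]
      ring
    · simp only [gramGroup, hc, hF, Option.elim, Derivation.leibniz, map_add, smul_eq_mul,
        map_mul, hdh a.1 a.2, map_zero]
      ring
    · simp only [gramGroup, hc, hF, Option.elim, Derivation.leibniz, map_add, smul_eq_mul,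
        map_mul, S1_pderiv_pderiv g i q hqD a.1 b.1 a.2 b.2, hdh a.1 a.2, hdh b.1 b.2, map_zero]
      ring
  rw [hgram]
  obtain ⟨v0, hv0⟩ := hi
  have : Nontrivial (Option {v : σ // g v = i}) :=
    ⟨⟨none, some ⟨v0, hv0⟩, by simp⟩⟩
  exact Matrix.det_vecMulVec _ _

end S1

/-- A polynomial which is quadratic and nondegenerate in the variables of `I` and has no factor
free of these variables is squarefree. -/
theorem IsQuadOn.squarefree (k σ : Type) [Field k] [CharZero k] [Fintype σ] [DecidableEq σ]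
    (F : MvPolynomial σ k) (I : Finset σ) (h : IsQuadOn F I) : Squarefree F := by
  obtain ⟨v, hv⟩ := h.ne
  exact S1_main (fun v => decide (v ∈ I)) F true ⟨v, by simpa using hv⟩ h.deg h.det h.nofac

end Pool.Agent.LibHP
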