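import Pool.Agent.LibHP2.W1
import Pool.Agent.LibHP3.Defs

set_option autoImplicit false

namespace Pool.Agent.LibHP

open MvPolynomial in
theorem S2_mono {k σ : Type} [Field k] [DecidableEq σ] (v : σ) (s : σ →₀ ℕ) (c : k)
    (hs : s v ≤ 2) :
    let Z := setZero (k := k) (fun u : σ => decide (u = v)) true
    2 * monomial s c = 2 * Z (monomial s c) + 2 * (Z (pderiv v (monomial s c)) * X v) +
      Z (pderiv v (pderiv v (monomial s c))) * X v ^ 2 := by
  intro Z
  have hZX : Z (X v) = 0 := by
    simp [Z, setZero]
  have hdec : monomial s c = monomial (s.erase v) c * X v ^ (s v) := by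
    rw [X_pow_eq_monomial, monomial_mul, mul_one, Finsupp.erase_add_single]
  set m : MvPolynomial σ k := monomial (s.erase v) c with hm
  have hdm : pderiv v m = 0 := by
    rw [hm, pderiv_monomial]
    simp
  have hZm : Z m = m := by
    rw [hm, MvPolynomial.monomial_eq, map_mul, Finsupp.prod, map_prod]
    congr 1
    · exact (Z.commutes c)
    · refine Finset.prod_congr rfl fun u hu => ?_
      have huv : u ≠ v := by
        rintro rfl
        simp at hu
      simp [Z, setZero, huv]
  rw [hdec]
  have h2 : ∀ u : σ, pderiv u (2 : MvPolynomial σ k) = 0 := by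
    intro u
    have : (2 : MvPolynomial σ k) = C 2 := (map_ofNat C 2).symm
    rw [this, pderiv_C]
  interval_cases h : s v
  · simp only [pow_zero, mul_one, hdm, hZm, map_zero, zero_mul, mul_zero, add_zero]
  · simp only [pow_one, Derivation.leibniz, hdm, pderiv_X_self, smul_eq_mul, mul_zero, add_zero,
      mul_one, map_mul, hZX, hZm, map_zero, zero_mul]
    ring
  · simp only [Derivation.leibniz, Derivation.leibniz_pow, hdm, pderiv_X_self, smul_eq_mul,
      nsmul_eq_mul, mul_zero, add_zero, mul_one, map_mul, map_pow, hZX, hZm, Nat.cast_ofNat,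
      map_ofNat, h2]
    norm_num
    ring

open MvPolynomial in
/-- Taylor formula in the variable `v` for a polynomial of degree at most two in it. -/
theorem S2_taylor {k σ : Type} [Field k] [DecidableEq σ] (v : σ) (F : MvPolynomial σ k)
    (hF : ∀ s ∈ F.support, s v ≤ 2) :
    2 * F = 2 * setZero (fun u : σ => decide (u = v)) true F +
      2 * (setZero (fun u : σ => decide (u = v)) true (pderiv v F) * X v) +
      setZero (fun u : σ => decide (u = v)) true (pderiv v (pderiv v F)) * X v ^ 2 := by
  set Z := setZero (k := k) (fun u : σ => decide (u = v)) true with hZ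
  have h1 : ∀ s ∈ F.support, 2 * monomial s (coeff s F) =
      2 * Z (monomial s (coeff s F)) + 2 * (Z (pderiv v (monomial s (coeff s F))) * X v) +
      Z (pderiv v (pderiv v (monomial s (coeff s F)))) * X v ^ 2 :=
    fun s hs => S2_mono v s _ (hF s hs)
  have h2 := Finset.sum_congr rfl h1
  rw [← Finset.mul_sum, support_sum_monomial_coeff, Finset.sum_add_distrib,
    Finset.sum_add_distrib, ← Finset.mul_sum, ← map_sum, support_sum_monomial_coeff,
    ← Finset.mul_sum, ← Finset.sum_mul, ← map_sum, ← map_sum, support_sum_monomial_coeff,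
    ← Finset.sum_mul, ← map_sum, ← map_sum, ← map_sum, support_sum_monomial_coeff] at h2
  exact h2

open MvPolynomial in
theorem S2_setZero_degreeOf {k σ : Type} [Field k] [DecidableEq σ] (v : σ)
    (F : MvPolynomial σ k) :
    (setZero (fun u : σ => decide (u = v)) true F).degreeOf v = 0 := by
  classical
  rw [← not_ne_iff, ← mem_vars_iff_degreeOf_ne_zero]
  intro hv
  unfold setZero at hv
  induction F using MvPolynomial.induction_on with
  | C a => simp at hv
  | add p q hp hq =>
    rw [map_add] at hv
    have := MvPolynomial.vars_add_subset _ _ hv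
    rw [Finset.mem_union] at this
    rcases this with h | h
    · exact hp h
    · exact hq h
  | mul_X p u hp =>
    rw [map_mul] at hv
    have := MvPolynomial.vars_mul _ _ hv
    rw [Finset.mem_union] at this
    rcases this with h | h
    · exact hp h
    · rw [aeval_X] at h
      split_ifs at h with h3
      · simp at h
      · rw [vars_X] at h
        simp only [Finset.mem_singleton] at h
        exact h3 (by simp [h])

open MvPolynomial in
/-- A polynomial involving `v` has a prime factor involving `v`. -/
theorem S2_exists_prime {k σ : Type} [Field k] (v : σ) (P : MvPolynomial σ k) (hP : P ≠ 0)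
    (hv : P.degreeOf v ≠ 0) : ∃ p, Prime p ∧ p ∣ P ∧ p.degreeOf v ≠ 0 := by
  classical
  induction P using UniqueFactorizationMonoid.induction_on_prime with
  | h₁ => exact absurd rfl hP
  | h₂ P h =>
    exfalso
    apply hv
    obtain ⟨r, hr, rfl⟩ := (MvPolynomial.isUnit_iff_eq_C_of_isReduced).1 h
    exact degreeOf_C _ _
  | h₃ a p ha hp ih =>
    by_cases h : p.degreeOf v = 0
    · rw [degreeOf_mul_eq hp.ne_zero ha, h, zero_add] at hv
      obtain ⟨q, hq, hqa, hqv⟩ := ih ha hv
      exact ⟨q, hq, hqa.mul_left p, hqv⟩
    · exact ⟨p, hp, dvd_mul_right p a, h⟩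

open MvPolynomial in
theorem S2_det {k σ : Type} [Field k] [Fintype σ] [DecidableEq σ] (F : MvPolynomial σ k) (v : σ) :
    (gramGroup (fun u => decide (u = v)) F true).det =
      setZero (fun u : σ => decide (u = v)) true (pderiv v (pderiv v F)) *
        (2 * setZero (fun u : σ => decide (u = v)) true F) -
      setZero (fun u : σ => decide (u = v)) true (pderiv v F) *
        setZero (fun u : σ => decide (u = v)) true (pderiv v F) := by
  let v' : {u : σ // decide (u = v) = true} := ⟨v, by simp⟩
  have huniq : ∀ u : {u : σ // decide (u = v) = true}, u = v' := by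
    rintro ⟨u, hu⟩
    apply Subtype.ext
    simpa using hu
  let e : Fin 2 ≃ Option {u : σ // decide (u = v) = true} :=
    { toFun := fun i => if i = 0 then some v' else none
      invFun := fun o => match o with
        | some _ => 0
        | none => 1
      left_inv := by
        intro i
        fin_cases i <;> simp
      right_inv := by
        intro o
        rcases o with _ | u
        · simp
        · simp [huniq u] }
  rw [← Matrix.det_submatrix_equiv_self e, Matrix.det_fin_two]
  simp only [Matrix.submatrix_apply]
  have e0 : e 0 = some v' := rfl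
  have e1 : e 1 = none := rfl
  rw [e0, e1]
  rfl

/-- A squarefree polynomial of degree one or two in the variable `v` is nondegenerate in it. -/
theorem gram_var (k σ : Type) [Field k] [CharZero k] [Fintype σ] [DecidableEq σ]
    (F : MvPolynomial σ k) (hsq : Squarefree F) (v : σ) (h1 : 1 ≤ F.degreeOf v)
    (h2 : F.degreeOf v ≤ 2) :
    (∀ s ∈ F.support, ∑ u with decide (u = v) = true, s u ≤ 2) ∧
      (gramGroup (fun u => decide (u = v)) F true).det ≠ 0 := by
  have hfil : (Finset.univ.filter fun u : σ => decide (u = v) = true) = {v} := by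
    ext u
    simp
  have hs : ∀ s ∈ F.support, s v ≤ 2 := fun s hs =>
    (MvPolynomial.monomial_le_degreeOf v hs).trans h2
  refine ⟨fun s hs' => ?_, ?_⟩
  · rw [hfil, Finset.sum_singleton]
    exact hs s hs'
  rw [S2_det]
  intro hdet
  have hT := S2_taylor v F hs
  set A := setZero (fun u : σ => decide (u = v)) true
    (MvPolynomial.pderiv v (MvPolynomial.pderiv v F)) with hA
  set B := setZero (fun u : σ => decide (u = v)) true (MvPolynomial.pderiv v F) with hB
  set Cc := setZero (fun u : σ => decide (u = v)) true F with hC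
  have hAv : A.degreeOf v = 0 := S2_setZero_degreeOf v _
  have hBv : B.degreeOf v = 0 := S2_setZero_degreeOf v _
  have hCv : Cc.degreeOf v = 0 := S2_setZero_degreeOf v _
  have h2ne : (2 : MvPolynomial σ k) ≠ 0 := two_ne_zero
  have hu2 : IsUnit (2 : MvPolynomial σ k) := by
    have : (2 : MvPolynomial σ k) = MvPolynomial.C 2 := (map_ofNat MvPolynomial.C 2).symm
    rw [this]
    exact (isUnit_iff_ne_zero.2 (two_ne_zero : (2 : k) ≠ 0)).map MvPolynomial.C
  by_cases hA0 : A = 0
  · rw [hA0] at hdet hT
    have hB0 : B = 0 := by
      have : B * B = 0 := by linear_combination -hdet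
      exact mul_self_eq_zero.1 this
    have hFC : F = Cc := by
      apply mul_left_cancel₀ h2ne
      rw [hT, hB0]
      ring
    rw [hFC, hCv] at h1
    omega
  · set P := A * MvPolynomial.X v + B with hP
    have hsqP : P ^ 2 = A * (2 * F) := by
      rw [hT, hP]
      linear_combination -hdet
    have hPv : P.degreeOf v ≠ 0 := by
      intro h0
      have h3 : A * MvPolynomial.X v = P - B := by rw [hP]; ring
      have h4 : (A * MvPolynomial.X v).degreeOf v = 1 := by
        rw [MvPolynomial.degreeOf_mul_eq hA0 (MvPolynomial.X_ne_zero v), hAv,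
          MvPolynomial.degreeOf_X]
        simp
      have h5 := MvPolynomial.degreeOf_sub_le v P B
      rw [← h3, h4, h0, hBv] at h5
      simp at h5
    have hP0 : P ≠ 0 := by
      intro h
      rw [h, MvPolynomial.degreeOf_zero] at hPv
      exact hPv rfl
    obtain ⟨p, hp, hpP, hpv⟩ := S2_exists_prime v P hP0 hPv
    have hpA : ¬ p ∣ A := by
      rintro ⟨q, hq⟩
      have hq0 : q ≠ 0 := by
        rintro rfl
        exact hA0 (by rw [hq, mul_zero])
      rw [hq, MvPolynomial.degreeOf_mul_eq hp.ne_zero hq0] at hAv
      omega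
    have h6 : p ^ 2 ∣ A * (2 * F) := by
      rw [← hsqP]
      exact pow_dvd_pow_of_dvd hpP 2
    have h7 := hp.pow_dvd_of_dvd_mul_left 2 hpA h6
    have h8 : p ^ 2 ∣ F := by
      rwa [hu2.dvd_mul_left] at h7
    rw [pow_two] at h8
    exact hp.not_isUnit (hsq p h8)

/-- The quadric in the variable `v` of degree one or two. -/
theorem hasQuad_var_pos (k σ : Type) [Field k] [CharZero k] [Fintype σ] [DecidableEq σ]
    (F : MvPolynomial σ k) (hsq : Squarefree F) (v : σ) (h1 : 1 ≤ F.degreeOf v)
    (h2 : F.degreeOf v ≤ 2) (K : Type) [Field K] [Algebra k K] (x : σ → K) (w : K)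
    (hx : IsDoublePt F x w) : HasQuad (IntermediateField.adjoin k (x '' {u | u ≠ v})) K := by
  have hset : {u | u ≠ v} = {u | (fun u => decide (u = v)) u ≠ true} := by
    ext u
    simp
  rw [hset]
  obtain ⟨h3, h4⟩ := gram_var k σ F hsq v h1 h2
  exact exists_quad_structure_double k σ Bool (fun u => decide (u = v)) F true ⟨v, by simp⟩ h3 h4
    K x w hx

/-- The quadric in the variables of `I`. -/
theorem hasQuad_special (k σ : Type) [Field k] [CharZero k] [Fintype σ] [DecidableEq σ]
    (F : MvPolynomial σ k) (I : Finset σ) (h : IsQuadOn F I) (K : Type) [Field K] [Algebra k K]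
    (x : σ → K) (w : K) (hx : IsDoublePt F x w) :
    HasQuad (IntermediateField.adjoin k (x '' {u | u ∉ I})) K := by
  have hset : {u | u ∉ I} = {u | (fun v => decide (v ∈ I)) u ≠ true} := by
    ext u
    simp
  rw [hset]
  obtain ⟨v, hv⟩ := h.ne
  exact exists_quad_structure_double k σ Bool (fun v => decide (v ∈ I)) F true
    ⟨v, by simpa using hv⟩ h.deg h.det K x w hx

end Pool.Agent.LibHP
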