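import Pool.Agent.LibHP2.W6
import Pool.Agent.LibHP3.E9b
import Pool.Agent.LibHP3.M3
import Pool.Agent.LibHP3.S1
import Pool.Agent.LibHP3.S2
import Pool.Agent.LibHP3.F2
import Pool.Agent.LibHP3.F3
import Pool.Agent.LibHP3.G0

set_option autoImplicit false
open Polynomial

namespace Pool.Agent.LibHP

theorem G1_lift {M1 M2 L : Type} [Field M1] [Field M2] [Field L] (f : M1 →+* L) (g : M2 →+* L)
    (h : ∀ m : M1, ∃ m' : M2, g m' = f m) : ∃ φ : M1 →+* M2, ∀ m, g (φ m) = f m := by
  choose φ hφ using h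
  refine ⟨{ toFun := φ, map_one' := ?_, map_mul' := ?_, map_zero' := ?_, map_add' := ?_ }, hφ⟩
  · apply g.injective
    rw [hφ, map_one, map_one]
  · intro a b
    apply g.injective
    rw [hφ, map_mul, map_mul, hφ, hφ]
  · apply g.injective
    rw [hφ, map_zero, map_zero]
  · intro a b
    apply g.injective
    rw [hφ, map_add, map_add, hφ, hφ]

theorem G1_algVia {M1 M2 L : Type} [Field M1] [Field M2] [Field L] (f : M1 →+* L) (g : M2 →+* L)
    (h : ∀ m : M1, ∃ m' : M2, g m' = f m) (z : L) (hz : AlgVia f z) : AlgVia g z := by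
  obtain ⟨φ, hφ⟩ := G1_lift f g h
  obtain ⟨P, hP, hPz⟩ := hz
  refine ⟨P.map φ, (Polynomial.map_ne_zero_iff φ.injective).2 hP, ?_⟩
  rw [Polynomial.eval₂_map, show g.comp φ = f from RingHom.ext hφ]
  exact hPz

theorem G1_algVia_iff {M L : Type} [Field M] [Field L] [Algebra M L] (z : L) :
    AlgVia (algebraMap M L) z ↔ IsAlgebraic M z := Iff.rfl

/-- The case of a genus one fibration, abstract version. -/
theorem gen_core (k K L : Type) [Field k] [CharZero k] [Field K] [Algebra k K] [Field L]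
    [Algebra K L] [FiniteDimensional K L] (κ B M : IntermediateField k K) (hκB : κ ≤ B)
    (xv w : K) (hM : ∀ c, c ∈ M ↔ c ∈ IntermediateField.adjoin κ {xv})
    (a : Fin 5 → B) (hE : ECurve B K a xv w)
    (hnf : ∀ p : κ[X], p ≠ 0 →
      IsCoprime (p.map (algebraMap κ K)) ((qPoly a).map (algebraMap B K)))
    (hquad : HasQuad M K)
    (N : ℕ) (j : L →+* RF k N)
    (hj : ∀ e : RF k N, (∃ P : L[X], P ≠ 0 ∧ P.eval₂ j e = 0) → ∃ l, j l = e)
    (hjk : ∀ c : k, j (algebraMap K L (algebraMap k K c)) = algebraMap k (RF k N) c)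
    (hlift : LiftProp k K L)
    (hmin : ∀ (n' : ℕ) (F' : K →ₐ[k] RF k n'), Module.finrank K L ≤ dF F'.toRingHom) :
    Subfield.closure (Set.range (algebraMap K L) ∪ {z : L | IsAlgebraic B z}) = ⊤ := by
  classical
  let _ : Algebra κ B := (IntermediateField.inclusion hκB).toRingHom.toAlgebra
  have hst : IsScalarTower κ B K := IsScalarTower.of_algebraMap_eq' rfl
  have hcκ : CharZero κ := charZero_of_injective_algebraMap (algebraMap k κ).injective
  have hcB : CharZero B := charZero_of_injective_algebraMap (algebraMap k B).injective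
  have hcM : CharZero M := charZero_of_injective_algebraMap (algebraMap k M).injective
  obtain ⟨n, hn, Bm, y, hB, hdet, hy⟩ := hquad
  obtain ⟨D, hD⟩ := exists_move B K a xv w hE
  have hκM : ∀ c : K, c ∈ κ → c ∈ M := fun c hc =>
    (hM c).2 (IntermediateField.algebraMap_mem (IntermediateField.adjoin κ {xv})
      (⟨c, hc⟩ : κ))
  -- `κ` is closed
  have htr : Transcendental κ xv := by
    intro halg
    exact hE.tr (G1_algVia (algebraMap κ K) (algebraMap B K) (fun m => ⟨⟨m, hκB m.2⟩, rfl⟩)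
      xv halg)
  have hκ : ∀ c : K, IsAlgebraic κ c → ∃ b : κ, algebraMap κ K b = c := by
    intro c hc
    have h1 : IsAlgebraic M c :=
      G1_algVia (algebraMap κ K) (algebraMap M K) (fun m => ⟨⟨m, hκM _ m.2⟩, rfl⟩) c hc
    obtain ⟨m, hm⟩ := quad_algClosed M K n hn Bm hB hdet y hy c h1
    have h2 : c ∈ IntermediateField.adjoin κ {xv} := by
      rw [← hM, ← hm]
      exact m.2
    exact G0_mem κ K xv htr c h2 hc
  have h1 : Subfield.closure (Set.range (algebraMap K L) ∪
      {z : L | IsAlgebraic (IntermediateField.adjoin κ {xv}) z}) = ⊤ := by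
    rw [eq_top_iff, ← adjoin_of_quadric M K L n hn Bm hB hdet y hy (W6_lift hlift)]
    apply Subfield.closure_mono
    apply Set.union_subset_union_right
    intro z hz
    exact G1_algVia (algebraMap M L) (algebraMap (IntermediateField.adjoin κ {xv}) L)
      (fun m => ⟨⟨m, (hM _).1 m.2⟩, rfl⟩) z hz
  obtain ⟨n0, hn0⟩ := E_main κ B K L a xv w D hD hκ hnf h1
  have h2 : Subfield.closure (Set.range (algebraMap K L) ∪
      {z : L | IsAlgebraic (IntermediateField.adjoin κ {(D ^ n0) xv}) z}) = ⊤ := by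
    -- the image of `M` under `D ^ n0`
    let E : K →ₐ[κ] K := (D ^ n0).restrictScalars κ
    let Ek : K →ₐ[k] K := (D ^ n0).restrictScalars k
    have hmap : (IntermediateField.adjoin κ {xv}).map E =
        IntermediateField.adjoin κ {(D ^ n0) xv} := by
      rw [IntermediateField.adjoin_map, Set.image_singleton]
      rfl
    have hMD : ∀ c : K, c ∈ IntermediateField.adjoin κ {(D ^ n0) xv} ↔ ∃ m : M, Ek m = c := by
      intro c
      rw [← hmap, IntermediateField.mem_map]
      constructor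
      · rintro ⟨m, hm, rfl⟩
        exact ⟨⟨m, (hM _).2 hm⟩, rfl⟩
      · rintro ⟨m, rfl⟩
        exact ⟨m, (hM _).1 m.2, rfl⟩
    have h3 := generated_by_moved k M K L n hn Bm hB hdet y hy N j hj hjk hmin Ek (by
      intro c hc
      have h4 : IsAlgebraic (IntermediateField.adjoin κ {(D ^ n0) xv}) c :=
        G1_algVia ((Ek : K →+* K).comp (algebraMap M K))
          (algebraMap (IntermediateField.adjoin κ {(D ^ n0) xv}) K)
          (fun m => ⟨⟨Ek m, (hMD _).2 ⟨m, rfl⟩⟩, rfl⟩) c hc
      obtain ⟨m, hm⟩ := (hMD c).1 (move_closed κ B K a xv w D hD hκ hnf n0 c h4)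
      exact ⟨m, hm⟩)
    rw [eq_top_iff, ← h3]
    apply Subfield.closure_mono
    apply Set.union_subset_union_right
    intro z hz
    exact G1_algVia ((algebraMap K L).comp ((Ek : K →+* K).comp (algebraMap M K)))
      (algebraMap (IntermediateField.adjoin κ {(D ^ n0) xv}) L)
      (fun m => ⟨⟨Ek m, (hMD _).2 ⟨m, rfl⟩⟩, rfl⟩) z hz
  rw [eq_top_iff, ← hn0 h2]
  apply Subfield.closure_mono
  apply Set.union_subset_union_right
  intro z hz
  exact G1_algVia (algebraMap κ L) (algebraMap B L) (fun m => ⟨⟨m, hκB m.2⟩, rfl⟩) z hz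

/-- The case of a variable of degree three or four. -/
theorem gen_var_quartic (k σ : Type) [Field k] [CharZero k] [Fintype σ] [DecidableEq σ]
    (F : MvPolynomial σ k) (I : Finset σ) (hI : IsQuadOn F I)
    (K : Type) [Field K] [Algebra k K] (x : σ → K) (w : K) (hx : IsDoublePt F x w)
    (v : σ) (hv : v ∉ I) (h3 : 3 ≤ F.degreeOf v) (h4 : F.degreeOf v ≤ 4)
    (L : Type) [Field L] [Algebra K L] [FiniteDimensional K L]
    (N : ℕ) (j : L →+* RF k N)
    (hj : ∀ e : RF k N, (∃ P : L[X], P ≠ 0 ∧ P.eval₂ j e = 0) → ∃ l, j l = e)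
    (hjk : ∀ c : k, j (algebraMap K L (algebraMap k K c)) = algebraMap k (RF k N) c)
    (hlift : LiftProp k K L)
    (hmin : ∀ (n' : ℕ) (F' : K →ₐ[k] RF k n'), Module.finrank K L ≤ dF F'.toRingHom) :
    Subfield.closure (Set.range (algebraMap K L) ∪
      {z : L | IsAlgebraic (IntermediateField.adjoin k (x '' {u | u ≠ v})) z}) = ⊤ := by
  have hsq := IsQuadOn.squarefree k σ F I hI
  obtain ⟨a, hE, hpoly⟩ := exists_ecurve k σ F hsq K x w hx v h3 h4
  have hF0 : F ≠ 0 := hsq.ne_zero
  refine gen_core k K L (IntermediateField.adjoin k (x '' {u | u ≠ v ∧ u ∉ I}))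
    (IntermediateField.adjoin k (x '' {u | u ≠ v})) (IntermediateField.adjoin k (x '' {u | u ∉ I}))
    (IntermediateField.adjoin.mono k _ _ (Set.image_mono fun u hu => hu.1)) (x v) w ?_ a hE ?_
    (hasQuad_special k σ F I hI K x w hx) N j hj hjk hlift hmin
  · intro c
    have h5 : (IntermediateField.adjoin (IntermediateField.adjoin k (x '' {u | u ≠ v ∧ u ∉ I}))
        {x v}).restrictScalars k = IntermediateField.adjoin k (x '' {u | u ∉ I}) := by
      rw [IntermediateField.adjoin_adjoin_left]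
      congr 1
      ext z
      simp only [Set.mem_union, Set.mem_image, Set.mem_ofPred_eq, Set.mem_singleton_iff]
      constructor
      · rintro (⟨u, ⟨-, hu⟩, rfl⟩ | rfl)
        · exact ⟨u, hu, rfl⟩
        · exact ⟨v, hv, rfl⟩
      · rintro ⟨u, hu, rfl⟩
        by_cases huv : u = v
        · right
          rw [huv]
        · exact Or.inl ⟨u, ⟨huv, hu⟩, rfl⟩
    rw [← h5]
    rfl
  · intro p hp
    rw [hpoly]
    exact ecurve_coprime k σ F hF0 I hI.nofac K x hx.1 v hv p hp

end Pool.Agent.LibHP
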