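import Pool.Agent.LibHP2.W1
import Pool.Agent.LibHP3.Defs

set_option autoImplicit false

namespace Pool.Agent.LibHP

section S3_aux

open MvPolynomial

theorem S3_reduce {M : Type} [Field M] (G : MvPolynomial (Fin 2) M) :
    ∃ (N : ℕ) (P : Polynomial M),
      (X 0 * X 1 - 1 : MvPolynomial (Fin 2) M) ∣ X 0 ^ N * G - Polynomial.aeval (X 0) P := by
  induction G using MvPolynomial.induction_on with
  | C a => exact ⟨0, Polynomial.C a, by simp [MvPolynomial.algebraMap_eq]⟩
  | add p q hp hq =>
    obtain ⟨N1, P1, g1, h1⟩ := hp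
    obtain ⟨N2, P2, g2, h2⟩ := hq
    refine ⟨N1 + N2, Polynomial.X ^ N2 * P1 + Polynomial.X ^ N1 * P2,
      X 0 ^ N2 * g1 + X 0 ^ N1 * g2, ?_⟩
    rw [map_add, map_mul, map_mul, map_pow, map_pow, Polynomial.aeval_X]
    linear_combination X 0 ^ N2 * h1 + X 0 ^ N1 * h2
  | mul_X p i hp =>
    obtain ⟨N, P, g, h⟩ := hp
    fin_cases i
    · refine ⟨N, P * Polynomial.X, g * X 0, ?_⟩
      rw [map_mul, Polynomial.aeval_X]
      simp only [Fin.zero_eta]
      linear_combination X 0 * h
    · refine ⟨N + 1, P, g * (X 0 * X 1) + Polynomial.aeval (X 0) P, ?_⟩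
      simp only [Fin.mk_one]
      linear_combination (X 0 * X 1) * h

theorem S3_dvd {M K : Type} [Field M] [Field K] [Algebra M K] (t : K) (ht : Transcendental M t)
    (G : MvPolynomial (Fin 2) M) (hG : aeval ![t, t⁻¹] G = 0) :
    (X 0 * X 1 - 1 : MvPolynomial (Fin 2) M) ∣ G := by
  have ht0 : t ≠ 0 := by
    rintro rfl
    exact ht isAlgebraic_zero
  obtain ⟨N, P, g, hg⟩ := S3_reduce G
  have h1 := congrArg (aeval (![t, t⁻¹] : Fin 2 → K)) hg
  have hP : Polynomial.aeval t P = 0 := by
    have h2 : (aeval (![t, t⁻¹] : Fin 2 → K)) (Polynomial.aeval (X 0 : MvPolynomial (Fin 2) M) P) =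
        Polynomial.aeval t P := by
      rw [← Polynomial.aeval_algHom_apply]
      simp
    rw [map_sub, map_mul, hG, h2, map_mul, map_sub, map_mul, map_one, aeval_X, aeval_X] at h1
    simp only [Matrix.cons_val_zero, Matrix.cons_val_one, mul_inv_cancel₀ ht0, sub_self,
      zero_mul, mul_zero, zero_sub, neg_eq_zero] at h1
    exact h1
  have hP0 : P = 0 := by
    by_contra h
    exact ht ⟨P, h, hP⟩
  rw [hP0, map_zero, sub_zero] at hg
  have hco : IsCoprime (X 0 * X 1 - 1 : MvPolynomial (Fin 2) M) (X 0 ^ N) := by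
    apply IsCoprime.pow_right
    exact ⟨-1, X 1, by ring⟩
  exact hco.dvd_of_dvd_mul_left ⟨g, hg⟩

open scoped IntermediateField.algebraAdjoinAdjoin in
theorem S3_transc {k K : Type} [Field k] [Field K] [Algebra k K] (T : Set K) (z : K)
    (h : Transcendental (Algebra.adjoin k T) z) :
    Transcendental (IntermediateField.adjoin k T) z := by
  have h1 : AlgebraicIndependent (Algebra.adjoin k T) (fun _ : Unit => z) :=
    algebraicIndependent_unique_type_iff.2 h
  exact algebraicIndependent_unique_type_iff.1 (h1.extendScalars (IntermediateField.adjoin k T))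

theorem S3_aeval_mem {k σ : Type} [Field k] (F : MvPolynomial σ k) (v : σ)
    (h : F.degreeOf v = 0) {K : Type} [Field K] [Algebra k K] (x : σ → K) :
    aeval x F ∈ IntermediateField.adjoin k (x '' {u | u ≠ v}) := by
  rw [aeval_def, eval₂_eq]
  refine sum_mem fun d hd => mul_mem (IntermediateField.algebraMap_mem _ _)
    (prod_mem fun i hi => ?_)
  have hiv : i ≠ v := by
    intro hiv
    have h1 := MvPolynomial.monomial_le_degreeOf v hd
    rw [h, ← hiv] at h1
    exact (Finsupp.mem_support_iff.1 hi) (Nat.le_zero.1 h1)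
  exact pow_mem (IntermediateField.subset_adjoin k _ (Set.mem_image_of_mem x hiv)) _

end S3_aux

/-- A variable which does not occur in `F`: the conic `y_1 y_2 = 1` with `y_1 = x v`. -/
theorem hasQuad_var_zero (k σ : Type) [Field k] [CharZero k] [Fintype σ] [DecidableEq σ]
    (F : MvPolynomial σ k) (v : σ) (h : F.degreeOf v = 0) (K : Type) [Field K] [Algebra k K]
    (x : σ → K) (w : K) (hx : IsDoublePt F x w) :
    HasQuad (IntermediateField.adjoin k (x '' {u | u ≠ v} ∪ {w})) K := by
  classical
  obtain ⟨hind, hw, hfrac⟩ := hx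
  set M := IntermediateField.adjoin k (x '' {u | u ≠ v} ∪ {w}) with hM
  have hchar : CharZero M := charZero_of_injective_algebraMap (algebraMap k M).injective
  -- `x v` is transcendental over `M`
  have htr : Transcendental M (x v) := by
    set M0 := IntermediateField.adjoin k (x '' {u | u ≠ v}) with hM0
    have h0 : Transcendental M0 (x v) :=
      S3_transc _ _ (hind.transcendental_adjoin (s := {u | u ≠ v}) (i := v) (by simp))
    have hle : M0 ≤ M := IntermediateField.adjoin.mono _ _ _ Set.subset_union_left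
    let _ : Algebra M0 M := (IntermediateField.inclusion hle).toAlgebra
    have : IsScalarTower M0 M K := IsScalarTower.of_algebraMap_eq fun _ => rfl
    have halg : Algebra.IsAlgebraic M0 M := by
      have hmem : ∀ m ∈ M, IsAlgebraic M0 m := by
        intro m hm
        induction hm using IntermediateField.adjoin_induction with
        | mem y hy =>
          rcases hy with hy | hy
          · exact isAlgebraic_algebraMap (⟨y, IntermediateField.subset_adjoin _ _ hy⟩ : M0)
          · rw [Set.mem_singleton_iff.1 hy]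
            apply IsAlgebraic.of_pow two_pos
            rw [hw]
            exact isAlgebraic_algebraMap (⟨_, S3_aeval_mem F v h x⟩ : M0)
        | algebraMap c => exact isAlgebraic_algebraMap (algebraMap k M0 c)
        | add a b _ _ ha hb => exact ha.add hb
        | inv a _ ha => exact ha.inv
        | mul a b _ _ ha hb => exact ha.mul hb
      refine ⟨fun m => ?_⟩
      exact (isAlgebraic_algebraMap_iff (algebraMap M K).injective).1 (hmem m m.2)
    intro hcon
    exact h0 (hcon.restrictScalars M0)
  have ht0 : x v ≠ 0 := by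
    intro h0
    rw [h0] at htr
    exact htr isAlgebraic_zero
  -- the equation
  have hquad : quadEq (!![-2, 0, 0; 0, 0, 1; 0, 1, 0] : Matrix (Fin (2 + 1)) (Fin (2 + 1)) M) =
      MvPolynomial.C 2 * (MvPolynomial.X 0 * MvPolynomial.X 1 - 1) := by
    have hC : (MvPolynomial.C 2 : MvPolynomial (Fin 2) M) = 2 := map_ofNat _ 2
    rw [quadEq]
    simp [Fin.sum_univ_succ, Fin.cons_succ, hC]
    ring
  refine ⟨2, le_refl 2, !![-2, 0, 0; 0, 0, 1; 0, 1, 0], ![x v, (x v)⁻¹], ?_, ?_, ?_, ?_⟩
  · ext i j
    fin_cases i <;> fin_cases j <;> rfl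
  · rw [Matrix.det_fin_three]
    simp
  · intro G
    rw [hquad]
    constructor
    · intro hG
      have hu : IsUnit (MvPolynomial.C 2 : MvPolynomial (Fin 2) M) :=
        (IsUnit.mk0 (2 : M) two_ne_zero).map MvPolynomial.C
      rw [hu.mul_left_dvd]
      exact S3_dvd (x v) htr G hG
    · rintro ⟨g, rfl⟩
      rw [map_mul, map_mul, map_sub, map_mul, map_one, MvPolynomial.aeval_X, MvPolynomial.aeval_X]
      simp [mul_inv_cancel₀ ht0]
  · intro z
    obtain ⟨P, Q, R, hR, hz⟩ := hfrac z
    have hwM : w ∈ M := IntermediateField.subset_adjoin _ _ (Set.mem_union_right _ rfl)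
    have hxmem : ∀ u, u ≠ v → x u ∈ M := fun u hu =>
      IntermediateField.subset_adjoin _ _ (Set.mem_union_left _ ⟨u, hu, rfl⟩)
    set φ : MvPolynomial σ k →ₐ[k] MvPolynomial (Fin 2) M := MvPolynomial.aeval
      (fun u => if hu : u = v then MvPolynomial.X 0 else MvPolynomial.C ⟨x u, hxmem u hu⟩) with hφ
    have hev : ∀ p, MvPolynomial.aeval (![x v, (x v)⁻¹] : Fin 2 → K) (φ p) =
        MvPolynomial.aeval x p := by
      intro p
      have h1 : ((MvPolynomial.aeval (![x v, (x v)⁻¹] : Fin 2 → K) :
          MvPolynomial (Fin 2) M →ₐ[M] K).restrictScalars k).comp φ = MvPolynomial.aeval x := by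
        apply MvPolynomial.algHom_ext
        intro u
        simp only [AlgHom.comp_apply, AlgHom.restrictScalars_apply, hφ, MvPolynomial.aeval_X]
        by_cases hu : u = v
        · subst hu
          simp
        · simp only [hu, dite_false, MvPolynomial.aeval_C]
          rfl
      exact DFunLike.congr_fun h1 p
    refine ⟨φ P + φ Q * MvPolynomial.C ⟨w, hwM⟩, φ R, by rw [hev]; exact hR, ?_⟩
    rw [map_add, map_mul, hev, hev, hev, MvPolynomial.aeval_C, hz]
    rfl

end Pool.Agent.LibHP
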