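import Pool.Agent.LibHP3.G1
import Pool.Agent.LibHP3.S3

set_option autoImplicit false
open Polynomial

namespace Pool.Agent.LibHP

theorem G2_aeval_mem (k σ K : Type) [Field k] [Field K] [Algebra k K] (x : σ → K) (T : Set σ)
    (p : MvPolynomial σ k) (hp : (p.vars : Set σ) ⊆ T) :
    MvPolynomial.aeval x p ∈ IntermediateField.adjoin k (x '' T) := by
  have h1 : p ∈ MvPolynomial.supported k T := MvPolynomial.mem_supported.2 hp
  have h2 : MvPolynomial.aeval x p ∈
      (MvPolynomial.supported k T).map (MvPolynomial.aeval x : MvPolynomial σ k →ₐ[k] K) :=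
    ⟨p, h1, rfl⟩
  have h3 : (MvPolynomial.supported k T).map (MvPolynomial.aeval x : MvPolynomial σ k →ₐ[k] K) =
      Algebra.adjoin k (x '' T) := by
    rw [MvPolynomial.supported, AlgHom.map_adjoin, ← Set.image_comp]
    congr 1
    refine Set.image_congr fun v _ => ?_
    simp
  rw [h3] at h2
  exact IntermediateField.algebra_adjoin_le_adjoin k _ h2

/-- Elements algebraic over an algebraic extension. -/
theorem G2_trans (k K L : Type) [Field k] [Field K] [Algebra k K] [Field L] [Algebra K L]
    (B M : IntermediateField k K) (hBM : B ≤ M) (h : ∀ m ∈ M, IsAlgebraic B m) (z : L)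
    (hz : IsAlgebraic M z) : IsAlgebraic B z := by
  let _ : Algebra B M := (IntermediateField.inclusion hBM).toRingHom.toAlgebra
  have hst : IsScalarTower B M K := IsScalarTower.of_algebraMap_eq' rfl
  have hstL : IsScalarTower B M L := IsScalarTower.of_algebraMap_eq' rfl
  have halg : Algebra.IsAlgebraic B M := by
    refine ⟨fun m => ?_⟩
    rw [← isAlgebraic_algebraMap_iff (algebraMap M K).injective]
    exact h m m.2
  exact hz.restrictScalars B

/-- If `x v` does not occur in `F`, then `w` is algebraic over the field of the other variables. -/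
theorem G2_alg_w (k σ : Type) [Field k] [CharZero k] [Fintype σ] [DecidableEq σ]
    (F : MvPolynomial σ k) (K : Type) [Field K] [Algebra k K] (x : σ → K) (w : K)
    (hx : IsDoublePt F x w) (v : σ) (h0 : F.degreeOf v = 0) (m : K)
    (hm : m ∈ IntermediateField.adjoin k (x '' {u | u ≠ v} ∪ {w})) :
    IsAlgebraic (IntermediateField.adjoin k (x '' {u | u ≠ v})) m := by
  have hw : IsAlgebraic (IntermediateField.adjoin k (x '' {u | u ≠ v})) w := by
    have h5 : w ^ 2 ∈ IntermediateField.adjoin k (x '' {u | u ≠ v}) := by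
      rw [hx.2.1]
      apply G2_aeval_mem
      intro u hu huv
      rw [huv, Finset.mem_coe, MvPolynomial.mem_vars_iff_degreeOf_ne_zero] at hu
      exact hu h0
    have h6 : IsAlgebraic (IntermediateField.adjoin k (x '' {u | u ≠ v})) (w ^ 2) :=
      isAlgebraic_algebraMap (⟨w ^ 2, h5⟩ : IntermediateField.adjoin k (x '' {u | u ≠ v}))
    exact h6.of_pow (by norm_num)
  have hle2 : IntermediateField.adjoin k (x '' {u | u ≠ v} ∪ {w}) ≤
      (algebraicClosure (IntermediateField.adjoin k (x '' {u | u ≠ v})) K).restrictScalars k := by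
    rw [IntermediateField.adjoin_le_iff]
    rintro c (hc | hc)
    · have : IsAlgebraic (IntermediateField.adjoin k (x '' {u | u ≠ v})) c :=
        isAlgebraic_algebraMap
          (⟨c, IntermediateField.subset_adjoin k _ hc⟩ :
            IntermediateField.adjoin k (x '' {u | u ≠ v}))
      exact mem_algebraicClosure_iff.2 this
    · rw [Set.mem_singleton_iff.1 hc]
      exact mem_algebraicClosure_iff.2 hw
  exact mem_algebraicClosure_iff.1 (hle2 hm)

/-- The function field is generated, up to the base, by the elements algebraic over the field of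
all the variables but one. -/
theorem gen_var (k σ : Type) [Field k] [CharZero k] [Fintype σ] [DecidableEq σ]
    (F : MvPolynomial σ k) (I : Finset σ) (hI : IsQuadOn F I)
    (K : Type) [Field K] [Algebra k K] (x : σ → K) (w : K) (hx : IsDoublePt F x w)
    (v : σ) (hv : v ∉ I) (h4 : F.degreeOf v ≤ 4)
    (L : Type) [Field L] [Algebra K L] [FiniteDimensional K L]
    (N : ℕ) (j : L →+* RF k N)
    (hj : ∀ e : RF k N, (∃ P : L[X], P ≠ 0 ∧ P.eval₂ j e = 0) → ∃ l, j l = e)
    (hjk : ∀ c : k, j (algebraMap K L (algebraMap k K c)) = algebraMap k (RF k N) c)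
    (hlift : LiftProp k K L)
    (hmin : ∀ (n' : ℕ) (F' : K →ₐ[k] RF k n'), Module.finrank K L ≤ dF F'.toRingHom) :
    Subfield.closure (Set.range (algebraMap K L) ∪
      {z : L | IsAlgebraic (IntermediateField.adjoin k (x '' {u | u ≠ v})) z}) = ⊤ := by
  classical
  have hsq := IsQuadOn.squarefree k σ F I hI
  have hcB : CharZero (IntermediateField.adjoin k (x '' {u | u ≠ v})) :=
    charZero_of_injective_algebraMap
      (algebraMap k (IntermediateField.adjoin k (x '' {u | u ≠ v}))).injective
  by_cases h3 : 3 ≤ F.degreeOf v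
  · exact gen_var_quartic k σ F I hI K x w hx v hv h3 h4 L N j hj hjk hlift hmin
  by_cases h1 : 1 ≤ F.degreeOf v
  · obtain ⟨n, hn, Bm, y, hB, hdet, hy⟩ := hasQuad_var_pos k σ F hsq v h1 (by omega) K x w hx
    exact adjoin_of_quadric _ K L n hn Bm hB hdet y hy (W6_lift hlift)
  · have h0 : F.degreeOf v = 0 := by omega
    have hle : IntermediateField.adjoin k (x '' {u | u ≠ v}) ≤
        IntermediateField.adjoin k (x '' {u | u ≠ v} ∪ {w}) :=
      IntermediateField.adjoin.mono k _ _ Set.subset_union_left
    have hcM : CharZero (IntermediateField.adjoin k (x '' {u | u ≠ v} ∪ {w})) :=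
      charZero_of_injective_algebraMap
        (algebraMap k (IntermediateField.adjoin k (x '' {u | u ≠ v} ∪ {w}))).injective
    obtain ⟨n, hn, Bm, y, hB, hdet, hy⟩ := hasQuad_var_zero k σ F v h0 K x w hx
    rw [eq_top_iff, ← adjoin_of_quadric _ K L n hn Bm hB hdet y hy (W6_lift hlift)]
    apply Subfield.closure_mono
    apply Set.union_subset_union_right
    intro z hz
    exact G2_trans k K L _ _ hle (fun m hm => G2_alg_w k σ F K x w hx v h0 m hm) z hz

end Pool.Agent.LibHP
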