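import Pool.Agent.LibHP2.A1
import Pool.Agent.LibHP2.A3

set_option autoImplicit false

namespace Pool.Agent.LibHP

theorem U1_tb (k : Type) [Field k] (r : ℕ) :
    IsTranscendenceBasis k
      (fun j : Fin r => algebraMap (MvPolynomial (Fin r) k) (RF k r) (MvPolynomial.X j)) := by
  have h1 := IsTranscendenceBasis.mvPolynomial (Fin r) k
  have : Algebra.IsAlgebraic (MvPolynomial (Fin r) k) (RF k r) :=
    IsLocalization.isAlgebraic _ (nonZeroDivisors (MvPolynomial (Fin r) k))
  exact h1.algebraMap_comp (A := RF k r)

theorem U1_trdeg (k : Type) [Field k] (r : ℕ) : Algebra.trdeg k (RF k r) = r := by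
  rw [← (U1_tb k r).cardinalMk_eq_trdeg]
  simp

/-- extension of the base field -/
theorem U1_ext {K E U : Type} [Field K] [Field E] (F : K →+* E) (m : ℕ) (y : U → RF K m)
    (hy : AlgebraicIndependent K y) : AlgebraicIndependent E (fun u => rfmap F m (y u)) := by
  classical
  let xK : Fin m → RF K m := fun j =>
    algebraMap (MvPolynomial (Fin m) K) (RF K m) (MvPolynomial.X j)
  have halg1 : Algebra.IsAlgebraic
      (Algebra.adjoin K (Set.range y ∪ Set.range xK)) (RF K m) := by
    refine (U1_tb K m).isAlgebraic_iff.mpr (fun j => ?_)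
    have h1 : xK j ∈ Algebra.adjoin K (Set.range y ∪ Set.range xK) :=
      Algebra.subset_adjoin (Or.inr ⟨j, rfl⟩)
    exact isAlgebraic_algebraMap (⟨xK j, h1⟩ :
      Algebra.adjoin K (Set.range y ∪ Set.range xK))
  obtain ⟨t, hst, htu, ht⟩ := exists_isTranscendenceBasis_between (R := K)
    (Set.range y) (Set.range y ∪ Set.range xK) Set.subset_union_left hy.to_subtype_range
  have hcard : Cardinal.mk t = m := by
    rw [ht.cardinalMk_eq_trdeg, U1_trdeg]
  have hfin : Finite t := by
    rw [← Cardinal.mk_lt_aleph0_iff, hcard]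
    exact Cardinal.natCast_lt_aleph0
  let y' : t → RF E m := fun a => rfmap F m a
  have hmem : ∀ z ∈ Algebra.adjoin K (Set.range ((↑) : t → RF K m)),
      rfmap F m z ∈ Algebra.adjoin E (Set.range y') := by
    intro z hz
    induction hz using Algebra.adjoin_induction with
    | mem z hz =>
      obtain ⟨a, rfl⟩ := hz
      exact Algebra.subset_adjoin ⟨a, rfl⟩
    | algebraMap c =>
      rw [rfmap_const]
      exact Subalgebra.algebraMap_mem _ _
    | add a b _ _ ha hb =>
      rw [map_add]
      exact add_mem ha hb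
    | mul a b _ _ ha hb =>
      rw [map_mul]
      exact mul_mem ha hb
  let ψ : Algebra.adjoin K (Set.range ((↑) : t → RF K m)) →+* Algebra.adjoin E (Set.range y') :=
    ((rfmap F m).comp (algebraMap (Algebra.adjoin K (Set.range ((↑) : t → RF K m)))
      (RF K m))).codRestrict (Algebra.adjoin E (Set.range y')).toSubring (fun z => hmem z z.2)
  have hψ : Function.Injective ψ := by
    intro a b hab
    have h1 : rfmap F m (a : RF K m) = rfmap F m (b : RF K m) := congrArg Subtype.val hab
    exact Subtype.ext ((rfmap F m).injective h1)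
  have halg2 : Algebra.IsAlgebraic (Algebra.adjoin E (Set.range y')) (RF E m) := by
    refine (U1_tb E m).isAlgebraic_iff.mpr (fun j => ?_)
    have h1 : IsAlgebraic (Algebra.adjoin K (Set.range ((↑) : t → RF K m))) (xK j) :=
      ht.isAlgebraic.isAlgebraic (xK j)
    have h2 := h1.ringHom_of_comp_eq (S := Algebra.adjoin E (Set.range y')) (B := RF E m) ψ
      (rfmap F m) hψ (by rfl)
    have h3 : rfmap F m (xK j) =
        algebraMap (MvPolynomial (Fin m) E) (RF E m) (MvPolynomial.X j) := by
      show rfmap F m (algebraMap (MvPolynomial (Fin m) K) (RF K m) (MvPolynomial.X j)) = _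
      rw [rfmap_algebraMap, MvPolynomial.map_X]
    rw [h3] at h2
    exact h2
  have hb : IsTranscendenceBasis E y' := by
    refine Algebra.IsAlgebraic.isTranscendenceBasis_of_le_trdeg_of_finite E y' ?_
    rw [hcard, U1_trdeg]
  exact hb.1.comp (fun u => (⟨y u, hst ⟨u, rfl⟩⟩ : t))
    (fun a b hab => hy.injective (congrArg Subtype.val hab))

/-- Composition of two families: the independent coordinates accumulate. -/
theorem step_independent (k K σ : Type) [Field k] [Field K] [Algebra k K] (x : σ → K) (r : ℕ)
    (F : K →+* RF K r) (hF : ∀ c : k, F (algebraMap k K c) = algebraMap K (RF K r) (algebraMap k K c))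
    (T : Set σ) (hT : AlgebraicIndependent K (fun u : T => F (x u))) (m : ℕ) (h : K →+* RF K m)
    (hh : ∀ c : k, h (algebraMap k K c) = algebraMap K (RF K m) (algebraMap k K c)) (U : Set σ)
    (hfix : ∀ u ∈ T, u ∉ U → h (x u) = algebraMap K (RF K m) (x u))
    (hU : AlgebraicIndependent K (fun u : U => h (x u))) :
    ∃ F' : K →+* RF K (r + m),
      (∀ c : k, F' (algebraMap k K c) = algebraMap K (RF K (r + m)) (algebraMap k K c)) ∧
      AlgebraicIndependent K (fun u : (T ∪ U : Set σ) => F' (x u)) := by
  classical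
  obtain ⟨e⟩ := exists_algEquiv_RF K r m
  have htow : IsScalarTower K (RF K r) (RF (RF K r) m) := inferInstance
  let F1 : K →+* RF (RF K r) m := (rfmap F m).comp h
  have hF1c : ∀ c : k, F1 (algebraMap k K c) =
      algebraMap K (RF (RF K r) m) (algebraMap k K c) := by
    intro c
    show rfmap F m (h (algebraMap k K c)) = _
    rw [hh, rfmap_const, hF, ← IsScalarTower.algebraMap_apply K (RF K r) (RF (RF K r) m)]
  have h1 : AlgebraicIndependent (RF K r) (fun u : U => rfmap F m (h (x u))) :=
    U1_ext F m _ hU
  have h2 : AlgebraicIndependent K (fun u : (T \ U : Set σ) => F (x u)) :=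
    hT.comp (fun u : (T \ U : Set σ) => (⟨u, u.2.1⟩ : T))
      (fun a b hab => Subtype.ext (congrArg (fun z : T => (z : σ)) hab))
  have h3 := h2.sumElim_comp h1
  let φ : (T ∪ U : Set σ) → U ⊕ (T \ U : Set σ) := fun u =>
    if hu : (u : σ) ∈ U then Sum.inl ⟨u, hu⟩ else Sum.inr ⟨u, u.2.resolve_right hu, hu⟩
  have hφ : Function.Injective φ := by
    intro a b hab
    by_cases ha : (a : σ) ∈ U <;> by_cases hb : (b : σ) ∈ U
    · simp only [φ, dif_pos ha, dif_pos hb] at hab
      have := Sum.inl_injective hab
      exact Subtype.ext (congrArg (fun z : U => (z : σ)) this)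
    · simp only [φ, dif_pos ha, dif_neg hb] at hab
      cases hab
    · simp only [φ, dif_neg ha, dif_pos hb] at hab
      cases hab
    · simp only [φ, dif_neg ha, dif_neg hb] at hab
      have := Sum.inr_injective hab
      exact Subtype.ext (congrArg (fun z : (T \ U : Set σ) => (z : σ)) this)
  have h4 := h3.comp φ hφ
  have h5 : AlgebraicIndependent K (fun u : (T ∪ U : Set σ) => F1 (x u)) := by
    convert h4 using 1
    funext u
    by_cases hu : (u : σ) ∈ U
    · simp only [Function.comp_apply, φ, dif_pos hu, Sum.elim_inl]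
      rfl
    · simp only [Function.comp_apply, φ, dif_neg hu, Sum.elim_inr]
      show rfmap F m (h (x u)) = _
      rw [hfix u (u.2.resolve_right hu) hu, rfmap_const]
  refine ⟨(e : RF (RF K r) m →+* RF K (r + m)).comp F1, ?_, ?_⟩
  · intro c
    show e (F1 (algebraMap k K c)) = _
    rw [hF1c]
    exact e.commutes _
  · exact h5.map' (f := (e : RF (RF K r) m →ₐ[K] RF K (r + m))) e.injective

end Pool.Agent.LibHP
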