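import Pool.Agent.LibHP3.E7b
import Pool.Agent.LibHP3.E8a

set_option autoImplicit false
open Polynomial

namespace Pool.Agent.LibHP

theorem U2_val_poly {Ω 𝕂 : Type} [Field Ω] [Field 𝕂] [Algebra Ω 𝕂] (V : ValuationSubring 𝕂)
    (hV : ∀ c : Ω, algebraMap Ω 𝕂 c ∈ V) (y : 𝕂) (f : Ω)
    (hy : V.valuation (y - algebraMap Ω 𝕂 f) < 1) (P : Polynomial Ω) :
    V.valuation (aeval y P - algebraMap Ω 𝕂 (P.eval f)) < 1 := by
  have hyV : y ∈ V := by
    have h1 : y - algebraMap Ω 𝕂 f ∈ V := (V.valuation_le_one_iff _).mp hy.le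
    have h2 := V.add_mem _ _ h1 (hV f)
    rwa [sub_add_cancel] at h2
  have hS : ∀ S : Polynomial Ω, aeval y S ∈ V := by
    intro S
    rw [aeval_eq_sum_range]
    refine sum_mem fun i _ => ?_
    rw [Algebra.smul_def]
    exact V.mul_mem _ _ (hV _) (pow_mem hyV i)
  obtain ⟨S, hS'⟩ := X_sub_C_dvd_sub_C_eval (a := f) (p := P)
  have h1 : aeval y P - algebraMap Ω 𝕂 (P.eval f) = (y - algebraMap Ω 𝕂 f) * aeval y S := by
    have h2 := congrArg (aeval y) hS'
    simp only [map_sub, map_mul, aeval_X, aeval_C] at h2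
    exact h2
  rw [h1, map_mul]
  have h3 : V.valuation (aeval y S) ≤ 1 := (V.valuation_le_one_iff _).mpr (hS S)
  calc V.valuation (y - algebraMap Ω 𝕂 f) * V.valuation (aeval y S)
      ≤ V.valuation (y - algebraMap Ω 𝕂 f) * 1 := by gcongr
    _ < 1 := by rwa [mul_one]

theorem U2_const {Ω 𝕂 : Type} [Field Ω] [Field 𝕂] [Algebra Ω 𝕂] (V : ValuationSubring 𝕂)
    (hV : ∀ c : Ω, algebraMap Ω 𝕂 c ∈ V) (c : Ω) (hc : V.valuation (algebraMap Ω 𝕂 c) < 1) :
    c = 0 := by
  by_contra h0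
  have h1 : V.valuation (algebraMap Ω 𝕂 c⁻¹) ≤ 1 := (V.valuation_le_one_iff _).mpr (hV _)
  have h2 : V.valuation (algebraMap Ω 𝕂 c) * V.valuation (algebraMap Ω 𝕂 c⁻¹) = 1 := by
    rw [← map_mul, ← map_mul, mul_inv_cancel₀ h0, map_one, map_one]
  have h3 : V.valuation (algebraMap Ω 𝕂 c) * V.valuation (algebraMap Ω 𝕂 c⁻¹) < 1 := by
    calc V.valuation (algebraMap Ω 𝕂 c) * V.valuation (algebraMap Ω 𝕂 c⁻¹)
        ≤ V.valuation (algebraMap Ω 𝕂 c) * 1 := by gcongr
      _ < 1 := by rwa [mul_one]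
  exact absurd h2 h3.ne

/-- the value of `x` at a place is determined by the value of `y` -/
theorem U2_key {Ω 𝕂 : Type} [Field Ω] [Field 𝕂] [Algebra Ω 𝕂] (V : ValuationSubring 𝕂)
    (hV : ∀ c : Ω, algebraMap Ω 𝕂 c ∈ V) (x y : 𝕂) (e f : Ω)
    (hx : V.valuation (x - algebraMap Ω 𝕂 e) < 1)
    (hy : V.valuation (y - algebraMap Ω 𝕂 f) < 1) (r s : Polynomial Ω)
    (hxy : x * aeval y s = aeval y r) : e * s.eval f = r.eval f := by
  have hxV : x ∈ V := by
    have h1 : x - algebraMap Ω 𝕂 e ∈ V := (V.valuation_le_one_iff _).mp hx.le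
    have h2 := V.add_mem _ _ h1 (hV e)
    rwa [sub_add_cancel] at h2
  have hr := U2_val_poly V hV y f hy r
  have hs := U2_val_poly V hV y f hy s
  have h1 : V.valuation (x * (aeval y s - algebraMap Ω 𝕂 (s.eval f))) < 1 := by
    rw [map_mul]
    have h3 : V.valuation x ≤ 1 := (V.valuation_le_one_iff _).mpr hxV
    calc V.valuation x * V.valuation (aeval y s - algebraMap Ω 𝕂 (s.eval f))
        ≤ 1 * V.valuation (aeval y s - algebraMap Ω 𝕂 (s.eval f)) := by gcongr
      _ < 1 := by rwa [one_mul]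
  have h2 : V.valuation ((x - algebraMap Ω 𝕂 e) * algebraMap Ω 𝕂 (s.eval f)) < 1 := by
    rw [map_mul]
    have h3 : V.valuation (algebraMap Ω 𝕂 (s.eval f)) ≤ 1 :=
      (V.valuation_le_one_iff _).mpr (hV _)
    calc V.valuation (x - algebraMap Ω 𝕂 e) * V.valuation (algebraMap Ω 𝕂 (s.eval f))
        ≤ V.valuation (x - algebraMap Ω 𝕂 e) * 1 := by gcongr
      _ < 1 := by rwa [mul_one]
  have h3 : algebraMap Ω 𝕂 (e * s.eval f - r.eval f) =
      (aeval y r - algebraMap Ω 𝕂 (r.eval f)) -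
      (x * (aeval y s - algebraMap Ω 𝕂 (s.eval f))) -
      ((x - algebraMap Ω 𝕂 e) * algebraMap Ω 𝕂 (s.eval f)) := by
    rw [map_sub, map_mul, ← hxy]
    ring
  have h4 : V.valuation (algebraMap Ω 𝕂 (e * s.eval f - r.eval f)) < 1 := by
    rw [h3]
    exact (V.valuation.map_sub_lt (V.valuation.map_sub_lt hr h1) h2)
  exact sub_eq_zero.mp (U2_const V hV _ h4)

/-- The move changes the fibration: `D x` is not in `κ(x)`. -/
theorem move_not_mem (κ B K : Type) [Field κ] [CharZero κ] [Field B] [Field K] [Algebra κ B]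
    [Algebra B K] [Algebra κ K] [IsScalarTower κ B K] (a : Fin 5 → B) (x w : K) (D : K →ₐ[B] K)
    (h : EMove B K a x w D) (hκ : ∀ c : K, IsAlgebraic κ c → ∃ b : κ, algebraMap κ K b = c)
    (hnf : ∀ p : κ[X], p ≠ 0 →
      IsCoprime (p.map (algebraMap κ K)) ((qPoly a).map (algebraMap B K))) :
    D x ∉ IntermediateField.adjoin κ {x} := by
  intro hmem
  have hB : CharZero B := charZero_of_injective_algebraMap (algebraMap κ B).injective
  have htr : Transcendental B ((D ^ 1) x) := move_iterate_transcendental B K x h.tr D 1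
  have hpow : (D ^ 1) x = D x := by rw [pow_one]
  -- `x` is algebraic over `κ(D x)`
  have hxalg : IsAlgebraic (IntermediateField.adjoin κ {(D ^ 1) x}) x := by
    obtain ⟨r0, s0, h0⟩ := (IntermediateField.mem_adjoin_simple_iff κ (D x)).mp hmem
    have hs0 : aeval x s0 ≠ 0 := by
      intro h1
      rw [h1, div_zero] at h0
      rw [hpow, h0] at htr
      exact htr isAlgebraic_zero
    set yy : IntermediateField.adjoin κ {(D ^ 1) x} :=
      ⟨(D ^ 1) x, IntermediateField.mem_adjoin_simple_self κ _⟩ with hyy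
    refine ⟨r0.map (algebraMap κ _) - C yy * s0.map (algebraMap κ _), ?_, ?_⟩
    · intro hT
      have hs00 : s0 ≠ 0 := by
        rintro rfl
        exact hs0 (map_zero _)
      obtain ⟨i, hi⟩ : ∃ i, s0.coeff i ≠ 0 := by
        by_contra hcon
        push Not at hcon
        exact hs00 (Polynomial.ext (by simpa using hcon))
      have h1 := congrArg (fun p => algebraMap (IntermediateField.adjoin κ {(D ^ 1) x}) K
        (p.coeff i)) hT
      simp only [coeff_sub, coeff_map, coeff_C_mul, coeff_zero, map_sub, map_mul, map_zero] at h1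
      have h2 : algebraMap (IntermediateField.adjoin κ {(D ^ 1) x}) K yy = D x := hpow
      rw [h2, ← IsScalarTower.algebraMap_apply κ _ K, ← IsScalarTower.algebraMap_apply κ _ K] at h1
      have h3 : D x = algebraMap B K (algebraMap κ B (r0.coeff i / s0.coeff i)) := by
        rw [← IsScalarTower.algebraMap_apply κ B K, map_div₀]
        have h4 : algebraMap κ K (s0.coeff i) ≠ 0 := by
          rw [Ne, map_eq_zero]
          exact hi
        rw [eq_div_iff h4]
        linear_combination -h1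
      rw [hpow, h3] at htr
      exact htr (isAlgebraic_algebraMap _)
    · have h1 : D x * aeval x s0 = aeval x r0 := by rw [h0, div_mul_cancel₀ _ hs0]
      rw [map_sub, map_mul, aeval_C, aeval_map_algebraMap, aeval_map_algebraMap]
      have h2 : algebraMap (IntermediateField.adjoin κ {(D ^ 1) x}) K yy = D x := hpow
      rw [h2, h1, sub_self]
  have hxmem := move_closed κ B K a x w D h hκ hnf 1 x hxalg
  rw [hpow] at hxmem
  obtain ⟨r, s, hrs⟩ := (IntermediateField.mem_adjoin_simple_iff κ x).mp hxmem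
  have hs1 : aeval (D x) s ≠ 0 := by
    intro h1
    rw [h1, div_zero] at hrs
    have h2 := h.tr
    rw [hrs] at h2
    exact h2 isAlgebraic_zero
  have hs0 : s ≠ 0 := by
    rintro rfl
    exact hs1 (map_zero _)
  have hxs : x * aeval (D x) s = aeval (D x) r := (eq_div_iff hs1).mp hrs
  obtain ⟨Ω, 𝕂, _, _, _, _, _, D', hcl, halg, hcomm, hE, hD'⟩ := exists_geometric B K a x w D h
  have hΩ : CharZero Ω := charZero_of_injective_algebraMap (algebraMap B Ω).injective
  let σ : κ →+* Ω := (algebraMap B Ω).comp (algebraMap κ B)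
  have hσ : (algebraMap K 𝕂).comp (algebraMap κ K) = (algebraMap Ω 𝕂).comp σ := by
    ext c
    show algebraMap K 𝕂 (algebraMap κ K c) = algebraMap Ω 𝕂 (algebraMap B Ω (algebraMap κ B c))
    rw [hcomm, ← IsScalarTower.algebraMap_apply κ B K]
  have htrans : ∀ p : κ[X], algebraMap K 𝕂 (aeval (D x) p) =
      aeval (D' (algebraMap K 𝕂 x)) (p.map σ) := by
    intro p
    rw [aeval_def, hom_eval₂, hσ, ← hD', aeval_def, eval₂_map]
  have hxs' : algebraMap K 𝕂 x * aeval (D' (algebraMap K 𝕂 x)) (s.map σ) =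
      aeval (D' (algebraMap K 𝕂 x)) (r.map σ) := by
    rw [← htrans, ← htrans, ← map_mul, hxs]
  -- choice of `f`
  have hq0 : qPoly a ≠ 0 := by
    intro h1
    have h2 := hnf X X_ne_zero
    rw [h1, Polynomial.map_zero, isCoprime_zero_right, map_X] at h2
    exact not_isUnit_X h2
  have hprod : ((qPoly a).map (algebraMap B Ω)) * s.map σ ≠ 0 := by
    refine mul_ne_zero ?_ ?_
    · exact (Polynomial.map_ne_zero_iff (algebraMap B Ω).injective).mpr hq0
    · exact (Polynomial.map_ne_zero_iff σ.injective).mpr hs0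
  obtain ⟨f, hf⟩ : ∃ f : Ω, (((qPoly a).map (algebraMap B Ω)) * s.map σ).eval f ≠ 0 := by
    by_contra hcon
    push Not at hcon
    exact hprod (Polynomial.funext (by simpa using hcon))
  rw [eval_mul] at hf
  have hf1 : qT0 (fun i => algebraMap B Ω (a i)) f ≠ 0 := by
    have h1 := left_ne_zero_of_mul hf
    simpa [qPoly, qT0] using h1
  have hf2 : (s.map σ).eval f ≠ 0 := right_ne_zero_of_mul hf
  obtain ⟨e₁, e₂, hne, ⟨hd1, hn1⟩, ⟨hd2, hn2⟩⟩ :=
    exists_two_preimages Ω (fun i => algebraMap B Ω (a i)) hE.disc f hf1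
  have hkey : ∀ e : Ω, qD (fun i => algebraMap B Ω (a i)) e ≠ 0 →
      qN (fun i => algebraMap B Ω (a i)) e = f * qD (fun i => algebraMap B Ω (a i)) e →
      e * (s.map σ).eval f = (r.map σ).eval f := by
    intro e hd hn
    obtain ⟨V, hV, hVe⟩ := exists_place_at Ω 𝕂 (algebraMap K 𝕂 x) hE.tr e
    have h1 := move_forward Ω 𝕂 _ _ _ D' hE V hV e f hVe hd hn hf1
    have h2 : V.valuation (D' (algebraMap K 𝕂 x) - algebraMap Ω 𝕂 f) < 1 := by
      rw [h1]
      exact hVe
    exact U2_key V hV _ _ e f hVe h2 _ _ hxs'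
  have h1 := hkey e₁ hd1 hn1
  have h2 := hkey e₂ hd2 hn2
  have h3 : (e₁ - e₂) * (s.map σ).eval f = 0 := by rw [sub_mul, h1, h2, sub_self]
  rcases mul_eq_zero.mp h3 with h4 | h4
  · exact hne (sub_eq_zero.mp h4)
  · exact hf2 h4

end Pool.Agent.LibHP
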