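import Pool.Agent.LibHP2.B3
import Pool.Agent.LibHP2.B3c
import Pool.Agent.LibHP3.Defs

set_option autoImplicit false

namespace Pool.Agent.LibHP

/-- The family of points of a quadric, in terms of a transcendence basis. -/
theorem exists_family_quad (M K : Type) [Field M] [CharZero M] [Field K] [Algebra M K]
    (hq : HasQuad M K) (U : Type) (t : U → K) (ht : IsTranscendenceBasis M t) :
    ∃ (m : ℕ) (h : K →+* RF K m),
      (∀ c : M, h (algebraMap M K c) = algebraMap K (RF K m) (algebraMap M K c)) ∧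
      AlgebraicIndependent K (fun u => h (t u)) ∧
      ∀ c : K, Transcendental M c → Transcendental K (h c) := by
  obtain ⟨n, hn, B, y, hB, hdet, hy⟩ := hq
  obtain ⟨s, hs1, hs2, hs3⟩ := exists_stereo M K n hn B hB hdet y hy
  obtain ⟨T, hT, hT'⟩ := exists_free_basis M K n hn B hB hdet y hy s hs1 hs3
  refine ⟨_, s, hs1, ?_, ?_⟩
  · obtain ⟨e⟩ := Cardinal.eq.mp (hT.cardinalMk_eq ht)
    have h1 := hT' (t ∘ e) ((isTranscendenceBasis_equiv e).mpr ht)
    have h2 : (fun u => s (t u)) ∘ e = fun i => s ((t ∘ e) i) := rfl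
    exact (algebraicIndependent_equiv' e h2).mp h1
  · intro c hc
    obtain ⟨T', i, hb, hi⟩ := B3c_exists_basis M K T hT c hc
    have h1 := (hT' T' hb).transcendental i
    rw [hi] at h1
    exact h1

end Pool.Agent.LibHP
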