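import Pool.Agent.LibHP3.Defs

set_option autoImplicit false

namespace Pool.Agent.LibHP

open scoped IntermediateField.algebraAdjoinAdjoin in
theorem U4_extend {k K τ : Type} [Field k] [Field K] [Algebra k K] (T : Set K) (z : τ → K)
    (h : AlgebraicIndependent (Algebra.adjoin k T) z) :
    AlgebraicIndependent (IntermediateField.adjoin k T) z :=
  h.extendScalars (IntermediateField.adjoin k T)

/-- `K` is algebraic over any field extension of `k` together with the variables. -/
theorem U4_algebraic {k σ : Type} [Field k] {F : MvPolynomial σ k} {K : Type} [Field K]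
    [Algebra k K] {x : σ → K} {w : K} (hx : IsDoublePt F x w) {M τ : Type} [Field M] [Algebra M K]
    (y : τ → K)
    (hk : ∀ c : k, algebraMap k K c ∈ Algebra.adjoin M (Set.range y))
    (hy : ∀ v, x v ∈ Algebra.adjoin M (Set.range y)) :
    Algebra.IsAlgebraic (Algebra.adjoin M (Set.range y)) K := by
  set S := Algebra.adjoin M (Set.range y) with hS
  have hp : ∀ p : MvPolynomial σ k, MvPolynomial.aeval x p ∈ S := by
    intro p
    induction p using MvPolynomial.induction_on with
    | C a =>
      rw [MvPolynomial.aeval_C]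
      exact hk a
    | add p q hp hq =>
      rw [map_add]
      exact add_mem hp hq
    | mul_X p v hp =>
      rw [map_mul, MvPolynomial.aeval_X]
      exact mul_mem hp (hy v)
  have hpa : ∀ p : MvPolynomial σ k, IsAlgebraic S (MvPolynomial.aeval x p) := fun p =>
    isAlgebraic_algebraMap (⟨_, hp p⟩ : S)
  obtain ⟨hind, hw, hfrac⟩ := hx
  have hwa : IsAlgebraic S w := by
    refine ⟨Polynomial.X ^ 2 - Polynomial.C (⟨_, hp F⟩ : S), ?_, ?_⟩
    · exact (Polynomial.monic_X_pow_sub_C _ two_ne_zero).ne_zero
    · rw [map_sub, map_pow, Polynomial.aeval_X, Polynomial.aeval_C, hw]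
      exact sub_self _
  refine ⟨fun z => ?_⟩
  obtain ⟨P, Q, R, hR, h⟩ := hfrac z
  have h1 : z = (MvPolynomial.aeval x P + MvPolynomial.aeval x Q * w) *
      (MvPolynomial.aeval x R)⁻¹ := by
    rw [← h, mul_inv_cancel_right₀ hR]
  rw [h1]
  exact ((hpa P).add ((hpa Q).mul hwa)).mul (hpa R).inv

/-- the general form: a set of variables over the field generated by the other ones -/
theorem U4_basis {k σ : Type} [Field k] {F : MvPolynomial σ k} {K : Type} [Field K]
    [Algebra k K] {x : σ → K} {w : K} (hx : IsDoublePt F x w) (J : Set σ) {τ : Type} (e : τ → σ)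
    (he : Function.Injective e) (hJ : ∀ v, v ∈ Set.range e ↔ v ∉ J) :
    IsTranscendenceBasis (IntermediateField.adjoin k (x '' J)) (fun u : τ => x (e u)) := by
  have hind : AlgebraicIndependent (IntermediateField.adjoin k (x '' J)) (fun u : τ => x (e u)) := by
    apply U4_extend
    have h1 : AlgebraicIndependent (Algebra.adjoin k (x '' J)) (fun v : (Jᶜ : Set σ) => x v) :=
      hx.1.adjoin_of_disjoint disjoint_compl_right
    exact h1.comp (fun u : τ => (⟨e u, (hJ _).mp ⟨u, rfl⟩⟩ : (Jᶜ : Set σ)))
      (fun a b hab => he (congrArg Subtype.val hab))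
  rw [hind.isTranscendenceBasis_iff_isAlgebraic]
  refine U4_algebraic hx _ ?_ ?_
  · intro c
    have h1 : algebraMap k K c = algebraMap (IntermediateField.adjoin k (x '' J)) K
      (algebraMap k _ c) := rfl
    rw [h1]
    exact Subalgebra.algebraMap_mem _ _
  · intro v
    by_cases hv : v ∈ J
    · have h1 : x v = algebraMap (IntermediateField.adjoin k (x '' J)) K
        ⟨x v, IntermediateField.subset_adjoin k _ ⟨v, hv, rfl⟩⟩ := rfl
      rw [h1]
      exact Subalgebra.algebraMap_mem _ _
    · obtain ⟨u, hu⟩ := (hJ v).mpr hv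
      exact Algebra.subset_adjoin ⟨u, by simp only [hu]⟩

/-- The variables of `I` are a transcendence basis over the field generated by the other ones. -/
theorem isTranscendenceBasis_special (k σ : Type) [Field k] [Fintype σ] [DecidableEq σ]
    (F : MvPolynomial σ k) (K : Type) [Field K] [Algebra k K] (x : σ → K) (w : K)
    (hx : IsDoublePt F x w) (I : Finset σ) :
    IsTranscendenceBasis (IntermediateField.adjoin k (x '' {u | u ∉ I})) (fun u : I => x u) :=
  U4_basis hx {u | u ∉ I} (fun u : I => (u : σ)) Subtype.val_injective (fun v => by simp)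

/-- All the variables are a transcendence basis over `k`. -/
theorem isTranscendenceBasis_all (k σ : Type) [Field k] [Fintype σ] [DecidableEq σ]
    (F : MvPolynomial σ k) (K : Type) [Field K] [Algebra k K] (x : σ → K) (w : K)
    (hx : IsDoublePt F x w) : IsTranscendenceBasis k x := by
  rw [hx.1.isTranscendenceBasis_iff_isAlgebraic]
  exact U4_algebraic hx x (fun c => Subalgebra.algebraMap_mem _ _)
    (fun v => Algebra.subset_adjoin ⟨v, rfl⟩)

/-- One variable. -/
theorem isTranscendenceBasis_var (k σ : Type) [Field k] [Fintype σ] [DecidableEq σ]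
    (F : MvPolynomial σ k) (K : Type) [Field K] [Algebra k K] (x : σ → K) (w : K)
    (hx : IsDoublePt F x w) (v : σ) :
    IsTranscendenceBasis (IntermediateField.adjoin k (x '' {u | u ≠ v}))
      (fun _ : Unit => x v) :=
  U4_basis hx {u | u ≠ v} (fun _ : Unit => v) (fun a b _ => Subsingleton.elim a b)
    (fun u => by simp [eq_comm])

end Pool.Agent.LibHP
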