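import Pool.Agent.LibHP3.G2
import Pool.Agent.LibHP3.U1
import Pool.Agent.LibHP3.U2
import Pool.Agent.LibHP3.U3
import Pool.Agent.LibHP3.U4

set_option autoImplicit false
open Polynomial

namespace Pool.Agent.LibHP

/-- The family moving `xv`: the case of a genus one fibration, abstract version. -/
theorem U5_family_core (k K : Type) [Field k] [CharZero k] [Field K] [Algebra k K]
    (κ B M : IntermediateField k K) (hκB : κ ≤ B)
    (xv w : K) (hM : ∀ c, c ∈ M ↔ c ∈ IntermediateField.adjoin κ {xv})
    (a : Fin 5 → B) (hE : ECurve B K a xv w)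
    (hnf : ∀ p : κ[X], p ≠ 0 →
      IsCoprime (p.map (algebraMap κ K)) ((qPoly a).map (algebraMap B K)))
    (hquad : HasQuad M K) (U : Type) (t : U → K) (ht : IsTranscendenceBasis M t) :
    ∃ (m : ℕ) (h : K →+* RF K m), (∀ c ∈ κ, h c = algebraMap K (RF K m) c) ∧
      Transcendental K (h xv) := by
  classical
  let _ : Algebra κ B := (IntermediateField.inclusion hκB).toRingHom.toAlgebra
  have hst : IsScalarTower κ B K := IsScalarTower.of_algebraMap_eq' rfl
  have hcκ : CharZero κ := charZero_of_injective_algebraMap (algebraMap k κ).injective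
  have hcB : CharZero B := charZero_of_injective_algebraMap (algebraMap k B).injective
  have hcM : CharZero M := charZero_of_injective_algebraMap (algebraMap k M).injective
  obtain ⟨m, h, h1, -, h3⟩ := exists_family_quad M K hquad U t ht
  obtain ⟨n, hn, Bm, y, hB, hdet, hy⟩ := hquad
  obtain ⟨D, hD⟩ := exists_move B K a xv w hE
  have hκM : ∀ c : K, c ∈ κ → c ∈ M := fun c hc =>
    (hM c).2 (IntermediateField.algebraMap_mem (IntermediateField.adjoin κ {xv})
      (⟨c, hc⟩ : κ))
  have htr : Transcendental κ xv := by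
    intro halg
    exact hE.tr (G1_algVia (algebraMap κ K) (algebraMap B K) (fun m => ⟨⟨m, hκB m.2⟩, rfl⟩)
      xv halg)
  have hcl : ∀ c : K, IsAlgebraic M c → c ∈ IntermediateField.adjoin κ {xv} := by
    intro c hc
    obtain ⟨m, hm⟩ := quad_algClosed M K n hn Bm hB hdet y hy c hc
    rw [← hM, ← hm]
    exact m.2
  have hκ : ∀ c : K, IsAlgebraic κ c → ∃ b : κ, algebraMap κ K b = c := by
    intro c hc
    have h1 : IsAlgebraic M c :=
      G1_algVia (algebraMap κ K) (algebraMap M K) (fun m => ⟨⟨m, hκM _ m.2⟩, rfl⟩) c hc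
    exact G0_mem κ K xv htr c (hcl c h1) hc
  refine ⟨m, h.comp (D : K →+* K), fun c hc => ?_, ?_⟩
  · have h4 : D c = c := D.commutes (⟨c, hκB hc⟩ : B)
    change h (D c) = _
    rw [h4]
    exact h1 ⟨c, hκM c hc⟩
  · apply h3
    intro halg
    exact move_not_mem κ B K a xv w D hD hκ hnf (hcl _ halg)

/-- The family moving `x v` and fixing the other variables outside of `I`. -/
theorem U5_family (k σ : Type) [Field k] [CharZero k] [Fintype σ] [DecidableEq σ]
    (F : MvPolynomial σ k) (I : Finset σ) (hI : IsQuadOn F I)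
    (K : Type) [Field K] [Algebra k K] (x : σ → K) (w : K) (hx : IsDoublePt F x w)
    (v : σ) (hv : v ∉ I) (h4 : F.degreeOf v ≤ 4) :
    ∃ (m : ℕ) (h : K →+* RF K m),
      (∀ c : k, h (algebraMap k K c) = algebraMap K (RF K m) (algebraMap k K c)) ∧
      (∀ u, u ∉ I → u ≠ v → h (x u) = algebraMap K (RF K m) (x u)) ∧
      Transcendental K (h (x v)) := by
  classical
  have hsq := IsQuadOn.squarefree k σ F I hI
  have hF0 : F ≠ 0 := hsq.ne_zero
  have htrv : Transcendental (IntermediateField.adjoin k (x '' {u | u ≠ v})) (x v) :=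
    (isTranscendenceBasis_var k σ F K x w hx v).1.transcendental ()
  have hsub : ∀ u, u ≠ v → x u ∈ IntermediateField.adjoin k (x '' {u | u ≠ v}) := fun u hu =>
    IntermediateField.subset_adjoin k _ ⟨u, hu, rfl⟩
  by_cases h3 : 3 ≤ F.degreeOf v
  · obtain ⟨a, hE, hpoly⟩ := exists_ecurve k σ F hsq K x w hx v h3 h4
    obtain ⟨m, h, h5, h6⟩ := U5_family_core k K
      (IntermediateField.adjoin k (x '' {u | u ≠ v ∧ u ∉ I}))
      (IntermediateField.adjoin k (x '' {u | u ≠ v}))
      (IntermediateField.adjoin k (x '' {u | u ∉ I}))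
      (IntermediateField.adjoin.mono k _ _ (Set.image_mono fun u hu => hu.1)) (x v) w (by
        intro c
        have h5 : (IntermediateField.adjoin
            (IntermediateField.adjoin k (x '' {u | u ≠ v ∧ u ∉ I}))
            {x v}).restrictScalars k = IntermediateField.adjoin k (x '' {u | u ∉ I}) := by
          rw [IntermediateField.adjoin_adjoin_left]
          congr 1
          ext z
          simp only [Set.mem_union, Set.mem_image, Set.mem_ofPred_eq, Set.mem_singleton_iff]
          constructor
          · rintro (⟨u, ⟨-, hu⟩, rfl⟩ | rfl)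
            · exact ⟨u, hu, rfl⟩
            · exact ⟨v, hv, rfl⟩
          · rintro ⟨u, hu, rfl⟩
            by_cases huv : u = v
            · right
              rw [huv]
            · exact Or.inl ⟨u, ⟨huv, hu⟩, rfl⟩
        rw [← h5]
        rfl) a hE (by
        intro p hp
        rw [hpoly]
        exact ecurve_coprime k σ F hF0 I hI.nofac K x hx.1 v hv p hp)
      (hasQuad_special k σ F I hI K x w hx) I (fun u => x u)
      (isTranscendenceBasis_special k σ F K x w hx I)
    refine ⟨m, h, fun c => h5 _ (IntermediateField.algebraMap_mem _ c), fun u hu huv => ?_, h6⟩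
    exact h5 _ (IntermediateField.subset_adjoin k _ ⟨u, ⟨huv, hu⟩, rfl⟩)
  by_cases h1 : 1 ≤ F.degreeOf v
  · have hcB : CharZero (IntermediateField.adjoin k (x '' {u | u ≠ v})) :=
      charZero_of_injective_algebraMap
        (algebraMap k (IntermediateField.adjoin k (x '' {u | u ≠ v}))).injective
    obtain ⟨m, h, h5, -, h6⟩ := exists_family_quad _ K
      (hasQuad_var_pos k σ F hsq v h1 (by omega) K x w hx) Unit _
      (isTranscendenceBasis_var k σ F K x w hx v)
    exact ⟨m, h, fun c => h5 (algebraMap k _ c), fun u _ huv => h5 ⟨x u, hsub u huv⟩, h6 _ htrv⟩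
  · have h0 : F.degreeOf v = 0 := by omega
    have hle : IntermediateField.adjoin k (x '' {u | u ≠ v}) ≤
        IntermediateField.adjoin k (x '' {u | u ≠ v} ∪ {w}) :=
      IntermediateField.adjoin.mono k _ _ Set.subset_union_left
    have hcM : CharZero (IntermediateField.adjoin k (x '' {u | u ≠ v} ∪ {w})) :=
      charZero_of_injective_algebraMap
        (algebraMap k (IntermediateField.adjoin k (x '' {u | u ≠ v} ∪ {w}))).injective
    obtain ⟨U, t, ht⟩ := exists_isTranscendenceBasis'
      (IntermediateField.adjoin k (x '' {u | u ≠ v} ∪ {w})) K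
    obtain ⟨m, h, h5, -, h6⟩ := exists_family_quad _ K
      (hasQuad_var_zero k σ F v h0 K x w hx) U t ht
    refine ⟨m, h, fun c => h5 (algebraMap k _ c), fun u _ huv => h5 ⟨x u, hle (hsub u huv)⟩,
      h6 _ ?_⟩
    intro halg
    exact htrv (G2_trans k K K _ _ hle (fun m hm => G2_alg_w k σ F K x w hx v h0 m hm) _ halg)

/-- There is a family of embeddings moving all the variables independently. -/
theorem exists_independent_embedding (k σ : Type) [Field k] [CharZero k] [Fintype σ]
    [DecidableEq σ] (F : MvPolynomial σ k) (I : Finset σ) (hI : IsQuadOn F I)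
    (hdeg : ∀ v, v ∉ I → F.degreeOf v ≤ 4)
    (K : Type) [Field K] [Algebra k K] (x : σ → K) (w : K) (hx : IsDoublePt F x w) :
    ∃ (r : ℕ) (F' : K →+* RF K r),
      (∀ c : k, F' (algebraMap k K c) = algebraMap K (RF K r) (algebraMap k K c)) ∧
      AlgebraicIndependent K (fun u => F' (x u)) := by
  classical
  have key : ∀ T : Finset σ, (∀ v ∈ T, v ∉ I) → ∃ (r : ℕ) (F' : K →+* RF K r),
      (∀ c : k, F' (algebraMap k K c) = algebraMap K (RF K r) (algebraMap k K c)) ∧
      AlgebraicIndependent K (fun u : (T : Set σ) => F' (x u)) := by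
    intro T
    induction T using Finset.induction_on with
    | empty =>
      intro _
      refine ⟨0, algebraMap K (RF K 0), fun c => rfl, ?_⟩
      have : IsEmpty ((∅ : Finset σ) : Set σ) := by simp
      rw [algebraicIndependent_empty_type_iff]
      exact (algebraMap K (RF K 0)).injective
    | insert v T hvT ih =>
      intro hT
      obtain ⟨r, F', h1, h2⟩ := ih (fun u hu => hT u (Finset.mem_insert_of_mem hu))
      have hv : v ∉ I := hT v (Finset.mem_insert_self v T)
      obtain ⟨m, h, h3, h4, h5⟩ := U5_family k σ F I hI K x w hx v hv (hdeg v hv)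
      obtain ⟨F'', h6, h7⟩ := step_independent k K σ x r F' h1 (T : Set σ) h2 m h h3 {v}
        (fun u hu huv => h4 u (hT u (Finset.mem_insert_of_mem hu)) huv) (by
          have : Unique ({v} : Set σ) := Set.uniqueSingleton v
          rw [algebraicIndependent_unique_type_iff]
          have h9 : ((default : ({v} : Set σ)) : σ) = v := (default : ({v} : Set σ)).2
          rw [h9]
          exact h5)
      refine ⟨r + m, F'', h6, ?_⟩
      have h8 : ((insert v T : Finset σ) : Set σ) = (T : Set σ) ∪ {v} := by
        rw [Finset.coe_insert, Set.union_singleton]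
      rw [h8]
      exact h7
  obtain ⟨r, F', h1, h2⟩ := key (Finset.univ \ I) (fun v hv => (Finset.mem_sdiff.1 hv).2)
  have hcM : CharZero (IntermediateField.adjoin k (x '' {u | u ∉ I})) :=
    charZero_of_injective_algebraMap
      (algebraMap k (IntermediateField.adjoin k (x '' {u | u ∉ I}))).injective
  obtain ⟨m, h, h3, h4, -⟩ := exists_family_quad _ K (hasQuad_special k σ F I hI K x w hx) I
    (fun u => x u) (isTranscendenceBasis_special k σ F K x w hx I)
  obtain ⟨F'', h6, h7⟩ := step_independent k K σ x r F' h1 _ h2 m h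
    (fun c => h3 (algebraMap k _ c)) (I : Set σ)
    (fun u _ hu => h3 ⟨x u, IntermediateField.subset_adjoin k _ ⟨u, hu, rfl⟩⟩) h4
  refine ⟨r + m, F'', h6, ?_⟩
  have h8 : ((Finset.univ \ I : Finset σ) : Set σ) ∪ (I : Set σ) = Set.univ := by
    ext u
    simp
  rw [h8] at h7
  exact h7.comp (fun u : σ => (⟨u, trivial⟩ : (Set.univ : Set σ))) (fun a b hab => by
    simpa using congrArg Subtype.val hab)

end Pool.Agent.LibHP
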