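import Pool.Agent.LibHP.U1b

set_option autoImplicit false
open Polynomial

namespace Pool.Agent.LibHP

/-- every transcendence basis of `K` over `k` stays independent if one does -/
theorem U6_indep {k K : Type} [Field k] [Field K] [Algebra k K] {r : ℕ} (F : K →+* RF K r)
    (hF : ∀ c : k, F (algebraMap k K c) = algebraMap K (RF K r) (algebraMap k K c))
    {σ : Type} [Fintype σ] (x : σ → K) (hx : IsTranscendenceBasis k x)
    (hind : AlgebraicIndependent K (fun u => F (x u))) (t : Set K)
    (ht : IsTranscendenceBasis k ((↑) : t → K)) :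
    AlgebraicIndependent K (F ∘ ((↑) : t → K)) := by
  classical
  set Y : Set (RF K r) := Set.range (F ∘ ((↑) : t → K)) with hY
  set X : Set (RF K r) := Set.range (fun u => F (x u)) with hX
  let M := AlgebraicIndependent.matroid K (RF K r)
  have hcard : Cardinal.mk t = Cardinal.mk σ := ht.cardinalMk_eq hx
  have hfin : Finite t := by
    rw [← Cardinal.mk_lt_aleph0_iff, hcard]
    exact Cardinal.mk_lt_aleph0
  have hXind : M.Indep X := hind.to_subtype_range
  have hmem : ∀ z ∈ Algebra.adjoin k (Set.range ((↑) : t → K)), F z ∈ Algebra.adjoin K Y := by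
    intro z hz
    induction hz using Algebra.adjoin_induction with
    | mem z hz =>
      obtain ⟨a, rfl⟩ := hz
      exact Algebra.subset_adjoin ⟨a, rfl⟩
    | algebraMap c =>
      rw [hF]
      exact Subalgebra.algebraMap_mem _ _
    | add a b _ _ ha hb =>
      rw [map_add]
      exact add_mem ha hb
    | mul a b _ _ ha hb =>
      rw [map_mul]
      exact mul_mem ha hb
  let ψ : Algebra.adjoin k (Set.range ((↑) : t → K)) →+* Algebra.adjoin K Y :=
    (F.comp (algebraMap (Algebra.adjoin k (Set.range ((↑) : t → K))) K)).codRestrict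
      (Algebra.adjoin K Y).toSubring (fun z => hmem z z.2)
  have hψ : Function.Injective ψ := by
    intro a b hab
    have h1 : F (a : K) = F (b : K) := congrArg Subtype.val hab
    exact Subtype.ext (F.injective h1)
  have hXY : X ⊆ M.closure Y := by
    rintro _ ⟨u, rfl⟩
    rw [AlgebraicIndependent.matroid_closure_eq]
    have h1 : IsAlgebraic (Algebra.adjoin k (Set.range ((↑) : t → K))) (x u) :=
      ht.isAlgebraic.isAlgebraic (x u)
    exact h1.ringHom_of_comp_eq ψ F hψ (by rfl)
  have hle : Y.encard ≤ M.eRk Y := by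
    have h1 : X.encard ≤ M.eRk Y := by
      rw [← M.eRk_closure_eq Y]
      exact hXind.encard_le_eRk_of_subset hXY
    refine le_trans ?_ h1
    have h2 : X.encard = Nat.card σ := by
      rw [hX, ← Set.image_univ, (hind.injective).injOn.encard_image, Set.encard_univ]
      simp
    have h3 : Y.encard ≤ Nat.card t := by
      rw [hY, ← Set.image_univ]
      refine (Set.encard_image_le _ _).trans ?_
      rw [Set.encard_univ]
      simp
    rw [h2]
    refine h3.trans ?_
    rw [Nat.card_congr (Cardinal.eq.mp hcard).some]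
  have hYfin : Y.Finite := Set.finite_range _
  have hYind : M.Indep Y := by
    rw [M.indep_iff_eRk_eq_encard_of_finite hYfin]
    exact le_antisymm (M.eRk_le_encard Y) hle
  have h4 : AlgebraicIndependent K ((↑) : Y → RF K r) := hYind
  exact h4.of_subtype_range (F.injective.comp Subtype.val_injective)

/-- Specialization at a general `k`-point of an embedding with independent coordinates. -/
theorem exists_hom_of_independent (k K : Type) [Field k] [CharZero k] [Field K] [Algebra k K]
    (A : Subalgebra k K) (hA : A.FG) (hfrac : IsFractionRing A K) (r : ℕ) (F : K →+* RF K r)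
    (hF : ∀ c : k, F (algebraMap k K c) = algebraMap K (RF K r) (algebraMap k K c))
    (σ : Type) [Fintype σ] (x : σ → K) (hx : IsTranscendenceBasis k x)
    (hind : AlgebraicIndependent K (fun u => F (x u))) :
    ∃ g : A, g ≠ 0 ∧ ∀ φ : A →ₐ[k] k, φ g ≠ 0 → Nonempty (K →ₐ[k] RF k r) := by
  classical
  obtain ⟨s, hs⟩ := hA
  -- a transcendence basis inside `s`
  have halgA : Algebra.IsAlgebraic A K := IsLocalization.isAlgebraic _ (nonZeroDivisors A)
  have halg : Algebra.IsAlgebraic (Algebra.adjoin k (s : Set K)) K := by rw [hs]; exact halgA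
  obtain ⟨t, hts, ht⟩ := exists_isTranscendenceBasis_subset (R := k) (A := K) (s : Set K)
  have htA : ∀ a ∈ t, a ∈ A := fun a ha => by
    rw [← hs]
    exact Algebra.subset_adjoin (hts ha)
  have hFt : AlgebraicIndependent K (F ∘ ((↑) : t → K)) :=
    U6_indep F hF x hx hind t ht
  -- complete to a transcendence basis of `K(t)`
  let xK : Fin r → RF K r := fun j =>
    algebraMap (MvPolynomial (Fin r) K) (RF K r) (MvPolynomial.X j)
  let xk : Fin r → RF k r := fun j =>
    algebraMap (MvPolynomial (Fin r) k) (RF k r) (MvPolynomial.X j)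
  have halg1 : Algebra.IsAlgebraic
      (Algebra.adjoin K (Set.range (F ∘ ((↑) : t → K)) ∪ Set.range xK)) (RF K r) := by
    refine (isTranscendenceBasis_RF K r).isAlgebraic_iff.mpr (fun j => ?_)
    have h1 : xK j ∈ Algebra.adjoin K (Set.range (F ∘ ((↑) : t → K)) ∪ Set.range xK) :=
      Algebra.subset_adjoin (Or.inr ⟨j, rfl⟩)
    exact isAlgebraic_algebraMap (⟨xK j, h1⟩ :
      Algebra.adjoin K (Set.range (F ∘ ((↑) : t → K)) ∪ Set.range xK))
  obtain ⟨u, hsu, hut, hu⟩ := exists_isTranscendenceBasis_between (R := K)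
    (Set.range (F ∘ ((↑) : t → K))) (Set.range (F ∘ ((↑) : t → K)) ∪ Set.range xK)
    Set.subset_union_left hFt.to_subtype_range
  have hucard : Cardinal.mk u = r := by
    rw [hu.cardinalMk_eq_trdeg, trdeg_RF]
  have hufin : Finite u := by
    rw [← Cardinal.mk_lt_aleph0_iff, hucard]
    exact Cardinal.natCast_lt_aleph0
  -- algebraic relations of the variables
  have hrel : ∀ j : Fin r, ∃ p : (MvPolynomial u A)[X], p ≠ 0 ∧
      p.eval₂ (MvPolynomial.eval₂Hom ((algebraMap K (RF K r)).comp (algebraMap A K))
        ((↑) : u → RF K r)) (xK j) = 0 := by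
    intro j
    obtain ⟨p, hp0, hp⟩ := hu.isAlgebraic.isAlgebraic (xK j)
    let e := hu.1.aevalEquiv
    let P : (MvPolynomial u K)[X] := p.map (e.symm : _ →+* MvPolynomial u K)
    have hP0 : P ≠ 0 := (Polynomial.map_ne_zero_iff e.symm.injective).mpr hp0
    have hP : P.eval₂ ((MvPolynomial.aeval ((↑) : u → RF K r) :
        MvPolynomial u K →ₐ[K] RF K r) : MvPolynomial u K →+* RF K r) (xK j) = 0 := by
      have hcomp : ((MvPolynomial.aeval ((↑) : u → RF K r) :
          MvPolynomial u K →ₐ[K] RF K r) : MvPolynomial u K →+* RF K r).comp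
          (e.symm : _ →+* MvPolynomial u K) =
          algebraMap (Algebra.adjoin K (Set.range ((↑) : u → RF K r))) (RF K r) := by
        apply RingHom.ext
        intro a
        have h1 := hu.1.algebraMap_aevalEquiv (e.symm a)
        rw [AlgEquiv.apply_symm_apply] at h1
        exact h1.symm
      rw [Polynomial.eval₂_map, hcomp]
      exact hp
    obtain ⟨d, p', hd, hp'⟩ := exists_clear (A := A) P
    refine ⟨p', ?_, ?_⟩
    · intro h0
      rw [h0, Polynomial.map_zero] at hp'
      refine mul_ne_zero ?_ hP0 hp'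
      rw [Ne, Polynomial.C_eq_zero, MvPolynomial.C_eq_zero,
        map_eq_zero_iff _ (IsFractionRing.injective A K)]
      exact hd
    · have h1 : MvPolynomial.eval₂Hom ((algebraMap K (RF K r)).comp (algebraMap A K))
          ((↑) : u → RF K r) = ((MvPolynomial.aeval ((↑) : u → RF K r) :
          MvPolynomial u K →ₐ[K] RF K r) : MvPolynomial u K →+* RF K r).comp
          (MvPolynomial.map (algebraMap A K)) := by
        apply MvPolynomial.ringHom_ext
        · intro a
          simp
        · intro i
          simp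
      rw [h1, ← Polynomial.eval₂_map, ← hp', Polynomial.eval₂_mul, hP, mul_zero]
  choose p hp0 hp using hrel
  have hcoef : ∀ j, ∃ n, (p j).coeff n ≠ 0 := fun j => by
    by_contra hcon
    push Not at hcon
    exact hp0 j (Polynomial.ext (by simpa using hcon))
  choose n hn using hcoef
  let ev : MvPolynomial u A →+* RF K r :=
    MvPolynomial.eval₂Hom ((algebraMap K (RF K r)).comp (algebraMap A K)) ((↑) : u → RF K r)
  have hev : Function.Injective ev := by
    have h1 : ev = ((MvPolynomial.aeval ((↑) : u → RF K r) :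
          MvPolynomial u K →ₐ[K] RF K r) : MvPolynomial u K →+* RF K r).comp
          (MvPolynomial.map (algebraMap A K)) := by
      apply MvPolynomial.ringHom_ext
      · intro a
        simp [ev]
      · intro i
        simp [ev]
    rw [h1, RingHom.coe_comp]
    exact Function.Injective.comp hu.1
      (MvPolynomial.map_injective _ (IsFractionRing.injective A K))
  choose g1 hg1 hg1' using fun j : Fin r => exists_specRel (k := k) (A := A) (ev ((p j).coeff (n j)))
  choose g2 hg2 hg2' using fun x : s => exists_specRel (k := k) (A := A) (F x)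
  refine ⟨(∏ j, g1 j) * ∏ x, g2 x, mul_ne_zero (Finset.prod_ne_zero_iff.mpr fun j _ => hg1 j)
    (Finset.prod_ne_zero_iff.mpr fun x _ => hg2 x), ?_⟩
  intro φ hφ
  rw [map_mul, map_prod, map_prod] at hφ
  have hφ1 : ∀ j, (φ : A →+* k) (g1 j) ≠ 0 := fun j =>
    Finset.prod_ne_zero_iff.mp (left_ne_zero_of_mul hφ) j (Finset.mem_univ j)
  have hφ2 : ∀ x, (φ : A →+* k) (g2 x) ≠ 0 := fun x =>
    Finset.prod_ne_zero_iff.mp (right_ne_zero_of_mul hφ) x (Finset.mem_univ x)
  -- the specialization of `F`
  have hconst : ∀ c : k, SpecRel (φ : A →+* k) (F (algebraMap k K c)) (algebraMap k (RF k r) c) := by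
    intro c
    have h1 := SpecRel.const (K := K) (r := r) (φ : A →+* k) (algebraMap k A c)
    rw [hF c]
    have h2 : (φ : A →+* k) (algebraMap k A c) = c := φ.commutes c
    rw [h2] at h1
    exact h1
  have hG' : ∀ a ∈ Algebra.adjoin k (s : Set K), ∃ h, SpecRel (φ : A →+* k) (F a) h := by
    intro a ha
    induction ha using Algebra.adjoin_induction with
    | mem x hx =>
      obtain ⟨h, h1, -⟩ := hg2' ⟨x, hx⟩ (φ : A →+* k) (hφ2 _)
      exact ⟨h, h1⟩
    | algebraMap c => exact ⟨_, hconst c⟩
    | add x y _ _ hx hy =>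
      obtain ⟨h, h1⟩ := hx
      obtain ⟨h', h1'⟩ := hy
      exact ⟨h + h', by rw [map_add]; exact h1.add h1'⟩
    | mul x y _ _ hx hy =>
      obtain ⟨h, h1⟩ := hx
      obtain ⟨h', h1'⟩ := hy
      exact ⟨h * h', by rw [map_mul]; exact h1.mul h1'⟩
  have hG : ∀ a : A, ∃ h, SpecRel (φ : A →+* k) (F a) h := fun a =>
    hG' a (by rw [hs]; exact a.2)
  choose G0 hG0 using hG
  let G : A →ₐ[k] RF k r :=
    { toFun := G0
      map_one' := by
        refine (hG0 1).unique ?_
        have := hconst 1
        simp only [map_one] at this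
        have h1 : F ((1 : A) : K) = 1 := by simp
        rw [h1]
        exact this
      map_mul' := fun a b => by
        refine (hG0 (a * b)).unique ?_
        have := (hG0 a).mul (hG0 b)
        rwa [← map_mul] at this
      map_zero' := by
        refine (hG0 0).unique ?_
        have := hconst 0
        simp only [map_zero] at this
        have h1 : F ((0 : A) : K) = 0 := by simp
        rw [h1]
        exact this
      map_add' := fun a b => by
        refine (hG0 (a + b)).unique ?_
        have := (hG0 a).add (hG0 b)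
        rwa [← map_add] at this
      commutes' := fun c => (hG0 (algebraMap k A c)).unique (hconst c) }
  have hGspec : ∀ a : A, SpecRel (φ : A →+* k) (F a) (G a) := hG0
  -- the specialization of the transcendence basis
  have hw : ∀ i : u, ∃ h, SpecRel (φ : A →+* k) (i : RF K r) h := by
    intro i
    rcases hut i.2 with ⟨a, ha⟩ | ⟨j, hj⟩
    · exact ⟨G ⟨a, htA a a.2⟩, by rw [← ha]; exact hGspec ⟨a, htA a a.2⟩⟩
    · exact ⟨xk j, by rw [← hj]; exact SpecRel.X _ j⟩
  choose w hw using hw
  have hevw := SpecRel.eval₂ ((↑) : u → RF K r) w hw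
  let S := Algebra.adjoin k (Set.range w)
  let evS : MvPolynomial u A →+* S := MvPolynomial.eval₂Hom ((algebraMap k S).comp (φ : A →+* k))
    (fun i => ⟨w i, Algebra.subset_adjoin ⟨i, rfl⟩⟩)
  have hevS : (algebraMap S (RF k r)).comp evS =
      MvPolynomial.eval₂Hom ((algebraMap k (RF k r)).comp (φ : A →+* k)) w := by
    apply MvPolynomial.ringHom_ext
    · intro a
      simp [evS]
    · intro i
      simp [evS]
  have hX : ∀ j, IsAlgebraic S (xk j) := by
    intro j
    refine ⟨(p j).map evS, ?_, ?_⟩
    · intro h0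
      have h1 : evS ((p j).coeff (n j)) = 0 := by
        rw [← Polynomial.coeff_map, h0, Polynomial.coeff_zero]
      obtain ⟨h, h2, h3⟩ := hg1' j (φ : A →+* k) (hφ1 j)
      have h4 : h = 0 := by
        rw [h2.unique (hevw ((p j).coeff (n j)))]
        have h5 := congrArg (algebraMap S (RF k r)) h1
        rw [← RingHom.comp_apply, hevS, map_zero] at h5
        exact h5
      refine h3 ?_ h4
      intro h6
      exact hn j (hev (by rw [h6, map_zero]))
    · rw [Polynomial.aeval_def, Polynomial.eval₂_map, hevS]
      have h1 : SpecRel (φ : A →+* k) ((p j).eval₂ ev (xK j)) ((p j).eval₂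
          (MvPolynomial.eval₂Hom ((algebraMap k (RF k r)).comp (φ : A →+* k)) w) (xk j)) := by
        rw [Polynomial.eval₂_eq_sum_range, Polynomial.eval₂_eq_sum_range]
        exact SpecRel.sum _ _ _ (fun i => (hevw _).mul ((SpecRel.X _ j).pow i))
      have h2 : (p j).eval₂ ev (xK j) = 0 := hp j
      rw [h2] at h1
      have h3 := hconst 0
      rw [map_zero, map_zero, map_zero] at h3
      exact h1.unique h3
  have halgS : Algebra.IsAlgebraic S (RF k r) := (isTranscendenceBasis_RF k r).isAlgebraic_iff.mpr hX
  have hwb : IsTranscendenceBasis k w := by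
    refine Algebra.IsAlgebraic.isTranscendenceBasis_of_le_trdeg_of_finite k w ?_
    rw [hucard, trdeg_RF]
  have hGt : AlgebraicIndependent k (fun a : t => G ⟨a, htA a a.2⟩) := by
    have h1 := hwb.1.comp (fun a : t => (⟨F a, hsu ⟨a, rfl⟩⟩ : u)) (by
      intro a b hab
      have h2 : F a = F b := congrArg Subtype.val hab
      exact Subtype.ext (F.injective h2))
    have h3 : (w ∘ fun a : t => (⟨F a, hsu ⟨a, rfl⟩⟩ : u)) = fun a : t => G ⟨a, htA a a.2⟩ := by
      funext a
      exact (hw _).unique (hGspec ⟨a, htA a a.2⟩)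
    rw [h3] at h1
    exact h1
  have hGinj : Function.Injective G := by
    rw [injective_iff_map_eq_zero]
    intro a ha
    by_contra ha0
    have haK : (a : K) ≠ 0 := fun h => ha0 (Subtype.ext h)
    obtain ⟨q, hq0, hq⟩ := (ht.isAlgebraic.isAlgebraic (a : K)).exists_nonzero_coeff_and_aeval_eq_zero
      (mem_nonZeroDivisors_of_ne_zero haK)
    have hle : Algebra.adjoin k (Set.range ((↑) : t → K)) ≤ A := by
      rw [Algebra.adjoin_le_iff]
      rintro _ ⟨a, rfl⟩
      exact htA a a.2
    let i := Subalgebra.inclusion hle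
    have h1 : q.eval₂ (i : _ →+* A) a = 0 := by
      apply Subtype.ext
      have h2 : ((q.eval₂ (i : _ →+* A) a : A) : K) = Polynomial.aeval (a : K) q := by
        rw [Polynomial.aeval_def]
        exact Polynomial.hom_eval₂ q (i : _ →+* A) (algebraMap A K) a
      rw [h2, hq]
      rfl
    have h2 : G (i (q.coeff 0)) = 0 := by
      have h3 := congrArg (G : A →+* RF k r) h1
      have ha' : (G : A →+* RF k r) a = 0 := ha
      rw [Polynomial.hom_eval₂, ha', Polynomial.eval₂_at_zero, map_zero] at h3
      exact h3
    let c : MvPolynomial t k := ht.1.aevalEquiv.symm (q.coeff 0)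
    have hc : c ≠ 0 := by
      intro h0
      apply hq0
      have h5 := congrArg ht.1.aevalEquiv h0
      rw [AlgEquiv.apply_symm_apply, map_zero] at h5
      exact h5
    apply hc
    apply hGt
    rw [map_zero, ← h2]
    have h6 : i (q.coeff 0) = MvPolynomial.aeval (fun a : t => (⟨a, htA a a.2⟩ : A)) c := by
      apply Subtype.ext
      have h7 : ((i (q.coeff 0) : A) : K) = MvPolynomial.aeval ((↑) : t → K) c := by
        have h8 := ht.1.algebraMap_aevalEquiv c
        rw [AlgEquiv.apply_symm_apply] at h8
        exact h8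
      rw [h7]
      have h9 := MvPolynomial.aeval_algebraMap_apply K (fun a : t => (⟨a, htA a a.2⟩ : A)) c
      exact h9
    rw [h6, ← AlgHom.comp_apply]
    congr 1
    apply MvPolynomial.algHom_ext
    intro a
    simp
  exact ⟨IsFractionRing.liftAlgHom hGinj⟩

end Pool.Agent.LibHP
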