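import Pool.Agent.LibHP.S4
import Pool.Agent.LibHP3.U6

set_option autoImplicit false
open AlgebraicGeometry CategoryTheory

namespace Pool.Agent.LibHP

/-- Unirationality from density of the rational points and an embedding with independent
coordinates. -/
theorem exists_unirational_of_independent (k : Type) [Field k] [CharZero k] {X : Scheme}
    (f : X ⟶ Spec (CommRingCat.of k)) [IsIntegral X] [Smooth f] [IsSeparated f] [QuasiCompact f]
    (hdense : Dense {x : X | ∃ s : Spec (CommRingCat.of k) ⟶ X, s ≫ f = 𝟙 _ ∧
      x ∈ Set.range s.base}) (σ : Type) [Fintype σ]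
    (h : letI : Algebra k X.functionField := (toStalk f (genericPoint X)).toAlgebra
      ∃ (x : σ → X.functionField) (r : ℕ) (F : X.functionField →+* RF X.functionField r),
        IsTranscendenceBasis k x ∧
        (∀ c : k, F (algebraMap k X.functionField c) =
          algebraMap X.functionField (RF X.functionField r) (algebraMap k X.functionField c)) ∧
        AlgebraicIndependent X.functionField (fun u => F (x u))) :
    ∃ (n0 : ℕ) (F0 : X.functionField →+* RF k n0),
      ∀ c : k, F0 (toStalk f (genericPoint X) c) = algebraMap k (RF k n0) c := by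
  obtain ⟨U, hU, b0, hUne, -, -⟩ := exists_isUnit_germ_eq X 1 one_ne_zero
  have hgen : genericPoint X ∈ U :=
    ((genericPoint_spec X).mem_open_set_iff U.isOpen).mpr (by simpa using hUne)
  let algK : Algebra k X.functionField := (toStalk f (genericPoint X)).toAlgebra
  let algU : Algebra k Γ(X, U) := (kapU f U).toAlgebra
  have tower : IsScalarTower k Γ(X, U) X.functionField :=
    IsScalarTower.of_algebraMap_eq (fun c => (germ_kapU f U (genericPoint X) hgen c).symm)
  have hfrac : IsFractionRing Γ(X, U) X.functionField :=
    functionField_isFractionRing_of_isAffineOpen X U hU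
  let ι : Γ(X, U) →ₐ[k] X.functionField := IsScalarTower.toAlgHom k _ _
  have hinj : Function.Injective ι := Scheme.germToFunctionField_injective X U
  let e : Γ(X, U) ≃ₐ[k] ι.range := AlgEquiv.ofInjective ι hinj
  have hft : Algebra.FiniteType k Γ(X, U) := kapU_finiteType f U hU
  have hA : ι.range.FG := by
    rw [← Algebra.map_top]
    exact hft.out.map ι
  have hfracA : IsFractionRing ι.range X.functionField := by
    refine IsFractionRing.of_ringEquiv_left e.symm.toRingEquiv (fun x => ?_)
    have h1 : ι (e.symm x) = x := by
      have := congrArg Subtype.val (e.apply_symm_apply x)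
      exact this
    exact h1.symm
  obtain ⟨x, r, F, hx, hFk, hFind⟩ := h
  obtain ⟨g, hg0, hg⟩ := exists_hom_of_independent k X.functionField ι.range hA hfracA r F hFk
    σ x hx hFind
  obtain ⟨φ, hφk, hφg⟩ := exists_pt f hdense U (e.symm g) (by
    intro h
    apply hg0
    rw [← e.apply_symm_apply g, h, map_zero])
  let φ' : Γ(X, U) →ₐ[k] k := { φ with commutes' := hφk }
  obtain ⟨G⟩ := hg (φ'.comp e.symm.toAlgHom) hφg
  exact ⟨r, G.toRingHom, fun c => G.commutes c⟩

end Pool.Agent.LibHP
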