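import Pool.Agent.LibHP3.G3
import Pool.Agent.LibHP3.U5
import Pool.Agent.LibHP3.U7
import Pool.Agent.LibHP3.M1

set_option autoImplicit false
open AlgebraicGeometry CategoryTheory

namespace Pool.Agent.LibHP

/-- The main theorem on double covers with one quadratic group of variables, the other variables
being of degree at most four. -/
theorem main_mixed (k : Type) [Field k] [NumberField k] (σ : Type) [Fintype σ] [DecidableEq σ]
    (F : MvPolynomial σ k) (I : Finset σ) (hI : IsQuadOn F I)
    (hdeg : ∀ v, v ∉ I → F.degreeOf v ≤ 4)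
    (X : Scheme) [IsIntegral X] (f : X ⟶ Spec (CommRingCat.of k))
    (hs : Smooth f) (hsep : IsSeparated f) (hqc : QuasiCompact f) (hX : IsDoubleCoverModel f F)
    (hdense : Dense {x : X | ∃ s : Spec (CommRingCat.of k) ⟶ X, s ≫ f = 𝟙 _ ∧
      x ∈ Set.range s.base}) : HilbertProp f := by
  let algK : Algebra k X.functionField := (toStalk f (genericPoint X)).toAlgebra
  obtain ⟨x, w, h1, h2, h3⟩ := hX
  have hx : IsDoublePt F x w := by
    refine ⟨?_, h2, h3⟩
    rw [algebraicIndependent_iff]
    exact h1
  obtain ⟨n0, F0, hF0⟩ := exists_unirational_of_independent k f hdense σ (by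
    obtain ⟨r, F', h4, h5⟩ := exists_independent_embedding k σ F I hI hdeg X.functionField x w hx
    exact ⟨x, r, F', isTranscendenceBasis_all k σ F X.functionField x w hx, h4, h5⟩)
  let F1 : X.functionField →ₐ[k] RF k n0 := { toRingHom := F0, commutes' := hF0 }
  obtain ⟨L, _, hA, n, j, hfd, hcl, hjk, hlift, hmin⟩ :=
    exists_liftable_min k X.functionField n0 F1
  have hsurj : Function.Surjective (algebraMap X.functionField L) :=
    surjective_of_mixed k σ F I hI hdeg X.functionField x w hx L n j hcl hjk hlift hmin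
  refine hilbertProp_of_embedding k f n (j.comp (algebraMap X.functionField L)) hjk ?_
  rintro e ⟨P, hP, hPe⟩
  obtain ⟨l, rfl⟩ := hcl e ⟨P.map (algebraMap X.functionField L),
    (Polynomial.map_ne_zero_iff (algebraMap X.functionField L).injective).mpr hP, by
    rw [Polynomial.eval₂_map]; exact hPe⟩
  obtain ⟨a, rfl⟩ := hsurj l
  exact ⟨a, rfl⟩

end Pool.Agent.LibHP
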