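import Pool.Agent.LibHP2.W0

set_option autoImplicit false

namespace Pool.Agent.LibHP

/-- `F` is of degree at most two in the variables of `I`, nondegenerate as a quadratic polynomial in
these variables, and has no nonconstant factor free of these variables. -/
structure IsQuadOn {k σ : Type} [Field k] [Fintype σ] [DecidableEq σ] (F : MvPolynomial σ k)
    (I : Finset σ) : Prop where
  ne : I.Nonempty
  deg : ∀ s ∈ F.support, ∑ v with decide (v ∈ I) = true, s v ≤ 2
  det : (gramGroup (fun v => decide (v ∈ I)) F true).det ≠ 0
  nofac : NoFactorFreeOf (fun v => decide (v ∈ I)) F true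

end Pool.Agent.LibHP
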